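import Pool.Agent.H809.Checks

/-!
Verifications by computation with words, second part.
-/

namespace Pool.Agent.H809

set_option maxRecDepth 1000000

theorem chkR_0 : chkR 0 = true := by decide +kernel
theorem chkR_1 : chkR 1 = true := by decide +kernel
theorem chkR_2 : chkR 2 = true := by decide +kernel
theorem chkR_3 : chkR 3 = true := by decide +kernel
theorem chkR_4 : chkR 4 = true := by decide +kernel
theorem chkR_5 : chkR 5 = true := by decide +kernel
theorem chkR_6 : chkR 6 = true := by decide +kernel
theorem chkR_7 : chkR 7 = true := by decide +kernel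

theorem chkInv_0 : chkInv 0 1 = true := by decide +kernel
theorem chkInv_1 : chkInv 1 0 = true := by decide +kernel
theorem chkInv_2 : chkInv 2 3 = true := by decide +kernel
theorem chkInv_3 : chkInv 3 2 = true := by decide +kernel
theorem chkInv_4 : chkInv 4 5 = true := by decide +kernel
theorem chkInv_5 : chkInv 5 4 = true := by decide +kernel
theorem chkInv_6 : chkInv 6 7 = true := by decide +kernel
theorem chkInv_7 : chkInv 7 6 = true := by decide +kernel

theorem chkS1_true : chkS1 = true := by decide +kernel
theorem chkK_true : chkK = true := by decide +kernel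
theorem chkS2_4 : chkS2 4 = true := by decide +kernel
theorem chkS2_5 : chkS2 5 = true := by decide +kernel
theorem chkS2_6 : chkS2 6 = true := by decide +kernel
theorem chkS2_7 : chkS2 7 = true := by decide +kernel
theorem chkS2_8 : chkS2 8 = true := by decide +kernel
theorem chkS2_9 : chkS2 9 = true := by decide +kernel
theorem chkS2_10 : chkS2 10 = true := by decide +kernel
theorem chkS2_11 : chkS2 11 = true := by decide +kernel
theorem chkS2_12 : chkS2 12 = true := by decide +kernel
theorem chkS2_13 : chkS2 13 = true := by decide +kernel
theorem chkS2_14 : chkS2 14 = true := by decide +kernel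
theorem chkS2_15 : chkS2 15 = true := by decide +kernel
theorem chkS2_16 : chkS2 16 = true := by decide +kernel
theorem chkS2_17 : chkS2 17 = true := by decide +kernel
theorem chkS2_18 : chkS2 18 = true := by decide +kernel
theorem chkS2_19 : chkS2 19 = true := by decide +kernel
theorem chkS2_20 : chkS2 20 = true := by decide +kernel
theorem chkS2_21 : chkS2 21 = true := by decide +kernel
theorem chkS2_22 : chkS2 22 = true := by decide +kernel
theorem chkS2_23 : chkS2 23 = true := by decide +kernel
theorem chkS2_24 : chkS2 24 = true := by decide +kernel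
theorem chkS2_25 : chkS2 25 = true := by decide +kernel

theorem chkR_true {l : ℕ} (h : l < 8) : chkR l = true := by
  interval_cases l
  · exact chkR_0
  · exact chkR_1
  · exact chkR_2
  · exact chkR_3
  · exact chkR_4
  · exact chkR_5
  · exact chkR_6
  · exact chkR_7

theorem chkInv_true {j : ℕ} (h : j < 4) :
    chkInv (2 * j) (2 * j + 1) = true ∧ chkInv (2 * j + 1) (2 * j) = true := by
  interval_cases j
  · exact ⟨chkInv_0, chkInv_1⟩
  · exact ⟨chkInv_2, chkInv_3⟩
  · exact ⟨chkInv_4, chkInv_5⟩
  · exact ⟨chkInv_6, chkInv_7⟩

theorem chkS2_true {i : ℕ} (h : 4 ≤ i) (h' : i < 26) : chkS2 i = true := by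
  interval_cases i
  · exact chkS2_4
  · exact chkS2_5
  · exact chkS2_6
  · exact chkS2_7
  · exact chkS2_8
  · exact chkS2_9
  · exact chkS2_10
  · exact chkS2_11
  · exact chkS2_12
  · exact chkS2_13
  · exact chkS2_14
  · exact chkS2_15
  · exact chkS2_16
  · exact chkS2_17
  · exact chkS2_18
  · exact chkS2_19
  · exact chkS2_20
  · exact chkS2_21
  · exact chkS2_22
  · exact chkS2_23
  · exact chkS2_24
  · exact chkS2_25

end Pool.Agent.H809
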