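import Pool.Agent.H809.RepX
import Pool.Agent.H809.Checks2

/-!
The automorphisms of the surface group of genus fifteen.
-/

namespace Pool.Agent.H809

section

variable {G : Type*} [Group G] {g d : ℕ → G}

theorem chkInv_spec {l m i : ℕ} (h : chkInv l m = true) (hi : i < 32) :
    sub (TX l) (look (TX m) i) = [2 * i] := by
  unfold chkInv at h
  rw [List.all_eq_true] at h
  exact eqW_eq (h i (List.mem_range.2 hi))

theorem RepX.relInv (h : RepX g d) {j : ℕ} (hj : j < 4) (i : ℕ) :
    (d j)⁻¹ * g i * d j = ev g (look (TX (2 * j + 1)) i) := by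
  rcases Nat.lt_or_ge i 32 with hi | hi
  · have h4 := conj_sub (h.relAll hj) (look (TX (2 * j + 1)) i)
    rw [chkInv_spec (chkInv_true hj).1 hi, ev_single] at h4
    rw [← h4]
    group
  · rw [look_TX_big _ hi, ev_single, h.big i hi]
    simp

theorem RepX.acts (h : RepX g d) : Acts TX g d := by
  intro l i
  rcases Nat.lt_or_ge l 8 with hl | hl
  · rcases Nat.even_or_odd' l with ⟨j, hj | hj⟩
    · rw [hj, ltr_even]
      exact h.relAll (by omega) i
    · rw [hj, ltr_odd, inv_inv]
      exact h.relInv (by omega) i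
  · have h1 : d (l / 2) = 1 := h.dbig _ (by omega)
    have h2 : ltr d l = 1 := by
      unfold ltr
      rw [h1]
      simp
    have h3 : TX l = [] := List.getD_eq_default _ _ hl
    rw [h2, h3, look_ge (n := 0) (le_refl _) (by omega), ev_single]
    simp

/-- the relation at the second boundary component -/
theorem RepX.d2_rel (h : RepX g d) :
    ∃ k : G, ev (d2 g d) wMu = k * ev d wMu ∧ k * (g 30 * g 30) = (g 31)⁻¹ * (g 31)⁻¹ := by
  refine ⟨ev g (subP TX tK wMu).1, ?_, ?_⟩
  · have hc := chkK_true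
    unfold chkK at hc
    rw [Bool.and_eq_true] at hc
    have h1 : ev (d2 g d) wMu = evP g d (subP TX tK wMu) := by
      rw [evP_subP h.acts]
      congr 1
      funext j
      unfold d2 tK evP
      simp only
      rw [ev_single]
    rw [h1]
    unfold evP
    rw [eqW_eq hc.2]
  · have hc := chkK_true
    unfold chkK at hc
    rw [Bool.and_eq_true] at hc
    have h1 := ev_eq_of_red g hc.1
    rw [ev_append, ev_append] at h1
    have h2 : ev g [60, 60] = g 30 * g 30 := by
      rw [show (60 : ℕ) = 2 * 30 from rfl, ev_cons, ev_single, ltr_even]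
    have h3 : ev g wM2 = (g 31)⁻¹ := eq_inv_of_mul_eq_one_right h.m2
    rw [h2, h3] at h1
    exact h1

theorem RepXs.prep1 (h : RepXs g d) : PRep (A1 g) d := by
  refine ⟨h.toRepX.prep1, ?_⟩
  rw [h.surf]
  change _ = ((g 30)⁻¹)⁻¹ * ((g 30)⁻¹)⁻¹
  rw [inv_inv]

theorem RepXs.prep2 (h : RepXs g d) : PRep (A2 g) (d2 g d) := by
  refine ⟨h.toRepX.prep2, ?_⟩
  obtain ⟨k, h1, h2⟩ := h.toRepX.d2_rel
  rw [h1, h.surf, h2]
  rfl

theorem RepXs.map {H : Type*} [Group H] (h : RepXs g d) (φ : G →* H) :
    RepXs (fun i => φ (g i)) (fun j => φ (d j)) := by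
  refine ⟨h.toRepX.map φ, ?_⟩
  rw [← map_ev, h.surf, map_mul]

end

theorem rels_TX {l : ℕ} (hl : l < 8) : Rels (fun i => ev gX (look (TX l) i)) := by
  have h := chkR_true hl
  unfold chkR at h
  rw [Bool.and_eq_true, Bool.and_eq_true] at h
  obtain ⟨h1, h3, h2⟩ := h
  refine ⟨fun i hi => ?_, ?_, ?_, ?_⟩
  · rw [look_TX_big _ hi, ev_single, gX_rels.big i hi]
  · rw [← ev_sub, ← gX_rels.ev_M, eqW_eq h1, ev_nil]
  · rw [← ev_sub, eqW_eq h2, ev_red, ev_append, ev_append, ev_invW, gX_rels.r2]
    group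
  · rw [← ev_sub, ← gX_rels.ev_M, eqW_eq h3, ev_nil]

/-- the endomorphisms given by the tables -/
noncomputable def Dh (l : ℕ) : K →* K :=
  if h : l < 8 then (exists_homX (rels_TX h)).choose else MonoidHom.id K

theorem Dh_gX {l : ℕ} (hl : l < 8) (i : ℕ) : Dh l (gX i) = ev gX (look (TX l) i) := by
  unfold Dh
  rw [dif_pos hl]
  exact (exists_homX (rels_TX hl)).choose_spec i

theorem Dh_comp {l m : ℕ} (hl : l < 8) (hm : m < 8) (h : chkInv l m = true) :
    (Dh l).comp (Dh m) = MonoidHom.id K := by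
  apply homX_ext
  intro i hi
  rw [MonoidHom.comp_apply, Dh_gX hm, map_ev, MonoidHom.id_apply]
  have h1 : (fun i => Dh l (gX i)) = fun i => ev gX (look (TX l) i) := by
    funext i
    exact Dh_gX hl i
  rw [h1, ← ev_sub, chkInv_spec h (by omega), ev_single]

/-- the automorphisms given by the tables -/
noncomputable def dl (j : ℕ) : MulAut K :=
  if h : j < 4 then
    MonoidHom.toMulEquiv (Dh (2 * j)) (Dh (2 * j + 1))
      (Dh_comp (by omega) (by omega) (chkInv_true h).2)
      (Dh_comp (by omega) (by omega) (chkInv_true h).1)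
  else 1

theorem dl_gX {j : ℕ} (hj : j < 4) (i : ℕ) : dl j (gX i) = ev gX (look (TX (2 * j)) i) := by
  unfold dl
  rw [dif_pos hj]
  exact Dh_gX (by omega) i

theorem dl_big {j : ℕ} (hj : 4 ≤ j) : dl j = 1 := by
  unfold dl
  rw [dif_neg (by omega)]

/-- the holomorph of `K` -/
abbrev Hol : Type := K ⋊[MonoidHom.id (MulAut K)] (MulAut K)

theorem hol_conj (φ : MulAut K) (x : K) :
    (SemidirectProduct.inr φ : Hol) * SemidirectProduct.inl x * (SemidirectProduct.inr φ)⁻¹ =
      SemidirectProduct.inl (φ x) := by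
  rw [← map_inv]
  exact (SemidirectProduct.inl_aut (φ := MonoidHom.id (MulAut K)) φ x).symm

theorem hol_rep : RepX (fun i => (SemidirectProduct.inl (gX i) : Hol))
    (fun j => SemidirectProduct.inr (dl j)) := by
  refine ⟨⟨fun i hi => ?_, ?_, ?_, ?_⟩, fun j hj => ?_, fun j hj i _ => ?_⟩
  · rw [gX_rels.big i hi, map_one]
  · rw [← map_ev, gX_rels.r1, map_one]
  · rw [← map_ev, gX_rels.r2, map_one]
  · rw [← map_ev, gX_rels.r3, map_one]
  · rw [dl_big hj, map_one]
  · rw [hol_conj, dl_gX hj, map_ev]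

theorem ev_inl (w : List ℕ) :
    ev (fun i => (SemidirectProduct.inl (gX i) : Hol)) w = SemidirectProduct.inl (ev gX w) :=
  (map_ev gX _ w).symm

theorem ev_inr (w : List ℕ) :
    ev (fun j => (SemidirectProduct.inr (dl j) : Hol)) w = SemidirectProduct.inr (ev dl w) :=
  (map_ev dl _ w).symm

/-- action of words in the automorphisms on the letters -/
theorem dl_word (w f : List ℕ) : (ev dl w) (ev gX f) = ev gX (act TX w f) := by
  have h1 := ev_act hol_rep.acts w f
  rw [ev_inl, ev_inl, ev_inr, hol_conj] at h1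
  exact (SemidirectProduct.inl_injective h1).symm

theorem ev_60 {G : Type*} [Group G] (g : ℕ → G) (i : ℕ) :
    ev g [60, 60, 2 * i, 61, 61] = (g 30 * g 30) * g i * (g 30 * g 30)⁻¹ := by
  rw [ev_cons, ev_cons, ev_cons, ev_cons, ev_cons, ev_nil, show (60 : ℕ) = 2 * 30 from rfl,
    show (61 : ℕ) = 2 * 30 + 1 from rfl, ltr_even, ltr_even, ltr_odd]
  group

theorem dl_surf_gX {i : ℕ} (hi : i < 30) :
    (ev dl wMu) (gX i) = (gX 30 * gX 30) * gX i * (gX 30 * gX 30)⁻¹ := by
  rcases Nat.lt_or_ge i 4 with h4 | h4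
  · have h1 := chkS1_true
    unfold chkS1 at h1
    rw [List.all_eq_true] at h1
    have h2 := eqW_eq (h1 i (List.mem_range.2 h4))
    rw [← ev_single gX i, dl_word, ← gX_rels.ev_M, h2, gX_rels.ev_M, ev_60, ev_single]
  rcases Nat.lt_or_ge i 26 with h26 | h26
  · have h1 := chkS2_true h4 h26
    unfold chkS2 at h1
    rw [← ev_single gX i, dl_word, eqW_eq h1, ev_60, ev_single]
  · -- the second copy
    obtain ⟨i', rfl⟩ := Nat.exists_eq_add_of_le h26
    have hi' : i' < 4 := by omega
    have hp := hol_rep.prep2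
    obtain ⟨k, hk1, hk2⟩ := hol_rep.d2_rel
    have h1 := chkS3_true
    unfold chkS3 at h1
    rw [List.all_eq_true] at h1
    have h2 := eqW_eq (h1 i' (List.mem_range.2 (by omega)))
    have h3 := ev_act hp.acts wMu [2 * i']
    rw [← hp.ev_ex, h2, hp.ev_ex, hk1] at h3
    have h5 : ev (A2 fun i => (SemidirectProduct.inl (gX i) : Hol)) [2 * i'] =
        SemidirectProduct.inl (gX (26 + i')) := by
      rw [ev_single]
      unfold A2
      rw [if_pos hi']
    have h6 : ev (A2 fun i => (SemidirectProduct.inl (gX i) : Hol)) [9, 9, 2 * i', 8, 8] =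
        (SemidirectProduct.inl (gX 31))⁻¹ * (SemidirectProduct.inl (gX 31))⁻¹ *
        SemidirectProduct.inl (gX (26 + i')) * ((SemidirectProduct.inl (gX 31))⁻¹ *
          (SemidirectProduct.inl (gX 31))⁻¹)⁻¹ := by
      have e1 : ev (A2 fun i => (SemidirectProduct.inl (gX i) : Hol)) [2 * i'] =
        ltr (A2 fun i => (SemidirectProduct.inl (gX i) : Hol)) (2 * i') := by
        rw [ev_cons, ev_nil, mul_one]
      rw [ev_cons, ev_cons, ev_cons, ev_cons, ev_cons, ev_nil, ← e1, h5,
        show (9 : ℕ) = 2 * 4 + 1 from rfl, show (8 : ℕ) = 2 * 4 from rfl, ltr_even, ltr_odd]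
      have e4 : A2 (fun i => (SemidirectProduct.inl (gX i) : Hol)) 4 =
        SemidirectProduct.inl (gX 31) := rfl
      rw [e4]
      simp only [mul_inv_rev, inv_inv, mul_one, mul_assoc]
    rw [h5, h6, ← hk2, ev_inr] at h3
    apply SemidirectProduct.inl_injective (φ := MonoidHom.id (MulAut K))
    rw [← hol_conj]
    simp only [map_mul, map_inv]
    have h7 : (SemidirectProduct.inr (ev dl wMu) : Hol) * SemidirectProduct.inl (gX (26 + i')) *
        (SemidirectProduct.inr (ev dl wMu))⁻¹ =
        k⁻¹ * ((k * (SemidirectProduct.inr (ev dl wMu) : Hol)) *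
          SemidirectProduct.inl (gX (26 + i')) *
          (k * (SemidirectProduct.inr (ev dl wMu) : Hol))⁻¹) * k := by group
    rw [h7, ← h3]
    group

theorem dl_surf : ev dl wMu = MulAut.conj (gX 30) * MulAut.conj (gX 30) := by
  have h1 : (ev dl wMu).toMonoidHom =
      (MulAut.conj (gX 30) * MulAut.conj (gX 30)).toMonoidHom := by
    apply homX_ext
    intro i hi
    change (ev dl wMu) (gX i) = gX 30 * (gX 30 * gX i * (gX 30)⁻¹) * (gX 30)⁻¹
    rw [dl_surf_gX hi]
    group
  ext x
  exact DFunLike.congr_fun h1 x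

/-- the homomorphism from the holomorph to the automorphism group -/
noncomputable def holAut : Hol →* MulAut K :=
  SemidirectProduct.lift (MulAut.conj : K →* MulAut K) (MonoidHom.id (MulAut K)) (by
    intro φ
    ext x y
    simp)

theorem aut_rep : RepXs (fun i => (MulAut.conj (gX i) : MulAut K)) dl := by
  have h := hol_rep.map holAut
  have h1 : (fun i => holAut (SemidirectProduct.inl (gX i))) =
      fun i => (MulAut.conj (gX i) : MulAut K) := by
    funext i
    unfold holAut
    rw [SemidirectProduct.lift_inl]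
  have h2 : (fun j => holAut (SemidirectProduct.inr (dl j))) = dl := by
    funext j
    unfold holAut
    rw [SemidirectProduct.lift_inr]
    rfl
  rw [h1, h2] at h
  exact ⟨h, dl_surf⟩

/-- the automorphisms `q` -/
noncomputable def qA (j : ℕ) : MulAut K :=
  qP (A1 fun i => (MulAut.conj (gX i) : MulAut K)) dl j

theorem qA_rel : ev qA wMu = 1 := aut_rep.prep1.section_rel

end Pool.Agent.H809
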