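import Pool.Agent.H809.CohQ

/-!
Inertia of the cup product form for an integral representation given by matrices.
-/

namespace Pool.Agent.H809

open Matrix

/-- real matrix of an integral matrix -/
def cR {a b : ℕ} (M : Matrix (Fin a) (Fin b) ℤ) : Matrix (Fin a) (Fin b) ℝ :=
  M.map (Int.castRingHom ℝ)

theorem cR_mul {a b c : ℕ} (M : Matrix (Fin a) (Fin b) ℤ) (N : Matrix (Fin b) (Fin c) ℤ) :
    cR (M * N) = cR M * cR N := Matrix.map_mul

theorem cR_add {a b : ℕ} (M N : Matrix (Fin a) (Fin b) ℤ) : cR (M + N) = cR M + cR N :=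
  Matrix.map_add _ (map_add _) M N

theorem cR_sub {a b : ℕ} (M N : Matrix (Fin a) (Fin b) ℤ) : cR (M - N) = cR M - cR N :=
  Matrix.map_sub _ (map_sub _) M N

theorem cR_neg {a b : ℕ} (M : Matrix (Fin a) (Fin b) ℤ) : cR (-M) = - cR M := by
  ext i j
  simp [cR]

theorem cR_zero {a b : ℕ} : cR (0 : Matrix (Fin a) (Fin b) ℤ) = 0 := by
  ext i j
  simp [cR]

theorem cR_one {a : ℕ} : cR (1 : Matrix (Fin a) (Fin a) ℤ) = 1 :=
  Matrix.map_one _ (map_zero _) (map_one _)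

theorem cR_transpose {a b : ℕ} (M : Matrix (Fin a) (Fin b) ℤ) : cR Mᵀ = (cR M)ᵀ := rfl

theorem cR_smul {a b : ℕ} (δ : ℤ) (M : Matrix (Fin a) (Fin b) ℤ) :
    cR (δ • M) = (δ : ℝ) • cR M := by
  ext i j
  simp [cR]

/-- the representation on column vectors -/
noncomputable def repOf {n : ℕ} (Mh : Q →* (Matrix (Fin n) (Fin n) ℤ)ˣ) :
    Q →* Module.End ℝ (Fin n → ℝ) where
  toFun q := Matrix.toLin' (cR (Mh q : Matrix (Fin n) (Fin n) ℤ))
  map_one' := by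
    rw [map_one, Units.val_one, cR_one, Matrix.toLin'_one]
    rfl
  map_mul' a b := by
    rw [map_mul, Units.val_mul, cR_mul, Matrix.toLin'_mul]
    rfl

theorem repOf_apply {n : ℕ} (Mh : Q →* (Matrix (Fin n) (Fin n) ℤ)ˣ) (q : Q) (v : Fin n → ℝ) :
    repOf Mh q v = cR (Mh q : Matrix (Fin n) (Fin n) ℤ) *ᵥ v := rfl

/-- matrices for the eight letters of a representation -/
structure IsRep {n : ℕ} (A : ℕ → Matrix (Fin n) (Fin n) ℤ) : Prop where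
  inv1 : ∀ j, j < 4 → A (2 * j) * A (2 * j + 1) = 1
  inv2 : ∀ j, j < 4 → A (2 * j + 1) * A (2 * j) = 1
  rel : (wMu.map A).prod = 1

theorem IsRep.exists_hom {n : ℕ} {A : ℕ → Matrix (Fin n) (Fin n) ℤ} (h : IsRep A) :
    ∃ Mh : Q →* (Matrix (Fin n) (Fin n) ℤ)ˣ,
      ∀ l, l < 8 → (Mh (ltr qS l) : Matrix (Fin n) (Fin n) ℤ) = A l := by
  let u : ℕ → (Matrix (Fin n) (Fin n) ℤ)ˣ := fun j =>
    if hj : j < 4 then ⟨A (2 * j), A (2 * j + 1), h.inv1 j hj, h.inv2 j hj⟩ else 1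
  have hl : ∀ l, l < 8 → ((ltr u l : (Matrix (Fin n) (Fin n) ℤ)ˣ) :
      Matrix (Fin n) (Fin n) ℤ) = A l := by
    intro l hl
    unfold ltr
    split_ifs with h2
    · simp only [u]
      rw [dif_pos (by omega)]
      change A (2 * (l / 2)) = A l
      congr 1
      omega
    · simp only [u]
      rw [dif_pos (by omega)]
      change A (2 * (l / 2) + 1) = A l
      congr 1
      omega
  have hev : ∀ w : List ℕ, (∀ x ∈ w, x < 8) →
      ((ev u w : (Matrix (Fin n) (Fin n) ℤ)ˣ) : Matrix (Fin n) (Fin n) ℤ) = (w.map A).prod := by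
    intro w
    induction w with
    | nil => intro _; rfl
    | cons x w ih =>
      intro hw
      rw [ev_cons, Units.val_mul, hl x (hw x List.mem_cons_self),
        ih fun y hy => hw y (List.mem_cons_of_mem _ hy), List.map_cons, List.prod_cons]
  have hrel : ev u wMu = 1 := by
    apply Units.ext
    rw [hev wMu (by decide), h.rel]
    rfl
  obtain ⟨φ, hφ⟩ := exists_homQ (q := u) (fun j hj => by
    simp only [u]
    rw [dif_neg (by omega)]) hrel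
  refine ⟨φ, fun l hl8 => ?_⟩
  rw [map_ltr, ← hl l hl8]
  congr 2
  funext i
  exact hφ i

section

variable {n m : ℕ}

/-- values on letters -/
def FmZ (A : ℕ → Matrix (Fin n) (Fin n) ℤ) (X : ℕ → Matrix (Fin n) (Fin m) ℤ) (l : ℕ) :
    Matrix (Fin n) (Fin m) ℤ :=
  if l % 2 = 0 then X (l / 2) else -(A l * X (l / 2))

/-- values on words -/
def wvZ (A : ℕ → Matrix (Fin n) (Fin n) ℤ) (X : ℕ → Matrix (Fin n) (Fin m) ℤ) :
    List ℕ → Matrix (Fin n) (Fin m) ℤ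
  | [] => 0
  | l :: w => FmZ A X l + A l * wvZ A X w

/-- sum over suffixes -/
def sufZ (A : ℕ → Matrix (Fin n) (Fin n) ℤ) (W : Matrix (Fin n) (Fin n) ℤ)
    (X : ℕ → Matrix (Fin n) (Fin m) ℤ) : List ℕ → Matrix (Fin m) (Fin m) ℤ
  | [] => 0
  | l :: w => (wvZ A X (l :: w))ᵀ * W * FmZ A X l + sufZ A W X w

/-- the Gram matrix of the form -/
def gramZ (A : ℕ → Matrix (Fin n) (Fin n) ℤ) (W : Matrix (Fin n) (Fin n) ℤ)
    (X : ℕ → Matrix (Fin n) (Fin m) ℤ) : Matrix (Fin m) (Fin m) ℤ :=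
  (FmZ A X 0)ᵀ * W * FmZ A X 0 + (FmZ A X 3)ᵀ * W * FmZ A X 3 +
    (FmZ A X 4)ᵀ * W * FmZ A X 4 + (FmZ A X 7)ᵀ * W * FmZ A X 7 - sufZ A W X wMu

/-- the bilinear form of a matrix -/
noncomputable def omW (W : Matrix (Fin n) (Fin n) ℤ) :
    (Fin n → ℝ) →ₗ[ℝ] (Fin n → ℝ) →ₗ[ℝ] ℝ :=
  Matrix.toLinearMap₂' ℝ (cR W)

theorem omW_apply (W : Matrix (Fin n) (Fin n) ℤ) (u v : Fin n → ℝ) :
    omW W u v = u ⬝ᵥ cR W *ᵥ v := Matrix.toLinearMap₂'_apply' _ _ _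

theorem omW_mulVec (W : Matrix (Fin n) (Fin n) ℤ) {a b : ℕ} (S : Matrix (Fin n) (Fin a) ℤ)
    (T : Matrix (Fin n) (Fin b) ℤ) (c : Fin a → ℝ) (c' : Fin b → ℝ) :
    omW W (cR S *ᵥ c) (cR T *ᵥ c') = c ⬝ᵥ cR (Sᵀ * W * T) *ᵥ c' := by
  rw [omW_apply, cR_mul, cR_mul, cR_transpose, Matrix.mulVec_mulVec, Matrix.dotProduct_mulVec,
    Matrix.vecMul_mulVec, ← Matrix.dotProduct_mulVec, Matrix.mul_assoc]

variable {A : ℕ → Matrix (Fin n) (Fin n) ℤ} {X : ℕ → Matrix (Fin n) (Fin m) ℤ}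
  {σ : Q →* Module.End ℝ (Fin n → ℝ)}

theorem Fl_mulVec (hσ : ∀ l, l < 8 → ∀ v, σ (ltr qS l) v = cR (A l) *ᵥ v) (c : Fin m → ℝ)
    {l : ℕ} (hl : l < 8) :
    Fl σ (fun j => cR (X j) *ᵥ c) l = cR (FmZ A X l) *ᵥ c := by
  unfold Fl FmZ
  split_ifs with h
  · rfl
  · have h1 : (qS (l / 2))⁻¹ = ltr qS l := by
      unfold ltr
      rw [if_neg h]
    rw [h1, hσ l hl, cR_neg, cR_mul, Matrix.neg_mulVec, Matrix.mulVec_mulVec]

theorem wv_mulVec (hσ : ∀ l, l < 8 → ∀ v, σ (ltr qS l) v = cR (A l) *ᵥ v) (c : Fin m → ℝ)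
    {w : List ℕ} (hw : ∀ x ∈ w, x < 8) :
    wv σ (fun j => cR (X j) *ᵥ c) w = cR (wvZ A X w) *ᵥ c := by
  induction w with
  | nil =>
    unfold wv wvZ
    rw [cR_zero, Matrix.zero_mulVec]
  | cons l w ih =>
    unfold wv wvZ
    rw [Fl_mulVec hσ c (hw l List.mem_cons_self), ih fun y hy => hw y (List.mem_cons_of_mem _ hy),
      hσ l (hw l List.mem_cons_self), cR_add, cR_mul, Matrix.add_mulVec, Matrix.mulVec_mulVec]

theorem sufW_mulVec (hσ : ∀ l, l < 8 → ∀ v, σ (ltr qS l) v = cR (A l) *ᵥ v)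
    (W : Matrix (Fin n) (Fin n) ℤ) (c c' : Fin m → ℝ) {w : List ℕ} (hw : ∀ x ∈ w, x < 8) :
    sufW σ (omW W) (fun j => cR (X j) *ᵥ c) (fun j => cR (X j) *ᵥ c') w =
      c ⬝ᵥ cR (sufZ A W X w) *ᵥ c' := by
  induction w with
  | nil =>
    unfold sufW sufZ
    rw [cR_zero, Matrix.zero_mulVec, dotProduct_zero]
  | cons l w ih =>
    unfold sufW sufZ
    rw [ih fun y hy => hw y (List.mem_cons_of_mem _ hy), wv_mulVec hσ c hw,
      Fl_mulVec hσ c' (hw l List.mem_cons_self), omW_mulVec, cR_add, Matrix.add_mulVec,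
      dotProduct_add]

/-- the form in terms of the Gram matrix -/
theorem cupForm_gram (hσ : ∀ l, l < 8 → ∀ v, σ (ltr qS l) v = cR (A l) *ᵥ v)
    {W : Matrix (Fin n) (Fin n) ℤ} (hω : ∀ q u v, omW W (σ q u) (σ q v) = omW W u v)
    {f f' : Q → Fin n → ℝ} (hf : f ∈ Z1 σ) (hf' : f' ∈ Z1 σ) {c c' : Fin m → ℝ}
    (hx : ∀ j, f (qS j) = cR (X j) *ᵥ c) (hx' : ∀ j, f' (qS j) = cR (X j) *ᵥ c') :
    cupForm σ (omW W) f f' = c ⬝ᵥ cR (gramZ A W X) *ᵥ c' := by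
  rw [cupForm_eq hω hf hf' hx hx', sufW_mulVec hσ W c c' (by decide),
    Fl_mulVec hσ c (by norm_num), Fl_mulVec hσ c' (by norm_num),
    Fl_mulVec hσ c (by norm_num), Fl_mulVec hσ c' (by norm_num),
    Fl_mulVec hσ c (by norm_num), Fl_mulVec hσ c' (by norm_num),
    Fl_mulVec hσ c (by norm_num), Fl_mulVec hσ c' (by norm_num),
    omW_mulVec, omW_mulVec, omW_mulVec, omW_mulVec]
  unfold gramZ
  rw [cR_sub, cR_add, cR_add, cR_add, Matrix.sub_mulVec, Matrix.add_mulVec, Matrix.add_mulVec,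
    Matrix.add_mulVec, dotProduct_sub, dotProduct_add, dotProduct_add, dotProduct_add]

end

end Pool.Agent.H809
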