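import Pool.Agent.H809.Block

/-!
Inertia of the cup product form for an integral representation, main criterion.
-/

namespace Pool.Agent.H809

open Matrix

section

variable {n m : ℕ} {A : ℕ → Matrix (Fin n) (Fin n) ℤ} {X : ℕ → Matrix (Fin n) (Fin m) ℤ}
  {σ : Q →* Module.End ℝ (Fin n → ℝ)}

/-- values on the four generators -/
def evalGen (σ : Q →* Module.End ℝ (Fin n → ℝ)) : Z1 σ →ₗ[ℝ] (Fin 4 → Fin n → ℝ) where
  toFun f := fun j => (f : Q → Fin n → ℝ) (qS j)
  map_add' _ _ := rfl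
  map_smul' _ _ := rfl

theorem evalGen_injective : Function.Injective (evalGen σ) := by
  intro f f' h
  apply Subtype.ext
  apply Z1_ext f.2 f'.2
  intro j hj
  exact congrFun h ⟨j, hj⟩

theorem Z1_finite : Module.Finite ℝ (Z1 σ) :=
  Module.Finite.of_injective (evalGen σ) evalGen_injective

theorem Z1_finrank_le : Module.finrank ℝ (Z1 σ) ≤ 4 * n := by
  have h := LinearMap.finrank_le_finrank_of_injective (f := evalGen σ) evalGen_injective
  rw [Module.finrank_pi_fintype] at h
  simpa using h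

/-- extension by zero -/
def ext4 (x : Fin 4 → Fin n → ℝ) (j : ℕ) : Fin n → ℝ := if h : j < 4 then x ⟨j, h⟩ else 0

theorem ext4_add (x y : Fin 4 → Fin n → ℝ) (j : ℕ) : ext4 (x + y) j = ext4 x j + ext4 y j := by
  unfold ext4
  split_ifs <;> simp

theorem ext4_smul (c : ℝ) (x : Fin 4 → Fin n → ℝ) (j : ℕ) : ext4 (c • x) j = c • ext4 x j := by
  unfold ext4
  split_ifs <;> simp

theorem Fl_add (x y : ℕ → Fin n → ℝ) (l : ℕ) :
    Fl σ (fun j => x j + y j) l = Fl σ x l + Fl σ y l := by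
  unfold Fl
  split_ifs
  · rfl
  · rw [map_add, neg_add]

theorem Fl_smul (c : ℝ) (x : ℕ → Fin n → ℝ) (l : ℕ) :
    Fl σ (fun j => c • x j) l = c • Fl σ x l := by
  unfold Fl
  split_ifs
  · rfl
  · rw [map_smul, smul_neg]

theorem wv_add (x y : ℕ → Fin n → ℝ) (w : List ℕ) :
    wv σ (fun j => x j + y j) w = wv σ x w + wv σ y w := by
  induction w with
  | nil => simp [wv]
  | cons l w ih =>
    unfold wv
    rw [ih, Fl_add, map_add]
    abel

theorem wv_smul (c : ℝ) (x : ℕ → Fin n → ℝ) (w : List ℕ) :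
    wv σ (fun j => c • x j) w = c • wv σ x w := by
  induction w with
  | nil => simp [wv]
  | cons l w ih =>
    unfold wv
    rw [ih, Fl_smul, map_smul, smul_add]

/-- value on the relator -/
def relMap (σ : Q →* Module.End ℝ (Fin n → ℝ)) : (Fin 4 → Fin n → ℝ) →ₗ[ℝ] (Fin n → ℝ) where
  toFun x := wv σ (ext4 x) wMu
  map_add' x y := by
    rw [← wv_add]
    congr 1
    funext j
    exact ext4_add x y j
  map_smul' c x := by
    rw [RingHom.id_apply, ← wv_smul]
    congr 1
    funext j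
    exact ext4_smul c x j

theorem evalGen_mem_ker (f : Z1 σ) : evalGen σ f ∈ LinearMap.ker (relMap σ) := by
  rw [LinearMap.mem_ker]
  change wv σ (ext4 (evalGen σ f)) wMu = 0
  have h1 : ext4 (evalGen σ f) = fun j => (f : Q → Fin n → ℝ) (qS j) := by
    funext j
    unfold ext4
    split_ifs with h
    · rfl
    · rw [qS_big (by omega), Z1_one f.2]
  rw [h1, ← Z1_word f.2, qS_rel, Z1_one f.2]

theorem Z1_finrank_le' (hσ : ∀ l, l < 8 → ∀ v, σ (ltr qS l) v = cR (A l) *ᵥ v)
    {V : ℕ → Matrix (Fin n) (Fin n) ℤ} (hV : ∀ j, 4 ≤ j → V j = 0) {δ : ℤ} (hδ : δ ≠ 0)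
    (h : wvZ A V wMu = δ • (1 : Matrix (Fin n) (Fin n) ℤ)) :
    Module.finrank ℝ (Z1 σ) ≤ 3 * n := by
  have hsurj : LinearMap.range (relMap σ) = ⊤ := by
    rw [LinearMap.range_eq_top]
    intro y
    refine ⟨fun j => cR (V j) *ᵥ ((δ : ℝ)⁻¹ • y), ?_⟩
    change wv σ (ext4 _) wMu = y
    have h1 : ext4 (fun j : Fin 4 => cR (V j) *ᵥ ((δ : ℝ)⁻¹ • y)) =
        fun j => cR (V j) *ᵥ ((δ : ℝ)⁻¹ • y) := by
      funext j
      unfold ext4
      split_ifs with hj
      · rfl
      · rw [hV j (by omega), cR_zero, Matrix.zero_mulVec]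
    rw [h1, wv_mulVec hσ _ (by decide), h, cR_smul, cR_one, Matrix.smul_mulVec,
      Matrix.one_mulVec, smul_smul, mul_inv_cancel₀ (by exact_mod_cast hδ), one_smul]
  have h1 := LinearMap.finrank_range_add_finrank_ker (relMap σ)
  have e4 : Module.finrank ℝ (Fin 4 → Fin n → ℝ) = 4 * n := by
    rw [Module.finrank_pi_fintype]
    simp
  rw [hsurj, finrank_top, e4, Module.finrank_pi, Fintype.card_fin] at h1
  have h2 : Module.finrank ℝ (Z1 σ) ≤ Module.finrank ℝ (LinearMap.ker (relMap σ)) := by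
    refine LinearMap.finrank_le_finrank_of_injective
      (f := (evalGen σ).codRestrict _ evalGen_mem_ker) ?_
    intro f f' hff
    exact evalGen_injective (congrArg Subtype.val hff)
  omega

/-- the main criterion -/
theorem block_inertia (hm : 0 < m) (hσ : ∀ l, l < 8 → ∀ v, σ (ltr qS l) v = cR (A l) *ᵥ v)
    {W : Matrix (Fin n) (Fin n) ℤ} (hω : ∀ q u v, omW W (σ q u) (σ q v) = omW W u v)
    (hX : ∀ j, 4 ≤ j → X j = 0) (hcoc : wvZ A X wMu = 0) {g : Fin m → ℤ}
    (hG : gramZ A W X = Matrix.diagonal g) {L : ℕ → Matrix (Fin m) (Fin n) ℤ} {δ : ℤ}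
    (hδ : δ ≠ 0)
    (hL : L 0 * X 0 + L 1 * X 1 + L 2 * X 2 + L 3 * X 3 = δ • (1 : Matrix (Fin m) (Fin m) ℤ))
    (hdim : Module.finrank ℝ (Z1 σ) ≤ m) :
    HasInertia (cupForm σ (omW W)) (Z1 σ) (Fintype.card {i // 0 < g i})
      (Fintype.card {i // g i < 0}) := by
  have hex : ∀ i : Fin m, ∃ f ∈ Z1 σ, ∀ j, f (qS j) = cR (X j) *ᵥ (Pi.single i 1) := by
    intro i
    apply Z1_exists
    · intro j hj
      rw [hX j hj, cR_zero, Matrix.zero_mulVec]
    · rw [wv_mulVec hσ _ (by decide), hcoc, cR_zero, Matrix.zero_mulVec]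
  choose f hf hfx using hex
  have := Z1_finite (σ := σ)
  have hli : LinearIndependent ℝ (fun i => (⟨f i, hf i⟩ : Z1 σ)) := by
    rw [Fintype.linearIndependent_iff]
    intro c hc i
    have h1 : ∀ j, cR (X j) *ᵥ c = 0 := by
      intro j
      have h2 := congrArg (fun z : Z1 σ => (z : Q → Fin n → ℝ) (qS j)) hc
      simp only [ZeroMemClass.coe_zero, Pi.zero_apply] at h2
      rw [← h2]
      have h3 : ((∑ i, c i • (⟨f i, hf i⟩ : Z1 σ) : Z1 σ) : Q → Fin n → ℝ) (qS j) =
          ∑ i, c i • f i (qS j) := by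
        rw [Submodule.coe_sum, Finset.sum_apply]
        rfl
      rw [h3]
      have h4 : c = ∑ i, c i • (Pi.single i 1 : Fin m → ℝ) := by
        funext k
        simp [Finset.sum_apply, Pi.single_apply]
      conv_lhs => rw [h4]
      rw [← Matrix.toLin'_apply, map_sum]
      apply Finset.sum_congr rfl
      intro k _
      rw [map_smul, Matrix.toLin'_apply, hfx]
    have h5 := congrArg (fun M => cR M *ᵥ c) hL
    simp only [cR_add, cR_mul, cR_smul, cR_one, Matrix.add_mulVec, ← Matrix.mulVec_mulVec, h1,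
      Matrix.mulVec_zero, add_zero, Matrix.smul_mulVec, Matrix.one_mulVec] at h5
    have h6 := congrFun h5 i
    simp only [Pi.zero_apply, Pi.smul_apply, smul_eq_mul] at h6
    have h7 : (δ : ℝ) ≠ 0 := by exact_mod_cast hδ
    exact (mul_eq_zero.1 h6.symm).resolve_left h7
  have hcard : Fintype.card (Fin m) = Module.finrank ℝ (Z1 σ) := by
    apply le_antisymm
    · exact hli.fintype_card_le_finrank
    · rw [Fintype.card_fin]; exact hdim
  have : Nonempty (Fin m) := ⟨⟨0, hm⟩⟩
  let b := basisOfLinearIndependentOfCardEqFinrank hli hcard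
  have hb : ∀ i, (b i : Q → Fin n → ℝ) = f i := by
    intro i
    have := congrFun (coe_basisOfLinearIndependentOfCardEqFinrank hli hcard) i
    exact congrArg Subtype.val this
  have hB : ∀ i j, cupForm σ (omW W) (b i) (b j) = if i = j then (g i : ℝ) else 0 := by
    intro i j
    rw [hb, hb, cupForm_gram hσ hω (hf i) (hf j) (hfx i) (hfx j), hG]
    have h1 : cR (Matrix.diagonal g) = Matrix.diagonal (fun i => (g i : ℝ)) := by
      ext a b
      simp [cR, Matrix.diagonal_apply]
    rw [h1, single_one_dotProduct, Matrix.mulVec_single_one]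
    simp [Matrix.diagonal_apply]
  refine ⟨Fin m, inferInstance, b, ?_, ?_, ?_⟩
  · intro i j hij
    rw [hB, if_neg hij]
  · rw [Nat.card_eq_fintype_card]
    apply Fintype.card_congr
    apply Equiv.subtypeEquivRight
    intro i
    rw [hB, if_pos rfl]
    exact Int.cast_pos
  · rw [Nat.card_eq_fintype_card]
    apply Fintype.card_congr
    apply Equiv.subtypeEquivRight
    intro i
    rw [hB, if_pos rfl]
    exact Int.cast_lt_zero

end

end Pool.Agent.H809
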