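import Pool.Agent.H809.Cert2

/-!
Certificates for the blocks of dimension two.
-/

namespace Pool.Agent.H809

def bTA0 : List (List ℤ) :=
  [  [Int.ofNat 1],
  [Int.ofNat 0, Int.ofNat 1]]

def bTA1 : List (List ℤ) :=
  [  [Int.ofNat 1],
  [Int.ofNat 0, Int.ofNat 1]]

def bTA2 : List (List ℤ) :=
  [  [Int.ofNat 1],
  [Int.ofNat 0, Int.ofNat 1]]

def bTA3 : List (List ℤ) :=
  [  [Int.ofNat 1],
  [Int.ofNat 0, Int.ofNat 1]]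

def bTA4 : List (List ℤ) :=
  [  [Int.ofNat 1],
  [Int.ofNat 0, Int.ofNat 1]]

def bTA5 : List (List ℤ) :=
  [  [Int.ofNat 1],
  [Int.ofNat 0, Int.ofNat 1]]

def bTA6 : List (List ℤ) :=
  [  [Int.ofNat 1],
  [Int.ofNat 0, Int.ofNat 1]]

def bTA7 : List (List ℤ) :=
  [  [Int.ofNat 1],
  [Int.ofNat 0, Int.ofNat 1]]

def bTP0 : List (List ℤ) :=
  [  [Int.ofNat 1],
  [Int.ofNat 0, Int.ofNat 1]]

def bTP1 : List (List ℤ) :=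
  [  [Int.ofNat 1],
  [Int.ofNat 0, Int.ofNat 1]]

def bTP2 : List (List ℤ) :=
  [  [Int.ofNat 1],
  [Int.ofNat 0, Int.ofNat 1]]

def bTP3 : List (List ℤ) :=
  [  [Int.ofNat 1],
  [Int.ofNat 0, Int.ofNat 1]]

def bTP4 : List (List ℤ) :=
  [  [Int.ofNat 1],
  [Int.ofNat 0, Int.ofNat 1]]

def bTP5 : List (List ℤ) :=
  [  [Int.ofNat 1],
  [Int.ofNat 0, Int.ofNat 1]]

def bTW : List (List ℤ) :=
  [  [Int.ofNat 0, Int.ofNat 1],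
  [Int.negSucc 0]]

def bTU0 : List (List ℤ) :=
  [  [Int.ofNat 0, Int.ofNat 1],
  [Int.negSucc 0]]

def bTU1 : List (List ℤ) :=
  [  [Int.ofNat 0, Int.ofNat 1],
  [Int.negSucc 0]]

def bTU2 : List (List ℤ) :=
  [  [Int.ofNat 0, Int.ofNat 1],
  [Int.negSucc 0]]

def bTU3 : List (List ℤ) :=
  [  [Int.ofNat 0, Int.ofNat 1],
  [Int.negSucc 0]]

def bTF0 : List (List ℤ) :=
  [  [Int.negSucc 0, Int.ofNat 0, Int.ofNat 0, Int.ofNat 0, Int.ofNat 1],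
  [Int.ofNat 0, Int.ofNat 1, Int.ofNat 0, Int.ofNat 0, Int.ofNat 0, Int.negSucc 0]]

def bTF1 : List (List ℤ) :=
  [  [Int.ofNat 1, Int.ofNat 0, Int.ofNat 0, Int.ofNat 0, Int.negSucc 0],
  [Int.ofNat 0, Int.negSucc 0, Int.ofNat 0, Int.ofNat 0, Int.ofNat 0, Int.ofNat 1]]

def bTF2 : List (List ℤ) :=
  [  [Int.ofNat 0, Int.ofNat 1, Int.ofNat 0, Int.ofNat 0, Int.ofNat 0, Int.ofNat 1],
  [Int.ofNat 1, Int.ofNat 0, Int.ofNat 0, Int.ofNat 0, Int.ofNat 1]]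

def bTF3 : List (List ℤ) :=
  [  [Int.ofNat 0, Int.negSucc 0, Int.ofNat 0, Int.ofNat 0, Int.ofNat 0, Int.negSucc 0],
  [Int.negSucc 0, Int.ofNat 0, Int.ofNat 0, Int.ofNat 0, Int.negSucc 0]]

def bTF4 : List (List ℤ) :=
  [  [Int.ofNat 0, Int.ofNat 0, Int.negSucc 0, Int.ofNat 0, Int.ofNat 0, Int.ofNat 0, Int.ofNat 1],
  [Int.ofNat 0, Int.ofNat 0, Int.ofNat 0, Int.ofNat 1, Int.ofNat 0, Int.ofNat 0, Int.ofNat 0,
    Int.negSucc 0]]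

def bTF5 : List (List ℤ) :=
  [  [Int.ofNat 0, Int.ofNat 0, Int.ofNat 1, Int.ofNat 0, Int.ofNat 0, Int.ofNat 0, Int.negSucc 0],
  [Int.ofNat 0, Int.ofNat 0, Int.ofNat 0, Int.negSucc 0, Int.ofNat 0, Int.ofNat 0, Int.ofNat 0,
    Int.ofNat 1]]

def bTF6 : List (List ℤ) :=
  [  [Int.ofNat 0, Int.ofNat 0, Int.ofNat 0, Int.ofNat 1, Int.ofNat 0, Int.ofNat 0, Int.ofNat 0,
    Int.ofNat 1],
  [Int.ofNat 0, Int.ofNat 0, Int.ofNat 1, Int.ofNat 0, Int.ofNat 0, Int.ofNat 0, Int.ofNat 1]]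

def bTF7 : List (List ℤ) :=
  [  [Int.ofNat 0, Int.ofNat 0, Int.ofNat 0, Int.negSucc 0, Int.ofNat 0, Int.ofNat 0, Int.ofNat 0,
    Int.negSucc 0],
  [Int.ofNat 0, Int.ofNat 0, Int.negSucc 0, Int.ofNat 0, Int.ofNat 0, Int.ofNat 0, Int.negSucc 0]]

def bTS1 : List (List ℤ) :=
  [  [Int.ofNat 1, Int.ofNat 1, Int.ofNat 0, Int.ofNat 0, Int.negSucc 0, Int.ofNat 1],
  [Int.ofNat 1, Int.negSucc 0, Int.ofNat 0, Int.ofNat 0, Int.ofNat 1, Int.ofNat 1]]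

def bTS2 : List (List ℤ) :=
  [  [Int.ofNat 0, Int.ofNat 1, Int.ofNat 0, Int.ofNat 0, Int.ofNat 0, Int.ofNat 1],
  [Int.ofNat 1, Int.ofNat 0, Int.ofNat 0, Int.ofNat 0, Int.ofNat 1]]

def bTS3 : List (List ℤ) :=
  [  [Int.ofNat 1, Int.ofNat 0, Int.ofNat 0, Int.ofNat 0, Int.negSucc 0],
  [Int.ofNat 0, Int.negSucc 0, Int.ofNat 0, Int.ofNat 0, Int.ofNat 0, Int.ofNat 1]]

def bTS4 : List (List ℤ) :=
  [  [],
  []]

def bTS5 : List (List ℤ) :=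
  [  [Int.ofNat 0, Int.ofNat 0, Int.ofNat 1, Int.ofNat 1, Int.ofNat 0, Int.ofNat 0, Int.negSucc 0,
    Int.ofNat 1],
  [Int.ofNat 0, Int.ofNat 0, Int.ofNat 1, Int.negSucc 0, Int.ofNat 0, Int.ofNat 0, Int.ofNat 1,
    Int.ofNat 1]]

def bTS7 : List (List ℤ) :=
  [  [Int.ofNat 0, Int.ofNat 0, Int.ofNat 1, Int.ofNat 0, Int.ofNat 0, Int.ofNat 0, Int.negSucc 0],
  [Int.ofNat 0, Int.ofNat 0, Int.ofNat 0, Int.negSucc 0, Int.ofNat 0, Int.ofNat 0, Int.ofNat 0,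
    Int.ofNat 1]]

def bTY0 : List (List ℤ) :=
  [  [Int.ofNat 0, Int.ofNat 1, Int.ofNat 0, Int.ofNat 0, Int.ofNat 0, Int.negSucc 0],
  [Int.ofNat 1, Int.ofNat 0, Int.ofNat 0, Int.ofNat 0, Int.negSucc 0]]

def bTY1 : List (List ℤ) :=
  [  [Int.ofNat 0, Int.negSucc 0, Int.ofNat 0, Int.ofNat 0, Int.ofNat 0, Int.ofNat 1],
  [Int.negSucc 0, Int.ofNat 0, Int.ofNat 0, Int.ofNat 0, Int.ofNat 1]]

def bTY2 : List (List ℤ) :=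
  [  [Int.ofNat 1, Int.ofNat 0, Int.ofNat 0, Int.ofNat 0, Int.ofNat 1],
  [Int.ofNat 0, Int.negSucc 0, Int.ofNat 0, Int.ofNat 0, Int.ofNat 0, Int.negSucc 0]]

def bTY3 : List (List ℤ) :=
  [  [Int.negSucc 0, Int.ofNat 0, Int.ofNat 0, Int.ofNat 0, Int.negSucc 0],
  [Int.ofNat 0, Int.ofNat 1, Int.ofNat 0, Int.ofNat 0, Int.ofNat 0, Int.ofNat 1]]

def bTY4 : List (List ℤ) :=
  [  [Int.ofNat 0, Int.ofNat 0, Int.ofNat 0, Int.ofNat 1, Int.ofNat 0, Int.ofNat 0, Int.ofNat 0,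
    Int.negSucc 0],
  [Int.ofNat 0, Int.ofNat 0, Int.ofNat 1, Int.ofNat 0, Int.ofNat 0, Int.ofNat 0, Int.negSucc 0]]

def bTY5 : List (List ℤ) :=
  [  [Int.ofNat 0, Int.ofNat 0, Int.ofNat 0, Int.negSucc 0, Int.ofNat 0, Int.ofNat 0, Int.ofNat 0,
    Int.ofNat 1],
  [Int.ofNat 0, Int.ofNat 0, Int.negSucc 0, Int.ofNat 0, Int.ofNat 0, Int.ofNat 0, Int.ofNat 1]]

def bTY6 : List (List ℤ) :=
  [  [Int.ofNat 0, Int.ofNat 0, Int.ofNat 1, Int.ofNat 0, Int.ofNat 0, Int.ofNat 0, Int.ofNat 1],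
  [Int.ofNat 0, Int.ofNat 0, Int.ofNat 0, Int.negSucc 0, Int.ofNat 0, Int.ofNat 0, Int.ofNat 0,
    Int.negSucc 0]]

def bTY7 : List (List ℤ) :=
  [  [Int.ofNat 0, Int.ofNat 0, Int.negSucc 0, Int.ofNat 0, Int.ofNat 0, Int.ofNat 0, Int.negSucc 0],
  [Int.ofNat 0, Int.ofNat 0, Int.ofNat 0, Int.ofNat 1, Int.ofNat 0, Int.ofNat 0, Int.ofNat 0,
    Int.ofNat 1]]

def bTL0 : List (List ℤ) :=
  [  [Int.negSucc 0, Int.ofNat 0, Int.ofNat 0, Int.ofNat 0, Int.ofNat 1],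
  [Int.ofNat 0, Int.ofNat 1, Int.ofNat 0, Int.ofNat 0, Int.ofNat 0, Int.negSucc 0]]

def bTL1 : List (List ℤ) :=
  [  [Int.ofNat 0, Int.ofNat 1, Int.ofNat 0, Int.ofNat 0, Int.ofNat 0, Int.ofNat 1],
  [Int.ofNat 1, Int.ofNat 0, Int.ofNat 0, Int.ofNat 0, Int.ofNat 1]]

def bTL2 : List (List ℤ) :=
  [  [Int.ofNat 0, Int.ofNat 0, Int.negSucc 0, Int.ofNat 0, Int.ofNat 0, Int.ofNat 0, Int.ofNat 1],
  [Int.ofNat 0, Int.ofNat 0, Int.ofNat 0, Int.ofNat 1, Int.ofNat 0, Int.ofNat 0, Int.ofNat 0,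
    Int.negSucc 0]]

def bTL3 : List (List ℤ) :=
  [  [Int.ofNat 0, Int.ofNat 0, Int.ofNat 0, Int.ofNat 1, Int.ofNat 0, Int.ofNat 0, Int.ofNat 0,
    Int.ofNat 1],
  [Int.ofNat 0, Int.ofNat 0, Int.ofNat 1, Int.ofNat 0, Int.ofNat 0, Int.ofNat 0, Int.ofNat 1]]

def bT : BD where
  A := [bTA0, bTA1, bTA2, bTA3, bTA4, bTA5, bTA6, bTA7]
  P := [bTP0, bTP1, bTP2, bTP3, bTP4, bTP5]
  U := [bTU0, bTU1, bTU2, bTU3]
  F := [bTF0, bTF1, bTF2, bTF3, bTF4, bTF5, bTF6, bTF7]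
  S := [[], bTS1, bTS2, bTS3, bTS4, bTS5, [], bTS7]
  Y := [bTY0, bTY1, bTY2, bTY3, bTY4, bTY5, bTY6, bTY7]
  L := [bTL0, bTL1, bTL2, bTL3]
  W := bTW
  g := [Int.ofNat 2, Int.ofNat 2, Int.ofNat 2, Int.ofNat 2, Int.negSucc 1, Int.negSucc 1, Int.negSucc 1, Int.negSucc 1]
  δ := Int.ofNat 2

theorem bT_ok : chkBD 2 8 bT = true := by decide +kernel

def bEA0 : List (List ℤ) :=
  [  [Int.ofNat 1],
  [Int.ofNat 0, Int.ofNat 1]]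

def bEA1 : List (List ℤ) :=
  [  [Int.ofNat 1],
  [Int.ofNat 0, Int.ofNat 1]]

def bEA2 : List (List ℤ) :=
  [  [Int.negSucc 0],
  [Int.ofNat 0, Int.negSucc 0]]

def bEA3 : List (List ℤ) :=
  [  [Int.negSucc 0],
  [Int.ofNat 0, Int.negSucc 0]]

def bEA4 : List (List ℤ) :=
  [  [Int.negSucc 0],
  [Int.ofNat 0, Int.negSucc 0]]

def bEA5 : List (List ℤ) :=
  [  [Int.negSucc 0],
  [Int.ofNat 0, Int.negSucc 0]]

def bEA6 : List (List ℤ) :=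
  [  [Int.negSucc 0],
  [Int.ofNat 0, Int.negSucc 0]]

def bEA7 : List (List ℤ) :=
  [  [Int.negSucc 0],
  [Int.ofNat 0, Int.negSucc 0]]

def bEP0 : List (List ℤ) :=
  [  [Int.negSucc 0],
  [Int.ofNat 0, Int.negSucc 0]]

def bEP1 : List (List ℤ) :=
  [  [Int.negSucc 0],
  [Int.ofNat 0, Int.negSucc 0]]

def bEP2 : List (List ℤ) :=
  [  [Int.ofNat 1],
  [Int.ofNat 0, Int.ofNat 1]]

def bEP3 : List (List ℤ) :=
  [  [Int.negSucc 0],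
  [Int.ofNat 0, Int.negSucc 0]]

def bEP4 : List (List ℤ) :=
  [  [Int.ofNat 1],
  [Int.ofNat 0, Int.ofNat 1]]

def bEP5 : List (List ℤ) :=
  [  [Int.negSucc 0],
  [Int.ofNat 0, Int.negSucc 0]]

def bEW : List (List ℤ) :=
  [  [Int.ofNat 0, Int.ofNat 1],
  [Int.negSucc 0]]

def bEU0 : List (List ℤ) :=
  [  [Int.ofNat 0, Int.ofNat 1],
  [Int.negSucc 0]]

def bEU1 : List (List ℤ) :=
  [  [Int.ofNat 0, Int.negSucc 0],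
  [Int.ofNat 1]]

def bEU2 : List (List ℤ) :=
  [  [Int.ofNat 0, Int.negSucc 0],
  [Int.ofNat 1]]

def bEU3 : List (List ℤ) :=
  [  [Int.ofNat 0, Int.negSucc 0],
  [Int.ofNat 1]]

def bEF0 : List (List ℤ) :=
  [  [Int.ofNat 0, Int.negSucc 0, Int.ofNat 0, Int.negSucc 0],
  [Int.negSucc 0, Int.ofNat 0, Int.negSucc 0]]

def bEF1 : List (List ℤ) :=
  [  [Int.ofNat 0, Int.ofNat 1, Int.ofNat 0, Int.ofNat 1],
  [Int.ofNat 1, Int.ofNat 0, Int.ofNat 1]]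

def bEF2 : List (List ℤ) :=
  [  [Int.negSucc 0, Int.ofNat 0, Int.ofNat 1, Int.ofNat 0, Int.ofNat 1],
  [Int.ofNat 0, Int.ofNat 1, Int.ofNat 0, Int.negSucc 0, Int.ofNat 0, Int.ofNat 1]]

def bEF3 : List (List ℤ) :=
  [  [Int.negSucc 0, Int.ofNat 0, Int.ofNat 1, Int.ofNat 0, Int.ofNat 1],
  [Int.ofNat 0, Int.ofNat 1, Int.ofNat 0, Int.negSucc 0, Int.ofNat 0, Int.ofNat 1]]

def bEF4 : List (List ℤ) :=
  [  [Int.ofNat 0, Int.ofNat 1, Int.ofNat 0, Int.ofNat 1, Int.ofNat 1],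
  [Int.ofNat 1, Int.ofNat 0, Int.ofNat 1, Int.ofNat 0, Int.ofNat 0, Int.ofNat 1]]

def bEF5 : List (List ℤ) :=
  [  [Int.ofNat 0, Int.ofNat 1, Int.ofNat 0, Int.ofNat 1, Int.ofNat 1],
  [Int.ofNat 1, Int.ofNat 0, Int.ofNat 1, Int.ofNat 0, Int.ofNat 0, Int.ofNat 1]]

def bEF6 : List (List ℤ) :=
  [  [Int.ofNat 0, Int.ofNat 0, Int.ofNat 0, Int.ofNat 0, Int.ofNat 1],
  [Int.ofNat 0, Int.ofNat 0, Int.ofNat 0, Int.ofNat 0, Int.ofNat 0, Int.ofNat 1]]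

def bEF7 : List (List ℤ) :=
  [  [Int.ofNat 0, Int.ofNat 0, Int.ofNat 0, Int.ofNat 0, Int.ofNat 1],
  [Int.ofNat 0, Int.ofNat 0, Int.ofNat 0, Int.ofNat 0, Int.ofNat 0, Int.ofNat 1]]

def bES1 : List (List ℤ) :=
  [  [Int.negSucc 0, Int.negSucc 0, Int.ofNat 1, Int.negSucc 0, Int.ofNat 1],
  [Int.negSucc 0, Int.ofNat 1, Int.negSucc 0, Int.negSucc 0, Int.ofNat 0, Int.ofNat 1]]

def bES2 : List (List ℤ) :=
  [  [Int.negSucc 0, Int.negSucc 1, Int.ofNat 1, Int.negSucc 1, Int.ofNat 1],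
  [Int.negSucc 1, Int.ofNat 1, Int.negSucc 1, Int.negSucc 0, Int.ofNat 0, Int.ofNat 1]]

def bES3 : List (List ℤ) :=
  [  [Int.ofNat 0, Int.ofNat 1, Int.ofNat 0, Int.ofNat 1],
  [Int.ofNat 1, Int.ofNat 0, Int.ofNat 1]]

def bES4 : List (List ℤ) :=
  [  [Int.ofNat 0, Int.ofNat 2, Int.ofNat 0, Int.ofNat 2],
  [Int.ofNat 2, Int.ofNat 0, Int.ofNat 2]]

def bES5 : List (List ℤ) :=
  [  [Int.ofNat 0, Int.ofNat 1, Int.ofNat 0, Int.ofNat 1],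
  [Int.ofNat 1, Int.ofNat 0, Int.ofNat 1]]

def bES7 : List (List ℤ) :=
  [  [Int.ofNat 0, Int.negSucc 0, Int.ofNat 0, Int.negSucc 0, Int.ofNat 1],
  [Int.negSucc 0, Int.ofNat 0, Int.negSucc 0, Int.ofNat 0, Int.ofNat 0, Int.ofNat 1]]

def bEY0 : List (List ℤ) :=
  [  [Int.negSucc 0, Int.ofNat 0, Int.negSucc 0],
  [Int.ofNat 0, Int.ofNat 1, Int.ofNat 0, Int.ofNat 1]]

def bEY1 : List (List ℤ) :=
  [  [Int.ofNat 1, Int.ofNat 0, Int.ofNat 1],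
  [Int.ofNat 0, Int.negSucc 0, Int.ofNat 0, Int.negSucc 0]]

def bEY2 : List (List ℤ) :=
  [  [Int.ofNat 0, Int.ofNat 1, Int.ofNat 0, Int.negSucc 0, Int.ofNat 0, Int.ofNat 1],
  [Int.ofNat 1, Int.ofNat 0, Int.negSucc 0, Int.ofNat 0, Int.negSucc 0]]

def bEY3 : List (List ℤ) :=
  [  [Int.ofNat 0, Int.ofNat 1, Int.ofNat 0, Int.negSucc 0, Int.ofNat 0, Int.ofNat 1],
  [Int.ofNat 1, Int.ofNat 0, Int.negSucc 0, Int.ofNat 0, Int.negSucc 0]]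

def bEY4 : List (List ℤ) :=
  [  [Int.ofNat 1, Int.ofNat 0, Int.ofNat 1, Int.ofNat 0, Int.ofNat 0, Int.ofNat 1],
  [Int.ofNat 0, Int.negSucc 0, Int.ofNat 0, Int.negSucc 0, Int.negSucc 0]]

def bEY5 : List (List ℤ) :=
  [  [Int.ofNat 1, Int.ofNat 0, Int.ofNat 1, Int.ofNat 0, Int.ofNat 0, Int.ofNat 1],
  [Int.ofNat 0, Int.negSucc 0, Int.ofNat 0, Int.negSucc 0, Int.negSucc 0]]

def bEY6 : List (List ℤ) :=
  [  [Int.ofNat 0, Int.ofNat 0, Int.ofNat 0, Int.ofNat 0, Int.ofNat 0, Int.ofNat 1],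
  [Int.ofNat 0, Int.ofNat 0, Int.ofNat 0, Int.ofNat 0, Int.negSucc 0]]

def bEY7 : List (List ℤ) :=
  [  [Int.ofNat 0, Int.ofNat 0, Int.ofNat 0, Int.ofNat 0, Int.ofNat 0, Int.ofNat 1],
  [Int.ofNat 0, Int.ofNat 0, Int.ofNat 0, Int.ofNat 0, Int.negSucc 0]]

def bEL0 : List (List ℤ) :=
  [  [Int.ofNat 1, Int.negSucc 0, Int.negSucc 0, Int.negSucc 0, Int.ofNat 2],
  [Int.negSucc 0, Int.negSucc 0, Int.negSucc 0, Int.ofNat 1, Int.ofNat 0, Int.ofNat 2]]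

def bEL1 : List (List ℤ) :=
  [  [Int.negSucc 0, Int.ofNat 0, Int.ofNat 1],
  [Int.ofNat 0, Int.ofNat 1, Int.ofNat 0, Int.negSucc 0]]

def bEL2 : List (List ℤ) :=
  [  [Int.ofNat 1, Int.ofNat 0, Int.negSucc 0, Int.ofNat 0, Int.ofNat 2],
  [Int.ofNat 0, Int.negSucc 0, Int.ofNat 0, Int.ofNat 1, Int.ofNat 0, Int.ofNat 2]]

def bEL3 : List (List ℤ) :=
  [  [],
  []]

def bE : BD where
  A := [bEA0, bEA1, bEA2, bEA3, bEA4, bEA5, bEA6, bEA7]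
  P := [bEP0, bEP1, bEP2, bEP3, bEP4, bEP5]
  U := [bEU0, bEU1, bEU2, bEU3]
  F := [bEF0, bEF1, bEF2, bEF3, bEF4, bEF5, bEF6, bEF7]
  S := [[], bES1, bES2, bES3, bES4, bES5, [], bES7]
  Y := [bEY0, bEY1, bEY2, bEY3, bEY4, bEY5, bEY6, bEY7]
  L := [bEL0, bEL1, bEL2, bEL3]
  W := bEW
  g := [Int.ofNat 2, Int.ofNat 2, Int.negSucc 1, Int.negSucc 1, Int.ofNat 0, Int.ofNat 0]
  δ := Int.ofNat 2

def bEVF0 : List (List ℤ) :=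
  [  [Int.ofNat 1],
  [Int.ofNat 0, Int.ofNat 1]]

def bEVF1 : List (List ℤ) :=
  [  [Int.negSucc 0],
  [Int.ofNat 0, Int.negSucc 0]]

def bEVF2 : List (List ℤ) :=
  [  [],
  []]

def bEVF3 : List (List ℤ) :=
  [  [],
  []]

def bEVF4 : List (List ℤ) :=
  [  [],
  []]

def bEVF5 : List (List ℤ) :=
  [  [],
  []]

def bEVF6 : List (List ℤ) :=
  [  [],
  []]

def bEVF7 : List (List ℤ) :=
  [  [],
  []]

def bEVS1 : List (List ℤ) :=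
  [  [Int.negSucc 0],
  [Int.ofNat 0, Int.negSucc 0]]

def bEVS2 : List (List ℤ) :=
  [  [],
  []]

def bEVS3 : List (List ℤ) :=
  [  [Int.ofNat 1],
  [Int.ofNat 0, Int.ofNat 1]]

def bEVS4 : List (List ℤ) :=
  [  [],
  []]

def bEVS5 : List (List ℤ) :=
  [  [],
  []]

def bEVS7 : List (List ℤ) :=
  [  [],
  []]

def bEV : VD where
  F := [bEVF0, bEVF1, bEVF2, bEVF3, bEVF4, bEVF5, bEVF6, bEVF7]
  S := [diagL (List.replicate 2 (Int.ofNat 2)), bEVS1, bEVS2, bEVS3, bEVS4, bEVS5, [], bEVS7]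
  δ := Int.ofNat 2

theorem bE_ok : chkBD 2 6 bE = true := by decide +kernel

theorem bEV_ok : chkV 2 bE.A bEV = true := by decide +kernel

def bFA0 : List (List ℤ) :=
  [  [Int.negSucc 0],
  [Int.ofNat 0, Int.negSucc 0]]

def bFA1 : List (List ℤ) :=
  [  [Int.negSucc 0],
  [Int.ofNat 0, Int.negSucc 0]]

def bFA2 : List (List ℤ) :=
  [  [Int.ofNat 1],
  [Int.ofNat 0, Int.ofNat 1]]

def bFA3 : List (List ℤ) :=
  [  [Int.ofNat 1],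
  [Int.ofNat 0, Int.ofNat 1]]

def bFA4 : List (List ℤ) :=
  [  [Int.negSucc 0],
  [Int.ofNat 0, Int.negSucc 0]]

def bFA5 : List (List ℤ) :=
  [  [Int.negSucc 0],
  [Int.ofNat 0, Int.negSucc 0]]

def bFA6 : List (List ℤ) :=
  [  [Int.negSucc 0],
  [Int.ofNat 0, Int.negSucc 0]]

def bFA7 : List (List ℤ) :=
  [  [Int.negSucc 0],
  [Int.ofNat 0, Int.negSucc 0]]

def bFP0 : List (List ℤ) :=
  [  [Int.negSucc 0],
  [Int.ofNat 0, Int.negSucc 0]]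

def bFP1 : List (List ℤ) :=
  [  [Int.ofNat 1],
  [Int.ofNat 0, Int.ofNat 1]]

def bFP2 : List (List ℤ) :=
  [  [Int.ofNat 1],
  [Int.ofNat 0, Int.ofNat 1]]

def bFP3 : List (List ℤ) :=
  [  [Int.negSucc 0],
  [Int.ofNat 0, Int.negSucc 0]]

def bFP4 : List (List ℤ) :=
  [  [Int.ofNat 1],
  [Int.ofNat 0, Int.ofNat 1]]

def bFP5 : List (List ℤ) :=
  [  [Int.negSucc 0],
  [Int.ofNat 0, Int.negSucc 0]]

def bFW : List (List ℤ) :=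
  [  [Int.ofNat 0, Int.ofNat 1],
  [Int.negSucc 0]]

def bFU0 : List (List ℤ) :=
  [  [Int.ofNat 0, Int.negSucc 0],
  [Int.ofNat 1]]

def bFU1 : List (List ℤ) :=
  [  [Int.ofNat 0, Int.ofNat 1],
  [Int.negSucc 0]]

def bFU2 : List (List ℤ) :=
  [  [Int.ofNat 0, Int.negSucc 0],
  [Int.ofNat 1]]

def bFU3 : List (List ℤ) :=
  [  [Int.ofNat 0, Int.negSucc 0],
  [Int.ofNat 1]]

def bFF0 : List (List ℤ) :=
  [  [Int.negSucc 0, Int.ofNat 0, Int.ofNat 1, Int.ofNat 0, Int.ofNat 1],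
  [Int.ofNat 0, Int.ofNat 1, Int.ofNat 0, Int.negSucc 0, Int.ofNat 0, Int.ofNat 1]]

def bFF1 : List (List ℤ) :=
  [  [Int.negSucc 0, Int.ofNat 0, Int.ofNat 1, Int.ofNat 0, Int.ofNat 1],
  [Int.ofNat 0, Int.ofNat 1, Int.ofNat 0, Int.negSucc 0, Int.ofNat 0, Int.ofNat 1]]

def bFF2 : List (List ℤ) :=
  [  [Int.ofNat 0, Int.negSucc 0, Int.ofNat 0, Int.negSucc 0],
  [Int.negSucc 0, Int.ofNat 0, Int.negSucc 0]]

def bFF3 : List (List ℤ) :=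
  [  [Int.ofNat 0, Int.ofNat 1, Int.ofNat 0, Int.ofNat 1],
  [Int.ofNat 1, Int.ofNat 0, Int.ofNat 1]]

def bFF4 : List (List ℤ) :=
  [  [Int.ofNat 0, Int.ofNat 1, Int.ofNat 0, Int.ofNat 1, Int.ofNat 1],
  [Int.ofNat 1, Int.ofNat 0, Int.ofNat 1, Int.ofNat 0, Int.ofNat 0, Int.ofNat 1]]

def bFF5 : List (List ℤ) :=
  [  [Int.ofNat 0, Int.ofNat 1, Int.ofNat 0, Int.ofNat 1, Int.ofNat 1],
  [Int.ofNat 1, Int.ofNat 0, Int.ofNat 1, Int.ofNat 0, Int.ofNat 0, Int.ofNat 1]]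

def bFF6 : List (List ℤ) :=
  [  [Int.ofNat 0, Int.ofNat 0, Int.ofNat 0, Int.ofNat 0, Int.ofNat 1],
  [Int.ofNat 0, Int.ofNat 0, Int.ofNat 0, Int.ofNat 0, Int.ofNat 0, Int.ofNat 1]]

def bFF7 : List (List ℤ) :=
  [  [Int.ofNat 0, Int.ofNat 0, Int.ofNat 0, Int.ofNat 0, Int.ofNat 1],
  [Int.ofNat 0, Int.ofNat 0, Int.ofNat 0, Int.ofNat 0, Int.ofNat 0, Int.ofNat 1]]

def bFS1 : List (List ℤ) :=
  [  [Int.negSucc 0, Int.negSucc 0, Int.ofNat 1, Int.negSucc 0, Int.ofNat 1],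
  [Int.negSucc 0, Int.ofNat 1, Int.negSucc 0, Int.negSucc 0, Int.ofNat 0, Int.ofNat 1]]

def bFS2 : List (List ℤ) :=
  [  [Int.ofNat 0, Int.ofNat 1, Int.ofNat 0, Int.ofNat 1],
  [Int.ofNat 1, Int.ofNat 0, Int.ofNat 1]]

def bFS3 : List (List ℤ) :=
  [  [Int.negSucc 0, Int.ofNat 0, Int.ofNat 1, Int.ofNat 0, Int.ofNat 1],
  [Int.ofNat 0, Int.ofNat 1, Int.ofNat 0, Int.negSucc 0, Int.ofNat 0, Int.ofNat 1]]

def bFS4 : List (List ℤ) :=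
  [  [Int.ofNat 0, Int.ofNat 2, Int.ofNat 0, Int.ofNat 2],
  [Int.ofNat 2, Int.ofNat 0, Int.ofNat 2]]

def bFS5 : List (List ℤ) :=
  [  [Int.ofNat 0, Int.ofNat 1, Int.ofNat 0, Int.ofNat 1],
  [Int.ofNat 1, Int.ofNat 0, Int.ofNat 1]]

def bFS7 : List (List ℤ) :=
  [  [Int.ofNat 0, Int.negSucc 0, Int.ofNat 0, Int.negSucc 0, Int.ofNat 1],
  [Int.negSucc 0, Int.ofNat 0, Int.negSucc 0, Int.ofNat 0, Int.ofNat 0, Int.ofNat 1]]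

def bFY0 : List (List ℤ) :=
  [  [Int.ofNat 0, Int.ofNat 1, Int.ofNat 0, Int.negSucc 0, Int.ofNat 0, Int.ofNat 1],
  [Int.ofNat 1, Int.ofNat 0, Int.negSucc 0, Int.ofNat 0, Int.negSucc 0]]

def bFY1 : List (List ℤ) :=
  [  [Int.ofNat 0, Int.ofNat 1, Int.ofNat 0, Int.negSucc 0, Int.ofNat 0, Int.ofNat 1],
  [Int.ofNat 1, Int.ofNat 0, Int.negSucc 0, Int.ofNat 0, Int.negSucc 0]]

def bFY2 : List (List ℤ) :=
  [  [Int.negSucc 0, Int.ofNat 0, Int.negSucc 0],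
  [Int.ofNat 0, Int.ofNat 1, Int.ofNat 0, Int.ofNat 1]]

def bFY3 : List (List ℤ) :=
  [  [Int.ofNat 1, Int.ofNat 0, Int.ofNat 1],
  [Int.ofNat 0, Int.negSucc 0, Int.ofNat 0, Int.negSucc 0]]

def bFY4 : List (List ℤ) :=
  [  [Int.ofNat 1, Int.ofNat 0, Int.ofNat 1, Int.ofNat 0, Int.ofNat 0, Int.ofNat 1],
  [Int.ofNat 0, Int.negSucc 0, Int.ofNat 0, Int.negSucc 0, Int.negSucc 0]]

def bFY5 : List (List ℤ) :=
  [  [Int.ofNat 1, Int.ofNat 0, Int.ofNat 1, Int.ofNat 0, Int.ofNat 0, Int.ofNat 1],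
  [Int.ofNat 0, Int.negSucc 0, Int.ofNat 0, Int.negSucc 0, Int.negSucc 0]]

def bFY6 : List (List ℤ) :=
  [  [Int.ofNat 0, Int.ofNat 0, Int.ofNat 0, Int.ofNat 0, Int.ofNat 0, Int.ofNat 1],
  [Int.ofNat 0, Int.ofNat 0, Int.ofNat 0, Int.ofNat 0, Int.negSucc 0]]

def bFY7 : List (List ℤ) :=
  [  [Int.ofNat 0, Int.ofNat 0, Int.ofNat 0, Int.ofNat 0, Int.ofNat 0, Int.ofNat 1],
  [Int.ofNat 0, Int.ofNat 0, Int.ofNat 0, Int.ofNat 0, Int.negSucc 0]]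

def bFL0 : List (List ℤ) :=
  [  [Int.negSucc 0, Int.ofNat 0, Int.ofNat 1],
  [Int.ofNat 0, Int.ofNat 1, Int.ofNat 0, Int.negSucc 0]]

def bFL1 : List (List ℤ) :=
  [  [Int.ofNat 1, Int.negSucc 0, Int.negSucc 0, Int.negSucc 0, Int.ofNat 2],
  [Int.negSucc 0, Int.negSucc 0, Int.negSucc 0, Int.ofNat 1, Int.ofNat 0, Int.ofNat 2]]

def bFL2 : List (List ℤ) :=
  [  [Int.ofNat 1, Int.ofNat 0, Int.negSucc 0, Int.ofNat 0, Int.ofNat 2],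
  [Int.ofNat 0, Int.negSucc 0, Int.ofNat 0, Int.ofNat 1, Int.ofNat 0, Int.ofNat 2]]

def bFL3 : List (List ℤ) :=
  [  [],
  []]

def bF : BD where
  A := [bFA0, bFA1, bFA2, bFA3, bFA4, bFA5, bFA6, bFA7]
  P := [bFP0, bFP1, bFP2, bFP3, bFP4, bFP5]
  U := [bFU0, bFU1, bFU2, bFU3]
  F := [bFF0, bFF1, bFF2, bFF3, bFF4, bFF5, bFF6, bFF7]
  S := [[], bFS1, bFS2, bFS3, bFS4, bFS5, [], bFS7]
  Y := [bFY0, bFY1, bFY2, bFY3, bFY4, bFY5, bFY6, bFY7]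
  L := [bFL0, bFL1, bFL2, bFL3]
  W := bFW
  g := [Int.ofNat 2, Int.ofNat 2, Int.negSucc 1, Int.negSucc 1, Int.ofNat 0, Int.ofNat 0]
  δ := Int.ofNat 2

def bFVF0 : List (List ℤ) :=
  [  [],
  []]

def bFVF1 : List (List ℤ) :=
  [  [],
  []]

def bFVF2 : List (List ℤ) :=
  [  [Int.ofNat 1],
  [Int.ofNat 0, Int.ofNat 1]]

def bFVF3 : List (List ℤ) :=
  [  [Int.negSucc 0],
  [Int.ofNat 0, Int.negSucc 0]]

def bFVF4 : List (List ℤ) :=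
  [  [],
  []]

def bFVF5 : List (List ℤ) :=
  [  [],
  []]

def bFVF6 : List (List ℤ) :=
  [  [],
  []]

def bFVF7 : List (List ℤ) :=
  [  [],
  []]

def bFVS1 : List (List ℤ) :=
  [  [Int.negSucc 0],
  [Int.ofNat 0, Int.negSucc 0]]

def bFVS2 : List (List ℤ) :=
  [  [Int.ofNat 1],
  [Int.ofNat 0, Int.ofNat 1]]

def bFVS3 : List (List ℤ) :=
  [  [Int.negSucc 1],
  [Int.ofNat 0, Int.negSucc 1]]

def bFVS4 : List (List ℤ) :=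
  [  [],
  []]

def bFVS5 : List (List ℤ) :=
  [  [],
  []]

def bFVS7 : List (List ℤ) :=
  [  [],
  []]

def bFV : VD where
  F := [bFVF0, bFVF1, bFVF2, bFVF3, bFVF4, bFVF5, bFVF6, bFVF7]
  S := [diagL (List.replicate 2 (Int.ofNat 2)), bFVS1, bFVS2, bFVS3, bFVS4, bFVS5, [], bFVS7]
  δ := Int.ofNat 2

theorem bF_ok : chkBD 2 6 bF = true := by decide +kernel

theorem bFV_ok : chkV 2 bF.A bFV = true := by decide +kernel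

def bGA0 : List (List ℤ) :=
  [  [Int.negSucc 0],
  [Int.ofNat 0, Int.negSucc 0]]

def bGA1 : List (List ℤ) :=
  [  [Int.negSucc 0],
  [Int.ofNat 0, Int.negSucc 0]]

def bGA2 : List (List ℤ) :=
  [  [Int.negSucc 0],
  [Int.ofNat 0, Int.negSucc 0]]

def bGA3 : List (List ℤ) :=
  [  [Int.negSucc 0],
  [Int.ofNat 0, Int.negSucc 0]]

def bGA4 : List (List ℤ) :=
  [  [Int.ofNat 1],
  [Int.ofNat 0, Int.ofNat 1]]

def bGA5 : List (List ℤ) :=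
  [  [Int.ofNat 1],
  [Int.ofNat 0, Int.ofNat 1]]

def bGA6 : List (List ℤ) :=
  [  [Int.ofNat 1],
  [Int.ofNat 0, Int.ofNat 1]]

def bGA7 : List (List ℤ) :=
  [  [Int.ofNat 1],
  [Int.ofNat 0, Int.ofNat 1]]

def bGP0 : List (List ℤ) :=
  [  [Int.ofNat 1],
  [Int.ofNat 0, Int.ofNat 1]]

def bGP1 : List (List ℤ) :=
  [  [Int.negSucc 0],
  [Int.ofNat 0, Int.negSucc 0]]

def bGP2 : List (List ℤ) :=
  [  [Int.ofNat 1],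
  [Int.ofNat 0, Int.ofNat 1]]

def bGP3 : List (List ℤ) :=
  [  [Int.ofNat 1],
  [Int.ofNat 0, Int.ofNat 1]]

def bGP4 : List (List ℤ) :=
  [  [Int.ofNat 1],
  [Int.ofNat 0, Int.ofNat 1]]

def bGP5 : List (List ℤ) :=
  [  [Int.ofNat 1],
  [Int.ofNat 0, Int.ofNat 1]]

def bGW : List (List ℤ) :=
  [  [Int.ofNat 0, Int.ofNat 1],
  [Int.negSucc 0]]

def bGU0 : List (List ℤ) :=
  [  [Int.ofNat 0, Int.negSucc 0],
  [Int.ofNat 1]]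

def bGU1 : List (List ℤ) :=
  [  [Int.ofNat 0, Int.negSucc 0],
  [Int.ofNat 1]]

def bGU2 : List (List ℤ) :=
  [  [Int.ofNat 0, Int.ofNat 1],
  [Int.negSucc 0]]

def bGU3 : List (List ℤ) :=
  [  [Int.ofNat 0, Int.ofNat 1],
  [Int.negSucc 0]]

def bGF0 : List (List ℤ) :=
  [  [Int.ofNat 0, Int.ofNat 0, Int.ofNat 0, Int.ofNat 0, Int.ofNat 1],
  [Int.ofNat 0, Int.ofNat 0, Int.ofNat 0, Int.ofNat 0, Int.ofNat 0, Int.ofNat 1]]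

def bGF1 : List (List ℤ) :=
  [  [Int.ofNat 0, Int.ofNat 0, Int.ofNat 0, Int.ofNat 0, Int.ofNat 1],
  [Int.ofNat 0, Int.ofNat 0, Int.ofNat 0, Int.ofNat 0, Int.ofNat 0, Int.ofNat 1]]

def bGF2 : List (List ℤ) :=
  [  [Int.ofNat 0, Int.ofNat 0, Int.ofNat 0, Int.ofNat 0, Int.ofNat 1],
  [Int.ofNat 0, Int.ofNat 0, Int.ofNat 0, Int.ofNat 0, Int.ofNat 0, Int.ofNat 1]]

def bGF3 : List (List ℤ) :=
  [  [Int.ofNat 0, Int.ofNat 0, Int.ofNat 0, Int.ofNat 0, Int.ofNat 1],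
  [Int.ofNat 0, Int.ofNat 0, Int.ofNat 0, Int.ofNat 0, Int.ofNat 0, Int.ofNat 1]]

def bGF4 : List (List ℤ) :=
  [  [Int.negSucc 0, Int.ofNat 0, Int.ofNat 1],
  [Int.ofNat 0, Int.ofNat 1, Int.ofNat 0, Int.negSucc 0]]

def bGF5 : List (List ℤ) :=
  [  [Int.ofNat 1, Int.ofNat 0, Int.negSucc 0],
  [Int.ofNat 0, Int.negSucc 0, Int.ofNat 0, Int.ofNat 1]]

def bGF6 : List (List ℤ) :=
  [  [Int.ofNat 0, Int.ofNat 1, Int.ofNat 0, Int.ofNat 1],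
  [Int.ofNat 1, Int.ofNat 0, Int.ofNat 1]]

def bGF7 : List (List ℤ) :=
  [  [Int.ofNat 0, Int.negSucc 0, Int.ofNat 0, Int.negSucc 0],
  [Int.negSucc 0, Int.ofNat 0, Int.negSucc 0]]

def bGS1 : List (List ℤ) :=
  [  [],
  []]

def bGS2 : List (List ℤ) :=
  [  [Int.ofNat 0, Int.ofNat 0, Int.ofNat 0, Int.ofNat 0, Int.ofNat 1],
  [Int.ofNat 0, Int.ofNat 0, Int.ofNat 0, Int.ofNat 0, Int.ofNat 0, Int.ofNat 1]]

def bGS3 : List (List ℤ) :=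
  [  [Int.ofNat 0, Int.ofNat 0, Int.ofNat 0, Int.ofNat 0, Int.ofNat 1],
  [Int.ofNat 0, Int.ofNat 0, Int.ofNat 0, Int.ofNat 0, Int.ofNat 0, Int.ofNat 1]]

def bGS4 : List (List ℤ) :=
  [  [],
  []]

def bGS5 : List (List ℤ) :=
  [  [Int.ofNat 1, Int.ofNat 1, Int.negSucc 0, Int.ofNat 1],
  [Int.ofNat 1, Int.negSucc 0, Int.ofNat 1, Int.ofNat 1]]

def bGS7 : List (List ℤ) :=
  [  [Int.ofNat 1, Int.ofNat 0, Int.negSucc 0],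
  [Int.ofNat 0, Int.negSucc 0, Int.ofNat 0, Int.ofNat 1]]

def bGY0 : List (List ℤ) :=
  [  [Int.ofNat 0, Int.ofNat 0, Int.ofNat 0, Int.ofNat 0, Int.ofNat 0, Int.ofNat 1],
  [Int.ofNat 0, Int.ofNat 0, Int.ofNat 0, Int.ofNat 0, Int.negSucc 0]]

def bGY1 : List (List ℤ) :=
  [  [Int.ofNat 0, Int.ofNat 0, Int.ofNat 0, Int.ofNat 0, Int.ofNat 0, Int.ofNat 1],
  [Int.ofNat 0, Int.ofNat 0, Int.ofNat 0, Int.ofNat 0, Int.negSucc 0]]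

def bGY2 : List (List ℤ) :=
  [  [Int.ofNat 0, Int.ofNat 0, Int.ofNat 0, Int.ofNat 0, Int.ofNat 0, Int.ofNat 1],
  [Int.ofNat 0, Int.ofNat 0, Int.ofNat 0, Int.ofNat 0, Int.negSucc 0]]

def bGY3 : List (List ℤ) :=
  [  [Int.ofNat 0, Int.ofNat 0, Int.ofNat 0, Int.ofNat 0, Int.ofNat 0, Int.ofNat 1],
  [Int.ofNat 0, Int.ofNat 0, Int.ofNat 0, Int.ofNat 0, Int.negSucc 0]]

def bGY4 : List (List ℤ) :=
  [  [Int.ofNat 0, Int.ofNat 1, Int.ofNat 0, Int.negSucc 0],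
  [Int.ofNat 1, Int.ofNat 0, Int.negSucc 0]]

def bGY5 : List (List ℤ) :=
  [  [Int.ofNat 0, Int.negSucc 0, Int.ofNat 0, Int.ofNat 1],
  [Int.negSucc 0, Int.ofNat 0, Int.ofNat 1]]

def bGY6 : List (List ℤ) :=
  [  [Int.ofNat 1, Int.ofNat 0, Int.ofNat 1],
  [Int.ofNat 0, Int.negSucc 0, Int.ofNat 0, Int.negSucc 0]]

def bGY7 : List (List ℤ) :=
  [  [Int.negSucc 0, Int.ofNat 0, Int.negSucc 0],
  [Int.ofNat 0, Int.ofNat 1, Int.ofNat 0, Int.ofNat 1]]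

def bGL0 : List (List ℤ) :=
  [  [Int.ofNat 0, Int.ofNat 0, Int.ofNat 0, Int.ofNat 0, Int.ofNat 2],
  [Int.ofNat 0, Int.ofNat 0, Int.ofNat 0, Int.ofNat 0, Int.ofNat 0, Int.ofNat 2]]

def bGL1 : List (List ℤ) :=
  [  [],
  []]

def bGL2 : List (List ℤ) :=
  [  [Int.negSucc 0, Int.ofNat 0, Int.ofNat 1],
  [Int.ofNat 0, Int.ofNat 1, Int.ofNat 0, Int.negSucc 0]]

def bGL3 : List (List ℤ) :=
  [  [Int.ofNat 0, Int.ofNat 1, Int.ofNat 0, Int.ofNat 1],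
  [Int.ofNat 1, Int.ofNat 0, Int.ofNat 1]]

def bG : BD where
  A := [bGA0, bGA1, bGA2, bGA3, bGA4, bGA5, bGA6, bGA7]
  P := [bGP0, bGP1, bGP2, bGP3, bGP4, bGP5]
  U := [bGU0, bGU1, bGU2, bGU3]
  F := [bGF0, bGF1, bGF2, bGF3, bGF4, bGF5, bGF6, bGF7]
  S := [[], bGS1, bGS2, bGS3, bGS4, bGS5, [], bGS7]
  Y := [bGY0, bGY1, bGY2, bGY3, bGY4, bGY5, bGY6, bGY7]
  L := [bGL0, bGL1, bGL2, bGL3]
  W := bGW
  g := [Int.ofNat 2, Int.ofNat 2, Int.negSucc 1, Int.negSucc 1, Int.ofNat 0, Int.ofNat 0]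
  δ := Int.ofNat 2

def bGVF0 : List (List ℤ) :=
  [  [Int.ofNat 1],
  [Int.ofNat 0, Int.ofNat 1]]

def bGVF1 : List (List ℤ) :=
  [  [Int.ofNat 1],
  [Int.ofNat 0, Int.ofNat 1]]

def bGVF2 : List (List ℤ) :=
  [  [],
  []]

def bGVF3 : List (List ℤ) :=
  [  [],
  []]

def bGVF4 : List (List ℤ) :=
  [  [],
  []]

def bGVF5 : List (List ℤ) :=
  [  [],
  []]

def bGVF6 : List (List ℤ) :=
  [  [],
  []]

def bGVF7 : List (List ℤ) :=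
  [  [],
  []]

def bGVS1 : List (List ℤ) :=
  [  [Int.ofNat 1],
  [Int.ofNat 0, Int.ofNat 1]]

def bGVS2 : List (List ℤ) :=
  [  [],
  []]

def bGVS3 : List (List ℤ) :=
  [  [Int.negSucc 0],
  [Int.ofNat 0, Int.negSucc 0]]

def bGVS4 : List (List ℤ) :=
  [  [],
  []]

def bGVS5 : List (List ℤ) :=
  [  [],
  []]

def bGVS7 : List (List ℤ) :=
  [  [],
  []]

def bGV : VD where
  F := [bGVF0, bGVF1, bGVF2, bGVF3, bGVF4, bGVF5, bGVF6, bGVF7]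
  S := [diagL (List.replicate 2 (Int.ofNat 2)), bGVS1, bGVS2, bGVS3, bGVS4, bGVS5, [], bGVS7]
  δ := Int.ofNat 2

theorem bG_ok : chkBD 2 6 bG = true := by decide +kernel

theorem bGV_ok : chkV 2 bG.A bGV = true := by decide +kernel

end Pool.Agent.H809
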