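import Pool.Agent.H809.Cert2

/-!
Certificate for the block of dimension twelve.
-/

namespace Pool.Agent.H809

def bVA0 : List (List ℤ) :=
  [  [Int.ofNat 0, Int.negSucc 0, Int.ofNat 0, Int.ofNat 0, Int.negSucc 0, Int.ofNat 1, Int.ofNat 1,
    Int.ofNat 0, Int.negSucc 0, Int.ofNat 1, Int.negSucc 0, Int.ofNat 1],
  [Int.ofNat 4, Int.negSucc 0, Int.negSucc 1, Int.ofNat 2, Int.negSucc 2, Int.ofNat 1,
    Int.ofNat 0, Int.ofNat 2, Int.ofNat 1, Int.ofNat 3, Int.negSucc 0, Int.negSucc 0],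
  [Int.ofNat 2, Int.negSucc 0, Int.negSucc 0, Int.ofNat 1, Int.negSucc 0, Int.ofNat 1,
    Int.negSucc 0, Int.ofNat 0, Int.ofNat 0, Int.ofNat 2],
  [Int.ofNat 4, Int.ofNat 0, Int.negSucc 1, Int.ofNat 1, Int.negSucc 1, Int.ofNat 0, Int.ofNat 0,
    Int.ofNat 2, Int.ofNat 2, Int.ofNat 2, Int.negSucc 1],
  [Int.ofNat 0, Int.ofNat 0, Int.ofNat 0, Int.ofNat 0, Int.ofNat 0, Int.negSucc 0, Int.ofNat 0,
    Int.ofNat 0, Int.ofNat 1, Int.negSucc 0, Int.negSucc 0, Int.negSucc 0],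
  [Int.negSucc 0, Int.negSucc 0, Int.ofNat 0, Int.ofNat 0, Int.negSucc 1, Int.ofNat 1,
    Int.ofNat 1, Int.ofNat 2, Int.ofNat 0, Int.ofNat 0, Int.negSucc 1, Int.negSucc 1],
  [Int.negSucc 2, Int.negSucc 0, Int.ofNat 2, Int.ofNat 0, Int.ofNat 0, Int.ofNat 0, Int.ofNat 0,
    Int.ofNat 0, Int.ofNat 0, Int.negSucc 1, Int.ofNat 0, Int.negSucc 1],
  [Int.ofNat 2, Int.ofNat 0, Int.negSucc 0, Int.ofNat 0, Int.ofNat 0, Int.ofNat 0, Int.ofNat 0,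
    Int.ofNat 0, Int.ofNat 0, Int.ofNat 1, Int.negSucc 0, Int.ofNat 1],
  [Int.negSucc 2, Int.ofNat 0, Int.ofNat 1, Int.negSucc 0, Int.ofNat 0, Int.ofNat 0, Int.ofNat 0,
    Int.ofNat 1, Int.ofNat 0, Int.negSucc 1, Int.ofNat 0, Int.negSucc 1],
  [Int.ofNat 0, Int.ofNat 0, Int.ofNat 0, Int.ofNat 1, Int.ofNat 1, Int.negSucc 0, Int.negSucc 1,
    Int.negSucc 0, Int.ofNat 1, Int.negSucc 0, Int.ofNat 2, Int.negSucc 1],
  [Int.ofNat 0, Int.negSucc 0, Int.ofNat 0, Int.ofNat 0, Int.ofNat 0, Int.ofNat 1, Int.ofNat 0,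
    Int.ofNat 0, Int.negSucc 0, Int.ofNat 1, Int.ofNat 0, Int.ofNat 1],
  [Int.ofNat 2, Int.ofNat 0, Int.negSucc 0, Int.ofNat 0, Int.negSucc 1, Int.ofNat 1, Int.ofNat 1,
    Int.ofNat 2, Int.ofNat 0, Int.ofNat 2, Int.negSucc 1, Int.ofNat 1]]

def bVA1 : List (List ℤ) :=
  [  [Int.ofNat 0, Int.ofNat 1, Int.ofNat 0, Int.ofNat 0, Int.negSucc 0, Int.negSucc 0, Int.ofNat 1,
    Int.ofNat 2, Int.ofNat 1, Int.negSucc 0, Int.negSucc 0, Int.negSucc 0],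
  [Int.ofNat 0, Int.negSucc 0, Int.ofNat 0, Int.ofNat 0, Int.negSucc 0, Int.ofNat 1, Int.ofNat 0,
    Int.ofNat 0, Int.negSucc 0, Int.ofNat 1, Int.negSucc 0, Int.ofNat 1],
  [Int.negSucc 1, Int.ofNat 1, Int.ofNat 1, Int.negSucc 0, Int.ofNat 1, Int.negSucc 0,
    Int.ofNat 1, Int.ofNat 0, Int.ofNat 0, Int.negSucc 1],
  [Int.ofNat 2, Int.negSucc 1, Int.negSucc 1, Int.ofNat 1, Int.negSucc 1, Int.ofNat 2,
    Int.ofNat 0, Int.ofNat 0, Int.negSucc 1, Int.ofNat 4, Int.ofNat 0, Int.ofNat 2],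
  [Int.negSucc 1, Int.ofNat 0, Int.ofNat 0, Int.ofNat 0, Int.ofNat 0, Int.ofNat 1, Int.ofNat 0,
    Int.ofNat 0, Int.negSucc 0, Int.negSucc 0, Int.ofNat 1, Int.negSucc 0],
  [Int.ofNat 1, Int.negSucc 0, Int.ofNat 0, Int.ofNat 2, Int.negSucc 3, Int.ofNat 1, Int.ofNat 1,
    Int.ofNat 2, Int.ofNat 0, Int.ofNat 0, Int.negSucc 1, Int.negSucc 1],
  [Int.negSucc 0, Int.ofNat 1, Int.ofNat 0, Int.ofNat 0, Int.ofNat 0, Int.ofNat 0, Int.ofNat 0,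
    Int.ofNat 0, Int.ofNat 0, Int.negSucc 1, Int.ofNat 0, Int.negSucc 1],
  [Int.ofNat 0, Int.ofNat 0, Int.negSucc 0, Int.ofNat 0, Int.ofNat 0, Int.ofNat 0, Int.ofNat 0,
    Int.ofNat 0, Int.ofNat 0, Int.ofNat 1, Int.ofNat 1, Int.ofNat 1],
  [Int.negSucc 0, Int.ofNat 0, Int.ofNat 1, Int.ofNat 1, Int.ofNat 0, Int.ofNat 0, Int.ofNat 0,
    Int.negSucc 0, Int.ofNat 0, Int.negSucc 1, Int.ofNat 0, Int.negSucc 1],
  [Int.negSucc 3, Int.ofNat 1, Int.ofNat 2, Int.negSucc 1, Int.ofNat 4, Int.ofNat 0,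
    Int.negSucc 0, Int.negSucc 2, Int.negSucc 0, Int.negSucc 2, Int.ofNat 2],
  [Int.ofNat 0, Int.ofNat 1, Int.ofNat 0, Int.ofNat 0, Int.ofNat 0, Int.negSucc 0, Int.ofNat 0,
    Int.ofNat 0, Int.ofNat 1, Int.negSucc 0, Int.ofNat 0, Int.negSucc 0],
  [Int.ofNat 2, Int.negSucc 0, Int.negSucc 0, Int.ofNat 1, Int.negSucc 0, Int.ofNat 0,
    Int.ofNat 0, Int.ofNat 0, Int.ofNat 0, Int.ofNat 2, Int.ofNat 0, Int.ofNat 1]]

def bVA2 : List (List ℤ) :=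
  [  [Int.negSucc 1, Int.ofNat 0, Int.ofNat 1, Int.negSucc 0, Int.ofNat 0, Int.ofNat 0, Int.ofNat 3,
    Int.ofNat 0, Int.negSucc 0, Int.negSucc 0, Int.negSucc 0, Int.ofNat 1],
  [Int.negSucc 1, Int.ofNat 0, Int.ofNat 1, Int.negSucc 0, Int.ofNat 0, Int.ofNat 0, Int.ofNat 2,
    Int.ofNat 0, Int.negSucc 0, Int.negSucc 0, Int.negSucc 0, Int.ofNat 1],
  [Int.ofNat 2, Int.negSucc 0, Int.negSucc 0, Int.ofNat 1, Int.negSucc 2, Int.ofNat 1,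
    Int.ofNat 3, Int.ofNat 2, Int.ofNat 0, Int.ofNat 2, Int.negSucc 1],
  [Int.negSucc 5, Int.negSucc 0, Int.ofNat 4, Int.negSucc 1, Int.ofNat 3, Int.negSucc 0,
    Int.ofNat 1, Int.negSucc 1, Int.negSucc 1, Int.negSucc 3],
  [Int.negSucc 1, Int.ofNat 1, Int.ofNat 1, Int.negSucc 0, Int.ofNat 1, Int.ofNat 0, Int.ofNat 0,
    Int.ofNat 0, Int.negSucc 0, Int.negSucc 0, Int.ofNat 1, Int.negSucc 0],
  [Int.negSucc 4, Int.ofNat 2, Int.ofNat 2, Int.negSucc 2, Int.ofNat 3, Int.ofNat 0, Int.ofNat 4,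
    Int.negSucc 1, Int.negSucc 3, Int.negSucc 1, Int.ofNat 0, Int.ofNat 4],
  [Int.negSucc 0, Int.ofNat 1],
  [Int.negSucc 1, Int.negSucc 1, Int.ofNat 2, Int.ofNat 0, Int.ofNat 1, Int.ofNat 0, Int.ofNat 0,
    Int.negSucc 0, Int.negSucc 0, Int.negSucc 0, Int.ofNat 1, Int.negSucc 0],
  [Int.ofNat 1, Int.ofNat 1, Int.negSucc 0, Int.ofNat 0, Int.ofNat 0, Int.ofNat 1, Int.ofNat 0,
    Int.ofNat 0, Int.negSucc 0, Int.ofNat 2, Int.ofNat 0, Int.ofNat 2],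
  [Int.ofNat 8, Int.ofNat 1, Int.negSucc 4, Int.ofNat 3, Int.negSucc 3, Int.ofNat 1,
    Int.negSucc 2, Int.ofNat 3, Int.ofNat 3, Int.ofNat 5, Int.ofNat 0, Int.negSucc 1],
  [Int.ofNat 1, Int.negSucc 0, Int.ofNat 0, Int.ofNat 1, Int.ofNat 0, Int.ofNat 0, Int.ofNat 0,
    Int.negSucc 0, Int.ofNat 0, Int.ofNat 1, Int.ofNat 0, Int.ofNat 1],
  [Int.negSucc 3, Int.negSucc 1, Int.ofNat 3, Int.negSucc 0, Int.ofNat 2, Int.ofNat 0,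
    Int.ofNat 1, Int.negSucc 1, Int.negSucc 1, Int.negSucc 1, Int.ofNat 0, Int.ofNat 1]]

def bVA3 : List (List ℤ) :=
  [  [Int.negSucc 1, Int.ofNat 0, Int.ofNat 1, Int.negSucc 0, Int.ofNat 2, Int.ofNat 0,
    Int.negSucc 0, Int.negSucc 1, Int.negSucc 0, Int.negSucc 0, Int.ofNat 1, Int.ofNat 1],
  [Int.negSucc 1, Int.ofNat 0, Int.ofNat 1, Int.negSucc 0, Int.ofNat 2, Int.ofNat 0, Int.ofNat 0,
    Int.negSucc 1, Int.negSucc 0, Int.negSucc 0, Int.ofNat 1, Int.ofNat 1],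
  [Int.negSucc 1, Int.ofNat 1, Int.ofNat 1, Int.negSucc 0, Int.ofNat 3, Int.negSucc 0,
    Int.negSucc 0, Int.negSucc 1, Int.ofNat 0, Int.negSucc 1, Int.ofNat 2],
  [Int.negSucc 7, Int.negSucc 0, Int.ofNat 4, Int.negSucc 1, Int.ofNat 1, Int.ofNat 1,
    Int.ofNat 1, Int.negSucc 1, Int.negSucc 1, Int.negSucc 3],
  [Int.ofNat 0, Int.negSucc 2, Int.ofNat 1, Int.ofNat 1, Int.negSucc 0, Int.ofNat 0, Int.ofNat 0,
    Int.ofNat 0, Int.ofNat 1, Int.negSucc 0, Int.negSucc 0, Int.negSucc 0],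
  [Int.negSucc 2, Int.negSucc 1, Int.ofNat 2, Int.negSucc 2, Int.ofNat 3, Int.ofNat 0,
    Int.ofNat 0, Int.negSucc 3, Int.negSucc 1, Int.negSucc 1, Int.ofNat 0, Int.ofNat 4],
  [Int.ofNat 1, Int.negSucc 0],
  [Int.negSucc 3, Int.ofNat 0, Int.ofNat 2, Int.ofNat 0, Int.negSucc 0, Int.ofNat 0, Int.ofNat 0,
    Int.ofNat 1, Int.ofNat 1, Int.negSucc 2, Int.negSucc 0, Int.negSucc 2],
  [Int.ofNat 3, Int.negSucc 0, Int.negSucc 0, Int.ofNat 0, Int.ofNat 0, Int.negSucc 0,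
    Int.ofNat 0, Int.ofNat 0, Int.ofNat 1],
  [Int.ofNat 7, Int.ofNat 0, Int.negSucc 2, Int.ofNat 3, Int.negSucc 1, Int.negSucc 0,
    Int.ofNat 0, Int.ofNat 3, Int.ofNat 3, Int.ofNat 3, Int.ofNat 0, Int.negSucc 1],
  [Int.negSucc 0, Int.ofNat 1, Int.ofNat 0, Int.negSucc 0, Int.ofNat 0, Int.ofNat 0, Int.ofNat 0,
    Int.ofNat 1, Int.ofNat 0, Int.negSucc 0, Int.ofNat 0, Int.negSucc 0],
  [Int.negSucc 2, Int.ofNat 1, Int.ofNat 1, Int.negSucc 0, Int.ofNat 0, Int.ofNat 0, Int.ofNat 0,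
    Int.ofNat 0, Int.ofNat 0, Int.negSucc 1, Int.ofNat 0, Int.negSucc 0]]

def bVA4 : List (List ℤ) :=
  [  [Int.ofNat 0, Int.ofNat 1, Int.negSucc 0],
  [Int.ofNat 1, Int.ofNat 0, Int.negSucc 0],
  [Int.ofNat 0, Int.ofNat 0, Int.negSucc 0],
  [Int.ofNat 0, Int.negSucc 0, Int.ofNat 0, Int.ofNat 0, Int.ofNat 1, Int.ofNat 1, Int.negSucc 2,
    Int.negSucc 1, Int.negSucc 1, Int.ofNat 0, Int.ofNat 4],
  [Int.negSucc 0, Int.ofNat 1, Int.negSucc 0, Int.negSucc 1, Int.ofNat 1, Int.ofNat 2,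
    Int.ofNat 0, Int.ofNat 0, Int.negSucc 1, Int.ofNat 0, Int.ofNat 2, Int.ofNat 2],
  [Int.ofNat 2, Int.ofNat 1, Int.negSucc 1, Int.ofNat 1, Int.ofNat 1, Int.ofNat 0, Int.negSucc 0,
    Int.negSucc 1, Int.ofNat 0, Int.ofNat 0, Int.ofNat 2, Int.ofNat 2],
  [Int.ofNat 0, Int.ofNat 0, Int.ofNat 0, Int.ofNat 0, Int.ofNat 0, Int.ofNat 0, Int.ofNat 1],
  [Int.ofNat 1, Int.negSucc 0, Int.negSucc 0, Int.ofNat 0, Int.negSucc 0, Int.ofNat 2,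
    Int.negSucc 2, Int.ofNat 0, Int.negSucc 0, Int.ofNat 2, Int.ofNat 2],
  [Int.ofNat 0, Int.ofNat 0, Int.ofNat 0, Int.ofNat 0, Int.ofNat 1, Int.ofNat 0, Int.ofNat 1,
    Int.negSucc 0, Int.ofNat 0, Int.ofNat 0, Int.ofNat 0, Int.ofNat 2],
  [Int.negSucc 1, Int.ofNat 0, Int.ofNat 1, Int.negSucc 1, Int.ofNat 0, Int.ofNat 0, Int.ofNat 3,
    Int.ofNat 2, Int.ofNat 0, Int.negSucc 0, Int.negSucc 1],
  [Int.ofNat 1, Int.negSucc 0, Int.ofNat 0, Int.ofNat 1, Int.negSucc 0, Int.ofNat 0,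
    Int.negSucc 0, Int.ofNat 0, Int.ofNat 1, Int.ofNat 1, Int.ofNat 0, Int.negSucc 0],
  [Int.ofNat 1, Int.negSucc 0, Int.ofNat 0, Int.ofNat 1, Int.ofNat 0, Int.ofNat 0, Int.negSucc 1,
    Int.negSucc 0, Int.ofNat 0, Int.ofNat 1, Int.ofNat 1]]

def bVA5 : List (List ℤ) :=
  [  [Int.ofNat 0, Int.ofNat 1, Int.negSucc 0],
  [Int.ofNat 1, Int.ofNat 0, Int.negSucc 0],
  [Int.ofNat 0, Int.ofNat 0, Int.negSucc 0],
  [Int.negSucc 5, Int.negSucc 0, Int.ofNat 4, Int.negSucc 1, Int.ofNat 3, Int.negSucc 0,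
    Int.ofNat 1, Int.negSucc 1, Int.negSucc 1, Int.negSucc 3],
  [Int.negSucc 4, Int.ofNat 1, Int.ofNat 3, Int.negSucc 1, Int.ofNat 5, Int.negSucc 1,
    Int.ofNat 0, Int.negSucc 3, Int.negSucc 1, Int.negSucc 3, Int.ofNat 2, Int.ofNat 2],
  [Int.negSucc 3, Int.ofNat 1, Int.ofNat 2, Int.negSucc 0, Int.ofNat 3, Int.negSucc 1,
    Int.negSucc 0, Int.negSucc 1, Int.ofNat 0, Int.negSucc 3, Int.ofNat 2, Int.negSucc 1],
  [Int.ofNat 0, Int.ofNat 0, Int.ofNat 0, Int.ofNat 0, Int.ofNat 0, Int.ofNat 0, Int.ofNat 1],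
  [Int.negSucc 4, Int.negSucc 0, Int.ofNat 3, Int.negSucc 1, Int.ofNat 3, Int.ofNat 0,
    Int.ofNat 1, Int.negSucc 1, Int.negSucc 2, Int.negSucc 1, Int.ofNat 0, Int.ofNat 2],
  [Int.ofNat 0, Int.ofNat 0, Int.ofNat 0, Int.ofNat 0, Int.ofNat 1, Int.ofNat 0, Int.negSucc 0,
    Int.negSucc 0, Int.ofNat 0, Int.ofNat 0, Int.ofNat 2],
  [Int.ofNat 2, Int.ofNat 0, Int.negSucc 0, Int.ofNat 0, Int.ofNat 0, Int.ofNat 0, Int.ofNat 1,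
    Int.ofNat 0, Int.ofNat 0, Int.ofNat 1, Int.ofNat 0, Int.ofNat 2],
  [Int.ofNat 0, Int.negSucc 0, Int.ofNat 0, Int.ofNat 0, Int.ofNat 0, Int.ofNat 1, Int.ofNat 1,
    Int.ofNat 0, Int.negSucc 0, Int.ofNat 1, Int.ofNat 0, Int.ofNat 1],
  [Int.ofNat 0, Int.negSucc 0, Int.ofNat 0, Int.ofNat 0, Int.negSucc 0, Int.ofNat 1, Int.ofNat 0,
    Int.ofNat 1, Int.ofNat 0, Int.ofNat 1, Int.negSucc 0]]

def bVA6 : List (List ℤ) :=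
  [  [Int.ofNat 0, Int.ofNat 1, Int.negSucc 0],
  [Int.ofNat 1, Int.ofNat 0, Int.negSucc 0],
  [Int.ofNat 0, Int.ofNat 0, Int.negSucc 0],
  [Int.ofNat 4, Int.negSucc 0, Int.negSucc 1, Int.ofNat 2, Int.negSucc 2, Int.ofNat 1,
    Int.negSucc 0, Int.ofNat 2, Int.ofNat 2, Int.ofNat 2, Int.negSucc 1],
  [Int.ofNat 7, Int.negSucc 2, Int.negSucc 2, Int.ofNat 4, Int.negSucc 2, Int.ofNat 2,
    Int.negSucc 1, Int.ofNat 0, Int.ofNat 0, Int.ofNat 6, Int.negSucc 1, Int.ofNat 2],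
  [Int.ofNat 8, Int.negSucc 2, Int.negSucc 3, Int.ofNat 5, Int.negSucc 4, Int.ofNat 2,
    Int.negSucc 2, Int.ofNat 0, Int.ofNat 2, Int.ofNat 6, Int.negSucc 1],
  [Int.ofNat 0, Int.ofNat 0, Int.ofNat 0, Int.ofNat 0, Int.ofNat 0, Int.ofNat 0, Int.negSucc 0],
  [Int.ofNat 1, Int.ofNat 1, Int.negSucc 0, Int.ofNat 0, Int.negSucc 0, Int.ofNat 0, Int.ofNat 1,
    Int.ofNat 2, Int.ofNat 1, Int.ofNat 0, Int.negSucc 1],
  [Int.ofNat 2, Int.negSucc 1, Int.ofNat 0, Int.ofNat 2, Int.negSucc 0, Int.ofNat 0,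
    Int.negSucc 0, Int.negSucc 0, Int.ofNat 0, Int.ofNat 2],
  [Int.negSucc 0, Int.negSucc 0, Int.ofNat 1, Int.negSucc 0, Int.ofNat 2, Int.ofNat 0,
    Int.ofNat 0, Int.negSucc 0, Int.negSucc 1, Int.ofNat 0, Int.ofNat 1, Int.ofNat 1],
  [Int.negSucc 2, Int.ofNat 2, Int.ofNat 1, Int.negSucc 1, Int.ofNat 1, Int.negSucc 0,
    Int.ofNat 1, Int.ofNat 1, Int.ofNat 0, Int.negSucc 2, Int.ofNat 0, Int.negSucc 0],
  [Int.negSucc 1, Int.ofNat 1, Int.ofNat 1, Int.negSucc 0, Int.ofNat 0, Int.negSucc 0,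
    Int.ofNat 1, Int.ofNat 1, Int.ofNat 1, Int.negSucc 1, Int.ofNat 0, Int.negSucc 0]]

def bVA7 : List (List ℤ) :=
  [  [Int.ofNat 0, Int.ofNat 1, Int.negSucc 0],
  [Int.ofNat 1, Int.ofNat 0, Int.negSucc 0],
  [Int.ofNat 0, Int.ofNat 0, Int.negSucc 0],
  [Int.ofNat 2, Int.negSucc 0, Int.ofNat 0, Int.ofNat 2, Int.negSucc 0, Int.negSucc 0,
    Int.negSucc 0, Int.ofNat 0, Int.ofNat 2, Int.ofNat 0, Int.ofNat 0, Int.negSucc 1],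
  [Int.ofNat 3, Int.negSucc 0, Int.negSucc 0, Int.ofNat 2, Int.negSucc 2, Int.ofNat 0,
    Int.ofNat 0, Int.ofNat 2, Int.ofNat 2, Int.ofNat 2, Int.negSucc 1, Int.negSucc 1],
  [Int.ofNat 0, Int.negSucc 0, Int.ofNat 0, Int.ofNat 1, Int.negSucc 0, Int.ofNat 0,
    Int.negSucc 0, Int.ofNat 0, Int.ofNat 0, Int.ofNat 0, Int.ofNat 0, Int.negSucc 1],
  [Int.ofNat 0, Int.ofNat 0, Int.ofNat 0, Int.ofNat 0, Int.ofNat 0, Int.ofNat 0, Int.negSucc 0],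
  [Int.ofNat 3, Int.negSucc 0, Int.negSucc 0, Int.ofNat 2, Int.negSucc 0, Int.ofNat 0,
    Int.negSucc 0, Int.ofNat 0, Int.ofNat 1, Int.ofNat 2],
  [Int.ofNat 0, Int.ofNat 0, Int.ofNat 0, Int.ofNat 0, Int.negSucc 0, Int.ofNat 0, Int.ofNat 1,
    Int.ofNat 1, Int.ofNat 0, Int.ofNat 0, Int.negSucc 1],
  [Int.ofNat 2, Int.negSucc 0, Int.negSucc 0, Int.ofNat 0, Int.negSucc 0, Int.ofNat 1,
    Int.ofNat 0, Int.ofNat 1, Int.ofNat 0, Int.ofNat 2, Int.negSucc 0, Int.ofNat 1],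
  [Int.ofNat 2, Int.ofNat 0, Int.negSucc 0, Int.ofNat 1, Int.ofNat 0, Int.ofNat 0, Int.negSucc 0,
    Int.negSucc 0, Int.ofNat 0, Int.ofNat 1, Int.ofNat 0, Int.ofNat 1],
  [Int.negSucc 1, Int.ofNat 1, Int.ofNat 1, Int.negSucc 0, Int.ofNat 2, Int.negSucc 0,
    Int.ofNat 1, Int.negSucc 0, Int.negSucc 0, Int.negSucc 1, Int.ofNat 0, Int.ofNat 1]]

def bVP0 : List (List ℤ) :=
  [  [Int.ofNat 2, Int.ofNat 1, Int.negSucc 0, Int.ofNat 0, Int.ofNat 0, Int.ofNat 0, Int.ofNat 0,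
    Int.ofNat 0, Int.ofNat 0, Int.ofNat 2, Int.ofNat 0, Int.ofNat 2],
  [Int.negSucc 0, Int.ofNat 0, Int.ofNat 1],
  [Int.ofNat 2, Int.ofNat 0, Int.negSucc 0, Int.ofNat 0, Int.ofNat 0, Int.ofNat 0, Int.ofNat 0,
    Int.ofNat 0, Int.ofNat 0, Int.ofNat 2, Int.ofNat 0, Int.ofNat 2],
  [Int.ofNat 2, Int.negSucc 0, Int.ofNat 0, Int.ofNat 2, Int.negSucc 0, Int.negSucc 0,
    Int.negSucc 0, Int.ofNat 0, Int.ofNat 2, Int.ofNat 0, Int.ofNat 0, Int.negSucc 1],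
  [Int.ofNat 3, Int.negSucc 0, Int.negSucc 0, Int.ofNat 2, Int.negSucc 0, Int.ofNat 0,
    Int.ofNat 0, Int.ofNat 0, Int.ofNat 0, Int.ofNat 2],
  [Int.ofNat 2, Int.negSucc 0, Int.ofNat 0, Int.ofNat 1, Int.negSucc 0, Int.ofNat 0, Int.ofNat 1,
    Int.ofNat 0, Int.ofNat 0, Int.ofNat 2, Int.negSucc 1, Int.ofNat 2],
  [Int.negSucc 3, Int.ofNat 0, Int.ofNat 2, Int.negSucc 1, Int.ofNat 2, Int.ofNat 0, Int.ofNat 1,
    Int.negSucc 1, Int.negSucc 1, Int.negSucc 1, Int.ofNat 0, Int.ofNat 2],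
  [Int.ofNat 3, Int.negSucc 0, Int.negSucc 0, Int.ofNat 2, Int.negSucc 0, Int.ofNat 0,
    Int.negSucc 0, Int.ofNat 0, Int.ofNat 1, Int.ofNat 2],
  [Int.ofNat 0, Int.ofNat 0, Int.ofNat 0, Int.ofNat 0, Int.negSucc 0, Int.ofNat 0, Int.ofNat 1,
    Int.ofNat 1, Int.ofNat 0, Int.ofNat 0, Int.negSucc 1],
  [Int.negSucc 2, Int.negSucc 0, Int.ofNat 1, Int.negSucc 0, Int.ofNat 0, Int.ofNat 1,
    Int.ofNat 1, Int.ofNat 0, Int.negSucc 1, Int.negSucc 0],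
  [Int.ofNat 0, Int.ofNat 0, Int.ofNat 0, Int.ofNat 0, Int.negSucc 0, Int.ofNat 0, Int.ofNat 0,
    Int.ofNat 1, Int.ofNat 1, Int.ofNat 0, Int.negSucc 0],
  [Int.ofNat 1, Int.ofNat 1, Int.ofNat 0, Int.ofNat 1, Int.ofNat 0, Int.negSucc 0, Int.negSucc 0,
    Int.ofNat 0, Int.ofNat 2, Int.ofNat 0, Int.ofNat 0, Int.negSucc 0]]

def bVP1 : List (List ℤ) :=
  [  [Int.negSucc 1, Int.ofNat 0, Int.ofNat 1, Int.negSucc 0, Int.ofNat 2, Int.ofNat 0,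
    Int.negSucc 0, Int.negSucc 1, Int.negSucc 0, Int.negSucc 0, Int.ofNat 1, Int.ofNat 1],
  [Int.negSucc 1, Int.ofNat 0, Int.ofNat 1, Int.negSucc 0, Int.ofNat 2, Int.ofNat 0, Int.ofNat 0,
    Int.negSucc 1, Int.negSucc 0, Int.negSucc 0, Int.ofNat 1, Int.ofNat 1],
  [Int.negSucc 1, Int.ofNat 1, Int.ofNat 1, Int.negSucc 0, Int.ofNat 3, Int.negSucc 0,
    Int.negSucc 0, Int.negSucc 1, Int.ofNat 0, Int.negSucc 1, Int.ofNat 2],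
  [Int.ofNat 0, Int.ofNat 1, Int.ofNat 0, Int.ofNat 0, Int.ofNat 1, Int.negSucc 0, Int.ofNat 1],
  [Int.ofNat 0, Int.ofNat 1, Int.negSucc 0, Int.negSucc 0, Int.ofNat 1, Int.ofNat 0, Int.ofNat 0,
    Int.ofNat 0, Int.negSucc 0, Int.ofNat 1, Int.ofNat 1, Int.ofNat 1],
  [Int.negSucc 0, Int.ofNat 0, Int.ofNat 0, Int.negSucc 0, Int.ofNat 3, Int.ofNat 0, Int.ofNat 0,
    Int.negSucc 1, Int.negSucc 1, Int.ofNat 0, Int.ofNat 2, Int.ofNat 2],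
  [Int.ofNat 1, Int.negSucc 0],
  [Int.ofNat 0, Int.ofNat 0, Int.ofNat 0, Int.ofNat 0, Int.ofNat 1, Int.ofNat 0, Int.ofNat 0,
    Int.negSucc 0, Int.negSucc 0, Int.ofNat 1, Int.ofNat 1, Int.ofNat 1],
  [Int.ofNat 1, Int.negSucc 0, Int.negSucc 0, Int.ofNat 0, Int.ofNat 0, Int.ofNat 1, Int.ofNat 0,
    Int.ofNat 0, Int.negSucc 0, Int.ofNat 2, Int.ofNat 0, Int.ofNat 2],
  [Int.ofNat 2, Int.ofNat 0, Int.negSucc 0, Int.ofNat 0, Int.negSucc 0, Int.ofNat 0, Int.ofNat 0,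
    Int.ofNat 1, Int.ofNat 1, Int.ofNat 1],
  [Int.ofNat 1, Int.negSucc 0, Int.ofNat 0, Int.ofNat 1, Int.ofNat 0, Int.ofNat 0, Int.ofNat 0,
    Int.negSucc 0, Int.ofNat 0, Int.ofNat 1, Int.ofNat 0, Int.ofNat 1],
  [Int.negSucc 1, Int.negSucc 0, Int.ofNat 1, Int.ofNat 0, Int.ofNat 1, Int.ofNat 1, Int.ofNat 0,
    Int.negSucc 1, Int.negSucc 1, Int.ofNat 0, Int.ofNat 0, Int.ofNat 1]]

def bVP2 : List (List ℤ) :=
  [  [Int.ofNat 1],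
  [Int.ofNat 0, Int.ofNat 1],
  [Int.ofNat 0, Int.ofNat 0, Int.ofNat 1],
  [Int.ofNat 0, Int.ofNat 0, Int.ofNat 0, Int.ofNat 1, Int.negSucc 1, Int.ofNat 0, Int.negSucc 1,
    Int.ofNat 2, Int.ofNat 2, Int.ofNat 0, Int.ofNat 0, Int.negSucc 3],
  [Int.ofNat 4, Int.ofNat 0, Int.negSucc 1, Int.ofNat 2, Int.negSucc 0, Int.ofNat 0,
    Int.negSucc 3, Int.ofNat 0, Int.ofNat 2, Int.ofNat 2, Int.ofNat 2, Int.negSucc 1],
  [Int.negSucc 1, Int.ofNat 0, Int.ofNat 2, Int.ofNat 0, Int.ofNat 2, Int.negSucc 0,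
    Int.negSucc 1, Int.negSucc 1, Int.ofNat 0, Int.negSucc 1, Int.ofNat 2, Int.negSucc 1],
  [Int.ofNat 0, Int.ofNat 0, Int.ofNat 0, Int.ofNat 0, Int.ofNat 0, Int.ofNat 0, Int.ofNat 1],
  [Int.ofNat 4, Int.ofNat 0, Int.negSucc 1, Int.ofNat 2, Int.negSucc 1, Int.ofNat 0,
    Int.negSucc 1, Int.ofNat 1, Int.ofNat 2, Int.ofNat 2, Int.ofNat 0, Int.negSucc 1],
  [Int.ofNat 0, Int.ofNat 0, Int.ofNat 0, Int.ofNat 0, Int.ofNat 2, Int.ofNat 0, Int.negSucc 1,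
    Int.negSucc 1, Int.negSucc 0, Int.ofNat 0, Int.ofNat 2],
  [Int.ofNat 3, Int.ofNat 0, Int.negSucc 1, Int.ofNat 1, Int.negSucc 0, Int.ofNat 1, Int.ofNat 0,
    Int.ofNat 0, Int.ofNat 0, Int.ofNat 3, Int.ofNat 0, Int.ofNat 2],
  [Int.ofNat 0, Int.ofNat 0, Int.ofNat 0, Int.ofNat 0, Int.ofNat 0, Int.ofNat 0, Int.ofNat 0,
    Int.ofNat 0, Int.ofNat 0, Int.ofNat 0, Int.negSucc 0],
  [Int.negSucc 0, Int.ofNat 2, Int.ofNat 0, Int.negSucc 0, Int.ofNat 1, Int.negSucc 0,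
    Int.ofNat 0, Int.ofNat 0, Int.ofNat 0, Int.negSucc 1, Int.ofNat 0, Int.negSucc 0]]

def bVP3 : List (List ℤ) :=
  [  [Int.ofNat 0, Int.ofNat 1, Int.negSucc 0],
  [Int.ofNat 1, Int.ofNat 0, Int.negSucc 0],
  [Int.ofNat 0, Int.ofNat 0, Int.negSucc 0],
  [Int.ofNat 0, Int.negSucc 0, Int.ofNat 0, Int.ofNat 0, Int.negSucc 0, Int.ofNat 1,
    Int.negSucc 0],
  [Int.negSucc 2, Int.ofNat 1, Int.ofNat 1, Int.negSucc 1, Int.ofNat 1, Int.ofNat 0, Int.ofNat 0,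
    Int.ofNat 0, Int.ofNat 0, Int.negSucc 1],
  [Int.negSucc 1, Int.ofNat 1, Int.ofNat 0, Int.negSucc 0, Int.ofNat 1, Int.ofNat 0, Int.ofNat 1,
    Int.ofNat 0, Int.ofNat 0, Int.negSucc 1],
  [Int.ofNat 0, Int.ofNat 0, Int.ofNat 0, Int.ofNat 0, Int.ofNat 0, Int.ofNat 0, Int.ofNat 1],
  [Int.negSucc 2, Int.ofNat 1, Int.ofNat 1, Int.negSucc 1, Int.ofNat 1, Int.ofNat 0, Int.ofNat 1,
    Int.ofNat 0, Int.negSucc 0, Int.negSucc 1],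
  [Int.negSucc 1, Int.ofNat 2, Int.ofNat 0, Int.negSucc 1, Int.ofNat 1, Int.ofNat 0, Int.ofNat 1,
    Int.ofNat 1, Int.ofNat 0, Int.negSucc 1],
  [Int.negSucc 0, Int.ofNat 0, Int.ofNat 1, Int.negSucc 0, Int.ofNat 1, Int.negSucc 0,
    Int.ofNat 1, Int.ofNat 0, Int.ofNat 0, Int.negSucc 0],
  [Int.negSucc 0, Int.ofNat 1, Int.ofNat 0, Int.negSucc 0, Int.ofNat 1, Int.ofNat 0, Int.ofNat 1,
    Int.ofNat 0, Int.negSucc 0, Int.negSucc 0, Int.ofNat 0, Int.ofNat 1],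
  [Int.ofNat 2, Int.ofNat 1, Int.negSucc 1, Int.ofNat 0, Int.negSucc 0, Int.ofNat 1, Int.ofNat 0,
    Int.ofNat 1, Int.ofNat 0, Int.ofNat 1, Int.negSucc 0]]

def bVP4 : List (List ℤ) :=
  [  [Int.ofNat 1],
  [Int.ofNat 0, Int.ofNat 1],
  [Int.ofNat 0, Int.ofNat 0, Int.ofNat 1],
  [Int.negSucc 3, Int.ofNat 0, Int.ofNat 2, Int.negSucc 0, Int.ofNat 2, Int.ofNat 0, Int.ofNat 0,
    Int.negSucc 1, Int.negSucc 1, Int.negSucc 1, Int.ofNat 2],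
  [Int.negSucc 3, Int.ofNat 0, Int.ofNat 2, Int.negSucc 1, Int.ofNat 1, Int.ofNat 0, Int.ofNat 2,
    Int.ofNat 0, Int.negSucc 1, Int.negSucc 1],
  [Int.negSucc 1, Int.ofNat 0, Int.ofNat 2, Int.ofNat 0, Int.ofNat 0, Int.negSucc 0, Int.ofNat 0,
    Int.ofNat 0, Int.ofNat 0, Int.negSucc 1, Int.ofNat 0, Int.negSucc 1],
  [Int.ofNat 0, Int.ofNat 0, Int.ofNat 0, Int.ofNat 0, Int.ofNat 0, Int.ofNat 0, Int.negSucc 0],
  [Int.negSucc 3, Int.ofNat 0, Int.ofNat 2, Int.negSucc 1, Int.ofNat 2, Int.ofNat 0, Int.ofNat 0,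
    Int.negSucc 0, Int.negSucc 1, Int.negSucc 1, Int.ofNat 2],
  [Int.ofNat 0, Int.ofNat 0, Int.ofNat 0, Int.ofNat 0, Int.ofNat 0, Int.ofNat 0, Int.ofNat 0,
    Int.ofNat 0, Int.negSucc 0],
  [Int.negSucc 0, Int.ofNat 1, Int.ofNat 0, Int.negSucc 0, Int.ofNat 0, Int.ofNat 0, Int.ofNat 1,
    Int.ofNat 1, Int.ofNat 0, Int.ofNat 0, Int.negSucc 0, Int.ofNat 1],
  [Int.negSucc 1, Int.ofNat 1, Int.ofNat 1, Int.negSucc 0, Int.ofNat 2, Int.negSucc 0,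
    Int.ofNat 0, Int.negSucc 0, Int.negSucc 0, Int.negSucc 1, Int.ofNat 1],
  [Int.ofNat 1, Int.ofNat 0, Int.negSucc 0, Int.ofNat 0, Int.ofNat 0, Int.ofNat 1, Int.negSucc 0,
    Int.ofNat 0, Int.negSucc 0, Int.ofNat 1, Int.ofNat 1]]

def bVP5 : List (List ℤ) :=
  [  [Int.ofNat 0, Int.ofNat 1, Int.negSucc 0],
  [Int.ofNat 1, Int.ofNat 0, Int.negSucc 0],
  [Int.ofNat 0, Int.ofNat 0, Int.negSucc 0],
  [Int.ofNat 2, Int.negSucc 0, Int.ofNat 0, Int.ofNat 2, Int.negSucc 0, Int.negSucc 0,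
    Int.negSucc 0, Int.ofNat 0, Int.ofNat 2, Int.ofNat 0, Int.ofNat 0, Int.negSucc 1],
  [Int.ofNat 3, Int.negSucc 0, Int.negSucc 0, Int.ofNat 2, Int.negSucc 2, Int.ofNat 0,
    Int.ofNat 0, Int.ofNat 2, Int.ofNat 2, Int.ofNat 2, Int.negSucc 1, Int.negSucc 1],
  [Int.ofNat 0, Int.negSucc 0, Int.ofNat 0, Int.ofNat 1, Int.negSucc 0, Int.ofNat 0,
    Int.negSucc 0, Int.ofNat 0, Int.ofNat 0, Int.ofNat 0, Int.ofNat 0, Int.negSucc 1],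
  [Int.ofNat 0, Int.ofNat 0, Int.ofNat 0, Int.ofNat 0, Int.ofNat 0, Int.ofNat 0, Int.negSucc 0],
  [Int.ofNat 3, Int.negSucc 0, Int.negSucc 0, Int.ofNat 2, Int.negSucc 0, Int.ofNat 0,
    Int.negSucc 0, Int.ofNat 0, Int.ofNat 1, Int.ofNat 2],
  [Int.ofNat 0, Int.ofNat 0, Int.ofNat 0, Int.ofNat 0, Int.negSucc 0, Int.ofNat 0, Int.ofNat 1,
    Int.ofNat 1, Int.ofNat 0, Int.ofNat 0, Int.negSucc 1],
  [Int.ofNat 2, Int.negSucc 0, Int.negSucc 0, Int.ofNat 0, Int.negSucc 0, Int.ofNat 1,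
    Int.ofNat 0, Int.ofNat 1, Int.ofNat 0, Int.ofNat 2, Int.negSucc 0, Int.ofNat 1],
  [Int.ofNat 2, Int.ofNat 0, Int.negSucc 0, Int.ofNat 1, Int.ofNat 0, Int.ofNat 0, Int.negSucc 0,
    Int.negSucc 0, Int.ofNat 0, Int.ofNat 1, Int.ofNat 0, Int.ofNat 1],
  [Int.negSucc 1, Int.ofNat 1, Int.ofNat 1, Int.negSucc 0, Int.ofNat 2, Int.negSucc 0,
    Int.ofNat 1, Int.negSucc 0, Int.negSucc 0, Int.negSucc 1, Int.ofNat 0, Int.ofNat 1]]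

def bVW : List (List ℤ) :=
  [  [Int.ofNat 0, Int.ofNat 2, Int.ofNat 1, Int.ofNat 0, Int.ofNat 0, Int.negSucc 2, Int.ofNat 0,
    Int.ofNat 2, Int.ofNat 3, Int.negSucc 1, Int.ofNat 0, Int.negSucc 1],
  [Int.negSucc 1, Int.ofNat 0, Int.ofNat 0, Int.negSucc 1, Int.ofNat 1, Int.ofNat 1, Int.ofNat 1,
    Int.ofNat 0, Int.negSucc 1, Int.ofNat 0, Int.ofNat 0, Int.ofNat 2],
  [Int.negSucc 0, Int.ofNat 0, Int.ofNat 0, Int.ofNat 0, Int.ofNat 0, Int.ofNat 1, Int.ofNat 0,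
    Int.negSucc 0, Int.negSucc 0],
  [Int.ofNat 0, Int.ofNat 2, Int.ofNat 0, Int.ofNat 0, Int.ofNat 0, Int.negSucc 1, Int.ofNat 0,
    Int.ofNat 1, Int.ofNat 2, Int.negSucc 1, Int.ofNat 0, Int.negSucc 1],
  [Int.ofNat 0, Int.negSucc 0, Int.ofNat 0, Int.ofNat 0, Int.ofNat 0, Int.ofNat 1, Int.ofNat 1,
    Int.negSucc 0, Int.negSucc 0, Int.ofNat 1, Int.negSucc 0, Int.ofNat 1],
  [Int.ofNat 3, Int.negSucc 0, Int.negSucc 0, Int.ofNat 2, Int.negSucc 0, Int.ofNat 0,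
    Int.negSucc 0, Int.ofNat 0, Int.ofNat 1, Int.ofNat 2],
  [Int.ofNat 0, Int.negSucc 0, Int.ofNat 0, Int.ofNat 0, Int.negSucc 0, Int.ofNat 1, Int.ofNat 0,
    Int.ofNat 0, Int.negSucc 0, Int.ofNat 1, Int.negSucc 0, Int.ofNat 1],
  [Int.negSucc 1, Int.ofNat 0, Int.ofNat 1, Int.negSucc 0, Int.ofNat 1, Int.ofNat 0, Int.ofNat 0,
    Int.ofNat 0, Int.negSucc 0, Int.negSucc 0, Int.ofNat 1, Int.ofNat 1],
  [Int.negSucc 2, Int.ofNat 2, Int.ofNat 1, Int.negSucc 1, Int.ofNat 1, Int.negSucc 0,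
    Int.ofNat 1, Int.ofNat 1, Int.ofNat 0, Int.negSucc 2, Int.ofNat 1, Int.negSucc 0],
  [Int.ofNat 2, Int.ofNat 0, Int.ofNat 0, Int.ofNat 2, Int.negSucc 0, Int.negSucc 1,
    Int.negSucc 0, Int.ofNat 1, Int.ofNat 3, Int.ofNat 0, Int.ofNat 0, Int.negSucc 1],
  [Int.ofNat 0, Int.ofNat 0, Int.ofNat 0, Int.ofNat 0, Int.ofNat 1, Int.ofNat 0, Int.ofNat 1,
    Int.negSucc 0, Int.negSucc 0],
  [Int.ofNat 2, Int.negSucc 1, Int.ofNat 0, Int.ofNat 2, Int.negSucc 0, Int.ofNat 0,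
    Int.negSucc 0, Int.negSucc 0, Int.ofNat 1, Int.ofNat 2]]

def bVU0 : List (List ℤ) :=
  [  [Int.ofNat 4, Int.ofNat 0, Int.negSucc 1, Int.ofNat 0, Int.ofNat 1, Int.ofNat 0, Int.negSucc 1,
    Int.negSucc 0, Int.ofNat 0, Int.ofNat 2, Int.ofNat 2, Int.ofNat 2],
  [Int.negSucc 1, Int.ofNat 0, Int.ofNat 2, Int.ofNat 0, Int.ofNat 0, Int.ofNat 0, Int.ofNat 1,
    Int.ofNat 0, Int.negSucc 0, Int.negSucc 0, Int.negSucc 0, Int.negSucc 0],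
  [Int.ofNat 0, Int.ofNat 0, Int.ofNat 0, Int.ofNat 1, Int.negSucc 0, Int.ofNat 0, Int.ofNat 0,
    Int.ofNat 1, Int.ofNat 1, Int.ofNat 0, Int.ofNat 0, Int.negSucc 1],
  [Int.ofNat 2, Int.ofNat 0, Int.negSucc 0, Int.ofNat 0, Int.ofNat 0, Int.ofNat 0, Int.ofNat 0,
    Int.ofNat 0, Int.ofNat 0, Int.ofNat 1, Int.ofNat 1, Int.ofNat 1],
  [Int.negSucc 4, Int.ofNat 0, Int.ofNat 3, Int.ofNat 0, Int.ofNat 0, Int.negSucc 0, Int.ofNat 0,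
    Int.ofNat 0, Int.ofNat 1, Int.negSucc 3, Int.ofNat 0, Int.negSucc 3],
  [Int.ofNat 2, Int.ofNat 0, Int.negSucc 1, Int.ofNat 0, Int.negSucc 0, Int.ofNat 0, Int.ofNat 0,
    Int.ofNat 1, Int.ofNat 1, Int.ofNat 1, Int.negSucc 0, Int.ofNat 1],
  [Int.ofNat 0, Int.ofNat 1],
  [Int.ofNat 3, Int.ofNat 0, Int.negSucc 0, Int.ofNat 0, Int.ofNat 0, Int.ofNat 1, Int.ofNat 0,
    Int.ofNat 0, Int.negSucc 0, Int.ofNat 3, Int.negSucc 0, Int.ofNat 3],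
  [Int.ofNat 0, Int.negSucc 0, Int.ofNat 1, Int.ofNat 0, Int.ofNat 1, Int.ofNat 1, Int.ofNat 0,
    Int.negSucc 0, Int.negSucc 1, Int.ofNat 1, Int.ofNat 1, Int.ofNat 1],
  [Int.ofNat 2, Int.ofNat 1, Int.negSucc 1, Int.negSucc 0, Int.ofNat 2, Int.negSucc 0,
    Int.negSucc 1, Int.negSucc 0, Int.ofNat 1, Int.ofNat 0, Int.ofNat 2, Int.ofNat 2],
  [Int.negSucc 1, Int.negSucc 0, Int.ofNat 2, Int.ofNat 1, Int.ofNat 0, Int.negSucc 0,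
    Int.ofNat 0, Int.negSucc 0, Int.ofNat 1, Int.negSucc 1, Int.ofNat 0, Int.negSucc 1],
  [Int.negSucc 1, Int.ofNat 1, Int.ofNat 0, Int.negSucc 0, Int.ofNat 2, Int.negSucc 0,
    Int.negSucc 1, Int.negSucc 0, Int.ofNat 1, Int.negSucc 1, Int.ofNat 2]]

def bVU1 : List (List ℤ) :=
  [  [Int.ofNat 4, Int.negSucc 5, Int.ofNat 0, Int.ofNat 4, Int.negSucc 5, Int.ofNat 2,
    Int.negSucc 0, Int.ofNat 4, Int.ofNat 3, Int.ofNat 4, Int.negSucc 1, Int.negSucc 3],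
  [Int.negSucc 1, Int.ofNat 0, Int.ofNat 1, Int.ofNat 0, Int.ofNat 2, Int.ofNat 0, Int.negSucc 1,
    Int.negSucc 1, Int.negSucc 0, Int.negSucc 0, Int.ofNat 3, Int.negSucc 0],
  [Int.negSucc 1, Int.ofNat 3, Int.ofNat 0, Int.negSucc 1, Int.ofNat 2, Int.negSucc 0,
    Int.ofNat 1, Int.negSucc 0, Int.negSucc 0, Int.negSucc 1, Int.ofNat 0, Int.ofNat 2],
  [Int.negSucc 1, Int.negSucc 1, Int.ofNat 2, Int.ofNat 0, Int.negSucc 0, Int.ofNat 0,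
    Int.ofNat 0, Int.ofNat 1, Int.ofNat 1, Int.negSucc 0, Int.negSucc 0, Int.negSucc 0],
  [Int.ofNat 0, Int.ofNat 4, Int.negSucc 1, Int.negSucc 0, Int.ofNat 0, Int.ofNat 0, Int.ofNat 0,
    Int.ofNat 1],
  [Int.ofNat 2, Int.ofNat 0, Int.negSucc 0, Int.ofNat 0, Int.ofNat 0, Int.ofNat 0, Int.ofNat 0,
    Int.ofNat 0, Int.ofNat 0, Int.ofNat 1, Int.negSucc 0, Int.ofNat 1],
  [Int.ofNat 1, Int.ofNat 0, Int.negSucc 0],
  [Int.negSucc 1, Int.negSucc 3, Int.ofNat 3, Int.ofNat 1, Int.ofNat 1, Int.ofNat 0, Int.ofNat 0,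
    Int.negSucc 1, Int.negSucc 0, Int.negSucc 0, Int.ofNat 1, Int.negSucc 0],
  [Int.negSucc 2, Int.negSucc 2, Int.ofNat 3, Int.ofNat 1, Int.ofNat 0, Int.ofNat 0, Int.ofNat 0,
    Int.negSucc 0, Int.ofNat 0, Int.negSucc 0, Int.ofNat 1, Int.negSucc 0],
  [Int.ofNat 6, Int.negSucc 2, Int.negSucc 1, Int.ofNat 3, Int.negSucc 3, Int.ofNat 1,
    Int.negSucc 1, Int.ofNat 3, Int.ofNat 3, Int.ofNat 4, Int.negSucc 1, Int.negSucc 1],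
  [Int.negSucc 1, Int.ofNat 3, Int.ofNat 0, Int.negSucc 0, Int.ofNat 0, Int.negSucc 0,
    Int.ofNat 0, Int.ofNat 1, Int.ofNat 1, Int.negSucc 1, Int.ofNat 0, Int.negSucc 1],
  [Int.ofNat 10, Int.ofNat 1, Int.negSucc 5, Int.ofNat 3, Int.negSucc 3, Int.ofNat 1,
    Int.negSucc 1, Int.ofNat 3, Int.ofNat 3, Int.ofNat 6, Int.negSucc 1]]

def bVU2 : List (List ℤ) :=
  [  [Int.ofNat 0, Int.negSucc 2, Int.negSucc 0, Int.negSucc 0, Int.negSucc 1, Int.ofNat 4,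
    Int.negSucc 1, Int.ofNat 1, Int.negSucc 1, Int.ofNat 4],
  [Int.ofNat 3, Int.ofNat 0, Int.negSucc 0, Int.ofNat 1, Int.negSucc 1, Int.ofNat 0, Int.ofNat 0,
    Int.ofNat 2, Int.ofNat 2, Int.ofNat 2, Int.negSucc 1],
  [Int.ofNat 1, Int.ofNat 1, Int.ofNat 0, Int.ofNat 1, Int.ofNat 1, Int.negSucc 1, Int.ofNat 1,
    Int.negSucc 0, Int.ofNat 1, Int.negSucc 1],
  [Int.ofNat 1, Int.negSucc 0, Int.negSucc 0, Int.ofNat 0, Int.negSucc 0, Int.ofNat 2,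
    Int.negSucc 0, Int.ofNat 0, Int.negSucc 0, Int.ofNat 2],
  [Int.negSucc 1, Int.ofNat 2, Int.ofNat 1, Int.negSucc 0, Int.ofNat 2, Int.negSucc 1,
    Int.ofNat 4, Int.ofNat 0, Int.ofNat 0, Int.negSucc 2, Int.negSucc 0, Int.ofNat 1],
  [Int.negSucc 3, Int.ofNat 0, Int.ofNat 2, Int.negSucc 1, Int.ofNat 2, Int.ofNat 0, Int.ofNat 0,
    Int.negSucc 0, Int.negSucc 1, Int.negSucc 1, Int.ofNat 2],
  [Int.ofNat 0, Int.ofNat 0, Int.ofNat 1, Int.ofNat 1, Int.ofNat 0, Int.negSucc 1, Int.ofNat 0,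
    Int.ofNat 0, Int.ofNat 1, Int.negSucc 0, Int.negSucc 0, Int.negSucc 0],
  [Int.ofNat 3, Int.negSucc 1, Int.negSucc 0, Int.ofNat 2, Int.negSucc 1, Int.ofNat 1,
    Int.negSucc 3, Int.ofNat 0, Int.ofNat 1, Int.ofNat 3, Int.ofNat 1, Int.negSucc 0],
  [Int.ofNat 6, Int.negSucc 1, Int.negSucc 2, Int.ofNat 3, Int.negSucc 3, Int.ofNat 2,
    Int.negSucc 2, Int.ofNat 1, Int.ofNat 2, Int.ofNat 5, Int.negSucc 0, Int.negSucc 0],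
  [Int.negSucc 3, Int.negSucc 1, Int.ofNat 2, Int.negSucc 1, Int.ofNat 1, Int.ofNat 2,
    Int.negSucc 0, Int.negSucc 0, Int.negSucc 2, Int.ofNat 0, Int.ofNat 2],
  [Int.negSucc 1, Int.ofNat 2, Int.ofNat 0, Int.negSucc 1, Int.ofNat 1, Int.ofNat 0, Int.ofNat 3,
    Int.ofNat 1, Int.negSucc 0, Int.negSucc 1],
  [Int.negSucc 5, Int.ofNat 0, Int.ofNat 4, Int.negSucc 1, Int.ofNat 3, Int.negSucc 1,
    Int.ofNat 3, Int.negSucc 0, Int.negSucc 0, Int.negSucc 3]]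

def bVU3 : List (List ℤ) :=
  [  [Int.negSucc 7, Int.ofNat 5, Int.ofNat 3, Int.negSucc 4, Int.ofNat 6, Int.negSucc 3,
    Int.ofNat 6, Int.ofNat 1, Int.negSucc 1, Int.negSucc 7],
  [Int.negSucc 0, Int.ofNat 0, Int.ofNat 1, Int.negSucc 0],
  [Int.ofNat 5, Int.negSucc 2, Int.negSucc 1, Int.ofNat 3, Int.negSucc 2, Int.ofNat 2,
    Int.negSucc 2, Int.negSucc 0, Int.ofNat 1, Int.ofNat 4],
  [Int.negSucc 2, Int.ofNat 3, Int.ofNat 1, Int.negSucc 1, Int.ofNat 3, Int.negSucc 1,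
    Int.ofNat 3, Int.ofNat 0, Int.negSucc 0, Int.negSucc 3],
  [Int.ofNat 4, Int.negSucc 3, Int.negSucc 0, Int.ofNat 3, Int.negSucc 1, Int.ofNat 2,
    Int.negSucc 3, Int.negSucc 1, Int.ofNat 0, Int.ofNat 5, Int.ofNat 1, Int.ofNat 1],
  [Int.ofNat 0, Int.ofNat 0, Int.ofNat 0, Int.ofNat 0, Int.ofNat 0, Int.ofNat 0, Int.ofNat 0,
    Int.ofNat 1],
  [Int.negSucc 1, Int.ofNat 0, Int.ofNat 1, Int.negSucc 0, Int.ofNat 0, Int.ofNat 0, Int.ofNat 0,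
    Int.ofNat 0, Int.ofNat 1, Int.negSucc 0, Int.ofNat 1, Int.negSucc 0],
  [Int.negSucc 2, Int.ofNat 2, Int.ofNat 1, Int.negSucc 1, Int.ofNat 0, Int.negSucc 0,
    Int.ofNat 2, Int.ofNat 2, Int.ofNat 1, Int.negSucc 2, Int.negSucc 0, Int.negSucc 0],
  [Int.negSucc 3, Int.ofNat 4, Int.ofNat 1, Int.negSucc 2, Int.ofNat 2, Int.negSucc 1,
    Int.ofNat 3, Int.ofNat 1, Int.ofNat 0, Int.negSucc 4, Int.negSucc 0, Int.negSucc 0],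
  [Int.negSucc 3, Int.ofNat 2, Int.ofNat 2, Int.negSucc 1, Int.ofNat 3, Int.negSucc 1,
    Int.ofNat 3, Int.ofNat 1, Int.negSucc 0, Int.negSucc 3],
  [Int.ofNat 4, Int.negSucc 1, Int.negSucc 1, Int.ofNat 2, Int.negSucc 0, Int.ofNat 2,
    Int.negSucc 2, Int.negSucc 0, Int.negSucc 0, Int.ofNat 4, Int.ofNat 0, Int.ofNat 2],
  [Int.negSucc 1, Int.negSucc 1, Int.ofNat 2, Int.ofNat 0, Int.ofNat 1, Int.ofNat 0,
    Int.negSucc 0, Int.negSucc 0, Int.negSucc 0, Int.ofNat 0, Int.ofNat 2]]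

def bVF0 : List (List ℤ) :=
  [  [Int.ofNat 0, Int.ofNat 0, Int.ofNat 0, Int.ofNat 1, Int.ofNat 0, Int.ofNat 0, Int.negSucc 2,
    Int.ofNat 5, Int.ofNat 6, Int.negSucc 12, Int.ofNat 0, Int.ofNat 0, Int.ofNat 0, Int.ofNat 1,
    Int.ofNat 0, Int.ofNat 0, Int.negSucc 0, Int.ofNat 1, Int.ofNat 0, Int.negSucc 8,
    Int.negSucc 0, Int.ofNat 0, Int.negSucc 5, Int.ofNat 11, Int.ofNat 0, Int.ofNat 0,
    Int.ofNat 0, Int.negSucc 0, Int.ofNat 0, Int.ofNat 0, Int.ofNat 0, Int.negSucc 0],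
  [Int.ofNat 0, Int.ofNat 0, Int.ofNat 0, Int.ofNat 0, Int.negSucc 1, Int.negSucc 0, Int.ofNat 2,
    Int.ofNat 3, Int.negSucc 4, Int.negSucc 1, Int.ofNat 0, Int.ofNat 0, Int.ofNat 0,
    Int.ofNat 0, Int.ofNat 0, Int.ofNat 3, Int.ofNat 0, Int.negSucc 0, Int.ofNat 1, Int.ofNat 7,
    Int.ofNat 12, Int.ofNat 22, Int.ofNat 21, Int.ofNat 18, Int.ofNat 0, Int.ofNat 1,
    Int.ofNat 1, Int.negSucc 0, Int.ofNat 0, Int.ofNat 1, Int.negSucc 0, Int.ofNat 0,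
    Int.ofNat 1, Int.ofNat 0, Int.negSucc 0, Int.ofNat 1],
  [Int.ofNat 0, Int.ofNat 0, Int.ofNat 0, Int.ofNat 1, Int.ofNat 0, Int.negSucc 0, Int.ofNat 1,
    Int.ofNat 1, Int.ofNat 3, Int.negSucc 9, Int.ofNat 0, Int.ofNat 0, Int.ofNat 0, Int.ofNat 1,
    Int.ofNat 0, Int.ofNat 1, Int.negSucc 0, Int.ofNat 1, Int.ofNat 1, Int.negSucc 1,
    Int.ofNat 6, Int.ofNat 7, Int.ofNat 2, Int.ofNat 13, Int.ofNat 0, Int.ofNat 0, Int.ofNat 0,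
    Int.ofNat 0, Int.ofNat 1, Int.ofNat 0, Int.ofNat 0, Int.ofNat 0, Int.ofNat 0, Int.negSucc 0],
  [Int.ofNat 0, Int.ofNat 0, Int.ofNat 1, Int.ofNat 1, Int.ofNat 1, Int.ofNat 1, Int.ofNat 0,
    Int.ofNat 3, Int.ofNat 9, Int.ofNat 0, Int.ofNat 0, Int.ofNat 0, Int.negSucc 0, Int.ofNat 1,
    Int.negSucc 0, Int.negSucc 2, Int.ofNat 0, Int.ofNat 1, Int.negSucc 2, Int.negSucc 10,
    Int.negSucc 6, Int.negSucc 15, Int.negSucc 18, Int.negSucc 12, Int.negSucc 1, Int.negSucc 0,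
    Int.ofNat 1, Int.ofNat 0, Int.ofNat 0, Int.ofNat 0, Int.negSucc 1],
  [Int.ofNat 0, Int.ofNat 0, Int.negSucc 0, Int.ofNat 1, Int.ofNat 0, Int.ofNat 2, Int.negSucc 4,
    Int.ofNat 5, Int.ofNat 6, Int.negSucc 5, Int.ofNat 0, Int.ofNat 0, Int.negSucc 0,
    Int.ofNat 1, Int.negSucc 1, Int.negSucc 1, Int.ofNat 1, Int.negSucc 0, Int.negSucc 1,
    Int.negSucc 2, Int.ofNat 3, Int.ofNat 3, Int.ofNat 2, Int.ofNat 13, Int.ofNat 0, Int.ofNat 0,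
    Int.negSucc 0, Int.ofNat 0, Int.ofNat 0, Int.ofNat 1, Int.negSucc 0, Int.negSucc 0,
    Int.ofNat 0, Int.ofNat 1, Int.ofNat 0, Int.ofNat 1],
  [Int.ofNat 0, Int.ofNat 0, Int.ofNat 0, Int.negSucc 0, Int.negSucc 1, Int.ofNat 0, Int.ofNat 2,
    Int.ofNat 6, Int.negSucc 4, Int.negSucc 7, Int.ofNat 0, Int.ofNat 0, Int.ofNat 0,
    Int.negSucc 0, Int.ofNat 0, Int.ofNat 2, Int.ofNat 0, Int.negSucc 1, Int.negSucc 0,
    Int.ofNat 4, Int.ofNat 10, Int.ofNat 24, Int.ofNat 18, Int.ofNat 22, Int.ofNat 0,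
    Int.ofNat 1, Int.ofNat 0, Int.negSucc 0, Int.ofNat 0, Int.ofNat 1, Int.negSucc 0,
    Int.ofNat 0, Int.ofNat 0, Int.ofNat 1, Int.negSucc 1, Int.ofNat 1],
  [Int.ofNat 0, Int.ofNat 0, Int.ofNat 0, Int.negSucc 0, Int.ofNat 0, Int.ofNat 1, Int.negSucc 0,
    Int.ofNat 3, Int.negSucc 5, Int.negSucc 7, Int.ofNat 0, Int.ofNat 0, Int.ofNat 0,
    Int.negSucc 0, Int.ofNat 0, Int.ofNat 1, Int.negSucc 0, Int.negSucc 0, Int.ofNat 0,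
    Int.ofNat 9, Int.ofNat 10, Int.ofNat 25, Int.ofNat 20, Int.ofNat 26, Int.ofNat 2,
    Int.ofNat 1, Int.negSucc 0, Int.ofNat 0, Int.ofNat 0, Int.ofNat 1, Int.ofNat 1,
    Int.negSucc 0, Int.negSucc 0, Int.ofNat 0, Int.negSucc 0, Int.ofNat 1],
  [Int.ofNat 0, Int.ofNat 0, Int.ofNat 0, Int.ofNat 0, Int.ofNat 0, Int.ofNat 0, Int.ofNat 1,
    Int.negSucc 1, Int.ofNat 5, Int.ofNat 3, Int.ofNat 0, Int.ofNat 0, Int.ofNat 0, Int.ofNat 0,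
    Int.ofNat 0, Int.negSucc 1, Int.ofNat 1, Int.ofNat 0, Int.negSucc 0, Int.negSucc 9,
    Int.negSucc 11, Int.negSucc 22, Int.negSucc 22, Int.negSucc 22, Int.negSucc 0, Int.negSucc 0,
    Int.negSucc 0, Int.ofNat 1, Int.ofNat 0, Int.negSucc 0, Int.ofNat 0, Int.ofNat 0,
    Int.ofNat 0, Int.negSucc 0, Int.ofNat 1],
  [Int.ofNat 0, Int.ofNat 1, Int.negSucc 1, Int.ofNat 1, Int.negSucc 1, Int.ofNat 0, Int.ofNat 1,
    Int.ofNat 3, Int.negSucc 4, Int.negSucc 10, Int.ofNat 0, Int.ofNat 1, Int.ofNat 0,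
    Int.ofNat 1, Int.ofNat 0, Int.ofNat 2, Int.negSucc 0, Int.negSucc 2, Int.ofNat 1,
    Int.ofNat 6, Int.ofNat 11, Int.ofNat 24, Int.ofNat 18, Int.ofNat 26, Int.ofNat 1,
    Int.ofNat 1, Int.negSucc 0, Int.ofNat 0, Int.ofNat 0, Int.ofNat 1, Int.ofNat 1, Int.ofNat 0,
    Int.negSucc 0, Int.ofNat 1, Int.negSucc 1, Int.ofNat 1],
  [Int.ofNat 0, Int.ofNat 0, Int.negSucc 1, Int.negSucc 0, Int.negSucc 0, Int.ofNat 0,
    Int.negSucc 0, Int.negSucc 3, Int.negSucc 8, Int.ofNat 2, Int.ofNat 0, Int.ofNat 0,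
    Int.ofNat 0, Int.negSucc 0, Int.negSucc 0, Int.ofNat 2, Int.ofNat 1, Int.negSucc 1,
    Int.ofNat 3, Int.ofNat 19, Int.ofNat 16, Int.ofNat 26, Int.ofNat 31, Int.ofNat 24,
    Int.ofNat 2, Int.ofNat 1, Int.negSucc 0, Int.ofNat 1, Int.ofNat 1, Int.ofNat 1, Int.ofNat 1,
    Int.ofNat 0, Int.ofNat 0, Int.ofNat 0, Int.ofNat 0, Int.ofNat 1],
  [Int.ofNat 0, Int.ofNat 0, Int.ofNat 1, Int.negSucc 0, Int.negSucc 0, Int.negSucc 0,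
    Int.ofNat 1, Int.ofNat 2, Int.negSucc 1, Int.negSucc 3, Int.ofNat 0, Int.ofNat 0,
    Int.ofNat 1, Int.negSucc 0, Int.ofNat 1, Int.ofNat 1, Int.negSucc 0, Int.ofNat 0,
    Int.ofNat 0, Int.negSucc 6, Int.negSucc 7, Int.negSucc 4, Int.negSucc 8, Int.negSucc 6,
    Int.ofNat 0, Int.ofNat 0, Int.ofNat 0, Int.ofNat 0, Int.ofNat 0, Int.negSucc 0, Int.ofNat 1,
    Int.ofNat 0, Int.negSucc 0, Int.negSucc 0],
  [Int.ofNat 0, Int.ofNat 1, Int.ofNat 0, Int.ofNat 2, Int.negSucc 0, Int.ofNat 0, Int.ofNat 3,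
    Int.ofNat 3, Int.ofNat 3, Int.negSucc 4, Int.ofNat 0, Int.ofNat 1, Int.ofNat 0, Int.ofNat 2,
    Int.ofNat 1, Int.ofNat 0, Int.negSucc 0, Int.negSucc 0, Int.negSucc 0, Int.negSucc 7,
    Int.negSucc 2, Int.negSucc 3, Int.negSucc 9, Int.negSucc 3, Int.negSucc 0, Int.ofNat 0,
    Int.ofNat 0, Int.ofNat 0, Int.negSucc 0, Int.ofNat 0, Int.ofNat 0, Int.ofNat 0, Int.ofNat 0,
    Int.ofNat 0, Int.negSucc 0]]

def bVF1 : List (List ℤ) :=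
  [  [Int.ofNat 0, Int.ofNat 0, Int.ofNat 0, Int.ofNat 0, Int.negSucc 0, Int.ofNat 1, Int.negSucc 3,
    Int.ofNat 7, Int.negSucc 0, Int.negSucc 5, Int.ofNat 0, Int.ofNat 0, Int.ofNat 0,
    Int.ofNat 0, Int.negSucc 0, Int.ofNat 1, Int.ofNat 0, Int.negSucc 0, Int.negSucc 0,
    Int.ofNat 3, Int.ofNat 9, Int.ofNat 19, Int.ofNat 19, Int.ofNat 24, Int.ofNat 0, Int.ofNat 1,
    Int.ofNat 1, Int.negSucc 0, Int.ofNat 0, Int.ofNat 1, Int.negSucc 0, Int.ofNat 0,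
    Int.ofNat 0, Int.ofNat 2, Int.negSucc 0],
  [Int.ofNat 0, Int.ofNat 0, Int.ofNat 0, Int.ofNat 1, Int.negSucc 0, Int.ofNat 0, Int.negSucc 4,
    Int.ofNat 8, Int.ofNat 5, Int.negSucc 11, Int.ofNat 0, Int.ofNat 0, Int.ofNat 0, Int.ofNat 1,
    Int.negSucc 0, Int.ofNat 0, Int.negSucc 0, Int.ofNat 0, Int.negSucc 0, Int.negSucc 11,
    Int.negSucc 4, Int.negSucc 1, Int.negSucc 6, Int.ofNat 8, Int.ofNat 0, Int.ofNat 0,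
    Int.ofNat 0, Int.negSucc 0, Int.ofNat 0, Int.ofNat 0, Int.ofNat 0, Int.negSucc 0,
    Int.negSucc 0, Int.ofNat 0, Int.ofNat 0, Int.ofNat 1],
  [Int.ofNat 0, Int.ofNat 0, Int.negSucc 1, Int.negSucc 0, Int.negSucc 0, Int.ofNat 0,
    Int.negSucc 2, Int.negSucc 0, Int.ofNat 0, Int.negSucc 3, Int.ofNat 0, Int.ofNat 0,
    Int.ofNat 0, Int.negSucc 0, Int.negSucc 0, Int.ofNat 0, Int.ofNat 1, Int.negSucc 0,
    Int.ofNat 2, Int.ofNat 2, Int.ofNat 2, Int.ofNat 3, Int.ofNat 4, Int.ofNat 9, Int.ofNat 0,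
    Int.ofNat 0, Int.ofNat 0, Int.ofNat 0, Int.ofNat 1, Int.ofNat 0, Int.ofNat 0, Int.ofNat 0,
    Int.ofNat 0, Int.ofNat 1],
  [Int.ofNat 0, Int.ofNat 0, Int.ofNat 1, Int.ofNat 5, Int.ofNat 1, Int.negSucc 0, Int.negSucc 1,
    Int.ofNat 9, Int.ofNat 17, Int.negSucc 13, Int.ofNat 0, Int.ofNat 0, Int.negSucc 0,
    Int.ofNat 5, Int.negSucc 0, Int.negSucc 0, Int.negSucc 1, Int.ofNat 3, Int.negSucc 2,
    Int.negSucc 22, Int.negSucc 4, Int.negSucc 15, Int.negSucc 22, Int.negSucc 0, Int.negSucc 1,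
    Int.negSucc 0, Int.ofNat 1, Int.negSucc 1, Int.ofNat 0, Int.ofNat 0, Int.negSucc 1],
  [Int.ofNat 0, Int.ofNat 2, Int.negSucc 4, Int.ofNat 6, Int.negSucc 0, Int.ofNat 1,
    Int.negSucc 5, Int.ofNat 4, Int.ofNat 8, Int.negSucc 27, Int.ofNat 0, Int.ofNat 2,
    Int.negSucc 0, Int.ofNat 6, Int.negSucc 0, Int.ofNat 1, Int.negSucc 1, Int.negSucc 1,
    Int.ofNat 4, Int.ofNat 2, Int.ofNat 20, Int.ofNat 27, Int.ofNat 18, Int.ofNat 53,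
    Int.ofNat 2, Int.ofNat 1, Int.negSucc 1, Int.ofNat 0, Int.ofNat 0, Int.ofNat 2, Int.ofNat 2,
    Int.negSucc 1, Int.ofNat 0, Int.ofNat 1, Int.negSucc 0, Int.ofNat 1],
  [Int.ofNat 0, Int.ofNat 2, Int.negSucc 3, Int.ofNat 5, Int.negSucc 5, Int.ofNat 2,
    Int.negSucc 9, Int.ofNat 17, Int.negSucc 1, Int.negSucc 20, Int.ofNat 0, Int.ofNat 2,
    Int.ofNat 0, Int.ofNat 5, Int.negSucc 1, Int.ofNat 4, Int.ofNat 0, Int.negSucc 6,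
    Int.ofNat 0, Int.ofNat 3, Int.ofNat 21, Int.ofNat 45, Int.ofNat 43, Int.ofNat 61,
    Int.ofNat 2, Int.ofNat 3, Int.negSucc 1, Int.negSucc 0, Int.negSucc 1, Int.ofNat 3,
    Int.ofNat 1, Int.negSucc 1, Int.ofNat 0, Int.ofNat 3, Int.negSucc 1, Int.ofNat 3],
  [Int.ofNat 0, Int.ofNat 2, Int.negSucc 3, Int.ofNat 3, Int.negSucc 1, Int.ofNat 1,
    Int.negSucc 0, Int.ofNat 0, Int.negSucc 0, Int.negSucc 16, Int.ofNat 0, Int.ofNat 2,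
    Int.ofNat 0, Int.ofNat 3, Int.ofNat 0, Int.ofNat 1, Int.negSucc 0, Int.negSucc 3,
    Int.ofNat 3, Int.ofNat 6, Int.ofNat 13, Int.ofNat 22, Int.ofNat 15, Int.ofNat 33,
    Int.ofNat 2, Int.ofNat 1, Int.negSucc 2, Int.ofNat 2, Int.ofNat 0, Int.ofNat 1, Int.ofNat 3,
    Int.negSucc 0, Int.negSucc 0, Int.ofNat 0, Int.negSucc 0, Int.ofNat 1],
  [Int.ofNat 0, Int.negSucc 0, Int.ofNat 1, Int.ofNat 1, Int.ofNat 3, Int.ofNat 0, Int.negSucc 1,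
    Int.ofNat 0, Int.ofNat 11, Int.negSucc 2, Int.ofNat 0, Int.negSucc 0, Int.negSucc 0,
    Int.ofNat 1, Int.negSucc 0, Int.negSucc 1, Int.ofNat 0, Int.ofNat 4, Int.negSucc 0,
    Int.negSucc 5, Int.ofNat 1, Int.negSucc 9, Int.negSucc 9, Int.ofNat 0, Int.negSucc 0,
    Int.negSucc 0, Int.ofNat 1, Int.negSucc 0, Int.ofNat 1, Int.ofNat 0, Int.negSucc 1,
    Int.ofNat 0, Int.ofNat 1, Int.ofNat 0, Int.ofNat 1, Int.negSucc 0],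
  [Int.ofNat 0, Int.ofNat 2, Int.negSucc 4, Int.ofNat 1, Int.negSucc 4, Int.ofNat 0, Int.ofNat 1,
    Int.negSucc 2, Int.negSucc 12, Int.negSucc 5, Int.ofNat 0, Int.ofNat 2, Int.ofNat 1,
    Int.ofNat 1, Int.ofNat 1, Int.ofNat 4, Int.ofNat 1, Int.negSucc 6, Int.ofNat 5, Int.ofNat 16,
    Int.ofNat 14, Int.ofNat 30, Int.ofNat 30, Int.ofNat 28, Int.ofNat 3, Int.ofNat 2,
    Int.negSucc 3, Int.ofNat 2, Int.negSucc 0, Int.ofNat 1, Int.ofNat 4, Int.negSucc 0,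
    Int.ofNat 0, Int.ofNat 0, Int.negSucc 0, Int.ofNat 2],
  [Int.ofNat 0, Int.ofNat 1, Int.negSucc 3, Int.negSucc 0, Int.ofNat 1, Int.ofNat 0, Int.ofNat 2,
    Int.negSucc 14, Int.negSucc 1, Int.negSucc 1, Int.ofNat 0, Int.ofNat 1, Int.ofNat 0,
    Int.negSucc 0, Int.ofNat 1, Int.negSucc 1, Int.ofNat 0, Int.negSucc 0, Int.ofNat 6,
    Int.ofNat 7, Int.negSucc 4, Int.negSucc 11, Int.negSucc 14, Int.negSucc 8, Int.ofNat 2,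
    Int.negSucc 0, Int.negSucc 2, Int.ofNat 3, Int.ofNat 1, Int.negSucc 0, Int.ofNat 4,
    Int.negSucc 0, Int.negSucc 0, Int.negSucc 1, Int.ofNat 1],
  [Int.ofNat 0, Int.ofNat 0, Int.ofNat 0, Int.negSucc 0, Int.ofNat 0, Int.ofNat 1, Int.ofNat 1,
    Int.negSucc 0, Int.negSucc 0, Int.ofNat 2, Int.ofNat 0, Int.ofNat 0, Int.ofNat 0,
    Int.negSucc 0, Int.ofNat 0, Int.negSucc 0, Int.ofNat 1, Int.negSucc 0, Int.negSucc 0,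
    Int.ofNat 2, Int.ofNat 0, Int.ofNat 0, Int.ofNat 0, Int.negSucc 1, Int.ofNat 0, Int.ofNat 0,
    Int.negSucc 0, Int.ofNat 1],
  [Int.ofNat 0, Int.negSucc 0, Int.ofNat 2, Int.negSucc 0, Int.ofNat 0, Int.negSucc 0,
    Int.ofNat 3, Int.ofNat 1, Int.negSucc 1, Int.ofNat 9, Int.ofNat 0, Int.negSucc 0,
    Int.ofNat 0, Int.negSucc 0, Int.ofNat 0, Int.ofNat 1, Int.ofNat 1, Int.ofNat 1,
    Int.negSucc 1, Int.ofNat 1, Int.ofNat 1, Int.ofNat 0, Int.ofNat 4, Int.negSucc 8,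
    Int.negSucc 0, Int.ofNat 0, Int.ofNat 1, Int.negSucc 0, Int.ofNat 0, Int.ofNat 0,
    Int.negSucc 1, Int.ofNat 1, Int.ofNat 1]]

def bVF2 : List (List ℤ) :=
  [  [Int.ofNat 0, Int.ofNat 0, Int.ofNat 0, Int.ofNat 0, Int.ofNat 0, Int.ofNat 0, Int.ofNat 0,
    Int.ofNat 0, Int.ofNat 0, Int.ofNat 0, Int.ofNat 0, Int.ofNat 0, Int.ofNat 0, Int.ofNat 0,
    Int.ofNat 0, Int.ofNat 0, Int.ofNat 0, Int.ofNat 0, Int.ofNat 0, Int.ofNat 0, Int.ofNat 0,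
    Int.ofNat 0, Int.ofNat 0, Int.ofNat 0, Int.ofNat 0, Int.ofNat 0, Int.ofNat 0, Int.negSucc 0,
    Int.ofNat 0, Int.ofNat 0, Int.ofNat 0, Int.negSucc 0, Int.ofNat 1, Int.ofNat 1],
  [Int.ofNat 0, Int.ofNat 0, Int.ofNat 0, Int.ofNat 0, Int.negSucc 1, Int.ofNat 0, Int.negSucc 2,
    Int.ofNat 1, Int.negSucc 2, Int.ofNat 1, Int.ofNat 0, Int.ofNat 0, Int.ofNat 0, Int.ofNat 0,
    Int.ofNat 0, Int.ofNat 0, Int.ofNat 1, Int.negSucc 0, Int.ofNat 1, Int.negSucc 0,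
    Int.negSucc 5, Int.negSucc 1, Int.negSucc 0, Int.negSucc 2, Int.ofNat 0, Int.ofNat 0,
    Int.ofNat 0, Int.negSucc 0, Int.ofNat 0, Int.ofNat 0, Int.ofNat 0, Int.negSucc 0,
    Int.ofNat 0, Int.ofNat 1, Int.ofNat 0, Int.ofNat 1],
  [Int.ofNat 0, Int.ofNat 0, Int.negSucc 1, Int.ofNat 0, Int.negSucc 0, Int.ofNat 0, Int.ofNat 2,
    Int.ofNat 3, Int.negSucc 2, Int.negSucc 9, Int.ofNat 0, Int.ofNat 0, Int.ofNat 0,
    Int.ofNat 0, Int.negSucc 0, Int.ofNat 2, Int.ofNat 0, Int.negSucc 0, Int.ofNat 1,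
    Int.ofNat 4, Int.ofNat 12, Int.ofNat 21, Int.ofNat 16, Int.ofNat 23, Int.ofNat 0,
    Int.ofNat 1, Int.ofNat 0, Int.negSucc 0, Int.ofNat 0, Int.ofNat 1, Int.ofNat 0,
    Int.negSucc 0, Int.ofNat 2, Int.ofNat 1, Int.negSucc 0, Int.ofNat 1],
  [Int.ofNat 0, Int.ofNat 0, Int.ofNat 0, Int.ofNat 0, Int.ofNat 0, Int.negSucc 0, Int.negSucc 1,
    Int.ofNat 2, Int.ofNat 8, Int.ofNat 0, Int.ofNat 0, Int.ofNat 0, Int.ofNat 0, Int.ofNat 0,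
    Int.ofNat 0, Int.negSucc 0, Int.ofNat 0, Int.ofNat 0, Int.negSucc 1, Int.negSucc 12,
    Int.negSucc 11, Int.negSucc 21, Int.negSucc 21, Int.negSucc 16, Int.ofNat 0, Int.negSucc 0,
    Int.negSucc 0, Int.ofNat 0, Int.ofNat 0, Int.negSucc 0, Int.ofNat 0, Int.ofNat 0,
    Int.negSucc 0, Int.ofNat 0, Int.ofNat 0, Int.ofNat 1],
  [Int.ofNat 0, Int.ofNat 0, Int.ofNat 0, Int.ofNat 0, Int.ofNat 0, Int.negSucc 0, Int.ofNat 1,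
    Int.ofNat 2, Int.ofNat 2, Int.negSucc 4, Int.ofNat 0, Int.ofNat 0, Int.ofNat 0, Int.ofNat 0,
    Int.ofNat 0, Int.ofNat 1, Int.negSucc 0, Int.ofNat 0, Int.ofNat 0, Int.negSucc 1,
    Int.ofNat 3, Int.ofNat 4, Int.ofNat 0, Int.ofNat 6, Int.ofNat 0, Int.ofNat 0, Int.negSucc 0,
    Int.ofNat 0, Int.negSucc 0, Int.ofNat 1, Int.ofNat 0, Int.ofNat 0, Int.ofNat 0, Int.ofNat 1,
    Int.negSucc 0],
  [Int.ofNat 0, Int.ofNat 0, Int.ofNat 2, Int.ofNat 0, Int.negSucc 0, Int.negSucc 0,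
    Int.negSucc 0, Int.ofNat 1, Int.ofNat 4, Int.ofNat 2, Int.ofNat 0, Int.ofNat 0, Int.ofNat 0,
    Int.ofNat 0, Int.ofNat 1, Int.negSucc 0, Int.ofNat 1, Int.ofNat 1, Int.negSucc 1,
    Int.negSucc 21, Int.negSucc 27, Int.negSucc 38, Int.negSucc 38, Int.negSucc 39,
    Int.negSucc 1, Int.negSucc 0, Int.ofNat 0, Int.negSucc 0, Int.negSucc 0, Int.negSucc 1,
    Int.ofNat 0, Int.ofNat 1, Int.ofNat 0, Int.ofNat 2, Int.ofNat 1, Int.negSucc 0],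
  [Int.ofNat 0, Int.ofNat 0, Int.ofNat 0, Int.ofNat 0, Int.ofNat 0, Int.ofNat 0, Int.negSucc 0,
    Int.ofNat 2, Int.ofNat 2, Int.negSucc 7, Int.ofNat 0, Int.ofNat 0, Int.ofNat 0, Int.ofNat 0,
    Int.ofNat 0, Int.ofNat 0, Int.negSucc 0, Int.ofNat 0, Int.ofNat 0, Int.negSucc 3,
    Int.negSucc 0, Int.ofNat 1, Int.negSucc 3, Int.ofNat 6, Int.ofNat 0, Int.ofNat 0,
    Int.ofNat 0, Int.ofNat 0, Int.ofNat 0, Int.ofNat 0, Int.ofNat 0, Int.ofNat 0, Int.negSucc 0,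
    Int.ofNat 0, Int.ofNat 0, Int.negSucc 0],
  [Int.ofNat 0, Int.ofNat 0, Int.ofNat 0, Int.ofNat 0, Int.ofNat 0, Int.negSucc 0, Int.ofNat 2,
    Int.ofNat 2, Int.ofNat 3, Int.negSucc 1, Int.ofNat 0, Int.ofNat 0, Int.ofNat 0, Int.ofNat 0,
    Int.ofNat 0, Int.ofNat 1, Int.ofNat 0, Int.ofNat 0, Int.negSucc 0, Int.negSucc 1,
    Int.ofNat 5, Int.ofNat 3, Int.ofNat 2, Int.ofNat 4, Int.ofNat 1, Int.ofNat 0, Int.negSucc 0,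
    Int.ofNat 0, Int.ofNat 0, Int.ofNat 0, Int.ofNat 0, Int.ofNat 0, Int.ofNat 1, Int.negSucc 0,
    Int.ofNat 0, Int.ofNat 1],
  [Int.ofNat 0, Int.ofNat 0, Int.ofNat 0, Int.ofNat 1, Int.negSucc 0, Int.negSucc 0, Int.ofNat 1,
    Int.ofNat 2, Int.ofNat 2, Int.negSucc 8, Int.ofNat 0, Int.ofNat 0, Int.ofNat 0, Int.ofNat 1,
    Int.ofNat 1, Int.ofNat 1, Int.negSucc 0, Int.ofNat 0, Int.ofNat 0, Int.negSucc 13,
    Int.negSucc 11, Int.negSucc 13, Int.negSucc 19, Int.negSucc 10, Int.negSucc 0, Int.ofNat 0,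
    Int.ofNat 0, Int.ofNat 0, Int.negSucc 0, Int.negSucc 0, Int.ofNat 1, Int.ofNat 1,
    Int.negSucc 0, Int.ofNat 0, Int.ofNat 0, Int.negSucc 0],
  [Int.ofNat 0, Int.ofNat 0, Int.negSucc 1, Int.ofNat 0, Int.negSucc 0, Int.ofNat 1, Int.ofNat 0,
    Int.ofNat 1, Int.negSucc 4, Int.negSucc 9, Int.ofNat 0, Int.ofNat 0, Int.ofNat 0,
    Int.ofNat 0, Int.negSucc 0, Int.ofNat 1, Int.ofNat 0, Int.negSucc 0, Int.ofNat 3,
    Int.ofNat 11, Int.ofNat 16, Int.ofNat 29, Int.ofNat 24, Int.ofNat 32, Int.ofNat 0,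
    Int.ofNat 1, Int.ofNat 0, Int.ofNat 1, Int.ofNat 0, Int.ofNat 2, Int.ofNat 0, Int.ofNat 0,
    Int.ofNat 0, Int.ofNat 0, Int.negSucc 0],
  [Int.ofNat 0, Int.ofNat 0, Int.ofNat 0, Int.ofNat 1, Int.ofNat 0, Int.ofNat 1, Int.negSucc 1,
    Int.ofNat 4, Int.ofNat 6, Int.negSucc 5, Int.ofNat 0, Int.ofNat 0, Int.ofNat 0, Int.ofNat 1,
    Int.ofNat 0, Int.negSucc 0, Int.ofNat 0, Int.ofNat 0, Int.negSucc 1, Int.negSucc 10,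
    Int.negSucc 5, Int.negSucc 9, Int.negSucc 11, Int.negSucc 2, Int.ofNat 0, Int.ofNat 0,
    Int.ofNat 0, Int.ofNat 0, Int.ofNat 0, Int.negSucc 0, Int.ofNat 0, Int.ofNat 0, Int.ofNat 0,
    Int.negSucc 0, Int.ofNat 1],
  [Int.ofNat 0, Int.ofNat 0, Int.ofNat 0, Int.ofNat 1, Int.negSucc 0, Int.negSucc 0, Int.ofNat 2,
    Int.ofNat 1, Int.ofNat 1, Int.negSucc 0, Int.ofNat 0, Int.ofNat 0, Int.ofNat 0, Int.ofNat 1,
    Int.ofNat 1, Int.ofNat 1, Int.ofNat 0, Int.negSucc 0, Int.negSucc 0, Int.negSucc 4,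
    Int.negSucc 2, Int.negSucc 4, Int.negSucc 5, Int.negSucc 5, Int.ofNat 1, Int.ofNat 0,
    Int.negSucc 0, Int.ofNat 0, Int.ofNat 0, Int.negSucc 0, Int.ofNat 1, Int.ofNat 0,
    Int.ofNat 0, Int.negSucc 0, Int.ofNat 0, Int.ofNat 1]]

def bVF3 : List (List ℤ) :=
  [  [Int.ofNat 0, Int.ofNat 0, Int.ofNat 0, Int.negSucc 0, Int.ofNat 0, Int.negSucc 0,
    Int.negSucc 1, Int.negSucc 0, Int.ofNat 5, Int.negSucc 3, Int.ofNat 0, Int.ofNat 0,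
    Int.ofNat 0, Int.negSucc 0, Int.ofNat 0, Int.negSucc 0, Int.ofNat 0, Int.ofNat 1,
    Int.ofNat 1, Int.negSucc 7, Int.negSucc 7, Int.negSucc 13, Int.negSucc 15, Int.negSucc 7,
    Int.ofNat 0, Int.negSucc 0, Int.ofNat 0, Int.ofNat 0, Int.ofNat 1, Int.negSucc 0,
    Int.ofNat 0, Int.ofNat 0, Int.negSucc 0, Int.negSucc 0, Int.ofNat 1, Int.negSucc 0],
  [Int.ofNat 0, Int.ofNat 0, Int.ofNat 0, Int.negSucc 0, Int.ofNat 0, Int.negSucc 0,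
    Int.negSucc 0, Int.negSucc 2, Int.ofNat 3, Int.ofNat 4, Int.ofNat 0, Int.ofNat 0,
    Int.ofNat 0, Int.negSucc 0, Int.ofNat 0, Int.negSucc 0, Int.ofNat 1, Int.ofNat 1,
    Int.ofNat 1, Int.negSucc 3, Int.negSucc 6, Int.negSucc 14, Int.negSucc 11, Int.negSucc 13,
    Int.ofNat 0, Int.negSucc 0, Int.ofNat 0, Int.ofNat 0, Int.ofNat 1, Int.negSucc 0,
    Int.ofNat 0, Int.ofNat 0, Int.ofNat 0, Int.negSucc 0, Int.ofNat 1],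
  [Int.ofNat 0, Int.ofNat 0, Int.ofNat 0, Int.negSucc 1, Int.ofNat 0, Int.negSucc 0, Int.ofNat 2,
    Int.negSucc 6, Int.negSucc 1, Int.ofNat 6, Int.ofNat 0, Int.ofNat 0, Int.ofNat 0,
    Int.negSucc 1, Int.ofNat 0, Int.negSucc 0, Int.ofNat 2, Int.ofNat 1, Int.ofNat 2,
    Int.ofNat 4, Int.negSucc 1, Int.negSucc 6, Int.negSucc 3, Int.negSucc 10, Int.ofNat 0,
    Int.negSucc 0, Int.ofNat 0, Int.ofNat 1, Int.ofNat 2, Int.negSucc 0, Int.ofNat 0,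
    Int.ofNat 1, Int.ofNat 0, Int.negSucc 0, Int.ofNat 1, Int.negSucc 0],
  [Int.ofNat 0, Int.ofNat 0, Int.negSucc 1, Int.ofNat 2, Int.negSucc 2, Int.ofNat 0,
    Int.negSucc 7, Int.ofNat 0, Int.ofNat 7, Int.negSucc 9, Int.ofNat 0, Int.ofNat 0,
    Int.ofNat 0, Int.ofNat 2, Int.ofNat 1, Int.negSucc 1, Int.ofNat 0, Int.negSucc 1,
    Int.ofNat 5, Int.negSucc 2, Int.negSucc 1, Int.negSucc 1, Int.negSucc 5, Int.ofNat 13,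
    Int.ofNat 2, Int.negSucc 0, Int.negSucc 2, Int.ofNat 0, Int.ofNat 0, Int.ofNat 1,
    Int.ofNat 2, Int.negSucc 3, Int.negSucc 0, Int.ofNat 0, Int.ofNat 0, Int.ofNat 1],
  [Int.ofNat 0, Int.ofNat 0, Int.ofNat 0, Int.ofNat 1, Int.negSucc 5, Int.ofNat 2, Int.negSucc 8,
    Int.ofNat 4, Int.negSucc 11, Int.ofNat 0, Int.ofNat 0, Int.ofNat 0, Int.ofNat 0, Int.ofNat 1,
    Int.ofNat 0, Int.ofNat 0, Int.ofNat 3, Int.negSucc 3, Int.ofNat 4, Int.ofNat 13, Int.ofNat 4,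
    Int.ofNat 27, Int.ofNat 29, Int.ofNat 25, Int.ofNat 2, Int.ofNat 1, Int.negSucc 0,
    Int.negSucc 0, Int.ofNat 0, Int.ofNat 2, Int.ofNat 0, Int.negSucc 2, Int.ofNat 0,
    Int.ofNat 1, Int.ofNat 0, Int.ofNat 3],
  [Int.ofNat 0, Int.ofNat 0, Int.ofNat 0, Int.negSucc 1, Int.negSucc 1, Int.ofNat 0,
    Int.negSucc 16, Int.ofNat 6, Int.ofNat 20, Int.negSucc 4, Int.ofNat 0, Int.ofNat 0,
    Int.ofNat 0, Int.negSucc 1, Int.negSucc 1, Int.negSucc 5, Int.ofNat 3, Int.ofNat 2,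
    Int.ofNat 0, Int.negSucc 36, Int.negSucc 40, Int.negSucc 61, Int.negSucc 59, Int.negSucc 38,
    Int.negSucc 1, Int.negSucc 2, Int.ofNat 0, Int.negSucc 0, Int.ofNat 1, Int.negSucc 1,
    Int.negSucc 1, Int.negSucc 0, Int.negSucc 1, Int.ofNat 0, Int.ofNat 3, Int.ofNat 1],
  [Int.ofNat 0, Int.ofNat 0, Int.ofNat 0, Int.ofNat 0, Int.negSucc 1, Int.ofNat 0, Int.negSucc 2,
    Int.ofNat 1, Int.negSucc 2, Int.ofNat 1, Int.ofNat 0, Int.ofNat 0, Int.ofNat 0, Int.ofNat 0,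
    Int.ofNat 0, Int.ofNat 0, Int.ofNat 1, Int.negSucc 0, Int.ofNat 1, Int.negSucc 0,
    Int.negSucc 5, Int.negSucc 1, Int.negSucc 0, Int.negSucc 2, Int.ofNat 0, Int.ofNat 0,
    Int.ofNat 0, Int.ofNat 0, Int.ofNat 0, Int.ofNat 0, Int.ofNat 0, Int.ofNat 0, Int.negSucc 0,
    Int.ofNat 0, Int.ofNat 0, Int.ofNat 1],
  [Int.ofNat 0, Int.ofNat 0, Int.negSucc 1, Int.ofNat 3, Int.negSucc 2, Int.ofNat 2,
    Int.negSucc 1, Int.ofNat 2, Int.negSucc 2, Int.negSucc 12, Int.ofNat 0, Int.ofNat 0,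
    Int.ofNat 0, Int.ofNat 3, Int.ofNat 1, Int.ofNat 0, Int.ofNat 0, Int.negSucc 3, Int.ofNat 3,
    Int.ofNat 13, Int.ofNat 19, Int.ofNat 35, Int.ofNat 28, Int.ofNat 42, Int.ofNat 3,
    Int.ofNat 1, Int.negSucc 2, Int.ofNat 1, Int.ofNat 0, Int.ofNat 2, Int.ofNat 2,
    Int.negSucc 2, Int.ofNat 0, Int.ofNat 0, Int.negSucc 0, Int.ofNat 1],
  [Int.ofNat 0, Int.ofNat 0, Int.ofNat 0, Int.negSucc 0, Int.negSucc 2, Int.ofNat 0,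
    Int.negSucc 2, Int.ofNat 3, Int.negSucc 3, Int.ofNat 2, Int.ofNat 0, Int.ofNat 0,
    Int.ofNat 0, Int.negSucc 0, Int.negSucc 0, Int.ofNat 0, Int.ofNat 3, Int.negSucc 0,
    Int.ofNat 0, Int.negSucc 4, Int.negSucc 9, Int.negSucc 5, Int.negSucc 3, Int.negSucc 8,
    Int.negSucc 0, Int.ofNat 0, Int.ofNat 0, Int.ofNat 0, Int.ofNat 0, Int.ofNat 0,
    Int.negSucc 0, Int.ofNat 1, Int.ofNat 0, Int.ofNat 1, Int.ofNat 0, Int.ofNat 2],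
  [Int.ofNat 0, Int.ofNat 0, Int.ofNat 2, Int.negSucc 0, Int.ofNat 0, Int.ofNat 1, Int.ofNat 8,
    Int.negSucc 4, Int.negSucc 22, Int.ofNat 23, Int.ofNat 0, Int.ofNat 0, Int.ofNat 0,
    Int.negSucc 0, Int.ofNat 0, Int.ofNat 3, Int.ofNat 2, Int.negSucc 0, Int.negSucc 0,
    Int.ofNat 30, Int.ofNat 17, Int.ofNat 34, Int.ofNat 45, Int.ofNat 5, Int.ofNat 0,
    Int.ofNat 2, Int.ofNat 2, Int.ofNat 0, Int.ofNat 0, Int.ofNat 1, Int.negSucc 0, Int.ofNat 2,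
    Int.ofNat 2, Int.ofNat 1, Int.negSucc 0, Int.ofNat 1],
  [Int.ofNat 0, Int.ofNat 0, Int.negSucc 1, Int.ofNat 1, Int.ofNat 0, Int.ofNat 0, Int.ofNat 1,
    Int.ofNat 1, Int.ofNat 4, Int.negSucc 9, Int.ofNat 0, Int.ofNat 0, Int.ofNat 0, Int.ofNat 1,
    Int.ofNat 0, Int.ofNat 0, Int.negSucc 0, Int.negSucc 0, Int.ofNat 0, Int.negSucc 3,
    Int.ofNat 2, Int.ofNat 1, Int.negSucc 4, Int.ofNat 8, Int.ofNat 0, Int.ofNat 0,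
    Int.negSucc 0, Int.ofNat 1, Int.ofNat 0, Int.ofNat 0, Int.ofNat 1, Int.ofNat 0,
    Int.negSucc 0, Int.ofNat 0, Int.negSucc 0],
  [Int.ofNat 0, Int.ofNat 0, Int.negSucc 1, Int.ofNat 1, Int.ofNat 0, Int.ofNat 0, Int.ofNat 1,
    Int.ofNat 1, Int.ofNat 5, Int.negSucc 11, Int.ofNat 0, Int.ofNat 0, Int.ofNat 0, Int.ofNat 1,
    Int.ofNat 0, Int.ofNat 0, Int.negSucc 0, Int.negSucc 0, Int.ofNat 1, Int.ofNat 1,
    Int.ofNat 11, Int.ofNat 12, Int.ofNat 5, Int.ofNat 21, Int.ofNat 1, Int.ofNat 0,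
    Int.negSucc 1, Int.ofNat 1, Int.ofNat 0, Int.ofNat 1, Int.ofNat 1, Int.negSucc 0,
    Int.ofNat 0, Int.ofNat 0, Int.negSucc 0]]

def bVF4 : List (List ℤ) :=
  [  [Int.ofNat 0, Int.ofNat 0, Int.ofNat 0, Int.ofNat 0, Int.negSucc 1, Int.ofNat 0, Int.negSucc 1,
    Int.ofNat 3, Int.negSucc 4, Int.negSucc 4, Int.ofNat 0, Int.ofNat 0, Int.ofNat 0,
    Int.ofNat 0, Int.ofNat 0, Int.ofNat 2, Int.ofNat 0, Int.negSucc 0, Int.ofNat 1, Int.ofNat 1,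
    Int.ofNat 0, Int.ofNat 10, Int.ofNat 8, Int.ofNat 10, Int.ofNat 0, Int.ofNat 0, Int.ofNat 0,
    Int.ofNat 0, Int.ofNat 1, Int.ofNat 0, Int.ofNat 0, Int.ofNat 0, Int.ofNat 0, Int.ofNat 0,
    Int.ofNat 0, Int.negSucc 0],
  [Int.ofNat 1, Int.ofNat 0, Int.ofNat 0, Int.ofNat 0, Int.ofNat 0, Int.ofNat 0, Int.ofNat 1,
    Int.ofNat 0, Int.ofNat 0, Int.negSucc 0, Int.ofNat 1, Int.ofNat 0, Int.ofNat 0, Int.ofNat 0,
    Int.ofNat 0, Int.ofNat 0, Int.ofNat 1, Int.ofNat 0, Int.ofNat 0, Int.ofNat 1, Int.ofNat 4,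
    Int.ofNat 4, Int.ofNat 4, Int.ofNat 4, Int.ofNat 0, Int.ofNat 0, Int.ofNat 0, Int.ofNat 0,
    Int.ofNat 1, Int.ofNat 0, Int.ofNat 0, Int.ofNat 0, Int.ofNat 0, Int.ofNat 0, Int.ofNat 0,
    Int.ofNat 1],
  [Int.ofNat 0, Int.ofNat 0, Int.ofNat 0, Int.ofNat 0, Int.negSucc 1, Int.ofNat 0, Int.negSucc 0,
    Int.ofNat 3, Int.negSucc 4, Int.negSucc 5, Int.ofNat 0, Int.ofNat 0, Int.ofNat 0,
    Int.ofNat 0, Int.ofNat 0, Int.ofNat 2, Int.ofNat 1, Int.negSucc 0, Int.ofNat 1, Int.ofNat 2,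
    Int.ofNat 4, Int.ofNat 14, Int.ofNat 12, Int.ofNat 14, Int.ofNat 0, Int.ofNat 0, Int.ofNat 0,
    Int.ofNat 0, Int.ofNat 2],
  [Int.ofNat 0, Int.negSucc 0, Int.ofNat 1, Int.negSucc 0, Int.ofNat 2, Int.negSucc 1,
    Int.ofNat 3, Int.negSucc 7, Int.ofNat 0, Int.ofNat 3, Int.ofNat 0, Int.ofNat 1, Int.ofNat 1,
    Int.negSucc 0, Int.ofNat 0, Int.negSucc 1, Int.ofNat 1, Int.ofNat 2, Int.ofNat 2,
    Int.ofNat 4, Int.negSucc 0, Int.negSucc 6, Int.negSucc 8, Int.negSucc 9, Int.ofNat 0,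
    Int.negSucc 0, Int.negSucc 0, Int.ofNat 0, Int.ofNat 0, Int.ofNat 1, Int.ofNat 0,
    Int.ofNat 0, Int.negSucc 0, Int.ofNat 0, Int.ofNat 0, Int.ofNat 1],
  [Int.ofNat 0, Int.negSucc 0, Int.ofNat 0, Int.ofNat 0, Int.ofNat 1, Int.negSucc 0,
    Int.negSucc 1, Int.negSucc 5, Int.negSucc 1, Int.negSucc 4, Int.ofNat 0, Int.ofNat 1,
    Int.ofNat 0, Int.ofNat 0, Int.negSucc 0, Int.negSucc 0, Int.ofNat 0, Int.ofNat 2,
    Int.ofNat 4, Int.ofNat 2, Int.negSucc 5, Int.negSucc 4, Int.negSucc 9, Int.negSucc 1,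
    Int.ofNat 0, Int.negSucc 0, Int.negSucc 0, Int.ofNat 0, Int.ofNat 0, Int.ofNat 1,
    Int.ofNat 2, Int.negSucc 1, Int.negSucc 0, Int.ofNat 1],
  [Int.ofNat 1, Int.ofNat 1, Int.ofNat 1, Int.ofNat 1, Int.ofNat 0, Int.ofNat 2, Int.ofNat 0,
    Int.negSucc 1, Int.negSucc 1, Int.ofNat 10, Int.ofNat 1, Int.ofNat 1, Int.negSucc 0,
    Int.ofNat 1, Int.ofNat 0, Int.negSucc 1, Int.ofNat 2, Int.ofNat 0, Int.ofNat 0, Int.ofNat 6,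
    Int.ofNat 2, Int.ofNat 1, Int.ofNat 6, Int.negSucc 4, Int.ofNat 0, Int.ofNat 0, Int.ofNat 0,
    Int.ofNat 0, Int.ofNat 1, Int.ofNat 0, Int.ofNat 0, Int.ofNat 0, Int.ofNat 0, Int.ofNat 1,
    Int.ofNat 2],
  [Int.ofNat 0, Int.ofNat 0, Int.ofNat 0, Int.ofNat 1, Int.ofNat 0, Int.ofNat 0, Int.ofNat 0,
    Int.ofNat 0, Int.ofNat 0, Int.ofNat 0, Int.ofNat 0, Int.ofNat 0, Int.ofNat 0, Int.ofNat 1],
  [Int.ofNat 0, Int.negSucc 0, Int.ofNat 0, Int.ofNat 0, Int.ofNat 1, Int.negSucc 0,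
    Int.negSucc 1, Int.negSucc 3, Int.ofNat 1, Int.negSucc 9, Int.ofNat 0, Int.ofNat 1,
    Int.ofNat 0, Int.ofNat 0, Int.negSucc 0, Int.negSucc 0, Int.ofNat 0, Int.ofNat 2,
    Int.ofNat 3, Int.negSucc 1, Int.negSucc 4, Int.negSucc 4, Int.negSucc 11, Int.ofNat 2,
    Int.ofNat 0, Int.negSucc 0, Int.negSucc 0, Int.ofNat 0, Int.ofNat 0, Int.ofNat 1,
    Int.ofNat 0, Int.negSucc 0, Int.negSucc 0, Int.negSucc 0],
  [Int.ofNat 0, Int.negSucc 0, Int.ofNat 0, Int.ofNat 0, Int.negSucc 1, Int.ofNat 0, Int.ofNat 1,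
    Int.negSucc 0, Int.negSucc 2, Int.ofNat 7, Int.ofNat 0, Int.negSucc 0, Int.ofNat 0,
    Int.ofNat 0, Int.ofNat 0, Int.ofNat 0, Int.ofNat 1, Int.negSucc 0, Int.ofNat 1,
    Int.negSucc 1, Int.negSucc 6, Int.negSucc 7, Int.negSucc 4, Int.negSucc 14, Int.ofNat 0,
    Int.ofNat 0, Int.ofNat 0, Int.ofNat 0, Int.ofNat 0, Int.negSucc 0, Int.ofNat 1, Int.ofNat 0,
    Int.ofNat 0, Int.ofNat 0, Int.ofNat 1],
  [Int.ofNat 0, Int.ofNat 0, Int.ofNat 0, Int.ofNat 0, Int.ofNat 0, Int.ofNat 0, Int.ofNat 0,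
    Int.ofNat 0, Int.ofNat 0, Int.ofNat 0, Int.ofNat 0, Int.ofNat 0, Int.ofNat 0, Int.ofNat 0,
    Int.ofNat 0, Int.ofNat 0, Int.ofNat 0, Int.ofNat 0, Int.ofNat 0, Int.ofNat 0, Int.ofNat 0,
    Int.ofNat 0, Int.ofNat 0, Int.ofNat 0, Int.ofNat 0, Int.ofNat 0, Int.ofNat 0, Int.ofNat 0,
    Int.ofNat 0, Int.ofNat 0, Int.ofNat 1, Int.negSucc 0, Int.ofNat 0, Int.ofNat 1,
    Int.negSucc 0, Int.ofNat 1],
  [Int.ofNat 0, Int.ofNat 0, Int.ofNat 0, Int.ofNat 0, Int.ofNat 0, Int.ofNat 0, Int.ofNat 0,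
    Int.ofNat 0, Int.ofNat 0, Int.ofNat 0, Int.ofNat 0, Int.ofNat 0, Int.ofNat 0, Int.ofNat 0,
    Int.ofNat 0, Int.ofNat 0, Int.ofNat 0, Int.ofNat 0, Int.ofNat 0, Int.ofNat 0, Int.ofNat 0,
    Int.ofNat 0, Int.ofNat 0, Int.ofNat 0, Int.ofNat 0, Int.ofNat 0, Int.ofNat 0, Int.ofNat 0,
    Int.ofNat 0, Int.ofNat 0, Int.negSucc 0, Int.ofNat 0, Int.ofNat 0, Int.negSucc 0],
  [Int.ofNat 0, Int.ofNat 0, Int.ofNat 0, Int.ofNat 0, Int.ofNat 0, Int.ofNat 0, Int.ofNat 2,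
    Int.ofNat 2, Int.ofNat 3, Int.negSucc 4, Int.ofNat 0, Int.ofNat 0, Int.ofNat 0, Int.ofNat 0,
    Int.ofNat 0, Int.ofNat 0, Int.ofNat 0, Int.ofNat 0, Int.negSucc 0, Int.negSucc 3,
    Int.ofNat 2, Int.ofNat 1, Int.negSucc 2, Int.ofNat 3, Int.ofNat 0, Int.ofNat 0, Int.ofNat 0,
    Int.ofNat 0, Int.ofNat 0, Int.ofNat 0, Int.negSucc 0, Int.ofNat 1, Int.ofNat 0, Int.negSucc 0]]

def bVF5 : List (List ℤ) :=
  [  [Int.negSucc 0, Int.ofNat 0, Int.ofNat 0, Int.ofNat 0, Int.negSucc 1, Int.ofNat 0,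
    Int.negSucc 1, Int.ofNat 3, Int.negSucc 4, Int.negSucc 4, Int.negSucc 0, Int.ofNat 0,
    Int.ofNat 0, Int.ofNat 0, Int.ofNat 0, Int.ofNat 2, Int.ofNat 0, Int.negSucc 0, Int.ofNat 1,
    Int.ofNat 1, Int.ofNat 0, Int.ofNat 10, Int.ofNat 8, Int.ofNat 10, Int.ofNat 0, Int.ofNat 0,
    Int.ofNat 0, Int.ofNat 0, Int.ofNat 1, Int.ofNat 0, Int.ofNat 0, Int.ofNat 0, Int.ofNat 0,
    Int.ofNat 0, Int.ofNat 0, Int.negSucc 0],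
  [Int.ofNat 0, Int.ofNat 0, Int.ofNat 0, Int.ofNat 0, Int.ofNat 0, Int.ofNat 0, Int.ofNat 1,
    Int.ofNat 0, Int.ofNat 0, Int.negSucc 0, Int.ofNat 0, Int.ofNat 0, Int.ofNat 0, Int.ofNat 0,
    Int.ofNat 0, Int.ofNat 0, Int.ofNat 1, Int.ofNat 0, Int.ofNat 0, Int.ofNat 1, Int.ofNat 4,
    Int.ofNat 4, Int.ofNat 4, Int.ofNat 4, Int.ofNat 0, Int.ofNat 0, Int.ofNat 0, Int.ofNat 0,
    Int.ofNat 1, Int.ofNat 0, Int.ofNat 0, Int.ofNat 0, Int.ofNat 0, Int.ofNat 0, Int.ofNat 0,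
    Int.ofNat 1],
  [Int.ofNat 0, Int.ofNat 0, Int.ofNat 0, Int.ofNat 0, Int.negSucc 1, Int.ofNat 0, Int.negSucc 0,
    Int.ofNat 3, Int.negSucc 4, Int.negSucc 5, Int.ofNat 0, Int.ofNat 0, Int.ofNat 0,
    Int.ofNat 0, Int.ofNat 0, Int.ofNat 2, Int.ofNat 1, Int.negSucc 0, Int.ofNat 1, Int.ofNat 2,
    Int.ofNat 4, Int.ofNat 14, Int.ofNat 12, Int.ofNat 14, Int.ofNat 0, Int.ofNat 0, Int.ofNat 0,
    Int.ofNat 0, Int.ofNat 2],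
  [Int.ofNat 2, Int.negSucc 1, Int.ofNat 3, Int.negSucc 1, Int.negSucc 4, Int.negSucc 0,
    Int.ofNat 3, Int.negSucc 3, Int.negSucc 9, Int.ofNat 18, Int.ofNat 2, Int.ofNat 0,
    Int.ofNat 1, Int.negSucc 1, Int.ofNat 1, Int.negSucc 0, Int.ofNat 3, Int.negSucc 1,
    Int.ofNat 2, Int.negSucc 0, Int.negSucc 17, Int.negSucc 15, Int.negSucc 11, Int.negSucc 36,
    Int.ofNat 0, Int.negSucc 0, Int.negSucc 0, Int.ofNat 0, Int.ofNat 0, Int.negSucc 0,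
    Int.ofNat 0, Int.ofNat 0, Int.negSucc 0, Int.ofNat 0, Int.ofNat 0, Int.ofNat 1],
  [Int.ofNat 1, Int.negSucc 0, Int.ofNat 4, Int.ofNat 0, Int.negSucc 4, Int.ofNat 1,
    Int.negSucc 1, Int.negSucc 5, Int.negSucc 11, Int.ofNat 29, Int.ofNat 1, Int.ofNat 1,
    Int.ofNat 0, Int.ofNat 0, Int.ofNat 1, Int.negSucc 2, Int.ofNat 4, Int.negSucc 1,
    Int.ofNat 2, Int.ofNat 4, Int.negSucc 21, Int.negSucc 20, Int.negSucc 7, Int.negSucc 43,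
    Int.ofNat 0, Int.negSucc 0, Int.negSucc 0, Int.ofNat 0, Int.ofNat 0, Int.negSucc 0,
    Int.ofNat 0, Int.ofNat 0, Int.negSucc 0, Int.ofNat 1, Int.ofNat 2],
  [Int.ofNat 1, Int.ofNat 2, Int.ofNat 3, Int.ofNat 2, Int.negSucc 2, Int.ofNat 3, Int.ofNat 2,
    Int.ofNat 8, Int.ofNat 0, Int.ofNat 1, Int.ofNat 1, Int.ofNat 2, Int.negSucc 0, Int.ofNat 2,
    Int.ofNat 1, Int.negSucc 0, Int.ofNat 2, Int.negSucc 1, Int.negSucc 3, Int.negSucc 2,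
    Int.ofNat 3, Int.ofNat 10, Int.ofNat 7, Int.ofNat 4, Int.ofNat 0, Int.ofNat 0, Int.ofNat 0,
    Int.ofNat 0, Int.ofNat 1, Int.ofNat 0, Int.negSucc 1, Int.ofNat 2, Int.ofNat 0, Int.ofNat 1],
  [Int.ofNat 0, Int.ofNat 0, Int.ofNat 0, Int.negSucc 0, Int.ofNat 0, Int.ofNat 0, Int.ofNat 0,
    Int.ofNat 0, Int.ofNat 0, Int.ofNat 0, Int.ofNat 0, Int.ofNat 0, Int.ofNat 0, Int.negSucc 0],
  [Int.ofNat 1, Int.negSucc 3, Int.ofNat 2, Int.negSucc 2, Int.negSucc 6, Int.negSucc 2,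
    Int.ofNat 1, Int.negSucc 6, Int.negSucc 16, Int.ofNat 24, Int.ofNat 1, Int.negSucc 1,
    Int.ofNat 2, Int.negSucc 2, Int.ofNat 1, Int.ofNat 1, Int.ofNat 3, Int.negSucc 2,
    Int.ofNat 5, Int.ofNat 0, Int.negSucc 26, Int.negSucc 22, Int.negSucc 12, Int.negSucc 48,
    Int.ofNat 0, Int.negSucc 0, Int.negSucc 0, Int.ofNat 0, Int.ofNat 0, Int.negSucc 1,
    Int.ofNat 1, Int.ofNat 0, Int.negSucc 0, Int.negSucc 0, Int.ofNat 1],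
  [Int.ofNat 0, Int.ofNat 0, Int.ofNat 0, Int.ofNat 1, Int.ofNat 0, Int.ofNat 0, Int.ofNat 0,
    Int.ofNat 2, Int.ofNat 3, Int.negSucc 4, Int.ofNat 0, Int.ofNat 0, Int.ofNat 0, Int.ofNat 1,
    Int.ofNat 0, Int.ofNat 0, Int.ofNat 0, Int.ofNat 0, Int.negSucc 0, Int.negSucc 3,
    Int.ofNat 1, Int.ofNat 0, Int.negSucc 1, Int.ofNat 4, Int.ofNat 0, Int.ofNat 0, Int.ofNat 0,
    Int.ofNat 0, Int.ofNat 0, Int.ofNat 0, Int.ofNat 0, Int.ofNat 1],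
  [Int.ofNat 0, Int.ofNat 0, Int.ofNat 0, Int.negSucc 0, Int.ofNat 2, Int.ofNat 0, Int.negSucc 0,
    Int.negSucc 6, Int.negSucc 0, Int.ofNat 14, Int.ofNat 0, Int.ofNat 0, Int.ofNat 0,
    Int.negSucc 0, Int.ofNat 0, Int.negSucc 1, Int.ofNat 1, Int.ofNat 1, Int.ofNat 1,
    Int.ofNat 8, Int.ofNat 0, Int.negSucc 7, Int.ofNat 2, Int.negSucc 11, Int.ofNat 0,
    Int.ofNat 0, Int.ofNat 0, Int.ofNat 0, Int.ofNat 0, Int.ofNat 0, Int.ofNat 1, Int.negSucc 0,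
    Int.ofNat 0, Int.ofNat 1, Int.ofNat 1, Int.ofNat 1],
  [Int.ofNat 0, Int.negSucc 1, Int.negSucc 0, Int.negSucc 1, Int.negSucc 1, Int.negSucc 1,
    Int.ofNat 0, Int.negSucc 0, Int.negSucc 3, Int.ofNat 1, Int.ofNat 0, Int.negSucc 1,
    Int.ofNat 1, Int.negSucc 1, Int.ofNat 0, Int.ofNat 2, Int.ofNat 0, Int.negSucc 0,
    Int.ofNat 2, Int.negSucc 2, Int.negSucc 6, Int.negSucc 5, Int.negSucc 3, Int.negSucc 8,
    Int.ofNat 0, Int.ofNat 0, Int.ofNat 0, Int.ofNat 0, Int.ofNat 0, Int.negSucc 0, Int.ofNat 1,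
    Int.ofNat 0, Int.ofNat 0, Int.negSucc 0],
  [Int.ofNat 0, Int.negSucc 0, Int.negSucc 0, Int.negSucc 0, Int.ofNat 0, Int.negSucc 1,
    Int.ofNat 1, Int.ofNat 0, Int.negSucc 0, Int.negSucc 5, Int.ofNat 0, Int.negSucc 0,
    Int.ofNat 1, Int.negSucc 0, Int.ofNat 0, Int.ofNat 2, Int.negSucc 0, Int.ofNat 0,
    Int.ofNat 1, Int.negSucc 0, Int.ofNat 1, Int.ofNat 3, Int.ofNat 0, Int.ofNat 5, Int.ofNat 0,
    Int.ofNat 0, Int.ofNat 0, Int.ofNat 0, Int.ofNat 0, Int.ofNat 0, Int.ofNat 0, Int.ofNat 0,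
    Int.ofNat 0, Int.negSucc 0, Int.negSucc 0]]

def bVF6 : List (List ℤ) :=
  [  [Int.ofNat 0, Int.ofNat 0, Int.ofNat 0, Int.ofNat 0, Int.ofNat 0, Int.ofNat 1, Int.negSucc 0,
    Int.ofNat 0, Int.negSucc 4, Int.negSucc 3, Int.ofNat 0, Int.ofNat 0, Int.ofNat 0,
    Int.ofNat 0, Int.ofNat 0, Int.ofNat 1, Int.negSucc 0, Int.ofNat 0, Int.ofNat 1, Int.ofNat 4,
    Int.ofNat 1, Int.ofNat 9, Int.ofNat 7, Int.ofNat 9, Int.ofNat 0, Int.ofNat 0, Int.ofNat 0,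
    Int.ofNat 0, Int.ofNat 1, Int.ofNat 0, Int.ofNat 0, Int.ofNat 0, Int.ofNat 0, Int.ofNat 0,
    Int.ofNat 0, Int.negSucc 0],
  [Int.ofNat 1, Int.ofNat 0, Int.ofNat 0, Int.ofNat 1, Int.negSucc 0, Int.ofNat 0, Int.ofNat 3,
    Int.negSucc 4, Int.negSucc 3, Int.ofNat 5, Int.ofNat 1, Int.ofNat 0, Int.ofNat 0,
    Int.ofNat 1, Int.ofNat 1, Int.ofNat 0, Int.ofNat 1, Int.negSucc 0, Int.ofNat 2, Int.ofNat 7,
    Int.ofNat 4, Int.ofNat 4, Int.ofNat 6, Int.negSucc 1, Int.ofNat 0, Int.ofNat 0, Int.ofNat 0,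
    Int.ofNat 0, Int.ofNat 1, Int.ofNat 0, Int.ofNat 0, Int.ofNat 0, Int.ofNat 0, Int.ofNat 0,
    Int.ofNat 0, Int.ofNat 1],
  [Int.ofNat 0, Int.ofNat 0, Int.ofNat 0, Int.negSucc 0, Int.ofNat 0, Int.ofNat 0, Int.ofNat 0,
    Int.ofNat 0, Int.negSucc 4, Int.negSucc 4, Int.ofNat 0, Int.ofNat 0, Int.ofNat 0,
    Int.negSucc 0, Int.ofNat 0, Int.ofNat 2, Int.ofNat 0, Int.ofNat 0, Int.ofNat 1, Int.ofNat 5,
    Int.ofNat 5, Int.ofNat 13, Int.ofNat 11, Int.ofNat 13, Int.ofNat 0, Int.ofNat 0, Int.ofNat 0,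
    Int.ofNat 0, Int.ofNat 2],
  [Int.ofNat 1, Int.ofNat 0, Int.ofNat 1, Int.negSucc 0, Int.ofNat 1, Int.negSucc 0,
    Int.negSucc 3, Int.ofNat 8, Int.ofNat 6, Int.negSucc 5, Int.negSucc 0, Int.ofNat 0,
    Int.negSucc 0, Int.negSucc 0, Int.negSucc 0, Int.negSucc 0, Int.ofNat 0, Int.ofNat 2,
    Int.negSucc 1, Int.negSucc 5, Int.ofNat 3, Int.ofNat 4, Int.ofNat 3, Int.ofNat 12,
    Int.ofNat 0, Int.ofNat 0, Int.ofNat 0, Int.ofNat 0, Int.ofNat 0, Int.ofNat 1, Int.ofNat 0,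
    Int.negSucc 1, Int.negSucc 0, Int.ofNat 0, Int.ofNat 0, Int.ofNat 1],
  [Int.ofNat 0, Int.ofNat 1, Int.ofNat 0, Int.ofNat 1, Int.ofNat 3, Int.ofNat 1, Int.ofNat 0,
    Int.ofNat 4, Int.negSucc 2, Int.negSucc 3, Int.ofNat 0, Int.ofNat 1, Int.ofNat 0,
    Int.negSucc 0, Int.ofNat 1, Int.negSucc 0, Int.negSucc 1, Int.ofNat 0, Int.negSucc 2,
    Int.negSucc 3, Int.negSucc 3, Int.ofNat 0, Int.negSucc 1, Int.ofNat 0, Int.ofNat 0,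
    Int.ofNat 1, Int.ofNat 0, Int.negSucc 0, Int.negSucc 0, Int.ofNat 0, Int.ofNat 0,
    Int.negSucc 0, Int.negSucc 0, Int.negSucc 0, Int.ofNat 1, Int.ofNat 1],
  [Int.ofNat 2, Int.ofNat 0, Int.ofNat 1, Int.ofNat 0, Int.ofNat 0, Int.ofNat 1, Int.ofNat 0,
    Int.ofNat 4, Int.negSucc 12, Int.ofNat 6, Int.ofNat 0, Int.ofNat 0, Int.negSucc 0,
    Int.negSucc 1, Int.ofNat 0, Int.negSucc 0, Int.ofNat 0, Int.negSucc 1, Int.negSucc 0,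
    Int.ofNat 8, Int.ofNat 2, Int.ofNat 17, Int.ofNat 20, Int.ofNat 5, Int.ofNat 0, Int.ofNat 1,
    Int.ofNat 0, Int.negSucc 0, Int.ofNat 0, Int.ofNat 1, Int.negSucc 1, Int.negSucc 0,
    Int.ofNat 0, Int.negSucc 0, Int.ofNat 1, Int.ofNat 1],
  [Int.ofNat 0, Int.ofNat 0, Int.ofNat 0, Int.ofNat 0, Int.ofNat 1, Int.ofNat 1, Int.negSucc 4,
    Int.ofNat 1, Int.ofNat 5, Int.negSucc 11, Int.ofNat 0, Int.ofNat 0, Int.ofNat 0, Int.ofNat 0,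
    Int.negSucc 0, Int.negSucc 0, Int.negSucc 0, Int.ofNat 1, Int.ofNat 1, Int.negSucc 5,
    Int.negSucc 3, Int.negSucc 3, Int.negSucc 9, Int.ofNat 8, Int.ofNat 0, Int.ofNat 0,
    Int.ofNat 0, Int.ofNat 0, Int.ofNat 0, Int.ofNat 0, Int.ofNat 0, Int.ofNat 0, Int.negSucc 1],
  [Int.ofNat 0, Int.ofNat 0, Int.ofNat 0, Int.negSucc 0, Int.ofNat 0, Int.ofNat 0, Int.ofNat 0,
    Int.ofNat 4, Int.ofNat 0, Int.negSucc 0, Int.ofNat 0, Int.ofNat 0, Int.ofNat 0,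
    Int.negSucc 0, Int.ofNat 0, Int.ofNat 0, Int.ofNat 0, Int.ofNat 0, Int.negSucc 1,
    Int.negSucc 2, Int.negSucc 0, Int.ofNat 1, Int.ofNat 1, Int.ofNat 1, Int.ofNat 0,
    Int.ofNat 0, Int.negSucc 0, Int.ofNat 1, Int.ofNat 0, Int.ofNat 0, Int.ofNat 1, Int.negSucc 0],
  [Int.ofNat 0, Int.ofNat 0, Int.ofNat 0, Int.ofNat 1, Int.ofNat 1, Int.ofNat 0, Int.ofNat 3,
    Int.ofNat 2, Int.negSucc 5, Int.ofNat 1, Int.ofNat 0, Int.ofNat 0, Int.ofNat 0,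
    Int.negSucc 0, Int.ofNat 1, Int.ofNat 0, Int.negSucc 0, Int.negSucc 1, Int.negSucc 1,
    Int.ofNat 0, Int.negSucc 0, Int.ofNat 4, Int.ofNat 3, Int.negSucc 2, Int.ofNat 0,
    Int.ofNat 1, Int.ofNat 0, Int.negSucc 0, Int.negSucc 0, Int.ofNat 0, Int.negSucc 0,
    Int.ofNat 1, Int.ofNat 0, Int.ofNat 0, Int.ofNat 0, Int.ofNat 1],
  [Int.negSucc 0, Int.ofNat 1, Int.negSucc 0, Int.ofNat 1, Int.ofNat 1, Int.ofNat 0, Int.ofNat 2,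
    Int.negSucc 5, Int.ofNat 5, Int.negSucc 3, Int.ofNat 1, Int.ofNat 1, Int.ofNat 1,
    Int.ofNat 1, Int.ofNat 1, Int.ofNat 0, Int.ofNat 0, Int.ofNat 0, Int.ofNat 1, Int.negSucc 3,
    Int.negSucc 2, Int.negSucc 12, Int.negSucc 15, Int.negSucc 7, Int.ofNat 0, Int.ofNat 0,
    Int.ofNat 0, Int.ofNat 0, Int.ofNat 0, Int.negSucc 0, Int.ofNat 1, Int.ofNat 1,
    Int.negSucc 0, Int.ofNat 0, Int.ofNat 0, Int.ofNat 1],
  [Int.ofNat 0, Int.ofNat 0, Int.ofNat 0, Int.ofNat 0, Int.ofNat 0, Int.ofNat 0, Int.negSucc 0,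
    Int.ofNat 2, Int.ofNat 2, Int.negSucc 7, Int.ofNat 0, Int.ofNat 0, Int.ofNat 0, Int.ofNat 0,
    Int.ofNat 0, Int.ofNat 0, Int.negSucc 0, Int.ofNat 0, Int.ofNat 0, Int.negSucc 3,
    Int.negSucc 0, Int.ofNat 1, Int.negSucc 3, Int.ofNat 6, Int.ofNat 0, Int.ofNat 0,
    Int.negSucc 0, Int.ofNat 1, Int.ofNat 0, Int.ofNat 0, Int.ofNat 1, Int.ofNat 0,
    Int.negSucc 0, Int.ofNat 1, Int.negSucc 0],
  [Int.ofNat 0, Int.ofNat 0, Int.ofNat 1, Int.ofNat 0, Int.ofNat 0, Int.ofNat 0, Int.ofNat 2,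
    Int.ofNat 4, Int.ofNat 0, Int.ofNat 1, Int.ofNat 0, Int.ofNat 0, Int.negSucc 0, Int.ofNat 0,
    Int.ofNat 0, Int.ofNat 0, Int.ofNat 0, Int.ofNat 0, Int.negSucc 1, Int.ofNat 3, Int.ofNat 8,
    Int.ofNat 12, Int.ofNat 11, Int.ofNat 9, Int.ofNat 0, Int.ofNat 0, Int.ofNat 0, Int.ofNat 0,
    Int.ofNat 0, Int.ofNat 1, Int.negSucc 0, Int.ofNat 0, Int.ofNat 1, Int.ofNat 1, Int.negSucc 0]]

def bVF7 : List (List ℤ) :=
  [  [Int.negSucc 0, Int.ofNat 0, Int.ofNat 0, Int.negSucc 1, Int.ofNat 1, Int.ofNat 0,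
    Int.negSucc 2, Int.ofNat 5, Int.negSucc 0, Int.negSucc 9, Int.negSucc 0, Int.ofNat 0,
    Int.ofNat 0, Int.negSucc 1, Int.negSucc 0, Int.ofNat 2, Int.negSucc 0, Int.ofNat 1,
    Int.negSucc 0, Int.negSucc 1, Int.ofNat 1, Int.ofNat 9, Int.ofNat 5, Int.ofNat 15,
    Int.ofNat 0, Int.ofNat 0, Int.ofNat 0, Int.ofNat 0, Int.ofNat 1, Int.ofNat 0, Int.ofNat 0,
    Int.ofNat 0, Int.ofNat 0, Int.ofNat 0, Int.ofNat 0, Int.negSucc 0],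
  [Int.ofNat 0, Int.ofNat 0, Int.ofNat 0, Int.negSucc 0, Int.ofNat 0, Int.negSucc 0, Int.ofNat 1,
    Int.ofNat 0, Int.ofNat 0, Int.negSucc 0, Int.ofNat 0, Int.ofNat 0, Int.ofNat 0,
    Int.negSucc 0, Int.ofNat 0, Int.ofNat 1, Int.ofNat 1, Int.ofNat 0, Int.ofNat 0, Int.ofNat 1,
    Int.ofNat 4, Int.ofNat 4, Int.ofNat 4, Int.ofNat 4, Int.ofNat 0, Int.ofNat 0, Int.ofNat 0,
    Int.ofNat 0, Int.ofNat 1, Int.ofNat 0, Int.ofNat 0, Int.ofNat 0, Int.ofNat 0, Int.ofNat 0,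
    Int.ofNat 0, Int.ofNat 1],
  [Int.ofNat 0, Int.ofNat 0, Int.ofNat 0, Int.negSucc 0, Int.ofNat 0, Int.ofNat 0, Int.ofNat 0,
    Int.ofNat 0, Int.negSucc 4, Int.negSucc 4, Int.ofNat 0, Int.ofNat 0, Int.ofNat 0,
    Int.negSucc 0, Int.ofNat 0, Int.ofNat 2, Int.ofNat 0, Int.ofNat 0, Int.ofNat 1, Int.ofNat 5,
    Int.ofNat 5, Int.ofNat 13, Int.ofNat 11, Int.ofNat 13, Int.ofNat 0, Int.ofNat 0, Int.ofNat 0,
    Int.ofNat 0, Int.ofNat 2],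
  [Int.ofNat 1, Int.ofNat 1, Int.ofNat 1, Int.ofNat 2, Int.negSucc 0, Int.ofNat 3, Int.ofNat 6,
    Int.negSucc 7, Int.negSucc 4, Int.ofNat 15, Int.ofNat 3, Int.ofNat 1, Int.negSucc 0,
    Int.ofNat 2, Int.ofNat 1, Int.negSucc 2, Int.ofNat 2, Int.negSucc 1, Int.ofNat 1,
    Int.ofNat 15, Int.ofNat 8, Int.ofNat 7, Int.ofNat 10, Int.negSucc 6, Int.ofNat 0,
    Int.ofNat 0, Int.ofNat 0, Int.ofNat 0, Int.ofNat 0, Int.ofNat 1, Int.negSucc 1, Int.ofNat 0,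
    Int.ofNat 1, Int.ofNat 0, Int.ofNat 0, Int.ofNat 1],
  [Int.ofNat 1, Int.ofNat 1, Int.ofNat 2, Int.ofNat 3, Int.ofNat 2, Int.ofNat 2, Int.ofNat 6,
    Int.ofNat 3, Int.negSucc 8, Int.ofNat 6, Int.ofNat 1, Int.ofNat 1, Int.negSucc 1,
    Int.ofNat 1, Int.ofNat 2, Int.negSucc 1, Int.negSucc 1, Int.negSucc 0, Int.negSucc 2,
    Int.ofNat 12, Int.ofNat 12, Int.ofNat 24, Int.ofNat 22, Int.ofNat 10, Int.ofNat 0,
    Int.ofNat 1, Int.ofNat 0, Int.negSucc 0, Int.negSucc 0, Int.ofNat 2, Int.negSucc 1,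
    Int.negSucc 0, Int.ofNat 1, Int.ofNat 1, Int.negSucc 0, Int.ofNat 1],
  [Int.ofNat 0, Int.ofNat 1, Int.ofNat 1, Int.ofNat 3, Int.ofNat 2, Int.ofNat 3, Int.ofNat 6,
    Int.ofNat 0, Int.negSucc 7, Int.negSucc 2, Int.ofNat 2, Int.ofNat 1, Int.negSucc 0,
    Int.ofNat 1, Int.ofNat 2, Int.negSucc 0, Int.negSucc 1, Int.negSucc 1, Int.negSucc 1,
    Int.ofNat 9, Int.ofNat 9, Int.ofNat 20, Int.ofNat 13, Int.ofNat 12, Int.ofNat 0, Int.ofNat 1,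
    Int.ofNat 0, Int.negSucc 0, Int.ofNat 0, Int.ofNat 1, Int.negSucc 1, Int.ofNat 1,
    Int.ofNat 0, Int.ofNat 1, Int.negSucc 0, Int.ofNat 1],
  [Int.ofNat 0, Int.ofNat 0, Int.ofNat 0, Int.ofNat 0, Int.ofNat 1, Int.ofNat 1, Int.negSucc 4,
    Int.ofNat 1, Int.ofNat 5, Int.negSucc 11, Int.ofNat 0, Int.ofNat 0, Int.ofNat 0, Int.ofNat 0,
    Int.negSucc 0, Int.negSucc 0, Int.negSucc 0, Int.ofNat 1, Int.ofNat 1, Int.negSucc 5,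
    Int.negSucc 3, Int.negSucc 3, Int.negSucc 9, Int.ofNat 8, Int.ofNat 0, Int.ofNat 0,
    Int.ofNat 0, Int.ofNat 0, Int.ofNat 0, Int.ofNat 0, Int.ofNat 0, Int.ofNat 0, Int.negSucc 1],
  [Int.ofNat 1, Int.negSucc 0, Int.ofNat 0, Int.ofNat 0, Int.negSucc 1, Int.ofNat 1, Int.ofNat 2,
    Int.negSucc 5, Int.negSucc 7, Int.ofNat 15, Int.ofNat 1, Int.negSucc 0, Int.ofNat 0,
    Int.ofNat 0, Int.ofNat 0, Int.negSucc 0, Int.ofNat 2, Int.negSucc 1, Int.ofNat 2,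
    Int.ofNat 10, Int.negSucc 0, Int.ofNat 0, Int.ofNat 7, Int.negSucc 12, Int.ofNat 0,
    Int.ofNat 0, Int.ofNat 0, Int.ofNat 0, Int.ofNat 0, Int.ofNat 0, Int.negSucc 0, Int.ofNat 0,
    Int.ofNat 1, Int.negSucc 0, Int.ofNat 1],
  [Int.ofNat 0, Int.ofNat 1, Int.ofNat 0, Int.ofNat 2, Int.ofNat 2, Int.ofNat 0, Int.ofNat 3,
    Int.ofNat 3, Int.negSucc 3, Int.negSucc 6, Int.ofNat 0, Int.ofNat 1, Int.ofNat 0,
    Int.ofNat 0, Int.ofNat 2, Int.ofNat 0, Int.negSucc 2, Int.negSucc 0, Int.negSucc 1,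
    Int.negSucc 2, Int.negSucc 0, Int.ofNat 5, Int.negSucc 0, Int.ofNat 3, Int.ofNat 0,
    Int.ofNat 1, Int.negSucc 0, Int.ofNat 0, Int.negSucc 0, Int.ofNat 0, Int.ofNat 1,
    Int.ofNat 0, Int.negSucc 0, Int.ofNat 1, Int.negSucc 0, Int.ofNat 1],
  [Int.ofNat 1, Int.negSucc 0, Int.ofNat 0, Int.ofNat 0, Int.ofNat 0, Int.negSucc 1,
    Int.negSucc 1, Int.ofNat 1, Int.ofNat 3, Int.negSucc 1, Int.negSucc 0, Int.negSucc 0,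
    Int.ofNat 0, Int.ofNat 0, Int.ofNat 0, Int.ofNat 0, Int.ofNat 0, Int.ofNat 1, Int.ofNat 1,
    Int.negSucc 3, Int.negSucc 0, Int.negSucc 3, Int.negSucc 2, Int.ofNat 0, Int.ofNat 0,
    Int.ofNat 0, Int.ofNat 0, Int.ofNat 0, Int.ofNat 0, Int.ofNat 0, Int.ofNat 1, Int.negSucc 0,
    Int.negSucc 0, Int.ofNat 0, Int.ofNat 0, Int.ofNat 1],
  [Int.ofNat 0, Int.negSucc 0, Int.negSucc 0, Int.negSucc 1, Int.negSucc 0, Int.ofNat 0,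
    Int.negSucc 2, Int.negSucc 0, Int.negSucc 0, Int.negSucc 0, Int.ofNat 0, Int.negSucc 0,
    Int.ofNat 1, Int.negSucc 1, Int.negSucc 0, Int.ofNat 0, Int.ofNat 1, Int.negSucc 0,
    Int.ofNat 1, Int.negSucc 4, Int.negSucc 9, Int.negSucc 10, Int.negSucc 9, Int.negSucc 8,
    Int.ofNat 0, Int.ofNat 0, Int.negSucc 0, Int.ofNat 1, Int.ofNat 0, Int.negSucc 0,
    Int.ofNat 1, Int.ofNat 0, Int.negSucc 0, Int.negSucc 0, Int.ofNat 1],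
  [Int.ofNat 0, Int.ofNat 0, Int.negSucc 0, Int.negSucc 0, Int.negSucc 1, Int.negSucc 0,
    Int.ofNat 1, Int.negSucc 1, Int.negSucc 2, Int.ofNat 3, Int.ofNat 0, Int.ofNat 0,
    Int.ofNat 1, Int.negSucc 0, Int.ofNat 0, Int.ofNat 1, Int.ofNat 1, Int.negSucc 1,
    Int.ofNat 1, Int.negSucc 1, Int.negSucc 5, Int.negSucc 6, Int.negSucc 4, Int.negSucc 10,
    Int.ofNat 0, Int.ofNat 0, Int.negSucc 0, Int.ofNat 1, Int.ofNat 0, Int.negSucc 0,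
    Int.ofNat 1, Int.ofNat 1]]

def bVS1 : List (List ℤ) :=
  [  [Int.ofNat 0, Int.ofNat 2, Int.negSucc 3, Int.ofNat 3, Int.negSucc 1, Int.ofNat 0, Int.ofNat 3,
    Int.negSucc 3, Int.negSucc 3, Int.negSucc 13, Int.ofNat 0, Int.ofNat 2, Int.ofNat 0,
    Int.ofNat 3, Int.ofNat 0, Int.ofNat 2, Int.negSucc 0, Int.negSucc 3, Int.ofNat 4,
    Int.ofNat 13, Int.ofNat 20, Int.ofNat 29, Int.ofNat 23, Int.ofNat 35, Int.ofNat 2,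
    Int.ofNat 1, Int.negSucc 2, Int.ofNat 2, Int.ofNat 1, Int.ofNat 1, Int.ofNat 3,
    Int.negSucc 0, Int.ofNat 0, Int.ofNat 0, Int.negSucc 0, Int.ofNat 1],
  [Int.ofNat 0, Int.ofNat 0, Int.ofNat 0, Int.ofNat 0, Int.negSucc 1, Int.negSucc 0, Int.ofNat 1,
    Int.negSucc 2, Int.negSucc 5, Int.ofNat 4, Int.ofNat 0, Int.ofNat 0, Int.ofNat 0,
    Int.ofNat 0, Int.ofNat 0, Int.ofNat 1, Int.ofNat 1, Int.negSucc 0, Int.ofNat 2, Int.ofNat 6,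
    Int.ofNat 1, Int.ofNat 5, Int.ofNat 7, Int.negSucc 0, Int.ofNat 0, Int.ofNat 0, Int.ofNat 0,
    Int.ofNat 0, Int.ofNat 1, Int.ofNat 0, Int.ofNat 0, Int.ofNat 0, Int.ofNat 0, Int.ofNat 0,
    Int.ofNat 0, Int.ofNat 1],
  [Int.ofNat 0, Int.ofNat 2, Int.negSucc 5, Int.ofNat 3, Int.negSucc 0, Int.ofNat 1, Int.ofNat 3,
    Int.negSucc 3, Int.negSucc 1, Int.negSucc 21, Int.ofNat 0, Int.ofNat 2, Int.ofNat 0,
    Int.ofNat 3, Int.negSucc 0, Int.ofNat 1, Int.negSucc 0, Int.negSucc 3, Int.ofNat 4,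
    Int.ofNat 10, Int.ofNat 20, Int.ofNat 28, Int.ofNat 18, Int.ofNat 40, Int.ofNat 2,
    Int.ofNat 1, Int.negSucc 3, Int.ofNat 3, Int.ofNat 1, Int.ofNat 1, Int.ofNat 4,
    Int.negSucc 0, Int.ofNat 0, Int.ofNat 0, Int.negSucc 0, Int.ofNat 1],
  [Int.ofNat 0, Int.ofNat 0, Int.negSucc 0, Int.ofNat 1, Int.ofNat 2, Int.negSucc 2, Int.ofNat 4,
    Int.negSucc 8, Int.ofNat 12, Int.ofNat 6, Int.ofNat 0, Int.ofNat 0, Int.negSucc 0,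
    Int.ofNat 1, Int.ofNat 0, Int.negSucc 0, Int.ofNat 0, Int.ofNat 3, Int.ofNat 2,
    Int.negSucc 3, Int.negSucc 0, Int.negSucc 23, Int.negSucc 20, Int.negSucc 19, Int.negSucc 1,
    Int.negSucc 1, Int.ofNat 2, Int.ofNat 0, Int.ofNat 2, Int.negSucc 0, Int.negSucc 1,
    Int.ofNat 2, Int.ofNat 1, Int.ofNat 0, Int.ofNat 0, Int.negSucc 0],
  [Int.ofNat 0, Int.ofNat 0, Int.negSucc 0, Int.ofNat 1, Int.ofNat 2, Int.ofNat 1, Int.negSucc 7,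
    Int.ofNat 6, Int.ofNat 16, Int.negSucc 21, Int.ofNat 0, Int.ofNat 0, Int.negSucc 0,
    Int.ofNat 1, Int.negSucc 1, Int.negSucc 2, Int.negSucc 1, Int.ofNat 2, Int.ofNat 0,
    Int.negSucc 14, Int.negSucc 2, Int.negSucc 7, Int.negSucc 18, Int.ofNat 17, Int.ofNat 0,
    Int.negSucc 0, Int.negSucc 0, Int.ofNat 0, Int.ofNat 0, Int.ofNat 1, Int.ofNat 0,
    Int.negSucc 1, Int.negSucc 0, Int.ofNat 1],
  [Int.ofNat 0, Int.ofNat 2, Int.negSucc 1, Int.ofNat 7, Int.negSucc 1, Int.ofNat 0,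
    Int.negSucc 4, Int.ofNat 11, Int.ofNat 14, Int.negSucc 39, Int.ofNat 0, Int.ofNat 2,
    Int.negSucc 1, Int.ofNat 7, Int.negSucc 1, Int.ofNat 0, Int.negSucc 2, Int.negSucc 0,
    Int.ofNat 0, Int.negSucc 19, Int.ofNat 4, Int.ofNat 9, Int.negSucc 10, Int.ofNat 38,
    Int.ofNat 0, Int.ofNat 0, Int.negSucc 1, Int.ofNat 0, Int.ofNat 1, Int.ofNat 1, Int.ofNat 1,
    Int.negSucc 0, Int.negSucc 1, Int.ofNat 1, Int.negSucc 0, Int.ofNat 2],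
  [Int.ofNat 0, Int.ofNat 0, Int.ofNat 0, Int.ofNat 1, Int.ofNat 0, Int.negSucc 0, Int.negSucc 1,
    Int.ofNat 3, Int.ofNat 8, Int.negSucc 13, Int.ofNat 0, Int.ofNat 0, Int.ofNat 0, Int.ofNat 1,
    Int.ofNat 0, Int.negSucc 0, Int.negSucc 1, Int.ofNat 1, Int.ofNat 0, Int.negSucc 18,
    Int.negSucc 14, Int.negSucc 19, Int.negSucc 29, Int.negSucc 9, Int.ofNat 0, Int.negSucc 0,
    Int.negSucc 0, Int.ofNat 0, Int.ofNat 0, Int.negSucc 0, Int.ofNat 1, Int.negSucc 0,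
    Int.negSucc 1, Int.negSucc 1, Int.ofNat 1],
  [Int.ofNat 0, Int.ofNat 1, Int.negSucc 2, Int.ofNat 1, Int.ofNat 2, Int.ofNat 0, Int.ofNat 5,
    Int.negSucc 9, Int.ofNat 8, Int.ofNat 2, Int.ofNat 0, Int.ofNat 1, Int.negSucc 0,
    Int.ofNat 1, Int.ofNat 0, Int.negSucc 1, Int.ofNat 1, Int.ofNat 0, Int.ofNat 2, Int.ofNat 6,
    Int.ofNat 10, Int.negSucc 5, Int.negSucc 4, Int.negSucc 0, Int.ofNat 0, Int.negSucc 0,
    Int.negSucc 0, Int.ofNat 2, Int.ofNat 1, Int.ofNat 0, Int.ofNat 0, Int.ofNat 1, Int.ofNat 2,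
    Int.ofNat 0, Int.ofNat 0, Int.negSucc 0],
  [Int.ofNat 0, Int.ofNat 0, Int.negSucc 0, Int.ofNat 3, Int.negSucc 0, Int.ofNat 0,
    Int.negSucc 5, Int.ofNat 10, Int.ofNat 9, Int.negSucc 23, Int.ofNat 0, Int.ofNat 0,
    Int.negSucc 0, Int.ofNat 3, Int.negSucc 0, Int.ofNat 0, Int.negSucc 1, Int.ofNat 0,
    Int.negSucc 0, Int.negSucc 21, Int.negSucc 10, Int.negSucc 8, Int.negSucc 20, Int.ofNat 9,
    Int.ofNat 0, Int.ofNat 0, Int.negSucc 0, Int.negSucc 0, Int.negSucc 0, Int.ofNat 0,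
    Int.ofNat 1, Int.negSucc 0, Int.negSucc 1, Int.ofNat 0, Int.ofNat 0, Int.ofNat 1],
  [Int.ofNat 0, Int.negSucc 1, Int.ofNat 3, Int.negSucc 3, Int.ofNat 1, Int.ofNat 3,
    Int.negSucc 9, Int.ofNat 12, Int.ofNat 0, Int.negSucc 4, Int.ofNat 0, Int.negSucc 1,
    Int.ofNat 1, Int.negSucc 3, Int.negSucc 0, Int.negSucc 2, Int.ofNat 0, Int.ofNat 2,
    Int.negSucc 3, Int.negSucc 15, Int.negSucc 21, Int.negSucc 12, Int.negSucc 16, Int.negSucc 8,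
    Int.ofNat 0, Int.ofNat 0, Int.ofNat 0, Int.negSucc 0, Int.negSucc 1, Int.ofNat 0,
    Int.ofNat 0, Int.negSucc 1, Int.negSucc 1, Int.ofNat 0, Int.ofNat 1],
  [Int.ofNat 0, Int.ofNat 1, Int.negSucc 1, Int.ofNat 2, Int.negSucc 0, Int.ofNat 0, Int.ofNat 4,
    Int.negSucc 1, Int.ofNat 2, Int.negSucc 3, Int.ofNat 0, Int.ofNat 1, Int.ofNat 0,
    Int.ofNat 2, Int.ofNat 1, Int.ofNat 0, Int.ofNat 0, Int.negSucc 1, Int.ofNat 0,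
    Int.negSucc 4, Int.negSucc 1, Int.negSucc 6, Int.negSucc 9, Int.negSucc 5, Int.ofNat 0,
    Int.ofNat 0, Int.negSucc 0, Int.ofNat 1, Int.ofNat 0, Int.negSucc 0, Int.ofNat 1,
    Int.ofNat 1, Int.ofNat 0, Int.negSucc 0],
  [Int.ofNat 0, Int.ofNat 1, Int.negSucc 2, Int.ofNat 3, Int.negSucc 0, Int.negSucc 1,
    Int.ofNat 9, Int.negSucc 9, Int.negSucc 0, Int.ofNat 7, Int.ofNat 0, Int.ofNat 1,
    Int.negSucc 0, Int.ofNat 3, Int.ofNat 1, Int.ofNat 2, Int.ofNat 1, Int.negSucc 1,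
    Int.ofNat 3, Int.ofNat 13, Int.ofNat 16, Int.ofNat 8, Int.ofNat 12, Int.ofNat 2, Int.ofNat 0,
    Int.ofNat 0, Int.ofNat 0, Int.ofNat 1, Int.ofNat 1, Int.ofNat 0, Int.ofNat 0, Int.ofNat 2,
    Int.ofNat 2, Int.ofNat 0, Int.negSucc 0]]

def bVS2 : List (List ℤ) :=
  [  [Int.ofNat 0, Int.ofNat 0, Int.ofNat 2, Int.ofNat 2, Int.ofNat 0, Int.ofNat 0, Int.negSucc 1,
    Int.ofNat 10, Int.ofNat 6, Int.negSucc 18, Int.ofNat 0, Int.ofNat 0, Int.ofNat 0,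
    Int.ofNat 2, Int.ofNat 0, Int.ofNat 0, Int.negSucc 1, Int.ofNat 2, Int.negSucc 1,
    Int.negSucc 14, Int.negSucc 2, Int.ofNat 3, Int.negSucc 8, Int.ofNat 13, Int.ofNat 0,
    Int.ofNat 0, Int.ofNat 0, Int.negSucc 0, Int.ofNat 0, Int.ofNat 0, Int.ofNat 0,
    Int.negSucc 0, Int.negSucc 0, Int.negSucc 0],
  [Int.ofNat 0, Int.ofNat 0, Int.ofNat 2, Int.ofNat 0, Int.negSucc 1, Int.ofNat 0, Int.negSucc 4,
    Int.ofNat 11, Int.ofNat 3, Int.negSucc 17, Int.ofNat 0, Int.ofNat 0, Int.ofNat 0,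
    Int.ofNat 0, Int.ofNat 0, Int.ofNat 0, Int.negSucc 0, Int.ofNat 1, Int.negSucc 0,
    Int.negSucc 15, Int.negSucc 8, Int.ofNat 1, Int.negSucc 9, Int.ofNat 10, Int.ofNat 0,
    Int.ofNat 0, Int.ofNat 0, Int.negSucc 0, Int.ofNat 0, Int.ofNat 0, Int.ofNat 0,
    Int.negSucc 0, Int.negSucc 1, Int.negSucc 0, Int.ofNat 0, Int.ofNat 1],
  [Int.ofNat 0, Int.ofNat 0, Int.ofNat 2, Int.ofNat 2, Int.negSucc 0, Int.ofNat 2, Int.negSucc 7,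
    Int.ofNat 17, Int.ofNat 5, Int.negSucc 27, Int.ofNat 0, Int.ofNat 0, Int.ofNat 0,
    Int.ofNat 2, Int.negSucc 0, Int.ofNat 0, Int.negSucc 1, Int.ofNat 1, Int.negSucc 2,
    Int.negSucc 13, Int.ofNat 2, Int.ofNat 19, Int.ofNat 6, Int.ofNat 37, Int.ofNat 0,
    Int.ofNat 1, Int.ofNat 0, Int.negSucc 0, Int.ofNat 0, Int.ofNat 1, Int.ofNat 0,
    Int.negSucc 0, Int.negSucc 1, Int.ofNat 1, Int.negSucc 0, Int.ofNat 1],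
  [Int.ofNat 0, Int.ofNat 0, Int.ofNat 0, Int.ofNat 2, Int.negSucc 0, Int.ofNat 0, Int.negSucc 3,
    Int.ofNat 2, Int.ofNat 7, Int.negSucc 7, Int.ofNat 0, Int.ofNat 0, Int.negSucc 1,
    Int.ofNat 2, Int.negSucc 0, Int.negSucc 1, Int.ofNat 0, Int.ofNat 0, Int.ofNat 1,
    Int.negSucc 6, Int.negSucc 3, Int.negSucc 5, Int.negSucc 11, Int.ofNat 3, Int.ofNat 0,
    Int.negSucc 0, Int.negSucc 0, Int.ofNat 0, Int.ofNat 0, Int.ofNat 1, Int.ofNat 0,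
    Int.negSucc 1, Int.negSucc 0, Int.ofNat 0, Int.ofNat 0, Int.ofNat 1],
  [Int.ofNat 0, Int.negSucc 1, Int.ofNat 2, Int.negSucc 3, Int.ofNat 2, Int.ofNat 1,
    Int.negSucc 8, Int.ofNat 4, Int.ofNat 0, Int.ofNat 12, Int.ofNat 0, Int.negSucc 1,
    Int.ofNat 0, Int.negSucc 3, Int.negSucc 1, Int.negSucc 0, Int.ofNat 1, Int.ofNat 2,
    Int.negSucc 1, Int.ofNat 3, Int.negSucc 3, Int.negSucc 2, Int.ofNat 7, Int.negSucc 2,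
    Int.ofNat 0, Int.ofNat 0, Int.ofNat 1, Int.negSucc 1, Int.negSucc 0, Int.ofNat 1,
    Int.negSucc 1, Int.negSucc 1, Int.ofNat 0, Int.ofNat 1, Int.ofNat 1],
  [Int.ofNat 0, Int.negSucc 1, Int.ofNat 8, Int.negSucc 5, Int.ofNat 4, Int.ofNat 2,
    Int.negSucc 8, Int.ofNat 19, Int.ofNat 9, Int.negSucc 9, Int.ofNat 0, Int.negSucc 1,
    Int.ofNat 0, Int.negSucc 5, Int.negSucc 1, Int.negSucc 3, Int.negSucc 0, Int.ofNat 7,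
    Int.negSucc 8, Int.negSucc 27, Int.negSucc 23, Int.negSucc 18, Int.negSucc 28,
    Int.negSucc 11, Int.negSucc 1, Int.negSucc 0, Int.ofNat 2, Int.negSucc 2, Int.negSucc 0,
    Int.ofNat 0, Int.negSucc 3, Int.negSucc 0, Int.negSucc 1, Int.ofNat 0, Int.ofNat 1,
    Int.negSucc 0],
  [Int.ofNat 0, Int.ofNat 0, Int.ofNat 0, Int.negSucc 1, Int.ofNat 6, Int.ofNat 2, Int.negSucc 2,
    Int.ofNat 6, Int.ofNat 10, Int.negSucc 17, Int.ofNat 0, Int.ofNat 0, Int.ofNat 0,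
    Int.negSucc 1, Int.negSucc 1, Int.negSucc 1, Int.negSucc 2, Int.ofNat 4, Int.negSucc 3,
    Int.negSucc 9, Int.ofNat 1, Int.negSucc 0, Int.negSucc 9, Int.ofNat 16, Int.ofNat 0,
    Int.ofNat 0, Int.ofNat 0, Int.ofNat 0, Int.ofNat 0, Int.ofNat 0, Int.ofNat 0, Int.ofNat 0,
    Int.negSucc 0, Int.ofNat 0, Int.ofNat 0, Int.negSucc 0],
  [Int.ofNat 0, Int.ofNat 0, Int.ofNat 0, Int.ofNat 0, Int.negSucc 1, Int.ofNat 0, Int.negSucc 0,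
    Int.negSucc 1, Int.negSucc 3, Int.ofNat 3, Int.ofNat 0, Int.ofNat 0, Int.ofNat 0,
    Int.ofNat 0, Int.ofNat 0, Int.ofNat 0, Int.ofNat 1, Int.negSucc 1, Int.ofNat 2, Int.ofNat 8,
    Int.ofNat 4, Int.ofNat 9, Int.ofNat 10, Int.ofNat 6, Int.ofNat 1, Int.ofNat 0, Int.negSucc 1,
    Int.ofNat 1, Int.ofNat 0, Int.ofNat 1, Int.ofNat 1, Int.negSucc 1, Int.ofNat 0, Int.ofNat 0,
    Int.ofNat 0, Int.ofNat 1],
  [Int.ofNat 0, Int.ofNat 0, Int.ofNat 2, Int.negSucc 2, Int.ofNat 3, Int.ofNat 2, Int.negSucc 1,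
    Int.ofNat 6, Int.ofNat 3, Int.ofNat 1, Int.ofNat 0, Int.ofNat 0, Int.ofNat 0, Int.negSucc 2,
    Int.negSucc 0, Int.negSucc 1, Int.ofNat 0, Int.ofNat 2, Int.negSucc 4, Int.negSucc 6,
    Int.negSucc 5, Int.negSucc 6, Int.negSucc 6, Int.negSucc 5, Int.negSucc 0, Int.ofNat 0,
    Int.ofNat 1, Int.negSucc 0, Int.negSucc 0, Int.ofNat 0, Int.negSucc 1, Int.ofNat 1,
    Int.ofNat 0, Int.ofNat 1, Int.ofNat 0, Int.negSucc 0],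
  [Int.ofNat 0, Int.negSucc 0, Int.negSucc 0, Int.negSucc 3, Int.ofNat 1, Int.ofNat 1,
    Int.negSucc 6, Int.ofNat 0, Int.negSucc 3, Int.ofNat 11, Int.ofNat 0, Int.negSucc 0,
    Int.ofNat 1, Int.negSucc 3, Int.negSucc 0, Int.ofNat 1, Int.ofNat 1, Int.ofNat 0,
    Int.ofNat 0, Int.ofNat 10, Int.ofNat 3, Int.ofNat 5, Int.ofNat 19, Int.ofNat 6, Int.ofNat 0,
    Int.ofNat 1, Int.ofNat 2, Int.negSucc 0, Int.ofNat 0, Int.ofNat 0, Int.negSucc 0,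
    Int.ofNat 1, Int.ofNat 0, Int.ofNat 2],
  [Int.ofNat 0, Int.ofNat 1, Int.ofNat 0, Int.ofNat 2, Int.ofNat 0, Int.ofNat 1, Int.ofNat 0,
    Int.ofNat 8, Int.ofNat 8, Int.negSucc 21, Int.ofNat 0, Int.ofNat 1, Int.ofNat 0, Int.ofNat 2,
    Int.ofNat 0, Int.negSucc 0, Int.negSucc 1, Int.ofNat 0, Int.negSucc 1, Int.negSucc 13,
    Int.ofNat 0, Int.ofNat 3, Int.negSucc 10, Int.ofNat 16, Int.ofNat 0, Int.ofNat 0,
    Int.negSucc 0, Int.ofNat 1, Int.ofNat 0, Int.ofNat 0, Int.ofNat 1, Int.ofNat 0,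
    Int.negSucc 0, Int.ofNat 0, Int.negSucc 0],
  [Int.ofNat 0, Int.ofNat 2, Int.negSucc 0, Int.ofNat 4, Int.negSucc 2, Int.ofNat 0, Int.ofNat 6,
    Int.negSucc 0, Int.negSucc 1, Int.negSucc 11, Int.ofNat 0, Int.ofNat 2, Int.negSucc 0,
    Int.ofNat 4, Int.ofNat 1, Int.ofNat 0, Int.ofNat 0, Int.negSucc 2, Int.ofNat 2, Int.ofNat 2,
    Int.ofNat 8, Int.ofNat 15, Int.ofNat 3, Int.ofNat 14, Int.ofNat 1, Int.ofNat 0,
    Int.negSucc 2, Int.ofNat 2, Int.ofNat 0, Int.ofNat 1, Int.ofNat 2, Int.negSucc 0,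
    Int.ofNat 0, Int.negSucc 0, Int.negSucc 0, Int.ofNat 1]]

def bVS3 : List (List ℤ) :=
  [  [Int.ofNat 0, Int.ofNat 0, Int.ofNat 0, Int.ofNat 0, Int.negSucc 0, Int.ofNat 1, Int.negSucc 3,
    Int.ofNat 7, Int.negSucc 0, Int.negSucc 5, Int.ofNat 0, Int.ofNat 0, Int.ofNat 0,
    Int.ofNat 0, Int.negSucc 0, Int.ofNat 1, Int.ofNat 0, Int.negSucc 0, Int.negSucc 0,
    Int.ofNat 3, Int.ofNat 9, Int.ofNat 19, Int.ofNat 19, Int.ofNat 24, Int.ofNat 0, Int.ofNat 1,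
    Int.ofNat 1, Int.negSucc 0, Int.ofNat 0, Int.ofNat 1, Int.negSucc 0, Int.ofNat 0,
    Int.ofNat 0, Int.ofNat 2, Int.negSucc 0],
  [Int.ofNat 0, Int.ofNat 0, Int.ofNat 0, Int.ofNat 1, Int.negSucc 0, Int.ofNat 0, Int.negSucc 4,
    Int.ofNat 8, Int.ofNat 5, Int.negSucc 11, Int.ofNat 0, Int.ofNat 0, Int.ofNat 0, Int.ofNat 1,
    Int.negSucc 0, Int.ofNat 0, Int.negSucc 0, Int.ofNat 0, Int.negSucc 0, Int.negSucc 11,
    Int.negSucc 4, Int.negSucc 1, Int.negSucc 6, Int.ofNat 8, Int.ofNat 0, Int.ofNat 0,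
    Int.ofNat 0, Int.negSucc 0, Int.ofNat 0, Int.ofNat 0, Int.ofNat 0, Int.negSucc 0,
    Int.negSucc 0, Int.ofNat 0, Int.ofNat 0, Int.ofNat 1],
  [Int.ofNat 0, Int.ofNat 0, Int.negSucc 1, Int.negSucc 0, Int.negSucc 0, Int.ofNat 0,
    Int.negSucc 2, Int.negSucc 0, Int.ofNat 0, Int.negSucc 3, Int.ofNat 0, Int.ofNat 0,
    Int.ofNat 0, Int.negSucc 0, Int.negSucc 0, Int.ofNat 0, Int.ofNat 1, Int.negSucc 0,
    Int.ofNat 2, Int.ofNat 2, Int.ofNat 2, Int.ofNat 3, Int.ofNat 4, Int.ofNat 9, Int.ofNat 0,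
    Int.ofNat 0, Int.ofNat 0, Int.ofNat 0, Int.ofNat 1, Int.ofNat 0, Int.ofNat 0, Int.ofNat 0,
    Int.ofNat 0, Int.ofNat 1],
  [Int.ofNat 0, Int.ofNat 0, Int.ofNat 1, Int.ofNat 5, Int.ofNat 1, Int.negSucc 0, Int.negSucc 1,
    Int.ofNat 9, Int.ofNat 17, Int.negSucc 13, Int.ofNat 0, Int.ofNat 0, Int.negSucc 0,
    Int.ofNat 5, Int.negSucc 0, Int.negSucc 0, Int.negSucc 1, Int.ofNat 3, Int.negSucc 2,
    Int.negSucc 22, Int.negSucc 4, Int.negSucc 15, Int.negSucc 22, Int.negSucc 0, Int.negSucc 1,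
    Int.negSucc 0, Int.ofNat 1, Int.negSucc 1, Int.ofNat 0, Int.ofNat 0, Int.negSucc 1],
  [Int.ofNat 0, Int.ofNat 2, Int.negSucc 4, Int.ofNat 6, Int.negSucc 0, Int.ofNat 1,
    Int.negSucc 5, Int.ofNat 4, Int.ofNat 8, Int.negSucc 27, Int.ofNat 0, Int.ofNat 2,
    Int.negSucc 0, Int.ofNat 6, Int.negSucc 0, Int.ofNat 1, Int.negSucc 1, Int.negSucc 1,
    Int.ofNat 4, Int.ofNat 2, Int.ofNat 20, Int.ofNat 27, Int.ofNat 18, Int.ofNat 53,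
    Int.ofNat 2, Int.ofNat 1, Int.negSucc 1, Int.ofNat 0, Int.ofNat 0, Int.ofNat 2, Int.ofNat 2,
    Int.negSucc 1, Int.ofNat 0, Int.ofNat 1, Int.negSucc 0, Int.ofNat 1],
  [Int.ofNat 0, Int.ofNat 2, Int.negSucc 3, Int.ofNat 5, Int.negSucc 5, Int.ofNat 2,
    Int.negSucc 9, Int.ofNat 17, Int.negSucc 1, Int.negSucc 20, Int.ofNat 0, Int.ofNat 2,
    Int.ofNat 0, Int.ofNat 5, Int.negSucc 1, Int.ofNat 4, Int.ofNat 0, Int.negSucc 6,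
    Int.ofNat 0, Int.ofNat 3, Int.ofNat 21, Int.ofNat 45, Int.ofNat 43, Int.ofNat 61,
    Int.ofNat 2, Int.ofNat 3, Int.negSucc 1, Int.negSucc 0, Int.negSucc 1, Int.ofNat 3,
    Int.ofNat 1, Int.negSucc 1, Int.ofNat 0, Int.ofNat 3, Int.negSucc 1, Int.ofNat 3],
  [Int.ofNat 0, Int.ofNat 2, Int.negSucc 3, Int.ofNat 3, Int.negSucc 1, Int.ofNat 1,
    Int.negSucc 0, Int.ofNat 0, Int.negSucc 0, Int.negSucc 16, Int.ofNat 0, Int.ofNat 2,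
    Int.ofNat 0, Int.ofNat 3, Int.ofNat 0, Int.ofNat 1, Int.negSucc 0, Int.negSucc 3,
    Int.ofNat 3, Int.ofNat 6, Int.ofNat 13, Int.ofNat 22, Int.ofNat 15, Int.ofNat 33,
    Int.ofNat 2, Int.ofNat 1, Int.negSucc 2, Int.ofNat 2, Int.ofNat 0, Int.ofNat 1, Int.ofNat 3,
    Int.negSucc 0, Int.negSucc 0, Int.ofNat 0, Int.negSucc 0, Int.ofNat 1],
  [Int.ofNat 0, Int.negSucc 0, Int.ofNat 1, Int.ofNat 1, Int.ofNat 3, Int.ofNat 0, Int.negSucc 1,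
    Int.ofNat 0, Int.ofNat 11, Int.negSucc 2, Int.ofNat 0, Int.negSucc 0, Int.negSucc 0,
    Int.ofNat 1, Int.negSucc 0, Int.negSucc 1, Int.ofNat 0, Int.ofNat 4, Int.negSucc 0,
    Int.negSucc 5, Int.ofNat 1, Int.negSucc 9, Int.negSucc 9, Int.ofNat 0, Int.negSucc 0,
    Int.negSucc 0, Int.ofNat 1, Int.negSucc 0, Int.ofNat 1, Int.ofNat 0, Int.negSucc 1,
    Int.ofNat 0, Int.ofNat 1, Int.ofNat 0, Int.ofNat 1, Int.negSucc 0],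
  [Int.ofNat 0, Int.ofNat 2, Int.negSucc 4, Int.ofNat 1, Int.negSucc 4, Int.ofNat 0, Int.ofNat 1,
    Int.negSucc 2, Int.negSucc 12, Int.negSucc 5, Int.ofNat 0, Int.ofNat 2, Int.ofNat 1,
    Int.ofNat 1, Int.ofNat 1, Int.ofNat 4, Int.ofNat 1, Int.negSucc 6, Int.ofNat 5, Int.ofNat 16,
    Int.ofNat 14, Int.ofNat 30, Int.ofNat 30, Int.ofNat 28, Int.ofNat 3, Int.ofNat 2,
    Int.negSucc 3, Int.ofNat 2, Int.negSucc 0, Int.ofNat 1, Int.ofNat 4, Int.negSucc 0,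
    Int.ofNat 0, Int.ofNat 0, Int.negSucc 0, Int.ofNat 2],
  [Int.ofNat 0, Int.ofNat 1, Int.negSucc 3, Int.negSucc 0, Int.ofNat 1, Int.ofNat 0, Int.ofNat 2,
    Int.negSucc 14, Int.negSucc 1, Int.negSucc 1, Int.ofNat 0, Int.ofNat 1, Int.ofNat 0,
    Int.negSucc 0, Int.ofNat 1, Int.negSucc 1, Int.ofNat 0, Int.negSucc 0, Int.ofNat 6,
    Int.ofNat 7, Int.negSucc 4, Int.negSucc 11, Int.negSucc 14, Int.negSucc 8, Int.ofNat 2,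
    Int.negSucc 0, Int.negSucc 2, Int.ofNat 3, Int.ofNat 1, Int.negSucc 0, Int.ofNat 4,
    Int.negSucc 0, Int.negSucc 0, Int.negSucc 1, Int.ofNat 1],
  [Int.ofNat 0, Int.ofNat 0, Int.ofNat 0, Int.negSucc 0, Int.ofNat 0, Int.ofNat 1, Int.ofNat 1,
    Int.negSucc 0, Int.negSucc 0, Int.ofNat 2, Int.ofNat 0, Int.ofNat 0, Int.ofNat 0,
    Int.negSucc 0, Int.ofNat 0, Int.negSucc 0, Int.ofNat 1, Int.negSucc 0, Int.negSucc 0,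
    Int.ofNat 2, Int.ofNat 0, Int.ofNat 0, Int.ofNat 0, Int.negSucc 1, Int.ofNat 0, Int.ofNat 0,
    Int.negSucc 0, Int.ofNat 1],
  [Int.ofNat 0, Int.negSucc 0, Int.ofNat 2, Int.negSucc 0, Int.ofNat 0, Int.negSucc 0,
    Int.ofNat 3, Int.ofNat 1, Int.negSucc 1, Int.ofNat 9, Int.ofNat 0, Int.negSucc 0,
    Int.ofNat 0, Int.negSucc 0, Int.ofNat 0, Int.ofNat 1, Int.ofNat 1, Int.ofNat 1,
    Int.negSucc 1, Int.ofNat 1, Int.ofNat 1, Int.ofNat 0, Int.ofNat 4, Int.negSucc 8,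
    Int.negSucc 0, Int.ofNat 0, Int.ofNat 1, Int.negSucc 0, Int.ofNat 0, Int.ofNat 0,
    Int.negSucc 1, Int.ofNat 1, Int.ofNat 1]]

def bVS4 : List (List ℤ) :=
  [  [Int.ofNat 0, Int.ofNat 0, Int.ofNat 0, Int.ofNat 2, Int.negSucc 4, Int.negSucc 0, Int.ofNat 0,
    Int.ofNat 1, Int.negSucc 3, Int.ofNat 4, Int.ofNat 0, Int.ofNat 0, Int.ofNat 0, Int.ofNat 2,
    Int.ofNat 1, Int.ofNat 1, Int.ofNat 2, Int.negSucc 2, Int.ofNat 2, Int.ofNat 0,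
    Int.negSucc 1, Int.ofNat 2, Int.ofNat 4, Int.negSucc 3],
  [Int.ofNat 0, Int.ofNat 0, Int.ofNat 0, Int.ofNat 0, Int.ofNat 1, Int.ofNat 1, Int.negSucc 1,
    Int.ofNat 5, Int.ofNat 4, Int.negSucc 5, Int.ofNat 0, Int.ofNat 0, Int.ofNat 0, Int.ofNat 0,
    Int.negSucc 0, Int.negSucc 0, Int.ofNat 0, Int.ofNat 1, Int.negSucc 1, Int.negSucc 5,
    Int.ofNat 0, Int.ofNat 0, Int.negSucc 1, Int.ofNat 6],
  [Int.ofNat 0, Int.ofNat 0, Int.ofNat 0, Int.ofNat 2, Int.negSucc 3, Int.ofNat 0, Int.negSucc 1,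
    Int.ofNat 6, Int.ofNat 0, Int.negSucc 1, Int.ofNat 0, Int.ofNat 0, Int.ofNat 0, Int.ofNat 2,
    Int.ofNat 0, Int.ofNat 0, Int.ofNat 2, Int.negSucc 1, Int.ofNat 0, Int.negSucc 5,
    Int.negSucc 1, Int.ofNat 2, Int.ofNat 2, Int.ofNat 2],
  [Int.ofNat 0, Int.ofNat 0, Int.negSucc 1, Int.ofNat 0, Int.ofNat 3, Int.ofNat 5, Int.ofNat 2,
    Int.negSucc 5, Int.negSucc 0, Int.negSucc 3, Int.ofNat 0, Int.ofNat 0, Int.ofNat 0,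
    Int.ofNat 0, Int.negSucc 0, Int.negSucc 4, Int.ofNat 0, Int.negSucc 1, Int.negSucc 0,
    Int.ofNat 14, Int.ofNat 12, Int.ofNat 14, Int.ofNat 10, Int.ofNat 18, Int.ofNat 0,
    Int.ofNat 0, Int.negSucc 3, Int.ofNat 4, Int.ofNat 0, Int.ofNat 2, Int.ofNat 2, Int.ofNat 0,
    Int.ofNat 0, Int.ofNat 4, Int.negSucc 1],
  [Int.ofNat 0, Int.ofNat 0, Int.negSucc 1, Int.ofNat 4, Int.ofNat 1, Int.ofNat 3, Int.ofNat 2,
    Int.negSucc 14, Int.negSucc 7, Int.ofNat 30, Int.ofNat 0, Int.ofNat 0, Int.negSucc 1,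
    Int.ofNat 4, Int.negSucc 0, Int.negSucc 2, Int.ofNat 4, Int.negSucc 2, Int.ofNat 2,
    Int.ofNat 32, Int.ofNat 16, Int.ofNat 10, Int.ofNat 28, Int.negSucc 3, Int.ofNat 0,
    Int.ofNat 0, Int.ofNat 0, Int.ofNat 0, Int.ofNat 0, Int.ofNat 2, Int.negSucc 1, Int.ofNat 0,
    Int.ofNat 4, Int.ofNat 4],
  [Int.ofNat 0, Int.ofNat 4, Int.negSucc 5, Int.ofNat 8, Int.negSucc 2, Int.ofNat 1,
    Int.ofNat 14, Int.negSucc 13, Int.negSucc 4, Int.ofNat 8, Int.ofNat 0, Int.ofNat 4,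
    Int.ofNat 0, Int.ofNat 8, Int.ofNat 1, Int.negSucc 0, Int.ofNat 4, Int.negSucc 5,
    Int.ofNat 3, Int.ofNat 12, Int.ofNat 12, Int.ofNat 2, Int.ofNat 4, Int.negSucc 9,
    Int.ofNat 0, Int.ofNat 0, Int.negSucc 3, Int.ofNat 4, Int.ofNat 0, Int.ofNat 0, Int.ofNat 2,
    Int.ofNat 2, Int.ofNat 4],
  [Int.ofNat 0, Int.ofNat 0, Int.ofNat 0, Int.ofNat 2, Int.ofNat 0, Int.ofNat 0, Int.ofNat 0,
    Int.ofNat 0, Int.ofNat 0, Int.ofNat 0, Int.ofNat 0, Int.ofNat 0, Int.ofNat 0, Int.ofNat 2],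
  [Int.ofNat 0, Int.negSucc 1, Int.ofNat 0, Int.negSucc 1, Int.ofNat 0, Int.ofNat 3,
    Int.negSucc 0, Int.negSucc 8, Int.negSucc 7, Int.ofNat 24, Int.ofNat 0, Int.negSucc 1,
    Int.ofNat 0, Int.negSucc 1, Int.ofNat 0, Int.negSucc 2, Int.ofNat 3, Int.negSucc 2,
    Int.ofNat 0, Int.ofNat 21, Int.ofNat 4, Int.ofNat 3, Int.ofNat 17, Int.negSucc 8,
    Int.ofNat 0, Int.ofNat 0, Int.negSucc 0, Int.ofNat 1, Int.ofNat 0, Int.ofNat 1,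
    Int.negSucc 0, Int.ofNat 0, Int.ofNat 1, Int.ofNat 3],
  [Int.ofNat 0, Int.ofNat 2, Int.negSucc 3, Int.ofNat 6, Int.negSucc 0, Int.negSucc 1,
    Int.ofNat 11, Int.negSucc 7, Int.ofNat 0, Int.ofNat 2, Int.ofNat 0, Int.ofNat 2, Int.ofNat 0,
    Int.ofNat 6, Int.ofNat 1, Int.ofNat 2, Int.ofNat 1, Int.negSucc 1, Int.ofNat 2, Int.ofNat 1,
    Int.ofNat 6, Int.negSucc 4, Int.negSucc 4, Int.negSucc 10, Int.ofNat 0, Int.ofNat 0,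
    Int.negSucc 0, Int.ofNat 1, Int.ofNat 0, Int.negSucc 0, Int.ofNat 1, Int.ofNat 2,
    Int.ofNat 3, Int.negSucc 0],
  [Int.ofNat 0, Int.negSucc 0, Int.ofNat 3, Int.negSucc 1, Int.ofNat 4, Int.ofNat 0,
    Int.negSucc 8, Int.ofNat 7, Int.ofNat 5, Int.ofNat 5, Int.ofNat 0, Int.negSucc 0,
    Int.negSucc 0, Int.negSucc 1, Int.negSucc 1, Int.ofNat 0, Int.negSucc 0, Int.ofNat 5,
    Int.negSucc 2, Int.negSucc 2, Int.negSucc 2, Int.negSucc 3, Int.ofNat 3, Int.ofNat 2,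
    Int.ofNat 0, Int.ofNat 0, Int.ofNat 4, Int.negSucc 3, Int.ofNat 0, Int.ofNat 0,
    Int.negSucc 2, Int.negSucc 0, Int.ofNat 0, Int.ofNat 0, Int.ofNat 1],
  [Int.ofNat 0, Int.negSucc 0, Int.ofNat 0, Int.negSucc 2, Int.negSucc 0, Int.negSucc 0,
    Int.ofNat 2, Int.negSucc 0, Int.negSucc 3, Int.ofNat 3, Int.ofNat 0, Int.negSucc 0,
    Int.ofNat 2, Int.negSucc 2, Int.ofNat 1, Int.ofNat 1, Int.ofNat 0, Int.negSucc 0,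
    Int.ofNat 0, Int.negSucc 1, Int.negSucc 6, Int.negSucc 5, Int.negSucc 5, Int.negSucc 11,
    Int.ofNat 0, Int.ofNat 0, Int.negSucc 0, Int.ofNat 1, Int.ofNat 0, Int.negSucc 0,
    Int.ofNat 1, Int.ofNat 0, Int.negSucc 0, Int.negSucc 0],
  [Int.ofNat 0, Int.ofNat 0, Int.negSucc 0, Int.negSucc 0, Int.negSucc 0, Int.ofNat 0,
    Int.ofNat 6, Int.negSucc 1, Int.negSucc 1, Int.negSucc 2, Int.ofNat 0, Int.ofNat 0,
    Int.ofNat 1, Int.negSucc 0, Int.ofNat 1, Int.ofNat 0, Int.ofNat 0, Int.negSucc 1,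
    Int.ofNat 0, Int.ofNat 1, Int.ofNat 3, Int.ofNat 4, Int.negSucc 0, Int.ofNat 0, Int.ofNat 0,
    Int.ofNat 0, Int.negSucc 1, Int.ofNat 2, Int.ofNat 0, Int.ofNat 0, Int.ofNat 1, Int.ofNat 1,
    Int.ofNat 0, Int.ofNat 0, Int.negSucc 0]]

def bVS5 : List (List ℤ) :=
  [  [Int.ofNat 0, Int.ofNat 0, Int.ofNat 0, Int.ofNat 2, Int.negSucc 2, Int.ofNat 0, Int.ofNat 1,
    Int.negSucc 1, Int.negSucc 3, Int.ofNat 5, Int.ofNat 0, Int.ofNat 0, Int.ofNat 0,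
    Int.ofNat 2, Int.ofNat 1, Int.ofNat 0, Int.ofNat 1, Int.negSucc 1, Int.ofNat 2, Int.ofNat 3,
    Int.negSucc 0, Int.ofNat 1, Int.ofNat 3, Int.negSucc 4],
  [Int.ofNat 0, Int.ofNat 0, Int.ofNat 0, Int.ofNat 1, Int.ofNat 0, Int.ofNat 1, Int.ofNat 0,
    Int.ofNat 0, Int.ofNat 0, Int.ofNat 0, Int.ofNat 0, Int.ofNat 0, Int.ofNat 0, Int.ofNat 1,
    Int.ofNat 0, Int.negSucc 0],
  [Int.ofNat 0, Int.ofNat 0, Int.ofNat 0, Int.ofNat 1, Int.negSucc 1, Int.ofNat 0, Int.negSucc 0,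
    Int.ofNat 3, Int.ofNat 0, Int.negSucc 0, Int.ofNat 0, Int.ofNat 0, Int.ofNat 0, Int.ofNat 1,
    Int.ofNat 0, Int.ofNat 0, Int.ofNat 1, Int.negSucc 0, Int.ofNat 0, Int.negSucc 2,
    Int.negSucc 0, Int.ofNat 1, Int.ofNat 1, Int.ofNat 1],
  [Int.ofNat 1, Int.negSucc 2, Int.ofNat 4, Int.negSucc 5, Int.negSucc 1, Int.negSucc 1,
    Int.negSucc 4, Int.ofNat 6, Int.negSucc 6, Int.ofNat 15, Int.negSucc 0, Int.negSucc 0,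
    Int.ofNat 0, Int.negSucc 5, Int.negSucc 1, Int.ofNat 0, Int.ofNat 3, Int.ofNat 2,
    Int.negSucc 0, Int.negSucc 3, Int.negSucc 15, Int.negSucc 8, Int.negSucc 1, Int.negSucc 21,
    Int.ofNat 0, Int.negSucc 0, Int.ofNat 1, Int.negSucc 1, Int.ofNat 0, Int.ofNat 0,
    Int.negSucc 1, Int.negSucc 1, Int.ofNat 0, Int.negSucc 1, Int.ofNat 2],
  [Int.ofNat 0, Int.ofNat 0, Int.ofNat 6, Int.ofNat 3, Int.ofNat 1, Int.ofNat 1, Int.ofNat 2,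
    Int.ofNat 1, Int.negSucc 10, Int.ofNat 23, Int.ofNat 0, Int.ofNat 2, Int.negSucc 1,
    Int.ofNat 1, Int.ofNat 3, Int.negSucc 2, Int.ofNat 0, Int.ofNat 1, Int.negSucc 2,
    Int.ofNat 8, Int.negSucc 5, Int.ofNat 1, Int.ofNat 8, Int.negSucc 21, Int.ofNat 0,
    Int.ofNat 0, Int.ofNat 1, Int.negSucc 2, Int.negSucc 0, Int.ofNat 1, Int.negSucc 1,
    Int.negSucc 0, Int.ofNat 0, Int.ofNat 2, Int.ofNat 1, Int.ofNat 1],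
  [Int.ofNat 1, Int.ofNat 1, Int.ofNat 2, Int.ofNat 3, Int.negSucc 0, Int.ofNat 0, Int.ofNat 4,
    Int.ofNat 10, Int.negSucc 3, Int.ofNat 6, Int.negSucc 0, Int.ofNat 1, Int.ofNat 0,
    Int.ofNat 1, Int.ofNat 3, Int.ofNat 0, Int.ofNat 0, Int.negSucc 1, Int.negSucc 5,
    Int.negSucc 9, Int.negSucc 5, Int.negSucc 1, Int.ofNat 0, Int.negSucc 13, Int.ofNat 0,
    Int.ofNat 1, Int.ofNat 0, Int.negSucc 0, Int.negSucc 0, Int.negSucc 0, Int.ofNat 0,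
    Int.ofNat 1, Int.ofNat 0, Int.ofNat 0, Int.ofNat 1, Int.ofNat 1],
  [Int.ofNat 0, Int.ofNat 0, Int.ofNat 0, Int.negSucc 0, Int.ofNat 1, Int.ofNat 1, Int.negSucc 4,
    Int.ofNat 1, Int.ofNat 5, Int.negSucc 11, Int.ofNat 0, Int.ofNat 0, Int.ofNat 0,
    Int.negSucc 0, Int.negSucc 0, Int.negSucc 0, Int.negSucc 0, Int.ofNat 1, Int.ofNat 1,
    Int.negSucc 5, Int.negSucc 3, Int.negSucc 3, Int.negSucc 9, Int.ofNat 8, Int.ofNat 0,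
    Int.ofNat 0, Int.ofNat 0, Int.ofNat 0, Int.ofNat 0, Int.ofNat 0, Int.ofNat 0, Int.ofNat 0,
    Int.negSucc 1],
  [Int.ofNat 0, Int.negSucc 2, Int.ofNat 4, Int.negSucc 4, Int.negSucc 2, Int.negSucc 1,
    Int.negSucc 2, Int.ofNat 1, Int.negSucc 10, Int.ofNat 21, Int.ofNat 0, Int.negSucc 0,
    Int.ofNat 0, Int.negSucc 4, Int.negSucc 0, Int.ofNat 0, Int.ofNat 3, Int.ofNat 1,
    Int.ofNat 1, Int.ofNat 2, Int.negSucc 15, Int.negSucc 8, Int.ofNat 0, Int.negSucc 27,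
    Int.ofNat 0, Int.negSucc 0, Int.ofNat 1, Int.negSucc 1, Int.ofNat 0, Int.ofNat 0,
    Int.negSucc 1, Int.negSucc 1, Int.ofNat 0, Int.negSucc 1, Int.ofNat 2],
  [Int.ofNat 0, Int.ofNat 1, Int.ofNat 0, Int.ofNat 3, Int.ofNat 2, Int.ofNat 0, Int.ofNat 3,
    Int.ofNat 5, Int.negSucc 0, Int.negSucc 11, Int.ofNat 0, Int.ofNat 1, Int.ofNat 0,
    Int.ofNat 1, Int.ofNat 2, Int.ofNat 0, Int.negSucc 2, Int.negSucc 0, Int.negSucc 2,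
    Int.negSucc 6, Int.ofNat 0, Int.ofNat 5, Int.negSucc 2, Int.ofNat 7, Int.ofNat 0,
    Int.ofNat 1, Int.negSucc 0, Int.ofNat 0, Int.negSucc 0, Int.ofNat 0, Int.ofNat 1,
    Int.ofNat 1, Int.negSucc 0, Int.ofNat 1, Int.negSucc 0, Int.ofNat 1],
  [Int.negSucc 0, Int.ofNat 1, Int.ofNat 1, Int.ofNat 1, Int.ofNat 4, Int.ofNat 3, Int.negSucc 1,
    Int.negSucc 3, Int.ofNat 4, Int.negSucc 2, Int.ofNat 1, Int.ofNat 1, Int.negSucc 0,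
    Int.ofNat 1, Int.ofNat 0, Int.negSucc 2, Int.negSucc 1, Int.ofNat 2, Int.ofNat 0,
    Int.ofNat 7, Int.ofNat 6, Int.ofNat 4, Int.ofNat 1, Int.ofNat 11, Int.ofNat 0, Int.ofNat 0,
    Int.ofNat 0, Int.ofNat 0, Int.ofNat 0, Int.ofNat 1, Int.ofNat 0, Int.ofNat 0, Int.negSucc 0,
    Int.ofNat 3, Int.negSucc 0],
  [Int.ofNat 0, Int.negSucc 0, Int.ofNat 0, Int.negSucc 2, Int.ofNat 0, Int.ofNat 0,
    Int.negSucc 6, Int.ofNat 5, Int.ofNat 3, Int.negSucc 13, Int.ofNat 0, Int.negSucc 0,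
    Int.ofNat 0, Int.negSucc 2, Int.negSucc 1, Int.ofNat 0, Int.negSucc 0, Int.ofNat 1,
    Int.ofNat 1, Int.negSucc 8, Int.negSucc 6, Int.negSucc 1, Int.negSucc 7, Int.ofNat 10,
    Int.ofNat 0, Int.ofNat 0, Int.ofNat 0, Int.ofNat 0, Int.ofNat 0, Int.ofNat 0, Int.ofNat 0,
    Int.negSucc 0, Int.negSucc 1, Int.negSucc 0],
  [Int.ofNat 0, Int.negSucc 0, Int.negSucc 0, Int.negSucc 2, Int.negSucc 0, Int.negSucc 1,
    Int.ofNat 1, Int.ofNat 1, Int.negSucc 3, Int.ofNat 2, Int.ofNat 0, Int.negSucc 0,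
    Int.ofNat 1, Int.negSucc 2, Int.negSucc 0, Int.ofNat 2, Int.ofNat 1, Int.negSucc 0,
    Int.ofNat 0, Int.ofNat 1, Int.ofNat 0, Int.ofNat 3, Int.ofNat 5, Int.negSucc 0, Int.ofNat 0,
    Int.ofNat 0, Int.ofNat 0, Int.ofNat 0, Int.ofNat 0, Int.ofNat 0, Int.negSucc 0, Int.ofNat 0,
    Int.ofNat 1, Int.negSucc 1]]

def bVS7 : List (List ℤ) :=
  [  [Int.negSucc 0, Int.ofNat 0, Int.ofNat 0, Int.negSucc 1, Int.ofNat 3, Int.ofNat 1,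
    Int.negSucc 1, Int.ofNat 2, Int.negSucc 0, Int.negSucc 8, Int.negSucc 0, Int.ofNat 0,
    Int.ofNat 0, Int.negSucc 1, Int.negSucc 0, Int.ofNat 1, Int.negSucc 1, Int.ofNat 2,
    Int.negSucc 0, Int.ofNat 1, Int.ofNat 2, Int.ofNat 8, Int.ofNat 4, Int.ofNat 14, Int.ofNat 0,
    Int.ofNat 0, Int.ofNat 0, Int.ofNat 0, Int.ofNat 1, Int.ofNat 0, Int.ofNat 0, Int.ofNat 0,
    Int.ofNat 0, Int.ofNat 0, Int.ofNat 0, Int.negSucc 0],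
  [Int.ofNat 0, Int.ofNat 0, Int.ofNat 0, Int.ofNat 0, Int.negSucc 0, Int.negSucc 0, Int.ofNat 3,
    Int.negSucc 4, Int.negSucc 3, Int.ofNat 5, Int.ofNat 0, Int.ofNat 0, Int.ofNat 0,
    Int.ofNat 0, Int.ofNat 1, Int.ofNat 1, Int.ofNat 1, Int.negSucc 0, Int.ofNat 2, Int.ofNat 7,
    Int.ofNat 4, Int.ofNat 4, Int.ofNat 6, Int.negSucc 1, Int.ofNat 0, Int.ofNat 0, Int.ofNat 0,
    Int.ofNat 0, Int.ofNat 1, Int.ofNat 0, Int.ofNat 0, Int.ofNat 0, Int.ofNat 0, Int.ofNat 0,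
    Int.ofNat 0, Int.ofNat 1],
  [Int.ofNat 0, Int.ofNat 0, Int.ofNat 0, Int.negSucc 1, Int.ofNat 2, Int.ofNat 0, Int.ofNat 1,
    Int.negSucc 2, Int.negSucc 4, Int.negSucc 3, Int.ofNat 0, Int.ofNat 0, Int.ofNat 0,
    Int.negSucc 1, Int.ofNat 0, Int.ofNat 2, Int.negSucc 0, Int.ofNat 1, Int.ofNat 1,
    Int.ofNat 8, Int.ofNat 6, Int.ofNat 12, Int.ofNat 10, Int.ofNat 12, Int.ofNat 0, Int.ofNat 0,
    Int.ofNat 0, Int.ofNat 0, Int.ofNat 2],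
  [Int.ofNat 2, Int.negSucc 1, Int.ofNat 3, Int.ofNat 0, Int.negSucc 5, Int.ofNat 0, Int.ofNat 1,
    Int.negSucc 3, Int.negSucc 10, Int.ofNat 10, Int.ofNat 2, Int.ofNat 0, Int.negSucc 0,
    Int.ofNat 0, Int.ofNat 0, Int.negSucc 1, Int.ofNat 3, Int.negSucc 1, Int.ofNat 5,
    Int.ofNat 5, Int.negSucc 9, Int.ofNat 0, Int.negSucc 1, Int.negSucc 16, Int.ofNat 0,
    Int.negSucc 0, Int.negSucc 0, Int.ofNat 0, Int.ofNat 0, Int.ofNat 1, Int.ofNat 0,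
    Int.negSucc 1, Int.negSucc 0, Int.ofNat 0, Int.ofNat 0, Int.ofNat 1],
  [Int.ofNat 1, Int.negSucc 2, Int.ofNat 4, Int.negSucc 3, Int.negSucc 3, Int.ofNat 0,
    Int.ofNat 2, Int.negSucc 4, Int.negSucc 15, Int.ofNat 19, Int.ofNat 1, Int.negSucc 0,
    Int.ofNat 0, Int.negSucc 3, Int.ofNat 0, Int.negSucc 1, Int.ofNat 2, Int.negSucc 0,
    Int.ofNat 4, Int.ofNat 12, Int.negSucc 9, Int.ofNat 3, Int.ofNat 4, Int.negSucc 21,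
    Int.ofNat 0, Int.negSucc 0, Int.negSucc 0, Int.ofNat 0, Int.ofNat 0, Int.ofNat 1,
    Int.ofNat 0, Int.negSucc 1, Int.negSucc 0, Int.ofNat 1],
  [Int.ofNat 1, Int.ofNat 0, Int.ofNat 1, Int.ofNat 0, Int.ofNat 0, Int.ofNat 2, Int.ofNat 2,
    Int.ofNat 2, Int.negSucc 0, Int.negSucc 2, Int.ofNat 1, Int.ofNat 0, Int.negSucc 0,
    Int.ofNat 0, Int.ofNat 0, Int.ofNat 0, Int.ofNat 0, Int.ofNat 0, Int.negSucc 0, Int.ofNat 1,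
    Int.ofNat 3, Int.ofNat 8, Int.ofNat 3, Int.ofNat 6, Int.ofNat 0, Int.ofNat 0, Int.ofNat 0,
    Int.ofNat 0, Int.ofNat 1, Int.ofNat 0, Int.ofNat 0, Int.ofNat 0, Int.ofNat 0, Int.ofNat 1],
  [Int.ofNat 0, Int.ofNat 0, Int.ofNat 0, Int.ofNat 1, Int.ofNat 0, Int.ofNat 0, Int.ofNat 0,
    Int.ofNat 0, Int.ofNat 0, Int.ofNat 0, Int.ofNat 0, Int.ofNat 0, Int.ofNat 0, Int.ofNat 1],
  [Int.ofNat 1, Int.negSucc 3, Int.ofNat 4, Int.negSucc 4, Int.negSucc 4, Int.ofNat 0,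
    Int.negSucc 1, Int.negSucc 7, Int.negSucc 20, Int.ofNat 32, Int.ofNat 1, Int.negSucc 1,
    Int.ofNat 0, Int.negSucc 4, Int.negSucc 0, Int.negSucc 1, Int.ofNat 4, Int.negSucc 1,
    Int.ofNat 5, Int.ofNat 19, Int.negSucc 12, Int.ofNat 0, Int.ofNat 12, Int.negSucc 29,
    Int.ofNat 0, Int.negSucc 0, Int.ofNat 0, Int.negSucc 0, Int.ofNat 0, Int.ofNat 1,
    Int.negSucc 1, Int.negSucc 1, Int.ofNat 0, Int.ofNat 0, Int.ofNat 1],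
  [Int.ofNat 0, Int.ofNat 0, Int.negSucc 1, Int.negSucc 0, Int.negSucc 0, Int.negSucc 1,
    Int.ofNat 7, Int.negSucc 5, Int.negSucc 4, Int.ofNat 7, Int.ofNat 0, Int.ofNat 0,
    Int.ofNat 2, Int.negSucc 0, Int.ofNat 1, Int.ofNat 2, Int.ofNat 1, Int.negSucc 1,
    Int.ofNat 1, Int.ofNat 3, Int.negSucc 0, Int.negSucc 4, Int.negSucc 2, Int.negSucc 14,
    Int.ofNat 0, Int.ofNat 0, Int.negSucc 0, Int.ofNat 1, Int.ofNat 0, Int.negSucc 0,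
    Int.ofNat 1, Int.ofNat 1, Int.ofNat 1, Int.negSucc 0],
  [Int.ofNat 0, Int.negSucc 0, Int.ofNat 1, Int.negSucc 0, Int.negSucc 1, Int.negSucc 1,
    Int.ofNat 4, Int.negSucc 7, Int.negSucc 7, Int.ofNat 23, Int.ofNat 0, Int.negSucc 0,
    Int.ofNat 1, Int.negSucc 0, Int.ofNat 2, Int.ofNat 0, Int.ofNat 2, Int.negSucc 1,
    Int.ofNat 2, Int.ofNat 13, Int.ofNat 1, Int.negSucc 1, Int.ofNat 9, Int.negSucc 19,
    Int.ofNat 0, Int.ofNat 0, Int.ofNat 0, Int.ofNat 0, Int.ofNat 0, Int.ofNat 0, Int.ofNat 0,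
    Int.ofNat 0, Int.ofNat 0, Int.ofNat 1, Int.ofNat 0, Int.ofNat 1],
  [Int.ofNat 0, Int.negSucc 0, Int.negSucc 0, Int.negSucc 0, Int.negSucc 1, Int.ofNat 0,
    Int.ofNat 2, Int.negSucc 6, Int.negSucc 9, Int.ofNat 15, Int.ofNat 0, Int.negSucc 0,
    Int.ofNat 1, Int.negSucc 0, Int.ofNat 0, Int.ofNat 0, Int.ofNat 2, Int.negSucc 2,
    Int.ofNat 2, Int.ofNat 12, Int.negSucc 0, Int.ofNat 1, Int.ofNat 9, Int.negSucc 11,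
    Int.ofNat 0, Int.ofNat 0, Int.negSucc 0, Int.ofNat 1, Int.ofNat 0, Int.ofNat 0, Int.ofNat 0,
    Int.ofNat 0, Int.ofNat 1],
  [Int.ofNat 0, Int.ofNat 1, Int.negSucc 1, Int.ofNat 2, Int.ofNat 0, Int.negSucc 0, Int.ofNat 3,
    Int.negSucc 4, Int.negSucc 0, Int.ofNat 4, Int.ofNat 0, Int.ofNat 1, Int.ofNat 0,
    Int.ofNat 2, Int.ofNat 0, Int.ofNat 1, Int.ofNat 1, Int.negSucc 0, Int.ofNat 1, Int.ofNat 5,
    Int.ofNat 5, Int.ofNat 0, Int.ofNat 4, Int.negSucc 1, Int.ofNat 0, Int.ofNat 0, Int.ofNat 0,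
    Int.ofNat 0, Int.ofNat 0, Int.ofNat 0, Int.negSucc 0, Int.ofNat 1, Int.ofNat 2, Int.negSucc 0]]

def bVY0 : List (List ℤ) :=
  [  [Int.ofNat 0, Int.ofNat 1, Int.negSucc 1, Int.ofNat 5, Int.ofNat 0, Int.negSucc 2, Int.ofNat 0,
    Int.negSucc 3, Int.ofNat 15, Int.negSucc 10, Int.ofNat 0, Int.ofNat 1, Int.ofNat 0,
    Int.ofNat 5, Int.ofNat 0, Int.negSucc 0, Int.negSucc 1, Int.ofNat 2, Int.ofNat 3,
    Int.negSucc 23, Int.negSucc 16, Int.negSucc 38, Int.negSucc 43, Int.negSucc 24,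
    Int.negSucc 0, Int.negSucc 1, Int.negSucc 0, Int.ofNat 1, Int.ofNat 1, Int.negSucc 1,
    Int.ofNat 2, Int.ofNat 0, Int.negSucc 0, Int.negSucc 2, Int.ofNat 2],
  [Int.ofNat 0, Int.ofNat 0, Int.ofNat 1, Int.negSucc 2, Int.negSucc 1, Int.ofNat 1, Int.ofNat 6,
    Int.negSucc 1, Int.negSucc 18, Int.ofNat 16, Int.ofNat 0, Int.ofNat 0, Int.ofNat 1,
    Int.negSucc 2, Int.ofNat 2, Int.ofNat 3, Int.ofNat 2, Int.negSucc 3, Int.negSucc 0,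
    Int.ofNat 22, Int.ofNat 11, Int.ofNat 28, Int.ofNat 34, Int.ofNat 5, Int.ofNat 2,
    Int.ofNat 2, Int.negSucc 1, Int.ofNat 1, Int.negSucc 1, Int.ofNat 1, Int.ofNat 1,
    Int.ofNat 0, Int.ofNat 1, Int.ofNat 0, Int.negSucc 0, Int.ofNat 1],
  [Int.ofNat 0, Int.negSucc 0, Int.ofNat 2, Int.negSucc 2, Int.ofNat 0, Int.ofNat 0, Int.ofNat 3,
    Int.ofNat 0, Int.negSucc 10, Int.ofNat 13, Int.ofNat 0, Int.negSucc 0, Int.ofNat 0,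
    Int.negSucc 2, Int.ofNat 0, Int.ofNat 2, Int.ofNat 1, Int.ofNat 0, Int.negSucc 0,
    Int.ofNat 17, Int.ofNat 12, Int.ofNat 23, Int.ofNat 29, Int.ofNat 8, Int.ofNat 0,
    Int.ofNat 1, Int.ofNat 2, Int.negSucc 0, Int.ofNat 0, Int.ofNat 1, Int.negSucc 1,
    Int.ofNat 1, Int.ofNat 1, Int.ofNat 1, Int.negSucc 0],
  [Int.ofNat 0, Int.ofNat 0, Int.ofNat 0, Int.ofNat 2, Int.ofNat 0, Int.negSucc 1, Int.negSucc 0,
    Int.ofNat 0, Int.ofNat 7, Int.negSucc 0, Int.ofNat 0, Int.ofNat 0, Int.ofNat 0, Int.ofNat 2,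
    Int.ofNat 0, Int.ofNat 0, Int.negSucc 0, Int.ofNat 2, Int.ofNat 1, Int.negSucc 13,
    Int.negSucc 11, Int.negSucc 22, Int.negSucc 22, Int.negSucc 18, Int.negSucc 0, Int.negSucc 0,
    Int.ofNat 1, Int.negSucc 0, Int.ofNat 0, Int.negSucc 0, Int.ofNat 0, Int.ofNat 0,
    Int.ofNat 0, Int.negSucc 0, Int.ofNat 1],
  [Int.ofNat 0, Int.ofNat 0, Int.negSucc 0, Int.negSucc 0, Int.ofNat 1, Int.ofNat 3,
    Int.negSucc 1, Int.ofNat 2, Int.negSucc 9, Int.negSucc 4, Int.ofNat 0, Int.ofNat 0,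
    Int.negSucc 0, Int.negSucc 0, Int.negSucc 0, Int.ofNat 1, Int.ofNat 0, Int.negSucc 1,
    Int.ofNat 0, Int.ofNat 28, Int.ofNat 30, Int.ofNat 53, Int.ofNat 52, Int.ofNat 54,
    Int.ofNat 3, Int.ofNat 2, Int.negSucc 0, Int.ofNat 0, Int.ofNat 0, Int.ofNat 3, Int.ofNat 0,
    Int.negSucc 0, Int.ofNat 0, Int.ofNat 2, Int.negSucc 1, Int.ofNat 1],
  [Int.ofNat 0, Int.ofNat 1, Int.negSucc 2, Int.ofNat 3, Int.ofNat 0, Int.ofNat 1, Int.negSucc 6,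
    Int.ofNat 4, Int.ofNat 15, Int.negSucc 19, Int.ofNat 0, Int.ofNat 1, Int.negSucc 0,
    Int.ofNat 3, Int.negSucc 1, Int.negSucc 2, Int.negSucc 0, Int.ofNat 0, Int.ofNat 1,
    Int.negSucc 15, Int.negSucc 4, Int.negSucc 12, Int.negSucc 20, Int.ofNat 11, Int.negSucc 0,
    Int.negSucc 0, Int.ofNat 0, Int.ofNat 0, Int.ofNat 1, Int.ofNat 0, Int.ofNat 0,
    Int.negSucc 0, Int.negSucc 0, Int.ofNat 1],
  [Int.ofNat 0, Int.ofNat 0, Int.ofNat 0, Int.negSucc 0, Int.ofNat 1, Int.ofNat 0, Int.ofNat 5,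
    Int.negSucc 7, Int.negSucc 4, Int.ofNat 12, Int.ofNat 0, Int.ofNat 0, Int.ofNat 0,
    Int.negSucc 0, Int.ofNat 1, Int.ofNat 0, Int.ofNat 1, Int.ofNat 0, Int.ofNat 1, Int.ofNat 12,
    Int.ofNat 5, Int.ofNat 2, Int.ofNat 7, Int.negSucc 7, Int.ofNat 0, Int.ofNat 0, Int.ofNat 0,
    Int.ofNat 1, Int.ofNat 0, Int.ofNat 0, Int.ofNat 0, Int.ofNat 1, Int.ofNat 1, Int.ofNat 0,
    Int.ofNat 0, Int.negSucc 0],
  [Int.ofNat 0, Int.ofNat 0, Int.ofNat 3, Int.ofNat 0, Int.ofNat 0, Int.negSucc 0, Int.ofNat 6,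
    Int.negSucc 0, Int.ofNat 3, Int.ofNat 10, Int.ofNat 0, Int.ofNat 0, Int.ofNat 1, Int.ofNat 0,
    Int.ofNat 2, Int.negSucc 0, Int.ofNat 0, Int.ofNat 1, Int.negSucc 2, Int.negSucc 15,
    Int.negSucc 19, Int.negSucc 32, Int.negSucc 32, Int.negSucc 43, Int.negSucc 1, Int.negSucc 0,
    Int.ofNat 0, Int.ofNat 1, Int.negSucc 0, Int.negSucc 1, Int.ofNat 0, Int.ofNat 1,
    Int.ofNat 0, Int.negSucc 1, Int.ofNat 1, Int.negSucc 0],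
  [Int.ofNat 0, Int.negSucc 0, Int.ofNat 4, Int.negSucc 2, Int.negSucc 0, Int.negSucc 2,
    Int.ofNat 8, Int.negSucc 2, Int.negSucc 10, Int.ofNat 17, Int.ofNat 0, Int.negSucc 0,
    Int.ofNat 2, Int.negSucc 2, Int.ofNat 3, Int.ofNat 3, Int.ofNat 0, Int.ofNat 1,
    Int.negSucc 0, Int.negSucc 2, Int.negSucc 14, Int.negSucc 14, Int.negSucc 10, Int.negSucc 38,
    Int.ofNat 0, Int.ofNat 0, Int.ofNat 0, Int.ofNat 0, Int.negSucc 0, Int.negSucc 1,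
    Int.ofNat 1, Int.ofNat 1, Int.ofNat 0, Int.negSucc 2, Int.ofNat 1],
  [Int.ofNat 0, Int.ofNat 1, Int.negSucc 2, Int.ofNat 5, Int.ofNat 2, Int.negSucc 0,
    Int.negSucc 5, Int.negSucc 2, Int.ofNat 24, Int.negSucc 15, Int.ofNat 0, Int.ofNat 1,
    Int.negSucc 0, Int.ofNat 5, Int.negSucc 1, Int.negSucc 4, Int.negSucc 1, Int.ofNat 3,
    Int.ofNat 2, Int.negSucc 29, Int.negSucc 21, Int.negSucc 50, Int.negSucc 56, Int.negSucc 23,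
    Int.negSucc 1, Int.negSucc 2, Int.ofNat 0, Int.ofNat 1, Int.ofNat 2, Int.negSucc 1,
    Int.ofNat 1, Int.ofNat 0, Int.negSucc 1, Int.negSucc 0, Int.ofNat 2, Int.negSucc 0],
  [Int.ofNat 0, Int.negSucc 0, Int.ofNat 1, Int.negSucc 0, Int.ofNat 2, Int.ofNat 3,
    Int.negSucc 7, Int.ofNat 7, Int.ofNat 0, Int.negSucc 5, Int.ofNat 0, Int.negSucc 0,
    Int.negSucc 0, Int.negSucc 0, Int.negSucc 1, Int.negSucc 0, Int.ofNat 0, Int.ofNat 1,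
    Int.negSucc 1, Int.ofNat 10, Int.ofNat 14, Int.ofNat 27, Int.ofNat 27, Int.ofNat 36,
    Int.ofNat 2, Int.ofNat 1, Int.ofNat 0, Int.negSucc 0, Int.ofNat 0, Int.ofNat 2,
    Int.negSucc 0, Int.negSucc 1, Int.ofNat 0, Int.ofNat 1, Int.ofNat 0, Int.ofNat 1],
  [Int.ofNat 0, Int.ofNat 1, Int.negSucc 2, Int.ofNat 3, Int.ofNat 2, Int.ofNat 1, Int.negSucc 5,
    Int.negSucc 0, Int.ofNat 12, Int.negSucc 17, Int.ofNat 0, Int.ofNat 1, Int.negSucc 0,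
    Int.ofNat 3, Int.negSucc 1, Int.negSucc 2, Int.negSucc 1, Int.ofNat 1, Int.ofNat 2,
    Int.negSucc 5, Int.ofNat 2, Int.negSucc 4, Int.negSucc 10, Int.ofNat 18, Int.ofNat 0,
    Int.negSucc 0, Int.ofNat 0, Int.ofNat 1, Int.ofNat 2, Int.ofNat 0, Int.ofNat 1, Int.ofNat 0,
    Int.negSucc 1, Int.ofNat 1, Int.ofNat 0, Int.negSucc 0]]

def bVY1 : List (List ℤ) :=
  [  [Int.ofNat 0, Int.negSucc 1, Int.ofNat 1, Int.negSucc 4, Int.ofNat 4, Int.negSucc 3,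
    Int.ofNat 6, Int.negSucc 16, Int.ofNat 7, Int.negSucc 2, Int.ofNat 0, Int.negSucc 1,
    Int.ofNat 1, Int.negSucc 4, Int.ofNat 2, Int.negSucc 1, Int.ofNat 0, Int.ofNat 7,
    Int.ofNat 5, Int.negSucc 10, Int.negSucc 18, Int.negSucc 41, Int.negSucc 46, Int.negSucc 37,
    Int.negSucc 0, Int.negSucc 2, Int.ofNat 0, Int.ofNat 1, Int.ofNat 4, Int.negSucc 3,
    Int.ofNat 1, Int.ofNat 1, Int.ofNat 0, Int.negSucc 3, Int.ofNat 3, Int.negSucc 2],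
  [Int.ofNat 0, Int.ofNat 0, Int.negSucc 0, Int.ofNat 0, Int.ofNat 1, Int.ofNat 2, Int.negSucc 0,
    Int.negSucc 2, Int.negSucc 4, Int.ofNat 4, Int.ofNat 0, Int.ofNat 0, Int.negSucc 0,
    Int.ofNat 0, Int.negSucc 0, Int.ofNat 0, Int.ofNat 1, Int.negSucc 0, Int.ofNat 1,
    Int.ofNat 21, Int.ofNat 20, Int.ofNat 28, Int.ofNat 32, Int.ofNat 27, Int.ofNat 2,
    Int.ofNat 1, Int.negSucc 0, Int.ofNat 1, Int.ofNat 0, Int.ofNat 2, Int.ofNat 0,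
    Int.negSucc 0, Int.ofNat 1, Int.ofNat 0, Int.ofNat 0, Int.ofNat 1],
  [Int.ofNat 0, Int.ofNat 1, Int.ofNat 0, Int.ofNat 3, Int.negSucc 2, Int.ofNat 1, Int.negSucc 4,
    Int.ofNat 13, Int.ofNat 1, Int.negSucc 5, Int.ofNat 0, Int.ofNat 1, Int.ofNat 0, Int.ofNat 3,
    Int.negSucc 0, Int.ofNat 1, Int.negSucc 0, Int.negSucc 2, Int.negSucc 2, Int.negSucc 9,
    Int.negSucc 2, Int.ofNat 6, Int.ofNat 4, Int.ofNat 9, Int.ofNat 0, Int.ofNat 1, Int.ofNat 0,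
    Int.negSucc 0, Int.negSucc 1, Int.ofNat 1, Int.ofNat 0, Int.negSucc 0, Int.negSucc 0,
    Int.ofNat 1, Int.negSucc 0, Int.ofNat 2],
  [Int.ofNat 0, Int.negSucc 0, Int.ofNat 3, Int.negSucc 0, Int.ofNat 1, Int.negSucc 1,
    Int.ofNat 0, Int.ofNat 4, Int.ofNat 7, Int.negSucc 10, Int.ofNat 0, Int.negSucc 0,
    Int.ofNat 1, Int.negSucc 0, Int.ofNat 1, Int.ofNat 0, Int.negSucc 1, Int.ofNat 4,
    Int.negSucc 0, Int.negSucc 19, Int.negSucc 14, Int.negSucc 19, Int.negSucc 27,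
    Int.negSucc 13, Int.negSucc 0, Int.negSucc 0, Int.ofNat 1, Int.negSucc 0, Int.ofNat 1,
    Int.negSucc 1, Int.ofNat 0, Int.ofNat 0, Int.negSucc 0, Int.negSucc 1, Int.ofNat 1,
    Int.negSucc 0],
  [Int.ofNat 0, Int.ofNat 3, Int.negSucc 5, Int.ofNat 4, Int.negSucc 3, Int.ofNat 1,
    Int.negSucc 0, Int.negSucc 0, Int.negSucc 8, Int.negSucc 11, Int.ofNat 0, Int.ofNat 3,
    Int.ofNat 0, Int.ofNat 4, Int.ofNat 0, Int.ofNat 3, Int.negSucc 0, Int.negSucc 6,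
    Int.ofNat 5, Int.ofNat 17, Int.ofNat 20, Int.ofNat 37, Int.ofNat 34, Int.ofNat 42,
    Int.ofNat 3, Int.ofNat 2, Int.negSucc 2, Int.ofNat 2, Int.negSucc 0, Int.ofNat 2,
    Int.ofNat 4, Int.negSucc 0, Int.negSucc 0, Int.ofNat 1, Int.negSucc 1, Int.ofNat 2],
  [Int.ofNat 0, Int.ofNat 0, Int.ofNat 0, Int.ofNat 0, Int.ofNat 1, Int.negSucc 0, Int.ofNat 4,
    Int.negSucc 4, Int.ofNat 2, Int.ofNat 5, Int.ofNat 0, Int.ofNat 0, Int.ofNat 0, Int.ofNat 0,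
    Int.ofNat 1, Int.negSucc 0, Int.ofNat 0, Int.ofNat 1, Int.ofNat 0, Int.negSucc 4,
    Int.negSucc 8, Int.negSucc 18, Int.negSucc 18, Int.negSucc 22, Int.negSucc 0, Int.negSucc 0,
    Int.ofNat 0, Int.ofNat 0, Int.ofNat 0, Int.negSucc 0, Int.ofNat 0, Int.ofNat 1, Int.ofNat 0,
    Int.ofNat 0, Int.ofNat 0, Int.negSucc 0],
  [Int.ofNat 0, Int.negSucc 1, Int.ofNat 4, Int.negSucc 3, Int.ofNat 2, Int.negSucc 0,
    Int.ofNat 4, Int.negSucc 4, Int.negSucc 4, Int.ofNat 30, Int.ofNat 0, Int.negSucc 1,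
    Int.ofNat 0, Int.negSucc 3, Int.ofNat 0, Int.negSucc 0, Int.ofNat 2, Int.ofNat 3,
    Int.negSucc 2, Int.ofNat 3, Int.negSucc 11, Int.negSucc 21, Int.negSucc 8, Int.negSucc 43,
    Int.negSucc 1, Int.negSucc 0, Int.ofNat 3, Int.negSucc 0, Int.ofNat 0, Int.negSucc 0,
    Int.negSucc 2, Int.ofNat 2, Int.ofNat 1, Int.ofNat 0, Int.ofNat 1, Int.negSucc 0],
  [Int.ofNat 0, Int.negSucc 1, Int.ofNat 3, Int.negSucc 1, Int.ofNat 3, Int.ofNat 0, Int.ofNat 2,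
    Int.negSucc 1, Int.ofNat 5, Int.ofNat 13, Int.ofNat 0, Int.negSucc 1, Int.negSucc 0,
    Int.negSucc 1, Int.negSucc 0, Int.negSucc 1, Int.ofNat 2, Int.ofNat 4, Int.negSucc 2,
    Int.ofNat 1, Int.ofNat 1, Int.negSucc 9, Int.negSucc 3, Int.negSucc 14, Int.negSucc 1,
    Int.negSucc 0, Int.ofNat 2, Int.negSucc 0, Int.ofNat 1, Int.ofNat 0, Int.negSucc 3,
    Int.ofNat 1, Int.ofNat 2, Int.ofNat 0, Int.ofNat 1, Int.negSucc 0],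
  [Int.ofNat 0, Int.negSucc 0, Int.ofNat 2, Int.negSucc 0, Int.ofNat 1, Int.ofNat 1,
    Int.negSucc 3, Int.ofNat 6, Int.ofNat 6, Int.negSucc 9, Int.ofNat 0, Int.negSucc 0,
    Int.ofNat 0, Int.negSucc 0, Int.negSucc 0, Int.negSucc 0, Int.ofNat 0, Int.ofNat 2,
    Int.negSucc 1, Int.negSucc 5, Int.ofNat 2, Int.ofNat 4, Int.ofNat 0, Int.ofNat 14,
    Int.ofNat 0, Int.ofNat 0, Int.ofNat 0, Int.ofNat 0, Int.ofNat 1, Int.ofNat 0, Int.negSucc 0,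
    Int.negSucc 0, Int.ofNat 0, Int.negSucc 0, Int.ofNat 1],
  [Int.ofNat 0, Int.negSucc 0, Int.ofNat 1, Int.negSucc 2, Int.ofNat 3, Int.negSucc 3,
    Int.ofNat 10, Int.negSucc 16, Int.ofNat 5, Int.ofNat 8, Int.ofNat 0, Int.negSucc 0,
    Int.ofNat 1, Int.negSucc 2, Int.ofNat 3, Int.negSucc 1, Int.ofNat 0, Int.ofNat 5,
    Int.ofNat 3, Int.negSucc 13, Int.negSucc 25, Int.negSucc 52, Int.negSucc 54, Int.negSucc 59,
    Int.negSucc 1, Int.negSucc 2, Int.ofNat 0, Int.ofNat 1, Int.ofNat 2, Int.negSucc 3,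
    Int.ofNat 1, Int.ofNat 2, Int.ofNat 0, Int.negSucc 2, Int.ofNat 2, Int.negSucc 2],
  [Int.ofNat 0, Int.ofNat 3, Int.negSucc 4, Int.ofNat 7, Int.negSucc 0, Int.ofNat 2,
    Int.negSucc 5, Int.ofNat 7, Int.ofNat 9, Int.negSucc 35, Int.ofNat 0, Int.ofNat 3,
    Int.negSucc 0, Int.ofNat 7, Int.negSucc 0, Int.ofNat 0, Int.negSucc 3, Int.negSucc 2,
    Int.ofNat 3, Int.negSucc 1, Int.ofNat 18, Int.ofNat 29, Int.ofNat 13, Int.ofNat 58,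
    Int.ofNat 2, Int.ofNat 1, Int.negSucc 1, Int.ofNat 1, Int.ofNat 0, Int.ofNat 2, Int.ofNat 3,
    Int.negSucc 1, Int.negSucc 1, Int.ofNat 1, Int.negSucc 1, Int.ofNat 1],
  [Int.ofNat 0, Int.ofNat 1, Int.negSucc 2, Int.negSucc 2, Int.negSucc 0, Int.negSucc 1,
    Int.ofNat 12, Int.negSucc 20, Int.negSucc 12, Int.ofNat 22, Int.ofNat 0, Int.ofNat 1,
    Int.ofNat 1, Int.negSucc 2, Int.ofNat 3, Int.ofNat 0, Int.ofNat 2, Int.negSucc 2,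
    Int.ofNat 5, Int.ofNat 12, Int.negSucc 11, Int.negSucc 22, Int.negSucc 16, Int.negSucc 45,
    Int.ofNat 0, Int.negSucc 0, Int.negSucc 1, Int.ofNat 3, Int.ofNat 0, Int.negSucc 1,
    Int.ofNat 3, Int.ofNat 2, Int.ofNat 0, Int.negSucc 0, Int.ofNat 0, Int.negSucc 0]]

def bVY2 : List (List ℤ) :=
  [  [Int.ofNat 0, Int.ofNat 0, Int.negSucc 3, Int.ofNat 1, Int.negSucc 0, Int.negSucc 1,
    Int.ofNat 2, Int.ofNat 8, Int.negSucc 0, Int.negSucc 22, Int.ofNat 0, Int.ofNat 0,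
    Int.ofNat 0, Int.ofNat 1, Int.negSucc 0, Int.ofNat 6, Int.negSucc 3, Int.negSucc 1,
    Int.ofNat 3, Int.ofNat 10, Int.ofNat 32, Int.ofNat 50, Int.ofNat 39, Int.ofNat 60,
    Int.ofNat 3, Int.ofNat 2, Int.ofNat 0, Int.negSucc 1, Int.ofNat 0, Int.ofNat 2, Int.ofNat 1,
    Int.negSucc 2, Int.ofNat 1, Int.negSucc 2, Int.negSucc 1, Int.ofNat 3],
  [Int.ofNat 0, Int.ofNat 0, Int.ofNat 2, Int.ofNat 0, Int.negSucc 0, Int.ofNat 0, Int.ofNat 5,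
    Int.negSucc 0, Int.negSucc 9, Int.ofNat 5, Int.ofNat 0, Int.ofNat 0, Int.ofNat 0,
    Int.ofNat 0, Int.ofNat 1, Int.ofNat 2, Int.ofNat 1, Int.negSucc 0, Int.ofNat 0, Int.ofNat 16,
    Int.ofNat 16, Int.ofNat 28, Int.ofNat 29, Int.ofNat 16, Int.ofNat 2, Int.ofNat 1,
    Int.negSucc 0, Int.ofNat 1, Int.ofNat 0, Int.ofNat 1, Int.ofNat 0, Int.ofNat 1, Int.ofNat 1,
    Int.negSucc 0],
  [Int.ofNat 0, Int.ofNat 0, Int.ofNat 2, Int.negSucc 0, Int.ofNat 0, Int.ofNat 1, Int.negSucc 3,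
    Int.negSucc 2, Int.negSucc 0, Int.ofNat 13, Int.ofNat 0, Int.ofNat 0, Int.ofNat 0,
    Int.negSucc 0, Int.ofNat 0, Int.negSucc 2, Int.ofNat 2, Int.ofNat 1, Int.negSucc 0,
    Int.negSucc 5, Int.negSucc 20, Int.negSucc 27, Int.negSucc 20, Int.negSucc 32, Int.negSucc 1,
    Int.negSucc 0, Int.ofNat 1, Int.ofNat 0, Int.ofNat 0, Int.negSucc 0, Int.negSucc 0,
    Int.ofNat 1, Int.negSucc 0, Int.ofNat 2, Int.ofNat 1, Int.negSucc 0],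
  [Int.ofNat 0, Int.ofNat 0, Int.ofNat 0, Int.ofNat 0, Int.ofNat 0, Int.negSucc 0, Int.negSucc 3,
    Int.ofNat 2, Int.ofNat 1, Int.ofNat 0, Int.ofNat 0, Int.ofNat 0, Int.ofNat 0, Int.ofNat 0,
    Int.ofNat 0, Int.ofNat 1, Int.negSucc 1, Int.ofNat 0, Int.ofNat 1, Int.ofNat 0,
    Int.negSucc 0, Int.ofNat 1, Int.ofNat 2, Int.ofNat 4, Int.ofNat 1, Int.ofNat 0, Int.ofNat 1,
    Int.negSucc 1, Int.ofNat 0, Int.ofNat 0, Int.ofNat 0, Int.negSucc 1, Int.negSucc 0,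
    Int.negSucc 0, Int.ofNat 0, Int.ofNat 1],
  [Int.ofNat 0, Int.ofNat 0, Int.ofNat 0, Int.negSucc 0, Int.ofNat 0, Int.ofNat 0, Int.ofNat 2,
    Int.negSucc 3, Int.negSucc 5, Int.negSucc 0, Int.ofNat 0, Int.ofNat 0, Int.ofNat 0,
    Int.negSucc 0, Int.ofNat 0, Int.ofNat 0, Int.ofNat 0, Int.ofNat 0, Int.ofNat 2, Int.ofNat 8,
    Int.ofNat 3, Int.ofNat 9, Int.ofNat 6, Int.ofNat 5, Int.negSucc 0, Int.ofNat 0, Int.ofNat 0,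
    Int.ofNat 1, Int.ofNat 0, Int.ofNat 1, Int.ofNat 0, Int.ofNat 1, Int.negSucc 0, Int.ofNat 2,
    Int.negSucc 0, Int.negSucc 1],
  [Int.ofNat 0, Int.ofNat 0, Int.negSucc 1, Int.ofNat 1, Int.ofNat 0, Int.ofNat 0, Int.negSucc 1,
    Int.ofNat 0, Int.ofNat 10, Int.negSucc 6, Int.ofNat 0, Int.ofNat 0, Int.ofNat 0, Int.ofNat 1,
    Int.ofNat 0, Int.negSucc 1, Int.ofNat 0, Int.ofNat 0, Int.ofNat 0, Int.negSucc 14,
    Int.negSucc 11, Int.negSucc 23, Int.negSucc 26, Int.negSucc 12, Int.negSucc 0, Int.negSucc 0,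
    Int.negSucc 0, Int.ofNat 1, Int.ofNat 0, Int.negSucc 0, Int.ofNat 1, Int.ofNat 0,
    Int.negSucc 0],
  [Int.ofNat 0, Int.ofNat 0, Int.ofNat 0, Int.negSucc 0, Int.ofNat 0, Int.ofNat 0, Int.ofNat 4,
    Int.negSucc 5, Int.negSucc 6, Int.ofNat 10, Int.ofNat 0, Int.ofNat 0, Int.ofNat 0,
    Int.negSucc 0, Int.ofNat 0, Int.ofNat 0, Int.ofNat 2, Int.ofNat 0, Int.ofNat 1, Int.ofNat 12,
    Int.ofNat 6, Int.ofNat 7, Int.ofNat 12, Int.negSucc 2, Int.ofNat 0, Int.ofNat 0, Int.ofNat 0,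
    Int.ofNat 1, Int.ofNat 1, Int.ofNat 0, Int.ofNat 0, Int.ofNat 1, Int.ofNat 1],
  [Int.ofNat 0, Int.ofNat 0, Int.ofNat 0, Int.ofNat 1, Int.ofNat 0, Int.ofNat 0, Int.ofNat 4,
    Int.ofNat 5, Int.ofNat 1, Int.negSucc 2, Int.ofNat 0, Int.ofNat 0, Int.ofNat 0, Int.ofNat 1,
    Int.ofNat 0, Int.ofNat 2, Int.ofNat 0, Int.negSucc 0, Int.negSucc 2, Int.ofNat 2,
    Int.ofNat 14, Int.ofNat 17, Int.ofNat 16, Int.ofNat 16, Int.ofNat 2, Int.ofNat 1,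
    Int.negSucc 0, Int.ofNat 0, Int.ofNat 0, Int.ofNat 0, Int.ofNat 0, Int.ofNat 0, Int.ofNat 2,
    Int.negSucc 1, Int.ofNat 0, Int.ofNat 2],
  [Int.ofNat 0, Int.ofNat 0, Int.ofNat 2, Int.ofNat 0, Int.ofNat 0, Int.ofNat 0, Int.negSucc 0,
    Int.ofNat 6, Int.negSucc 1, Int.ofNat 0, Int.ofNat 0, Int.ofNat 0, Int.ofNat 0, Int.ofNat 0,
    Int.ofNat 0, Int.ofNat 2, Int.negSucc 0, Int.ofNat 0, Int.negSucc 1, Int.ofNat 3,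
    Int.ofNat 8, Int.ofNat 16, Int.ofNat 17, Int.ofNat 14, Int.ofNat 2, Int.ofNat 1, Int.ofNat 1,
    Int.negSucc 1, Int.ofNat 0, Int.ofNat 0, Int.negSucc 0, Int.negSucc 0, Int.ofNat 1,
    Int.negSucc 1, Int.ofNat 1, Int.ofNat 1],
  [Int.ofNat 0, Int.ofNat 0, Int.negSucc 3, Int.ofNat 1, Int.ofNat 1, Int.negSucc 0,
    Int.negSucc 0, Int.ofNat 4, Int.ofNat 11, Int.negSucc 17, Int.ofNat 0, Int.ofNat 0,
    Int.ofNat 0, Int.ofNat 1, Int.negSucc 0, Int.ofNat 1, Int.negSucc 2, Int.ofNat 0,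
    Int.ofNat 1, Int.negSucc 9, Int.ofNat 5, Int.ofNat 0, Int.negSucc 7, Int.ofNat 17,
    Int.ofNat 0, Int.ofNat 0, Int.ofNat 0, Int.ofNat 0, Int.ofNat 0, Int.ofNat 0, Int.ofNat 1,
    Int.negSucc 0, Int.negSucc 0, Int.negSucc 1, Int.negSucc 0, Int.ofNat 1],
  [Int.ofNat 0, Int.ofNat 0, Int.ofNat 0, Int.negSucc 0, Int.ofNat 1, Int.ofNat 1, Int.negSucc 2,
    Int.ofNat 0, Int.negSucc 0, Int.negSucc 1, Int.ofNat 0, Int.ofNat 0, Int.ofNat 0,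
    Int.negSucc 0, Int.negSucc 0, Int.negSucc 0, Int.negSucc 0, Int.ofNat 0, Int.ofNat 1,
    Int.ofNat 10, Int.ofNat 9, Int.ofNat 16, Int.ofNat 14, Int.ofNat 19, Int.ofNat 0,
    Int.ofNat 0, Int.ofNat 0, Int.ofNat 0, Int.ofNat 0, Int.ofNat 2, Int.negSucc 0,
    Int.negSucc 0, Int.negSucc 0, Int.ofNat 2, Int.negSucc 0, Int.negSucc 0],
  [Int.ofNat 0, Int.ofNat 0, Int.negSucc 3, Int.ofNat 1, Int.ofNat 1, Int.ofNat 1, Int.ofNat 1,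
    Int.ofNat 0, Int.ofNat 7, Int.negSucc 15, Int.ofNat 0, Int.ofNat 0, Int.ofNat 0, Int.ofNat 1,
    Int.negSucc 0, Int.negSucc 0, Int.negSucc 0, Int.ofNat 0, Int.ofNat 1, Int.negSucc 7,
    Int.ofNat 1, Int.negSucc 3, Int.negSucc 11, Int.ofNat 9, Int.negSucc 1, Int.ofNat 0,
    Int.ofNat 0, Int.ofNat 2, Int.ofNat 0, Int.ofNat 0, Int.ofNat 1, Int.ofNat 1, Int.negSucc 0,
    Int.ofNat 0, Int.negSucc 0, Int.negSucc 0]]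

def bVY3 : List (List ℤ) :=
  [  [Int.ofNat 0, Int.ofNat 0, Int.negSucc 3, Int.ofNat 5, Int.negSucc 8, Int.negSucc 0,
    Int.ofNat 20, Int.negSucc 9, Int.negSucc 37, Int.negSucc 12, Int.ofNat 0, Int.ofNat 0,
    Int.ofNat 0, Int.ofNat 5, Int.ofNat 5, Int.ofNat 9, Int.ofNat 2, Int.negSucc 9, Int.ofNat 10,
    Int.ofNat 56, Int.ofNat 59, Int.ofNat 109, Int.ofNat 96, Int.ofNat 83, Int.ofNat 7,
    Int.ofNat 4, Int.negSucc 5, Int.ofNat 4, Int.ofNat 1, Int.ofNat 3, Int.ofNat 7,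
    Int.negSucc 0, Int.ofNat 2, Int.negSucc 1, Int.negSucc 3, Int.ofNat 2],
  [Int.ofNat 0, Int.ofNat 0, Int.ofNat 0, Int.ofNat 1, Int.ofNat 2, Int.ofNat 4, Int.negSucc 0,
    Int.ofNat 9, Int.negSucc 0, Int.negSucc 3, Int.ofNat 0, Int.ofNat 0, Int.ofNat 0,
    Int.ofNat 1, Int.negSucc 1, Int.ofNat 0, Int.negSucc 0, Int.negSucc 0, Int.negSucc 4,
    Int.ofNat 9, Int.ofNat 19, Int.ofNat 31, Int.ofNat 30, Int.ofNat 33, Int.ofNat 0,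
    Int.ofNat 2, Int.ofNat 1, Int.ofNat 0, Int.negSucc 0, Int.ofNat 2, Int.negSucc 1,
    Int.ofNat 0, Int.ofNat 1, Int.ofNat 1, Int.negSucc 0, Int.ofNat 1],
  [Int.ofNat 0, Int.ofNat 0, Int.ofNat 2, Int.negSucc 2, Int.ofNat 4, Int.negSucc 0,
    Int.negSucc 9, Int.ofNat 2, Int.ofNat 22, Int.ofNat 10, Int.ofNat 0, Int.ofNat 0,
    Int.ofNat 0, Int.negSucc 2, Int.negSucc 1, Int.negSucc 4, Int.ofNat 0, Int.ofNat 6,
    Int.negSucc 3, Int.negSucc 36, Int.negSucc 41, Int.negSucc 76, Int.negSucc 67,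
    Int.negSucc 63, Int.negSucc 3, Int.negSucc 2, Int.ofNat 3, Int.negSucc 1, Int.ofNat 0,
    Int.negSucc 2, Int.negSucc 2, Int.ofNat 1, Int.negSucc 0, Int.ofNat 0, Int.ofNat 3,
    Int.negSucc 0],
  [Int.ofNat 0, Int.ofNat 0, Int.negSucc 1, Int.ofNat 3, Int.negSucc 4, Int.negSucc 1,
    Int.ofNat 6, Int.negSucc 1, Int.negSucc 8, Int.negSucc 12, Int.ofNat 0, Int.ofNat 0,
    Int.ofNat 0, Int.ofNat 3, Int.ofNat 3, Int.ofNat 4, Int.ofNat 0, Int.negSucc 3, Int.ofNat 5,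
    Int.ofNat 7, Int.ofNat 11, Int.ofNat 25, Int.ofNat 16, Int.ofNat 22, Int.ofNat 3,
    Int.ofNat 1, Int.negSucc 2, Int.ofNat 1, Int.ofNat 0, Int.ofNat 0, Int.ofNat 4,
    Int.negSucc 0, Int.ofNat 0, Int.negSucc 1, Int.negSucc 0, Int.ofNat 1],
  [Int.ofNat 0, Int.ofNat 0, Int.ofNat 4, Int.negSucc 3, Int.ofNat 2, Int.ofNat 0, Int.negSucc 5,
    Int.ofNat 0, Int.negSucc 0, Int.ofNat 24, Int.ofNat 0, Int.ofNat 0, Int.ofNat 0,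
    Int.negSucc 3, Int.negSucc 1, Int.negSucc 1, Int.ofNat 2, Int.ofNat 4, Int.negSucc 2,
    Int.negSucc 6, Int.negSucc 22, Int.negSucc 32, Int.negSucc 17, Int.negSucc 42, Int.negSucc 2,
    Int.negSucc 0, Int.ofNat 4, Int.negSucc 1, Int.ofNat 0, Int.negSucc 0, Int.negSucc 3,
    Int.ofNat 2, Int.ofNat 0, Int.ofNat 1, Int.ofNat 2],
  [Int.ofNat 0, Int.ofNat 0, Int.ofNat 0, Int.ofNat 0, Int.negSucc 0, Int.negSucc 0, Int.ofNat 2,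
    Int.negSucc 4, Int.negSucc 6, Int.ofNat 5, Int.ofNat 0, Int.ofNat 0, Int.ofNat 0,
    Int.ofNat 0, Int.ofNat 1, Int.ofNat 1, Int.ofNat 0, Int.negSucc 0, Int.ofNat 3, Int.ofNat 13,
    Int.ofNat 7, Int.ofNat 13, Int.ofNat 14, Int.ofNat 6, Int.ofNat 1, Int.ofNat 0,
    Int.negSucc 0, Int.ofNat 0, Int.ofNat 0, Int.ofNat 1, Int.ofNat 1, Int.negSucc 0,
    Int.ofNat 0, Int.ofNat 1, Int.negSucc 0],
  [Int.ofNat 0, Int.ofNat 0, Int.ofNat 2, Int.negSucc 1, Int.ofNat 7, Int.ofNat 0, Int.ofNat 4,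
    Int.negSucc 2, Int.ofNat 11, Int.ofNat 10, Int.ofNat 0, Int.ofNat 0, Int.ofNat 0,
    Int.negSucc 1, Int.negSucc 0, Int.negSucc 1, Int.negSucc 1, Int.ofNat 5, Int.negSucc 4,
    Int.negSucc 5, Int.negSucc 1, Int.negSucc 22, Int.negSucc 17, Int.negSucc 22, Int.negSucc 1,
    Int.negSucc 0, Int.ofNat 2, Int.ofNat 0, Int.ofNat 0, Int.negSucc 0, Int.negSucc 1,
    Int.ofNat 2, Int.ofNat 1, Int.ofNat 0, Int.ofNat 1, Int.negSucc 2],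
  [Int.ofNat 0, Int.ofNat 0, Int.negSucc 3, Int.ofNat 3, Int.ofNat 0, Int.ofNat 2, Int.ofNat 2,
    Int.ofNat 3, Int.ofNat 5, Int.negSucc 22, Int.ofNat 0, Int.ofNat 0, Int.ofNat 0, Int.ofNat 3,
    Int.ofNat 0, Int.ofNat 0, Int.negSucc 1, Int.negSucc 2, Int.ofNat 1, Int.ofNat 8,
    Int.ofNat 26, Int.ofNat 35, Int.ofNat 22, Int.ofNat 50, Int.ofNat 2, Int.ofNat 1,
    Int.negSucc 2, Int.ofNat 2, Int.ofNat 0, Int.ofNat 2, Int.ofNat 2, Int.negSucc 1,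
    Int.ofNat 0, Int.ofNat 0, Int.negSucc 1],
  [Int.ofNat 0, Int.ofNat 0, Int.negSucc 3, Int.ofNat 4, Int.negSucc 2, Int.ofNat 1, Int.ofNat 1,
    Int.ofNat 6, Int.ofNat 5, Int.negSucc 27, Int.ofNat 0, Int.ofNat 0, Int.ofNat 0, Int.ofNat 4,
    Int.ofNat 1, Int.ofNat 1, Int.negSucc 0, Int.negSucc 3, Int.ofNat 1, Int.negSucc 6,
    Int.ofNat 10, Int.ofNat 18, Int.ofNat 3, Int.ofNat 34, Int.ofNat 2, Int.ofNat 1,
    Int.negSucc 2, Int.ofNat 2, Int.ofNat 0, Int.ofNat 0, Int.ofNat 3, Int.negSucc 0,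
    Int.negSucc 0, Int.negSucc 1, Int.negSucc 0, Int.ofNat 1],
  [Int.ofNat 0, Int.ofNat 0, Int.negSucc 1, Int.ofNat 3, Int.negSucc 5, Int.negSucc 1,
    Int.ofNat 13, Int.negSucc 9, Int.negSucc 25, Int.negSucc 1, Int.ofNat 0, Int.ofNat 0,
    Int.ofNat 0, Int.ofNat 3, Int.ofNat 4, Int.ofNat 6, Int.ofNat 1, Int.negSucc 5, Int.ofNat 8,
    Int.ofNat 36, Int.ofNat 31, Int.ofNat 60, Int.ofNat 54, Int.ofNat 39, Int.ofNat 4,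
    Int.ofNat 2, Int.negSucc 3, Int.ofNat 2, Int.ofNat 0, Int.ofNat 2, Int.ofNat 5,
    Int.negSucc 0, Int.ofNat 1, Int.ofNat 0, Int.negSucc 2, Int.ofNat 1],
  [Int.ofNat 0, Int.ofNat 0, Int.ofNat 2, Int.negSucc 0, Int.negSucc 1, Int.ofNat 0,
    Int.negSucc 6, Int.ofNat 0, Int.negSucc 7, Int.ofNat 12, Int.ofNat 0, Int.ofNat 0,
    Int.ofNat 0, Int.negSucc 0, Int.ofNat 0, Int.ofNat 0, Int.ofNat 1, Int.ofNat 0, Int.ofNat 2,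
    Int.ofNat 4, Int.negSucc 10, Int.negSucc 3, Int.ofNat 4, Int.negSucc 10, Int.ofNat 0,
    Int.ofNat 0, Int.ofNat 2, Int.negSucc 1, Int.ofNat 0, Int.ofNat 0, Int.negSucc 0,
    Int.negSucc 0, Int.negSucc 0, Int.ofNat 0, Int.ofNat 1, Int.ofNat 1],
  [Int.ofNat 0, Int.ofNat 0, Int.ofNat 2, Int.negSucc 2, Int.ofNat 2, Int.negSucc 1, Int.ofNat 9,
    Int.negSucc 9, Int.negSucc 13, Int.ofNat 24, Int.ofNat 0, Int.ofNat 0, Int.ofNat 0,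
    Int.negSucc 2, Int.ofNat 0, Int.ofNat 2, Int.ofNat 1, Int.ofNat 2, Int.ofNat 0, Int.ofNat 16,
    Int.ofNat 1, Int.ofNat 0, Int.ofNat 10, Int.negSucc 24, Int.negSucc 1, Int.ofNat 0,
    Int.ofNat 2, Int.ofNat 0, Int.ofNat 0, Int.ofNat 0, Int.negSucc 0, Int.ofNat 3, Int.ofNat 1,
    Int.ofNat 2, Int.negSucc 0, Int.negSucc 0]]

def bVY4 : List (List ℤ) :=
  [  [Int.negSucc 0, Int.negSucc 7, Int.negSucc 2, Int.negSucc 2, Int.negSucc 5, Int.negSucc 7,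
    Int.negSucc 3, Int.negSucc 5, Int.negSucc 11, Int.negSucc 26, Int.negSucc 0, Int.negSucc 3,
    Int.ofNat 3, Int.negSucc 2, Int.negSucc 1, Int.ofNat 6, Int.ofNat 0, Int.ofNat 0,
    Int.ofNat 12, Int.negSucc 15, Int.negSucc 28, Int.negSucc 16, Int.negSucc 30, Int.negSucc 9,
    Int.ofNat 0, Int.negSucc 1, Int.negSucc 1, Int.ofNat 0, Int.ofNat 1, Int.negSucc 0,
    Int.ofNat 3, Int.negSucc 1, Int.negSucc 1, Int.negSucc 4, Int.negSucc 0],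
  [Int.ofNat 1, Int.ofNat 4, Int.negSucc 0, Int.ofNat 4, Int.ofNat 5, Int.ofNat 5, Int.negSucc 1,
    Int.ofNat 8, Int.ofNat 18, Int.negSucc 14, Int.ofNat 1, Int.ofNat 2, Int.negSucc 2,
    Int.ofNat 4, Int.negSucc 0, Int.negSucc 2, Int.negSucc 1, Int.ofNat 2, Int.negSucc 5,
    Int.negSucc 5, Int.ofNat 16, Int.ofNat 8, Int.ofNat 2, Int.ofNat 29, Int.ofNat 0,
    Int.ofNat 1, Int.ofNat 1, Int.ofNat 0, Int.negSucc 0, Int.ofNat 1, Int.negSucc 1,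
    Int.ofNat 0, Int.ofNat 1],
  [Int.ofNat 1, Int.ofNat 3, Int.ofNat 1, Int.ofNat 1, Int.ofNat 3, Int.ofNat 3, Int.ofNat 3,
    Int.ofNat 0, Int.ofNat 5, Int.ofNat 18, Int.ofNat 1, Int.ofNat 1, Int.negSucc 0, Int.ofNat 1,
    Int.ofNat 1, Int.negSucc 2, Int.ofNat 1, Int.ofNat 0, Int.negSucc 4, Int.ofNat 9,
    Int.ofNat 14, Int.ofNat 4, Int.ofNat 15, Int.negSucc 1, Int.ofNat 0, Int.ofNat 1,
    Int.ofNat 1, Int.ofNat 0, Int.ofNat 0, Int.ofNat 0, Int.negSucc 0, Int.ofNat 1, Int.ofNat 1,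
    Int.ofNat 2, Int.ofNat 1, Int.ofNat 1],
  [Int.ofNat 0, Int.negSucc 4, Int.negSucc 1, Int.negSucc 1, Int.negSucc 2, Int.negSucc 4,
    Int.negSucc 1, Int.negSucc 5, Int.negSucc 6, Int.negSucc 7, Int.ofNat 0, Int.negSucc 2,
    Int.ofNat 2, Int.negSucc 1, Int.negSucc 0, Int.ofNat 3, Int.ofNat 0, Int.ofNat 0,
    Int.ofNat 7, Int.negSucc 7, Int.negSucc 18, Int.negSucc 16, Int.negSucc 19, Int.negSucc 15,
    Int.ofNat 0, Int.negSucc 0, Int.negSucc 0, Int.ofNat 0, Int.ofNat 0, Int.negSucc 0,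
    Int.ofNat 2, Int.negSucc 0, Int.negSucc 0, Int.negSucc 2],
  [Int.ofNat 0, Int.ofNat 3, Int.ofNat 1, Int.ofNat 2, Int.ofNat 1, Int.ofNat 3, Int.ofNat 2,
    Int.ofNat 5, Int.ofNat 3, Int.ofNat 9, Int.ofNat 0, Int.ofNat 1, Int.negSucc 0, Int.ofNat 2,
    Int.ofNat 1, Int.negSucc 0, Int.ofNat 0, Int.negSucc 0, Int.negSucc 4, Int.ofNat 5,
    Int.ofNat 12, Int.ofNat 11, Int.ofNat 16, Int.ofNat 7, Int.ofNat 0, Int.ofNat 1, Int.ofNat 1,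
    Int.ofNat 0, Int.ofNat 0, Int.ofNat 0, Int.ofNat 0, Int.ofNat 1, Int.ofNat 1, Int.ofNat 3],
  [Int.negSucc 0, Int.negSucc 1, Int.ofNat 2, Int.negSucc 2, Int.negSucc 2, Int.negSucc 2,
    Int.ofNat 3, Int.negSucc 4, Int.negSucc 10, Int.ofNat 10, Int.negSucc 0, Int.ofNat 0,
    Int.ofNat 2, Int.negSucc 2, Int.ofNat 1, Int.ofNat 1, Int.ofNat 1, Int.negSucc 0,
    Int.ofNat 3, Int.ofNat 4, Int.negSucc 10, Int.negSucc 4, Int.negSucc 4, Int.negSucc 20,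
    Int.ofNat 0, Int.negSucc 0, Int.negSucc 0, Int.ofNat 0, Int.ofNat 0, Int.ofNat 0,
    Int.ofNat 1, Int.ofNat 0, Int.negSucc 0, Int.ofNat 1, Int.negSucc 0],
  [Int.ofNat 0, Int.ofNat 3, Int.ofNat 1, Int.ofNat 1, Int.ofNat 1, Int.ofNat 3, Int.ofNat 2,
    Int.ofNat 7, Int.ofNat 6, Int.ofNat 4, Int.ofNat 0, Int.ofNat 1, Int.negSucc 0, Int.ofNat 1,
    Int.ofNat 1, Int.negSucc 0, Int.ofNat 0, Int.negSucc 0, Int.negSucc 5, Int.ofNat 1,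
    Int.ofNat 13, Int.ofNat 11, Int.ofNat 14, Int.ofNat 11, Int.ofNat 0, Int.ofNat 1,
    Int.ofNat 1, Int.ofNat 0, Int.ofNat 0, Int.ofNat 0, Int.negSucc 1, Int.ofNat 2, Int.ofNat 1,
    Int.ofNat 1],
  [Int.ofNat 0, Int.ofNat 1, Int.negSucc 0, Int.ofNat 1, Int.ofNat 3, Int.ofNat 1, Int.negSucc 0,
    Int.ofNat 2, Int.ofNat 9, Int.negSucc 15, Int.ofNat 0, Int.ofNat 1, Int.negSucc 0,
    Int.ofNat 1, Int.negSucc 0, Int.negSucc 0, Int.negSucc 0, Int.ofNat 2, Int.negSucc 0,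
    Int.negSucc 3, Int.ofNat 8, Int.ofNat 5, Int.negSucc 2, Int.ofNat 20, Int.ofNat 0,
    Int.ofNat 0, Int.ofNat 0, Int.ofNat 0, Int.ofNat 0, Int.ofNat 1, Int.negSucc 1, Int.ofNat 0,
    Int.ofNat 0, Int.negSucc 1],
  [Int.ofNat 1, Int.negSucc 0, Int.negSucc 2, Int.ofNat 2, Int.ofNat 2, Int.ofNat 0,
    Int.negSucc 4, Int.ofNat 0, Int.ofNat 8, Int.negSucc 18, Int.ofNat 1, Int.negSucc 0,
    Int.negSucc 0, Int.ofNat 2, Int.negSucc 1, Int.ofNat 0, Int.negSucc 0, Int.ofNat 2,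
    Int.ofNat 2, Int.negSucc 8, Int.negSucc 0, Int.negSucc 5, Int.negSucc 10, Int.ofNat 14,
    Int.ofNat 0, Int.ofNat 0, Int.ofNat 0, Int.ofNat 0, Int.ofNat 0, Int.ofNat 0, Int.negSucc 0,
    Int.negSucc 0, Int.ofNat 0, Int.negSucc 3, Int.ofNat 1],
  [Int.negSucc 1, Int.negSucc 6, Int.ofNat 0, Int.negSucc 4, Int.negSucc 5, Int.negSucc 7,
    Int.ofNat 1, Int.negSucc 10, Int.negSucc 17, Int.ofNat 2, Int.negSucc 1, Int.negSucc 2,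
    Int.ofNat 4, Int.negSucc 4, Int.ofNat 0, Int.ofNat 4, Int.ofNat 1, Int.negSucc 0,
    Int.ofNat 10, Int.negSucc 3, Int.negSucc 29, Int.negSucc 21, Int.negSucc 24, Int.negSucc 36,
    Int.ofNat 0, Int.negSucc 1, Int.negSucc 1, Int.ofNat 0, Int.ofNat 0, Int.negSucc 0,
    Int.ofNat 3, Int.negSucc 0, Int.negSucc 1, Int.negSucc 1, Int.negSucc 0],
  [Int.ofNat 0, Int.ofNat 1, Int.ofNat 0, Int.ofNat 1, Int.ofNat 2, Int.ofNat 0, Int.negSucc 0,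
    Int.negSucc 0, Int.ofNat 0, Int.negSucc 1, Int.ofNat 0, Int.ofNat 1, Int.ofNat 0,
    Int.ofNat 1, Int.ofNat 0, Int.ofNat 0, Int.negSucc 0, Int.ofNat 1, Int.ofNat 0, Int.ofNat 6,
    Int.ofNat 6, Int.ofNat 8, Int.ofNat 7, Int.ofNat 11, Int.ofNat 0, Int.ofNat 0, Int.ofNat 0,
    Int.ofNat 0, Int.ofNat 0, Int.ofNat 1, Int.ofNat 1, Int.negSucc 0, Int.ofNat 0, Int.ofNat 2,
    Int.negSucc 0],
  [Int.negSucc 1, Int.negSucc 0, Int.ofNat 2, Int.negSucc 2, Int.negSucc 3, Int.negSucc 1,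
    Int.ofNat 5, Int.negSucc 0, Int.negSucc 11, Int.ofNat 20, Int.negSucc 1, Int.negSucc 0,
    Int.ofNat 2, Int.negSucc 2, Int.ofNat 2, Int.ofNat 2, Int.ofNat 1, Int.negSucc 2,
    Int.ofNat 0, Int.ofNat 6, Int.negSucc 5, Int.ofNat 0, Int.ofNat 7, Int.negSucc 22,
    Int.ofNat 0, Int.ofNat 0, Int.ofNat 0, Int.ofNat 0, Int.ofNat 0, Int.negSucc 0, Int.ofNat 1,
    Int.ofNat 1, Int.ofNat 0, Int.ofNat 2, Int.negSucc 0]]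

def bVY5 : List (List ℤ) :=
  [  [Int.negSucc 0, Int.negSucc 11, Int.negSucc 2, Int.negSucc 4, Int.negSucc 10, Int.negSucc 10,
    Int.negSucc 2, Int.negSucc 14, Int.negSucc 25, Int.ofNat 6, Int.negSucc 0, Int.negSucc 7,
    Int.ofNat 5, Int.negSucc 4, Int.negSucc 0, Int.ofNat 7, Int.ofNat 3, Int.negSucc 2,
    Int.ofNat 16, Int.negSucc 12, Int.negSucc 49, Int.negSucc 43, Int.negSucc 36, Int.negSucc 61,
    Int.ofNat 0, Int.negSucc 1, Int.negSucc 1, Int.ofNat 0, Int.ofNat 1, Int.negSucc 3,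
    Int.ofNat 6, Int.negSucc 0, Int.negSucc 1, Int.negSucc 4, Int.ofNat 2],
  [Int.ofNat 0, Int.ofNat 3, Int.negSucc 0, Int.ofNat 1, Int.ofNat 6, Int.ofNat 2, Int.ofNat 0,
    Int.ofNat 0, Int.ofNat 10, Int.ofNat 2, Int.ofNat 0, Int.ofNat 1, Int.negSucc 0, Int.ofNat 1,
    Int.ofNat 0, Int.negSucc 1, Int.negSucc 1, Int.ofNat 2, Int.negSucc 3, Int.ofNat 7,
    Int.ofNat 17, Int.ofNat 7, Int.ofNat 11, Int.ofNat 16, Int.ofNat 0, Int.ofNat 1, Int.ofNat 1,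
    Int.ofNat 0, Int.negSucc 0, Int.ofNat 1, Int.negSucc 1, Int.ofNat 0, Int.ofNat 1],
  [Int.ofNat 1, Int.ofNat 6, Int.ofNat 1, Int.ofNat 4, Int.ofNat 6, Int.ofNat 6, Int.ofNat 3,
    Int.ofNat 10, Int.ofNat 19, Int.negSucc 12, Int.ofNat 1, Int.ofNat 4, Int.negSucc 2,
    Int.ofNat 4, Int.ofNat 0, Int.negSucc 3, Int.negSucc 0, Int.ofNat 2, Int.negSucc 8,
    Int.ofNat 0, Int.ofNat 29, Int.ofNat 23, Int.ofNat 14, Int.ofNat 39, Int.ofNat 0,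
    Int.ofNat 1, Int.ofNat 1, Int.ofNat 0, Int.ofNat 0, Int.ofNat 2, Int.negSucc 2, Int.ofNat 1,
    Int.ofNat 1, Int.ofNat 2, Int.negSucc 0, Int.ofNat 1],
  [Int.negSucc 0, Int.negSucc 5, Int.negSucc 1, Int.negSucc 0, Int.negSucc 4, Int.negSucc 4,
    Int.negSucc 0, Int.negSucc 4, Int.negSucc 6, Int.negSucc 5, Int.negSucc 0, Int.negSucc 3,
    Int.ofNat 2, Int.negSucc 0, Int.negSucc 0, Int.ofNat 3, Int.ofNat 1, Int.negSucc 0,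
    Int.ofNat 7, Int.negSucc 13, Int.negSucc 24, Int.negSucc 24, Int.negSucc 26, Int.negSucc 26,
    Int.ofNat 0, Int.negSucc 0, Int.negSucc 0, Int.ofNat 0, Int.ofNat 0, Int.negSucc 1,
    Int.ofNat 3, Int.ofNat 0, Int.negSucc 0, Int.negSucc 2, Int.ofNat 1],
  [Int.ofNat 0, Int.ofNat 7, Int.ofNat 1, Int.ofNat 3, Int.ofNat 8, Int.ofNat 6, Int.ofNat 0,
    Int.ofNat 7, Int.ofNat 16, Int.negSucc 9, Int.ofNat 0, Int.ofNat 5, Int.negSucc 2,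
    Int.ofNat 3, Int.ofNat 0, Int.negSucc 3, Int.negSucc 1, Int.ofNat 3, Int.negSucc 7,
    Int.ofNat 10, Int.ofNat 33, Int.ofNat 30, Int.ofNat 24, Int.ofNat 47, Int.ofNat 0,
    Int.ofNat 1, Int.ofNat 1, Int.ofNat 0, Int.ofNat 0, Int.ofNat 3, Int.negSucc 2, Int.ofNat 0,
    Int.ofNat 1, Int.ofNat 3, Int.negSucc 0],
  [Int.ofNat 0, Int.negSucc 2, Int.ofNat 2, Int.negSucc 3, Int.negSucc 4, Int.negSucc 2,
    Int.ofNat 0, Int.negSucc 7, Int.negSucc 16, Int.ofNat 22, Int.ofNat 0, Int.negSucc 0,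
    Int.ofNat 2, Int.negSucc 3, Int.ofNat 1, Int.ofNat 1, Int.ofNat 2, Int.negSucc 1,
    Int.ofNat 5, Int.ofNat 6, Int.negSucc 20, Int.negSucc 14, Int.negSucc 5, Int.negSucc 37,
    Int.ofNat 0, Int.negSucc 0, Int.negSucc 0, Int.ofNat 0, Int.ofNat 0, Int.negSucc 0,
    Int.ofNat 2, Int.negSucc 0, Int.negSucc 0, Int.ofNat 1],
  [Int.ofNat 0, Int.ofNat 4, Int.negSucc 0, Int.ofNat 1, Int.ofNat 6, Int.ofNat 2, Int.ofNat 3,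
    Int.ofNat 6, Int.ofNat 11, Int.negSucc 14, Int.ofNat 0, Int.ofNat 2, Int.negSucc 0,
    Int.ofNat 1, Int.ofNat 0, Int.ofNat 0, Int.negSucc 2, Int.ofNat 2, Int.negSucc 4,
    Int.ofNat 6, Int.ofNat 28, Int.ofNat 28, Int.ofNat 19, Int.ofNat 42, Int.ofNat 0,
    Int.ofNat 1, Int.ofNat 1, Int.ofNat 0, Int.ofNat 0, Int.ofNat 2, Int.negSucc 1, Int.ofNat 0,
    Int.ofNat 1, Int.ofNat 1, Int.negSucc 1],
  [Int.ofNat 1, Int.negSucc 1, Int.negSucc 0, Int.negSucc 0, Int.negSucc 1, Int.negSucc 1,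
    Int.ofNat 0, Int.negSucc 0, Int.negSucc 3, Int.ofNat 1, Int.ofNat 1, Int.negSucc 1,
    Int.ofNat 1, Int.negSucc 0, Int.ofNat 0, Int.ofNat 2, Int.ofNat 0, Int.negSucc 0,
    Int.ofNat 2, Int.negSucc 2, Int.negSucc 6, Int.negSucc 5, Int.negSucc 3, Int.negSucc 8,
    Int.ofNat 0, Int.ofNat 0, Int.ofNat 0, Int.ofNat 0, Int.ofNat 0, Int.negSucc 0, Int.ofNat 0,
    Int.ofNat 0, Int.ofNat 0, Int.negSucc 1],
  [Int.ofNat 0, Int.negSucc 3, Int.negSucc 2, Int.ofNat 0, Int.negSucc 2, Int.negSucc 2,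
    Int.ofNat 0, Int.ofNat 1, Int.ofNat 1, Int.negSucc 11, Int.ofNat 0, Int.negSucc 3,
    Int.ofNat 1, Int.ofNat 0, Int.negSucc 0, Int.ofNat 3, Int.ofNat 0, Int.negSucc 0,
    Int.ofNat 3, Int.negSucc 15, Int.negSucc 11, Int.negSucc 14, Int.negSucc 17, Int.negSucc 8,
    Int.ofNat 0, Int.ofNat 0, Int.ofNat 0, Int.ofNat 0, Int.ofNat 0, Int.negSucc 1, Int.ofNat 1,
    Int.ofNat 1, Int.ofNat 0, Int.negSucc 3, Int.ofNat 1],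
  [Int.ofNat 0, Int.negSucc 8, Int.ofNat 0, Int.negSucc 4, Int.negSucc 9, Int.negSucc 7,
    Int.negSucc 0, Int.negSucc 12, Int.negSucc 23, Int.ofNat 16, Int.ofNat 0, Int.negSucc 4,
    Int.ofNat 4, Int.negSucc 4, Int.ofNat 0, Int.ofNat 4, Int.ofNat 3, Int.negSucc 2,
    Int.ofNat 12, Int.negSucc 7, Int.negSucc 45, Int.negSucc 39, Int.negSucc 32, Int.negSucc 64,
    Int.ofNat 0, Int.negSucc 1, Int.negSucc 1, Int.ofNat 0, Int.ofNat 0, Int.negSucc 2,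
    Int.ofNat 5, Int.negSucc 0, Int.negSucc 1, Int.negSucc 1, Int.ofNat 1],
  [Int.ofNat 0, Int.ofNat 3, Int.ofNat 2, Int.ofNat 1, Int.ofNat 2, Int.ofNat 4, Int.negSucc 2,
    Int.negSucc 0, Int.ofNat 2, Int.ofNat 10, Int.ofNat 0, Int.ofNat 3, Int.negSucc 1,
    Int.ofNat 1, Int.ofNat 0, Int.negSucc 3, Int.ofNat 1, Int.ofNat 1, Int.negSucc 1,
    Int.ofNat 8, Int.ofNat 4, Int.ofNat 2, Int.ofNat 7, Int.ofNat 1, Int.ofNat 0, Int.ofNat 0,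
    Int.ofNat 0, Int.ofNat 0, Int.ofNat 0, Int.ofNat 1, Int.negSucc 0, Int.negSucc 0,
    Int.ofNat 0, Int.ofNat 2, Int.ofNat 1],
  [Int.ofNat 0, Int.ofNat 1, Int.ofNat 0, Int.negSucc 0, Int.ofNat 2, Int.ofNat 0, Int.negSucc 0,
    Int.negSucc 0, Int.ofNat 0, Int.negSucc 1, Int.ofNat 0, Int.ofNat 1, Int.ofNat 0,
    Int.negSucc 0, Int.ofNat 0, Int.ofNat 0, Int.negSucc 0, Int.ofNat 1, Int.ofNat 0,
    Int.ofNat 6, Int.ofNat 6, Int.ofNat 8, Int.ofNat 7, Int.ofNat 11, Int.ofNat 0, Int.ofNat 0,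
    Int.ofNat 0, Int.ofNat 0, Int.ofNat 0, Int.ofNat 1, Int.ofNat 1, Int.negSucc 0, Int.ofNat 0,
    Int.ofNat 2, Int.negSucc 0]]

def bVY6 : List (List ℤ) :=
  [  [Int.negSucc 1, Int.negSucc 1, Int.negSucc 2, Int.ofNat 0, Int.negSucc 0, Int.negSucc 2,
    Int.ofNat 7, Int.negSucc 3, Int.negSucc 1, Int.negSucc 5, Int.ofNat 0, Int.negSucc 1,
    Int.ofNat 3, Int.ofNat 0, Int.ofNat 3, Int.ofNat 5, Int.negSucc 0, Int.negSucc 1,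
    Int.ofNat 0, Int.negSucc 8, Int.negSucc 7, Int.negSucc 13, Int.negSucc 15, Int.negSucc 14,
    Int.ofNat 0, Int.ofNat 0, Int.negSucc 1, Int.ofNat 2, Int.ofNat 1, Int.negSucc 2,
    Int.ofNat 5, Int.ofNat 2, Int.ofNat 0, Int.ofNat 1, Int.negSucc 0],
  [Int.ofNat 0, Int.ofNat 1, Int.ofNat 1, Int.ofNat 1, Int.ofNat 0, Int.ofNat 3, Int.ofNat 3,
    Int.negSucc 2, Int.negSucc 0, Int.ofNat 10, Int.ofNat 2, Int.ofNat 1, Int.negSucc 0,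
    Int.ofNat 1, Int.ofNat 0, Int.negSucc 2, Int.ofNat 1, Int.negSucc 0, Int.negSucc 0,
    Int.ofNat 8, Int.ofNat 4, Int.ofNat 3, Int.ofNat 4, Int.negSucc 4, Int.ofNat 0, Int.ofNat 0,
    Int.ofNat 0, Int.ofNat 0, Int.negSucc 0, Int.ofNat 1, Int.negSucc 1, Int.ofNat 0, Int.ofNat 1],
  [Int.ofNat 2, Int.ofNat 0, Int.ofNat 1, Int.ofNat 0, Int.negSucc 0, Int.ofNat 0, Int.negSucc 1,
    Int.negSucc 1, Int.negSucc 1, Int.ofNat 10, Int.ofNat 0, Int.ofNat 0, Int.negSucc 0,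
    Int.ofNat 0, Int.negSucc 0, Int.negSucc 1, Int.ofNat 2, Int.ofNat 0, Int.ofNat 2,
    Int.ofNat 7, Int.ofNat 3, Int.ofNat 3, Int.ofNat 9, Int.negSucc 1, Int.ofNat 0, Int.ofNat 0,
    Int.ofNat 1, Int.negSucc 0, Int.ofNat 0, Int.ofNat 1, Int.negSucc 1, Int.negSucc 0,
    Int.ofNat 0, Int.negSucc 0, Int.ofNat 1, Int.ofNat 1],
  [Int.ofNat 0, Int.negSucc 1, Int.negSucc 1, Int.ofNat 1, Int.negSucc 1, Int.negSucc 1,
    Int.ofNat 4, Int.negSucc 5, Int.negSucc 3, Int.ofNat 5, Int.ofNat 0, Int.negSucc 1,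
    Int.ofNat 2, Int.ofNat 1, Int.ofNat 2, Int.ofNat 2, Int.ofNat 0, Int.negSucc 1, Int.ofNat 2,
    Int.negSucc 2, Int.negSucc 8, Int.negSucc 14, Int.negSucc 10, Int.negSucc 20, Int.ofNat 0,
    Int.ofNat 0, Int.negSucc 0, Int.ofNat 1, Int.ofNat 0, Int.negSucc 1, Int.ofNat 3, Int.ofNat 1],
  [Int.ofNat 0, Int.ofNat 1, Int.ofNat 1, Int.ofNat 0, Int.ofNat 2, Int.ofNat 2, Int.negSucc 5,
    Int.ofNat 0, Int.ofNat 5, Int.negSucc 5, Int.ofNat 0, Int.ofNat 1, Int.negSucc 0,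
    Int.ofNat 0, Int.negSucc 1, Int.negSucc 1, Int.ofNat 0, Int.ofNat 2, Int.ofNat 1,
    Int.ofNat 1, Int.ofNat 2, Int.ofNat 2, Int.negSucc 0, Int.ofNat 12, Int.ofNat 0, Int.ofNat 0,
    Int.ofNat 2, Int.negSucc 1, Int.ofNat 0, Int.ofNat 1, Int.negSucc 2, Int.ofNat 0,
    Int.negSucc 0, Int.negSucc 0, Int.ofNat 1],
  [Int.negSucc 0, Int.ofNat 1, Int.ofNat 0, Int.ofNat 0, Int.ofNat 2, Int.negSucc 0,
    Int.negSucc 1, Int.ofNat 6, Int.ofNat 8, Int.negSucc 14, Int.negSucc 0, Int.ofNat 1,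
    Int.ofNat 0, Int.ofNat 0, Int.ofNat 0, Int.ofNat 1, Int.negSucc 1, Int.ofNat 2,
    Int.negSucc 1, Int.negSucc 9, Int.ofNat 1, Int.ofNat 0, Int.negSucc 6, Int.ofNat 13,
    Int.ofNat 0, Int.ofNat 0, Int.ofNat 0, Int.ofNat 0, Int.ofNat 0, Int.ofNat 0, Int.ofNat 1,
    Int.ofNat 0, Int.negSucc 0, Int.ofNat 1, Int.negSucc 0],
  [Int.ofNat 0, Int.ofNat 0, Int.ofNat 1, Int.negSucc 1, Int.negSucc 1, Int.ofNat 0,
    Int.negSucc 0, Int.negSucc 0, Int.ofNat 3, Int.ofNat 9, Int.ofNat 0, Int.ofNat 0,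
    Int.negSucc 0, Int.ofNat 0, Int.negSucc 1, Int.ofNat 0, Int.ofNat 3, Int.ofNat 1,
    Int.ofNat 1, Int.ofNat 8, Int.ofNat 9, Int.ofNat 7, Int.ofNat 12, Int.ofNat 5, Int.ofNat 0,
    Int.negSucc 0, Int.ofNat 1, Int.ofNat 0, Int.ofNat 1, Int.ofNat 1, Int.negSucc 1,
    Int.ofNat 0, Int.ofNat 2, Int.ofNat 0, Int.ofNat 0, Int.negSucc 0],
  [Int.ofNat 0, Int.ofNat 0, Int.ofNat 1, Int.negSucc 0, Int.ofNat 0, Int.ofNat 0, Int.ofNat 2,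
    Int.ofNat 6, Int.negSucc 0, Int.ofNat 1, Int.ofNat 0, Int.ofNat 0, Int.negSucc 0,
    Int.negSucc 0, Int.ofNat 0, Int.ofNat 0, Int.ofNat 0, Int.ofNat 0, Int.negSucc 2,
    Int.ofNat 2, Int.ofNat 7, Int.ofNat 13, Int.ofNat 12, Int.ofNat 9, Int.ofNat 0, Int.ofNat 0,
    Int.negSucc 0, Int.ofNat 1, Int.ofNat 0, Int.ofNat 1, Int.ofNat 0, Int.negSucc 0,
    Int.ofNat 1, Int.ofNat 1, Int.negSucc 0],
  [Int.ofNat 1, Int.negSucc 1, Int.negSucc 0, Int.ofNat 0, Int.negSucc 2, Int.ofNat 0,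
    Int.ofNat 3, Int.negSucc 4, Int.negSucc 7, Int.ofNat 9, Int.ofNat 1, Int.negSucc 1,
    Int.ofNat 1, Int.ofNat 0, Int.ofNat 1, Int.ofNat 0, Int.ofNat 1, Int.negSucc 2, Int.ofNat 2,
    Int.ofNat 3, Int.negSucc 6, Int.negSucc 5, Int.negSucc 1, Int.negSucc 16, Int.ofNat 0,
    Int.ofNat 0, Int.negSucc 1, Int.ofNat 2, Int.ofNat 0, Int.negSucc 0, Int.ofNat 2],
  [Int.negSucc 1, Int.negSucc 0, Int.negSucc 1, Int.negSucc 0, Int.ofNat 1, Int.negSucc 3,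
    Int.ofNat 0, Int.ofNat 5, Int.ofNat 8, Int.negSucc 15, Int.negSucc 1, Int.negSucc 0,
    Int.ofNat 2, Int.negSucc 0, Int.ofNat 1, Int.ofNat 4, Int.negSucc 1, Int.ofNat 1,
    Int.negSucc 1, Int.negSucc 18, Int.negSucc 7, Int.negSucc 14, Int.negSucc 19, Int.negSucc 1,
    Int.ofNat 0, Int.ofNat 0, Int.negSucc 0, Int.ofNat 1, Int.ofNat 0, Int.negSucc 1,
    Int.ofNat 4, Int.ofNat 1, Int.negSucc 0, Int.ofNat 1, Int.negSucc 0],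
  [Int.ofNat 0, Int.ofNat 1, Int.ofNat 0, Int.ofNat 1, Int.ofNat 3, Int.ofNat 2, Int.negSucc 7,
    Int.negSucc 0, Int.ofNat 8, Int.negSucc 15, Int.ofNat 0, Int.ofNat 1, Int.ofNat 0,
    Int.ofNat 1, Int.negSucc 0, Int.negSucc 1, Int.negSucc 1, Int.ofNat 3, Int.ofNat 2,
    Int.negSucc 6, Int.negSucc 5, Int.negSucc 8, Int.negSucc 15, Int.ofNat 10, Int.ofNat 0,
    Int.ofNat 0, Int.ofNat 1, Int.negSucc 0, Int.ofNat 0, Int.ofNat 0, Int.ofNat 0,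
    Int.negSucc 0, Int.negSucc 2, Int.negSucc 0, Int.ofNat 1],
  [Int.negSucc 1, Int.ofNat 1, Int.ofNat 0, Int.negSucc 0, Int.ofNat 3, Int.negSucc 1,
    Int.negSucc 3, Int.ofNat 7, Int.ofNat 12, Int.negSucc 19, Int.negSucc 1, Int.ofNat 1,
    Int.ofNat 0, Int.negSucc 0, Int.negSucc 0, Int.ofNat 2, Int.negSucc 1, Int.ofNat 3,
    Int.negSucc 1, Int.negSucc 12, Int.ofNat 2, Int.negSucc 0, Int.negSucc 9, Int.ofNat 18,
    Int.ofNat 0, Int.ofNat 0, Int.ofNat 1, Int.negSucc 0, Int.ofNat 0, Int.ofNat 0, Int.ofNat 0,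
    Int.ofNat 1, Int.negSucc 0, Int.ofNat 1, Int.negSucc 0]]

def bVY7 : List (List ℤ) :=
  [  [Int.ofNat 0, Int.ofNat 0, Int.negSucc 0, Int.negSucc 3, Int.ofNat 0, Int.negSucc 2,
    Int.negSucc 0, Int.negSucc 0, Int.negSucc 8, Int.ofNat 9, Int.negSucc 1, Int.ofNat 0,
    Int.ofNat 1, Int.negSucc 3, Int.ofNat 0, Int.ofNat 3, Int.ofNat 1, Int.ofNat 1, Int.ofNat 1,
    Int.ofNat 3, Int.negSucc 4, Int.negSucc 1, Int.ofNat 7, Int.negSucc 9, Int.ofNat 0,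
    Int.ofNat 0, Int.negSucc 0, Int.ofNat 1, Int.ofNat 1, Int.negSucc 0, Int.ofNat 3,
    Int.negSucc 2, Int.ofNat 1, Int.negSucc 1, Int.ofNat 2],
  [Int.ofNat 1, Int.negSucc 1, Int.negSucc 0, Int.ofNat 0, Int.negSucc 2, Int.negSucc 1,
    Int.negSucc 2, Int.ofNat 0, Int.ofNat 2, Int.ofNat 1, Int.negSucc 0, Int.negSucc 1,
    Int.ofNat 1, Int.ofNat 0, Int.negSucc 0, Int.ofNat 0, Int.ofNat 1, Int.negSucc 1,
    Int.ofNat 2, Int.negSucc 8, Int.negSucc 10, Int.negSucc 15, Int.negSucc 12, Int.negSucc 13,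
    Int.ofNat 0, Int.ofNat 0, Int.ofNat 0, Int.ofNat 0, Int.negSucc 0, Int.negSucc 0,
    Int.ofNat 0, Int.ofNat 2, Int.negSucc 0],
  [Int.ofNat 0, Int.ofNat 1, Int.ofNat 1, Int.ofNat 3, Int.ofNat 1, Int.ofNat 2, Int.ofNat 4,
    Int.negSucc 1, Int.ofNat 5, Int.negSucc 0, Int.ofNat 2, Int.ofNat 1, Int.negSucc 0,
    Int.ofNat 3, Int.ofNat 1, Int.negSucc 1, Int.ofNat 0, Int.ofNat 0, Int.negSucc 0,
    Int.ofNat 4, Int.ofNat 10, Int.ofNat 6, Int.ofNat 2, Int.ofNat 7, Int.ofNat 0, Int.ofNat 0,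
    Int.ofNat 1, Int.negSucc 0, Int.ofNat 0, Int.ofNat 1, Int.negSucc 1, Int.ofNat 1,
    Int.ofNat 0, Int.ofNat 1, Int.negSucc 0, Int.ofNat 1],
  [Int.negSucc 0, Int.ofNat 1, Int.ofNat 0, Int.negSucc 1, Int.ofNat 2, Int.negSucc 0,
    Int.ofNat 0, Int.ofNat 2, Int.ofNat 0, Int.ofNat 3, Int.negSucc 0, Int.ofNat 1, Int.ofNat 0,
    Int.negSucc 1, Int.ofNat 0, Int.ofNat 1, Int.ofNat 0, Int.ofNat 2, Int.negSucc 1,
    Int.ofNat 0, Int.ofNat 1, Int.ofNat 0, Int.ofNat 3, Int.negSucc 0, Int.ofNat 0, Int.ofNat 0,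
    Int.ofNat 0, Int.ofNat 0, Int.ofNat 0, Int.ofNat 0, Int.ofNat 1, Int.negSucc 1, Int.ofNat 1,
    Int.negSucc 0, Int.ofNat 1],
  [Int.ofNat 0, Int.ofNat 1, Int.ofNat 1, Int.ofNat 3, Int.ofNat 2, Int.ofNat 1, Int.negSucc 2,
    Int.ofNat 4, Int.ofNat 10, Int.negSucc 19, Int.ofNat 0, Int.ofNat 1, Int.negSucc 0,
    Int.ofNat 3, Int.ofNat 0, Int.negSucc 0, Int.negSucc 2, Int.ofNat 2, Int.ofNat 0,
    Int.negSucc 5, Int.ofNat 6, Int.ofNat 7, Int.negSucc 4, Int.ofNat 24, Int.ofNat 0,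
    Int.ofNat 0, Int.ofNat 1, Int.negSucc 0, Int.ofNat 0, Int.ofNat 1, Int.negSucc 0,
    Int.ofNat 1, Int.negSucc 1, Int.ofNat 2, Int.negSucc 1],
  [Int.ofNat 0, Int.ofNat 0, Int.ofNat 0, Int.negSucc 0, Int.ofNat 0, Int.ofNat 0, Int.ofNat 0,
    Int.ofNat 0, Int.negSucc 1, Int.ofNat 1, Int.ofNat 0, Int.ofNat 0, Int.ofNat 0,
    Int.negSucc 0, Int.ofNat 0, Int.ofNat 0, Int.ofNat 0, Int.ofNat 0, Int.ofNat 0, Int.ofNat 1,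
    Int.negSucc 0, Int.ofNat 1, Int.ofNat 1, Int.negSucc 0, Int.ofNat 0, Int.ofNat 0,
    Int.negSucc 0, Int.ofNat 1, Int.ofNat 0, Int.ofNat 0, Int.ofNat 1, Int.negSucc 0],
  [Int.ofNat 0, Int.negSucc 0, Int.negSucc 0, Int.ofNat 0, Int.negSucc 2, Int.negSucc 0,
    Int.negSucc 1, Int.negSucc 5, Int.ofNat 6, Int.ofNat 1, Int.ofNat 0, Int.negSucc 0,
    Int.ofNat 1, Int.ofNat 2, Int.negSucc 0, Int.ofNat 1, Int.ofNat 2, Int.ofNat 0, Int.ofNat 4,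
    Int.negSucc 1, Int.negSucc 2, Int.negSucc 12, Int.negSucc 9, Int.negSucc 6, Int.ofNat 0,
    Int.negSucc 0, Int.ofNat 1, Int.ofNat 0, Int.ofNat 1, Int.negSucc 0, Int.ofNat 0,
    Int.ofNat 2, Int.ofNat 0, Int.ofNat 0, Int.ofNat 0, Int.negSucc 0],
  [Int.ofNat 1, Int.negSucc 0, Int.negSucc 0, Int.negSucc 0, Int.negSucc 3, Int.ofNat 0,
    Int.ofNat 3, Int.negSucc 5, Int.negSucc 9, Int.ofNat 17, Int.ofNat 1, Int.negSucc 0,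
    Int.ofNat 1, Int.negSucc 0, Int.ofNat 0, Int.ofNat 0, Int.ofNat 3, Int.negSucc 3,
    Int.ofNat 2, Int.ofNat 6, Int.negSucc 6, Int.negSucc 6, Int.ofNat 2, Int.negSucc 22,
    Int.ofNat 0, Int.ofNat 0, Int.negSucc 0, Int.ofNat 1, Int.ofNat 0, Int.negSucc 0,
    Int.ofNat 0, Int.ofNat 1, Int.ofNat 1, Int.negSucc 0, Int.ofNat 1],
  [Int.ofNat 0, Int.negSucc 0, Int.negSucc 0, Int.negSucc 1, Int.negSucc 0, Int.ofNat 0,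
    Int.negSucc 1, Int.negSucc 2, Int.negSucc 2, Int.ofNat 7, Int.ofNat 0, Int.negSucc 0,
    Int.ofNat 1, Int.negSucc 1, Int.negSucc 0, Int.ofNat 0, Int.ofNat 2, Int.negSucc 0,
    Int.ofNat 1, Int.negSucc 0, Int.negSucc 8, Int.negSucc 11, Int.negSucc 5, Int.negSucc 14,
    Int.ofNat 0, Int.ofNat 0, Int.ofNat 0, Int.ofNat 0, Int.ofNat 0, Int.negSucc 0, Int.ofNat 0,
    Int.ofNat 0, Int.ofNat 0, Int.negSucc 1, Int.ofNat 2],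
  [Int.ofNat 0, Int.ofNat 1, Int.ofNat 0, Int.negSucc 0, Int.ofNat 1, Int.ofNat 0, Int.ofNat 2,
    Int.negSucc 2, Int.negSucc 5, Int.ofNat 10, Int.ofNat 0, Int.ofNat 1, Int.ofNat 0,
    Int.negSucc 0, Int.ofNat 1, Int.ofNat 0, Int.ofNat 0, Int.ofNat 1, Int.ofNat 0, Int.ofNat 7,
    Int.ofNat 0, Int.ofNat 1, Int.ofNat 6, Int.negSucc 7, Int.ofNat 0, Int.ofNat 0,
    Int.negSucc 0, Int.ofNat 1, Int.ofNat 0, Int.ofNat 0, Int.ofNat 2, Int.negSucc 2,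
    Int.ofNat 1, Int.negSucc 0, Int.ofNat 1],
  [Int.ofNat 0, Int.ofNat 1, Int.ofNat 2, Int.ofNat 1, Int.ofNat 3, Int.ofNat 2, Int.negSucc 3,
    Int.ofNat 7, Int.ofNat 8, Int.negSucc 13, Int.ofNat 0, Int.ofNat 1, Int.negSucc 1,
    Int.ofNat 1, Int.negSucc 0, Int.negSucc 1, Int.negSucc 1, Int.ofNat 3, Int.negSucc 1,
    Int.negSucc 0, Int.ofNat 10, Int.ofNat 15, Int.ofNat 6, Int.ofNat 28, Int.ofNat 0,
    Int.ofNat 0, Int.ofNat 1, Int.negSucc 0, Int.ofNat 0, Int.ofNat 2, Int.negSucc 1,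
    Int.negSucc 0, Int.negSucc 0, Int.ofNat 1, Int.negSucc 0],
  [Int.ofNat 0, Int.ofNat 1, Int.ofNat 0, Int.ofNat 1, Int.ofNat 1, Int.ofNat 0, Int.ofNat 0,
    Int.ofNat 1, Int.ofNat 2, Int.negSucc 7, Int.ofNat 0, Int.ofNat 1, Int.ofNat 0, Int.ofNat 1,
    Int.ofNat 1, Int.ofNat 0, Int.negSucc 1, Int.ofNat 1, Int.ofNat 0, Int.negSucc 2,
    Int.ofNat 0, Int.ofNat 1, Int.negSucc 3, Int.ofNat 6, Int.ofNat 0, Int.ofNat 0,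
    Int.negSucc 0, Int.ofNat 1, Int.ofNat 0, Int.ofNat 0, Int.ofNat 2, Int.negSucc 0,
    Int.negSucc 0, Int.ofNat 1, Int.negSucc 0]]

def bVL0 : List (List ℤ) :=
  [  [Int.negSucc 11, Int.negSucc 25, Int.ofNat 48, Int.negSucc 76, Int.ofNat 56, Int.negSucc 34,
    Int.ofNat 93, Int.negSucc 94, Int.negSucc 167, Int.ofNat 279, Int.ofNat 12, Int.ofNat 6,
    Int.negSucc 33, Int.ofNat 77, Int.negSucc 19, Int.negSucc 10, Int.negSucc 4, Int.negSucc 58,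
    Int.ofNat 14, Int.negSucc 196, Int.negSucc 10, Int.negSucc 44, Int.negSucc 128,
    Int.ofNat 263, Int.ofNat 20, Int.ofNat 166, Int.negSucc 3, Int.negSucc 13, Int.ofNat 106,
    Int.ofNat 124, Int.ofNat 22, Int.ofNat 10, Int.ofNat 32, Int.negSucc 31, Int.negSucc 49,
    Int.negSucc 29],
  [Int.negSucc 11, Int.negSucc 27, Int.negSucc 11, Int.negSucc 48, Int.ofNat 28, Int.negSucc 12,
    Int.ofNat 15, Int.negSucc 90, Int.negSucc 59, Int.ofNat 129, Int.ofNat 12, Int.ofNat 24,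
    Int.negSucc 25, Int.ofNat 49, Int.negSucc 3, Int.negSucc 0, Int.negSucc 6, Int.negSucc 6,
    Int.negSucc 13, Int.negSucc 126, Int.negSucc 12, Int.ofNat 21, Int.negSucc 50, Int.ofNat 97,
    Int.ofNat 16, Int.ofNat 98, Int.negSucc 7, Int.ofNat 2, Int.ofNat 50, Int.ofNat 56,
    Int.negSucc 9, Int.negSucc 9, Int.ofNat 4, Int.negSucc 15, Int.negSucc 33, Int.negSucc 17],
  [Int.ofNat 6, Int.ofNat 24, Int.negSucc 23, Int.ofNat 60, Int.negSucc 29, Int.ofNat 18,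
    Int.negSucc 41, Int.ofNat 54, Int.ofNat 126, Int.negSucc 173, Int.negSucc 5, Int.negSucc 11,
    Int.ofNat 24, Int.negSucc 59, Int.ofNat 6, Int.ofNat 6, Int.ofNat 6, Int.ofNat 30,
    Int.negSucc 5, Int.ofNat 126, Int.negSucc 17, Int.ofNat 30, Int.ofNat 90, Int.negSucc 161,
    Int.negSucc 11, Int.negSucc 59, Int.ofNat 0, Int.ofNat 0, Int.negSucc 35, Int.negSucc 35,
    Int.ofNat 0, Int.ofNat 0, Int.negSucc 11, Int.ofNat 12, Int.ofNat 24, Int.ofNat 12],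
  [Int.ofNat 6, Int.negSucc 5, Int.ofNat 24, Int.negSucc 23, Int.ofNat 18, Int.negSucc 17,
    Int.ofNat 30, Int.negSucc 29, Int.negSucc 71, Int.ofNat 102, Int.negSucc 5, Int.negSucc 5,
    Int.negSucc 11, Int.ofNat 24, Int.negSucc 5, Int.negSucc 5, Int.negSucc 5, Int.negSucc 29,
    Int.ofNat 0, Int.negSucc 65, Int.ofNat 6, Int.negSucc 17, Int.negSucc 53, Int.ofNat 102,
    Int.negSucc 11, Int.negSucc 35, Int.ofNat 12, Int.ofNat 0, Int.negSucc 11, Int.negSucc 11,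
    Int.ofNat 12, Int.ofNat 12, Int.ofNat 12, Int.ofNat 0, Int.ofNat 12, Int.ofNat 12],
  [Int.negSucc 41, Int.ofNat 12, Int.negSucc 5, Int.ofNat 12, Int.ofNat 6, Int.ofNat 18,
    Int.negSucc 23, Int.ofNat 90, Int.ofNat 150, Int.negSucc 203, Int.ofNat 42, Int.ofNat 0,
    Int.ofNat 6, Int.negSucc 11, Int.negSucc 5, Int.negSucc 5, Int.ofNat 12, Int.ofNat 6,
    Int.ofNat 42, Int.ofNat 144, Int.negSucc 35, Int.ofNat 0, Int.ofNat 120, Int.negSucc 191,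
    Int.ofNat 60, Int.ofNat 276, Int.negSucc 23, Int.negSucc 11, Int.ofNat 156, Int.ofNat 192,
    Int.ofNat 0, Int.negSucc 11, Int.ofNat 12, Int.negSucc 35, Int.negSucc 83, Int.negSucc 59],
  [Int.ofNat 18, Int.ofNat 6, Int.ofNat 12, Int.ofNat 24, Int.negSucc 29, Int.ofNat 6,
    Int.ofNat 0, Int.ofNat 36, Int.negSucc 29, Int.negSucc 11, Int.negSucc 17, Int.negSucc 5,
    Int.ofNat 12, Int.negSucc 23, Int.ofNat 6, Int.ofNat 6, Int.ofNat 0, Int.ofNat 12,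
    Int.negSucc 5, Int.ofNat 36, Int.ofNat 36, Int.negSucc 23, Int.negSucc 11, Int.ofNat 12,
    Int.negSucc 47, Int.negSucc 239, Int.ofNat 12, Int.ofNat 12, Int.negSucc 143,
    Int.negSucc 179, Int.negSucc 11, Int.ofNat 0, Int.negSucc 23, Int.ofNat 36, Int.ofNat 72,
    Int.ofNat 48],
  [Int.ofNat 18, Int.negSucc 7, Int.negSucc 11, Int.negSucc 4, Int.negSucc 15, Int.negSucc 4,
    Int.ofNat 3, Int.negSucc 70, Int.negSucc 77, Int.ofNat 135, Int.negSucc 17, Int.ofNat 0,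
    Int.ofNat 2, Int.ofNat 5, Int.ofNat 4, Int.ofNat 7, Int.negSucc 10, Int.ofNat 13,
    Int.negSucc 39, Int.negSucc 100, Int.ofNat 13, Int.ofNat 15, Int.negSucc 80, Int.ofNat 107,
    Int.negSucc 3, Int.ofNat 46, Int.negSucc 3, Int.negSucc 13, Int.ofNat 34, Int.ofNat 40,
    Int.ofNat 22, Int.ofNat 10, Int.ofNat 8, Int.negSucc 7, Int.negSucc 1, Int.negSucc 5],
  [Int.ofNat 18, Int.negSucc 23, Int.ofNat 0, Int.negSucc 47, Int.ofNat 18, Int.negSucc 23,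
    Int.ofNat 36, Int.negSucc 143, Int.negSucc 161, Int.ofNat 264, Int.negSucc 17, Int.ofNat 12,
    Int.negSucc 23, Int.ofNat 48, Int.negSucc 5, Int.ofNat 0, Int.negSucc 11, Int.negSucc 11,
    Int.negSucc 41, Int.negSucc 215, Int.ofNat 12, Int.ofNat 12, Int.negSucc 131, Int.ofNat 228,
    Int.negSucc 23, Int.negSucc 59, Int.ofNat 0, Int.ofNat 0, Int.negSucc 35, Int.negSucc 47,
    Int.ofNat 0, Int.ofNat 0, Int.ofNat 0, Int.ofNat 0, Int.ofNat 12, Int.ofNat 12],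
  [Int.ofNat 24, Int.negSucc 23, Int.negSucc 5, Int.negSucc 35, Int.negSucc 11, Int.negSucc 17,
    Int.ofNat 12, Int.negSucc 125, Int.negSucc 173, Int.ofNat 246, Int.negSucc 23, Int.ofNat 12,
    Int.negSucc 17, Int.ofNat 36, Int.ofNat 0, Int.negSucc 5, Int.negSucc 23, Int.ofNat 6,
    Int.negSucc 53, Int.negSucc 197, Int.ofNat 42, Int.ofNat 6, Int.negSucc 137, Int.ofNat 210,
    Int.negSucc 23, Int.negSucc 71, Int.ofNat 0, Int.negSucc 11, Int.negSucc 35, Int.negSucc 47,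
    Int.ofNat 12, Int.ofNat 12, Int.ofNat 0, Int.ofNat 0, Int.ofNat 12, Int.ofNat 12],
  [Int.negSucc 11, Int.ofNat 6, Int.ofNat 42, Int.negSucc 17, Int.ofNat 42, Int.negSucc 11,
    Int.ofNat 60, Int.ofNat 24, Int.ofNat 6, Int.ofNat 12, Int.ofNat 12, Int.negSucc 5,
    Int.negSucc 5, Int.ofNat 18, Int.negSucc 17, Int.ofNat 0, Int.ofNat 12, Int.negSucc 47,
    Int.ofNat 42, Int.ofNat 12, Int.negSucc 35, Int.negSucc 35, Int.ofNat 12, Int.ofNat 36,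
    Int.ofNat 12, Int.ofNat 36, Int.ofNat 12, Int.ofNat 12, Int.ofNat 24, Int.ofNat 36,
    Int.ofNat 0, Int.ofNat 0, Int.ofNat 12],
  [Int.negSucc 23, Int.ofNat 6, Int.ofNat 18, Int.negSucc 11, Int.negSucc 17, Int.ofNat 6,
    Int.ofNat 6, Int.ofNat 54, Int.negSucc 5, Int.negSucc 29, Int.ofNat 24, Int.negSucc 5,
    Int.ofNat 6, Int.ofNat 12, Int.negSucc 5, Int.negSucc 5, Int.negSucc 5, Int.ofNat 6,
    Int.ofNat 18, Int.ofNat 42, Int.ofNat 18, Int.negSucc 41, Int.ofNat 6, Int.negSucc 17,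
    Int.ofNat 36, Int.ofNat 180, Int.negSucc 11, Int.negSucc 11, Int.ofNat 108, Int.ofNat 132,
    Int.ofNat 12, Int.ofNat 0, Int.ofNat 12, Int.negSucc 23, Int.negSucc 47, Int.negSucc 35],
  [Int.negSucc 23, Int.ofNat 30, Int.ofNat 6, Int.ofNat 36, Int.ofNat 30, Int.ofNat 18,
    Int.negSucc 5, Int.ofNat 126, Int.ofNat 210, Int.negSucc 269, Int.ofNat 24, Int.negSucc 5,
    Int.ofNat 18, Int.negSucc 35, Int.negSucc 5, Int.ofNat 6, Int.ofNat 30, Int.negSucc 17,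
    Int.ofNat 66, Int.ofNat 210, Int.negSucc 65, Int.ofNat 6, Int.ofNat 162, Int.negSucc 233,
    Int.ofNat 24, Int.ofNat 72, Int.ofNat 0, Int.ofNat 12, Int.ofNat 36, Int.ofNat 48,
    Int.negSucc 11, Int.negSucc 11, Int.ofNat 0, Int.ofNat 0, Int.negSucc 11, Int.negSucc 11]]

def bVL1 : List (List ℤ) :=
  [  [],
  [Int.negSucc 11, Int.ofNat 26, Int.negSucc 11, Int.ofNat 26, Int.ofNat 22, Int.ofNat 8,
    Int.negSucc 23, Int.ofNat 68, Int.ofNat 162, Int.negSucc 221, Int.ofNat 12, Int.negSucc 5,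
    Int.ofNat 4, Int.negSucc 25, Int.ofNat 2, Int.negSucc 3, Int.ofNat 20, Int.negSucc 3,
    Int.ofNat 34, Int.ofNat 146, Int.negSucc 45, Int.ofNat 30, Int.ofNat 138, Int.negSucc 193,
    Int.negSucc 7, Int.negSucc 171, Int.ofNat 16, Int.ofNat 32, Int.negSucc 111, Int.negSucc 123,
    Int.negSucc 39, Int.negSucc 15, Int.negSucc 19, Int.ofNat 32, Int.ofNat 44, Int.ofNat 36],
  [Int.ofNat 6, Int.ofNat 2, Int.negSucc 5, Int.ofNat 8, Int.negSucc 13, Int.ofNat 2,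
    Int.negSucc 11, Int.ofNat 8, Int.ofNat 0, Int.ofNat 0, Int.negSucc 5, Int.negSucc 5,
    Int.ofNat 10, Int.negSucc 7, Int.ofNat 2, Int.ofNat 2, Int.negSucc 3, Int.ofNat 8,
    Int.negSucc 7, Int.ofNat 8, Int.ofNat 8, Int.ofNat 0, Int.negSucc 11, Int.negSucc 7,
    Int.ofNat 16, Int.ofNat 128, Int.negSucc 7, Int.negSucc 15, Int.ofNat 80, Int.ofNat 92,
    Int.ofNat 20, Int.ofNat 8, Int.ofNat 16, Int.negSucc 15, Int.negSucc 27, Int.negSucc 23],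
  [Int.ofNat 12, Int.ofNat 0, Int.negSucc 17, Int.ofNat 24, Int.negSucc 35, Int.ofNat 12,
    Int.negSucc 17, Int.ofNat 18, Int.negSucc 5, Int.negSucc 11, Int.negSucc 11, Int.ofNat 0,
    Int.ofNat 18, Int.negSucc 23, Int.ofNat 12, Int.ofNat 12, Int.negSucc 5, Int.ofNat 30,
    Int.negSucc 17, Int.ofNat 24, Int.ofNat 24, Int.ofNat 0, Int.negSucc 11, Int.negSucc 11,
    Int.negSucc 11, Int.negSucc 47, Int.ofNat 0, Int.ofNat 0, Int.negSucc 23, Int.negSucc 35,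
    Int.ofNat 0, Int.ofNat 0, Int.negSucc 11, Int.ofNat 12, Int.ofNat 24, Int.ofNat 12],
  [Int.ofNat 18, Int.ofNat 0, Int.ofNat 12, Int.negSucc 5, Int.ofNat 0, Int.negSucc 5,
    Int.ofNat 18, Int.negSucc 35, Int.negSucc 53, Int.ofNat 78, Int.negSucc 17, Int.negSucc 11,
    Int.ofNat 0, Int.ofNat 6, Int.ofNat 0, Int.ofNat 6, Int.negSucc 5, Int.negSucc 11,
    Int.negSucc 17, Int.negSucc 53, Int.ofNat 6, Int.negSucc 5, Int.negSucc 41, Int.ofNat 78,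
    Int.negSucc 23, Int.negSucc 95, Int.ofNat 12, Int.ofNat 0, Int.negSucc 47, Int.negSucc 35,
    Int.ofNat 12, Int.ofNat 12, Int.ofNat 0, Int.ofNat 12, Int.ofNat 36, Int.ofNat 24],
  [],
  [Int.negSucc 29, Int.ofNat 14, Int.negSucc 17, Int.ofNat 8, Int.ofNat 46, Int.ofNat 8,
    Int.negSucc 29, Int.ofNat 80, Int.ofNat 192, Int.negSucc 263, Int.ofNat 30, Int.ofNat 6,
    Int.negSucc 1, Int.negSucc 7, Int.ofNat 2, Int.negSucc 3, Int.ofNat 26, Int.negSucc 15,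
    Int.ofNat 52, Int.ofNat 164, Int.negSucc 51, Int.ofNat 36, Int.ofNat 168, Int.negSucc 235,
    Int.ofNat 4, Int.negSucc 159, Int.ofNat 16, Int.ofNat 44, Int.negSucc 111, Int.negSucc 135,
    Int.negSucc 63, Int.negSucc 39, Int.negSucc 31, Int.ofNat 32, Int.ofNat 32, Int.ofNat 24],
  [Int.ofNat 18, Int.ofNat 6, Int.negSucc 11, Int.ofNat 30, Int.negSucc 35, Int.ofNat 12,
    Int.negSucc 41, Int.ofNat 30, Int.negSucc 11, Int.negSucc 53, Int.negSucc 17, Int.ofNat 6,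
    Int.ofNat 12, Int.negSucc 29, Int.ofNat 12, Int.ofNat 0, Int.negSucc 5, Int.ofNat 30,
    Int.negSucc 11, Int.ofNat 42, Int.ofNat 54, Int.ofNat 6, Int.ofNat 6, Int.negSucc 41,
    Int.negSucc 47, Int.negSucc 335, Int.ofNat 12, Int.ofNat 24, Int.negSucc 203,
    Int.negSucc 263, Int.negSucc 35, Int.negSucc 11, Int.negSucc 35, Int.ofNat 48, Int.ofNat 84,
    Int.ofNat 60],
  [],
  [Int.negSucc 5, Int.ofNat 10, Int.negSucc 11, Int.ofNat 22, Int.ofNat 2, Int.ofNat 10,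
    Int.negSucc 29, Int.ofNat 64, Int.ofNat 96, Int.negSucc 155, Int.ofNat 6, Int.negSucc 5,
    Int.ofNat 8, Int.negSucc 21, Int.ofNat 10, Int.negSucc 1, Int.ofNat 10, Int.ofNat 4,
    Int.ofNat 20, Int.ofNat 112, Int.negSucc 7, Int.ofNat 12, Int.ofNat 84, Int.negSucc 135,
    Int.negSucc 15, Int.negSucc 127, Int.ofNat 8, Int.ofNat 16, Int.negSucc 79, Int.negSucc 91,
    Int.negSucc 19, Int.negSucc 7, Int.negSucc 15, Int.ofNat 16, Int.ofNat 28, Int.ofNat 24],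
  [Int.ofNat 54, Int.negSucc 17, Int.negSucc 11, Int.ofNat 12, Int.negSucc 53, Int.ofNat 0,
    Int.negSucc 11, Int.negSucc 77, Int.negSucc 143, Int.ofNat 162, Int.negSucc 53, Int.ofNat 6,
    Int.ofNat 12, Int.negSucc 11, Int.ofNat 18, Int.ofNat 12, Int.negSucc 23, Int.ofNat 30,
    Int.negSucc 71, Int.negSucc 113, Int.ofNat 66, Int.ofNat 6, Int.negSucc 113, Int.ofNat 150,
    Int.negSucc 71, Int.negSucc 335, Int.ofNat 24, Int.ofNat 12, Int.negSucc 191,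
    Int.negSucc 227, Int.ofNat 0, Int.ofNat 12, Int.negSucc 23, Int.ofNat 48, Int.ofNat 108,
    Int.ofNat 72],
  [Int.negSucc 47, Int.ofNat 16, Int.ofNat 12, Int.negSucc 7, Int.ofNat 80, Int.negSucc 1,
    Int.negSucc 5, Int.ofNat 112, Int.ofNat 234, Int.negSucc 287, Int.ofNat 48, Int.negSucc 11,
    Int.negSucc 15, Int.ofNat 8, Int.negSucc 7, Int.negSucc 13, Int.ofNat 34, Int.negSucc 55,
    Int.ofNat 86, Int.ofNat 196, Int.negSucc 91, Int.ofNat 12, Int.ofNat 192, Int.negSucc 255,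
    Int.ofNat 44, Int.ofNat 184, Int.negSucc 3, Int.ofNat 4, Int.ofNat 100, Int.ofNat 136,
    Int.negSucc 7, Int.negSucc 7, Int.ofNat 20, Int.negSucc 31, Int.negSucc 67, Int.negSucc 35]]

def bVL2 : List (List ℤ) :=
  [  [Int.ofNat 36, Int.negSucc 9, Int.ofNat 0, Int.ofNat 29, Int.negSucc 1, Int.negSucc 12,
    Int.ofNat 3, Int.negSucc 72, Int.negSucc 41, Int.ofNat 117, Int.negSucc 23, Int.negSucc 5,
    Int.ofNat 10, Int.negSucc 28, Int.negSucc 9, Int.negSucc 0, Int.negSucc 6, Int.negSucc 12,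
    Int.negSucc 31, Int.negSucc 90, Int.negSucc 12, Int.ofNat 21, Int.negSucc 62, Int.ofNat 85,
    Int.ofNat 16, Int.ofNat 182, Int.negSucc 7, Int.negSucc 33, Int.ofNat 122, Int.ofNat 152,
    Int.ofNat 50, Int.ofNat 26, Int.ofNat 40, Int.negSucc 39, Int.negSucc 57, Int.negSucc 41],
  [Int.negSucc 23, Int.ofNat 16, Int.ofNat 0, Int.negSucc 4, Int.ofNat 74, Int.negSucc 4,
    Int.ofNat 9, Int.ofNat 43, Int.ofNat 174, Int.negSucc 182, Int.ofNat 36, Int.ofNat 0,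
    Int.negSucc 9, Int.ofNat 5, Int.negSucc 13, Int.negSucc 4, Int.ofNat 31, Int.negSucc 40,
    Int.ofNat 56, Int.ofNat 109, Int.negSucc 88, Int.ofNat 33, Int.ofNat 141, Int.negSucc 162,
    Int.ofNat 8, Int.negSucc 25, Int.ofNat 8, Int.ofNat 22, Int.negSucc 25, Int.negSucc 19,
    Int.negSucc 25, Int.negSucc 13, Int.negSucc 3, Int.ofNat 4, Int.negSucc 1, Int.ofNat 6],
  [Int.negSucc 5, Int.ofNat 0, Int.ofNat 0, Int.negSucc 11, Int.negSucc 23, Int.ofNat 6,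
    Int.negSucc 5, Int.ofNat 6, Int.negSucc 59, Int.ofNat 42, Int.negSucc 5, Int.ofNat 0,
    Int.ofNat 0, Int.ofNat 12, Int.ofNat 12, Int.ofNat 6, Int.negSucc 5, Int.ofNat 18,
    Int.negSucc 11, Int.negSucc 17, Int.ofNat 42, Int.negSucc 17, Int.negSucc 41, Int.ofNat 42,
    Int.negSucc 11, Int.negSucc 47, Int.ofNat 0, Int.ofNat 0, Int.negSucc 23, Int.negSucc 35,
    Int.ofNat 0, Int.ofNat 0, Int.negSucc 11, Int.ofNat 12, Int.ofNat 24, Int.ofNat 12],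
  [Int.negSucc 5, Int.ofNat 0, Int.ofNat 0, Int.ofNat 0, Int.ofNat 42, Int.negSucc 5,
    Int.ofNat 0, Int.ofNat 6, Int.ofNat 84, Int.negSucc 71, Int.ofNat 6, Int.ofNat 0,
    Int.ofNat 0, Int.ofNat 0, Int.negSucc 5, Int.negSucc 5, Int.ofNat 12, Int.negSucc 29,
    Int.ofNat 24, Int.ofNat 36, Int.negSucc 47, Int.ofNat 24, Int.ofNat 60, Int.negSucc 71,
    Int.ofNat 12, Int.ofNat 60, Int.ofNat 0, Int.ofNat 0, Int.ofNat 36, Int.ofNat 48,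
    Int.ofNat 0, Int.ofNat 0, Int.ofNat 12, Int.negSucc 11, Int.negSucc 23, Int.negSucc 11],
  [Int.ofNat 6, Int.negSucc 5, Int.ofNat 0, Int.ofNat 0, Int.negSucc 41, Int.ofNat 6,
    Int.ofNat 0, Int.negSucc 5, Int.negSucc 83, Int.ofNat 72, Int.negSucc 5, Int.ofNat 6,
    Int.ofNat 0, Int.ofNat 0, Int.ofNat 6, Int.ofNat 6, Int.negSucc 11, Int.ofNat 30,
    Int.negSucc 23, Int.negSucc 35, Int.ofNat 48, Int.negSucc 23, Int.negSucc 59, Int.ofNat 72,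
    Int.negSucc 11, Int.negSucc 59, Int.ofNat 0, Int.ofNat 0, Int.negSucc 35, Int.negSucc 47,
    Int.ofNat 0, Int.ofNat 0, Int.negSucc 11, Int.ofNat 12, Int.ofNat 24, Int.ofNat 12],
  [],
  [Int.ofNat 30, Int.negSucc 11, Int.ofNat 12, Int.negSucc 20, Int.negSucc 29, Int.negSucc 14,
    Int.ofNat 39, Int.negSucc 86, Int.negSucc 221, Int.ofNat 267, Int.negSucc 29, Int.ofNat 0,
    Int.ofNat 6, Int.ofNat 33, Int.negSucc 5, Int.ofNat 9, Int.negSucc 14, Int.ofNat 21,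
    Int.negSucc 47, Int.negSucc 176, Int.ofNat 69, Int.negSucc 32, Int.negSucc 164,
    Int.ofNat 255, Int.negSucc 35, Int.negSucc 209, Int.ofNat 12, Int.ofNat 18, Int.negSucc 125,
    Int.negSucc 167, Int.negSucc 17, Int.negSucc 5, Int.negSucc 23, Int.ofNat 36, Int.ofNat 66,
    Int.ofNat 42],
  [],
  [Int.ofNat 0, Int.ofNat 0, Int.ofNat 0, Int.ofNat 6, Int.ofNat 18, Int.ofNat 0, Int.ofNat 6,
    Int.ofNat 0, Int.ofNat 36, Int.negSucc 23, Int.ofNat 0, Int.ofNat 0, Int.ofNat 0,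
    Int.negSucc 5, Int.negSucc 5, Int.ofNat 0, Int.ofNat 6, Int.negSucc 11, Int.ofNat 12,
    Int.ofNat 12, Int.negSucc 23, Int.ofNat 12, Int.ofNat 24, Int.negSucc 23],
  [Int.ofNat 0, Int.ofNat 0, Int.ofNat 0, Int.ofNat 12, Int.ofNat 36, Int.ofNat 0, Int.ofNat 12,
    Int.negSucc 23, Int.ofNat 60, Int.negSucc 35, Int.ofNat 0, Int.ofNat 0, Int.ofNat 0,
    Int.negSucc 11, Int.negSucc 11, Int.ofNat 0, Int.ofNat 12, Int.negSucc 23, Int.ofNat 12,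
    Int.ofNat 0, Int.negSucc 47, Int.ofNat 24, Int.ofNat 48, Int.negSucc 35, Int.ofNat 12,
    Int.negSucc 23, Int.ofNat 12, Int.ofNat 12, Int.negSucc 11, Int.ofNat 0, Int.negSucc 11,
    Int.negSucc 11, Int.ofNat 0, Int.ofNat 0, Int.negSucc 11],
  [],
  [Int.negSucc 17, Int.negSucc 5, Int.ofNat 12, Int.negSucc 17, Int.ofNat 6, Int.ofNat 0,
    Int.ofNat 48, Int.negSucc 35, Int.negSucc 41, Int.ofNat 96, Int.ofNat 18, Int.ofNat 6,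
    Int.negSucc 11, Int.ofNat 18, Int.negSucc 17, Int.ofNat 0, Int.ofNat 0, Int.ofNat 0,
    Int.ofNat 6, Int.negSucc 71, Int.negSucc 23, Int.negSucc 23, Int.negSucc 35, Int.ofNat 84,
    Int.ofNat 72, Int.ofNat 300, Int.negSucc 11, Int.negSucc 11, Int.ofNat 180, Int.ofNat 228,
    Int.ofNat 12, Int.ofNat 0, Int.ofNat 24, Int.negSucc 35, Int.negSucc 83, Int.negSucc 59]]

def bVL3 : List (List ℤ) :=
  [  [Int.negSucc 29, Int.ofNat 10, Int.ofNat 0, Int.negSucc 10, Int.ofNat 68, Int.ofNat 7,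
    Int.ofNat 3, Int.ofNat 73, Int.ofNat 186, Int.negSucc 230, Int.ofNat 30, Int.ofNat 6,
    Int.negSucc 9, Int.ofNat 11, Int.negSucc 7, Int.negSucc 4, Int.ofNat 25, Int.negSucc 34,
    Int.ofNat 68, Int.ofNat 145, Int.negSucc 76, Int.ofNat 21, Int.ofNat 165, Int.negSucc 198,
    Int.ofNat 8, Int.negSucc 85, Int.ofNat 8, Int.ofNat 34, Int.negSucc 61, Int.negSucc 67,
    Int.negSucc 49, Int.negSucc 25, Int.negSucc 15, Int.ofNat 16, Int.ofNat 10, Int.ofNat 18],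
  [Int.ofNat 30, Int.negSucc 15, Int.ofNat 0, Int.ofNat 5, Int.negSucc 73, Int.ofNat 5,
    Int.negSucc 8, Int.negSucc 42, Int.negSucc 173, Int.ofNat 183, Int.negSucc 29, Int.ofNat 0,
    Int.ofNat 10, Int.negSucc 4, Int.ofNat 14, Int.ofNat 5, Int.negSucc 30, Int.ofNat 41,
    Int.negSucc 55, Int.negSucc 108, Int.ofNat 89, Int.negSucc 32, Int.negSucc 140,
    Int.ofNat 163, Int.negSucc 7, Int.ofNat 26, Int.negSucc 7, Int.negSucc 21, Int.ofNat 26,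
    Int.ofNat 20, Int.ofNat 26, Int.ofNat 14, Int.ofNat 4, Int.negSucc 3, Int.ofNat 2,
    Int.negSucc 5],
  [],
  [Int.ofNat 6, Int.ofNat 0, Int.ofNat 0, Int.ofNat 0, Int.ofNat 0, Int.ofNat 0, Int.ofNat 0,
    Int.ofNat 0, Int.ofNat 0, Int.ofNat 0, Int.negSucc 5],
  [Int.ofNat 0, Int.ofNat 0, Int.ofNat 0, Int.ofNat 6, Int.ofNat 0, Int.ofNat 0, Int.ofNat 0,
    Int.ofNat 0, Int.ofNat 0, Int.ofNat 0, Int.ofNat 0, Int.ofNat 0, Int.ofNat 0, Int.negSucc 5],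
  [],
  [Int.ofNat 12, Int.ofNat 6, Int.ofNat 0, Int.ofNat 15, Int.ofNat 0, Int.ofNat 3,
    Int.negSucc 14, Int.ofNat 9, Int.ofNat 18, Int.negSucc 26, Int.negSucc 11, Int.negSucc 5,
    Int.ofNat 6, Int.negSucc 14, Int.ofNat 0, Int.ofNat 3, Int.ofNat 3, Int.negSucc 2,
    Int.ofNat 0, Int.ofNat 21, Int.ofNat 3, Int.ofNat 9, Int.ofNat 9, Int.negSucc 26,
    Int.negSucc 11, Int.negSucc 29, Int.ofNat 0, Int.negSucc 5, Int.negSucc 17, Int.negSucc 23,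
    Int.ofNat 6, Int.ofNat 6, Int.ofNat 0, Int.ofNat 0, Int.ofNat 6, Int.ofNat 6],
  [],
  [],
  [],
  [Int.negSucc 11, Int.negSucc 11, Int.ofNat 0, Int.negSucc 17, Int.ofNat 0, Int.negSucc 5,
    Int.ofNat 6, Int.negSucc 17, Int.negSucc 35, Int.ofNat 54, Int.ofNat 12, Int.ofNat 12,
    Int.negSucc 11, Int.ofNat 18, Int.ofNat 0, Int.negSucc 5, Int.negSucc 5, Int.ofNat 6,
    Int.ofNat 0, Int.negSucc 41, Int.ofNat 6, Int.negSucc 5, Int.negSucc 29, Int.ofNat 42,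
    Int.ofNat 24, Int.ofNat 132, Int.negSucc 11, Int.ofNat 0, Int.ofNat 72, Int.ofNat 72,
    Int.ofNat 0, Int.ofNat 0, Int.ofNat 12, Int.negSucc 11, Int.negSucc 35, Int.negSucc 23],
  []]

def bV : BD where
  A := [bVA0, bVA1, bVA2, bVA3, bVA4, bVA5, bVA6, bVA7]
  P := [bVP0, bVP1, bVP2, bVP3, bVP4, bVP5]
  U := [bVU0, bVU1, bVU2, bVU3]
  F := [bVF0, bVF1, bVF2, bVF3, bVF4, bVF5, bVF6, bVF7]
  S := [[], bVS1, bVS2, bVS3, bVS4, bVS5, [], bVS7]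
  Y := [bVY0, bVY1, bVY2, bVY3, bVY4, bVY5, bVY6, bVY7]
  L := [bVL0, bVL1, bVL2, bVL3]
  W := bVW
  g := [Int.ofNat 2, Int.ofNat 2, Int.ofNat 2, Int.ofNat 2, Int.ofNat 2, Int.ofNat 2, Int.ofNat 2, Int.ofNat 2, Int.ofNat 2, Int.ofNat 2, Int.negSucc 1, Int.negSucc 1, Int.negSucc 1, Int.negSucc 1, Int.negSucc 1, Int.negSucc 1, Int.negSucc 1, Int.negSucc 1, Int.negSucc 1, Int.negSucc 1, Int.negSucc 1, Int.negSucc 1, Int.negSucc 1, Int.negSucc 1, Int.ofNat 0, Int.ofNat 0, Int.ofNat 0, Int.ofNat 0, Int.ofNat 0, Int.ofNat 0, Int.ofNat 0, Int.ofNat 0, Int.ofNat 0, Int.ofNat 0, Int.ofNat 0, Int.ofNat 0]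
  δ := Int.ofNat 12

def bVVF0 : List (List ℤ) :=
  [  [Int.ofNat 13, Int.negSucc 7, Int.negSucc 3, Int.ofNat 4, Int.negSucc 2, Int.ofNat 4,
    Int.negSucc 4, Int.negSucc 5, Int.ofNat 0, Int.ofNat 12, Int.ofNat 6, Int.ofNat 4],
  [Int.ofNat 18, Int.negSucc 10, Int.negSucc 5, Int.ofNat 6, Int.negSucc 4, Int.ofNat 6,
    Int.negSucc 5, Int.negSucc 7, Int.ofNat 0, Int.ofNat 18, Int.ofNat 8, Int.ofNat 6],
  [Int.ofNat 15, Int.negSucc 9, Int.negSucc 3, Int.ofNat 5, Int.negSucc 2, Int.ofNat 5,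
    Int.negSucc 5, Int.negSucc 7, Int.ofNat 0, Int.ofNat 16, Int.ofNat 8, Int.ofNat 6],
  [Int.ofNat 0, Int.ofNat 1, Int.ofNat 0, Int.ofNat 1, Int.ofNat 1, Int.negSucc 0, Int.ofNat 1],
  [Int.negSucc 2, Int.ofNat 2, Int.ofNat 0, Int.negSucc 1, Int.ofNat 3, Int.ofNat 0, Int.ofNat 1,
    Int.ofNat 0, Int.negSucc 1, Int.negSucc 1],
  [Int.ofNat 22, Int.negSucc 14, Int.negSucc 7, Int.ofNat 7, Int.negSucc 4, Int.ofNat 9,
    Int.negSucc 6, Int.negSucc 9, Int.negSucc 1, Int.ofNat 22, Int.ofNat 10, Int.ofNat 8],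
  [Int.negSucc 4, Int.ofNat 3, Int.ofNat 2, Int.negSucc 1, Int.ofNat 2, Int.negSucc 1,
    Int.ofNat 3, Int.ofNat 2, Int.ofNat 0, Int.negSucc 5, Int.negSucc 1, Int.negSucc 1],
  [Int.negSucc 2, Int.ofNat 2, Int.ofNat 1, Int.negSucc 0, Int.ofNat 2, Int.negSucc 0,
    Int.ofNat 1, Int.ofNat 1, Int.negSucc 0, Int.negSucc 1],
  [Int.negSucc 12, Int.ofNat 8, Int.ofNat 3, Int.negSucc 5, Int.ofNat 4, Int.negSucc 1,
    Int.ofNat 4, Int.ofNat 5, Int.negSucc 0, Int.negSucc 11, Int.negSucc 5, Int.negSucc 3],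
  [Int.negSucc 9, Int.ofNat 6, Int.ofNat 3, Int.negSucc 3, Int.ofNat 3, Int.negSucc 1,
    Int.ofNat 3, Int.ofNat 3, Int.negSucc 0, Int.negSucc 7, Int.negSucc 3, Int.negSucc 1],
  [],
  []]

def bVVF1 : List (List ℤ) :=
  [  [Int.ofNat 15, Int.negSucc 10, Int.negSucc 5, Int.ofNat 5, Int.negSucc 3, Int.ofNat 7,
    Int.negSucc 5, Int.negSucc 7, Int.negSucc 1, Int.ofNat 16, Int.ofNat 6, Int.ofNat 6],
  [Int.negSucc 9, Int.ofNat 8, Int.ofNat 2, Int.negSucc 4, Int.ofNat 4, Int.negSucc 2,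
    Int.ofNat 3, Int.ofNat 4, Int.ofNat 0, Int.negSucc 9, Int.negSucc 3, Int.negSucc 3],
  [Int.ofNat 3, Int.negSucc 1, Int.negSucc 1, Int.ofNat 1, Int.negSucc 0, Int.ofNat 3,
    Int.negSucc 1, Int.negSucc 1, Int.negSucc 1, Int.ofNat 4, Int.ofNat 0, Int.ofNat 2],
  [Int.ofNat 4, Int.negSucc 0, Int.negSucc 1, Int.negSucc 0, Int.ofNat 1, Int.ofNat 1,
    Int.negSucc 2, Int.negSucc 1, Int.ofNat 2, Int.ofNat 4, Int.ofNat 4],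
  [Int.negSucc 18, Int.ofNat 13, Int.ofNat 6, Int.negSucc 8, Int.ofNat 6, Int.negSucc 4,
    Int.ofNat 4, Int.ofNat 6, Int.ofNat 0, Int.negSucc 17, Int.negSucc 7, Int.negSucc 5],
  [Int.negSucc 17, Int.ofNat 11, Int.ofNat 2, Int.negSucc 10, Int.ofNat 7, Int.negSucc 0,
    Int.ofNat 3, Int.ofNat 4, Int.negSucc 3, Int.negSucc 13, Int.negSucc 5, Int.negSucc 3],
  [Int.negSucc 24, Int.ofNat 15, Int.ofNat 8, Int.negSucc 9, Int.ofNat 8, Int.negSucc 5,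
    Int.ofNat 7, Int.ofNat 8, Int.negSucc 1, Int.negSucc 21, Int.negSucc 9, Int.negSucc 5],
  [Int.ofNat 25, Int.negSucc 15, Int.negSucc 6, Int.ofNat 9, Int.negSucc 5, Int.ofNat 7,
    Int.negSucc 8, Int.negSucc 10, Int.ofNat 1, Int.ofNat 24, Int.ofNat 12, Int.ofNat 8],
  [Int.negSucc 24, Int.ofNat 15, Int.ofNat 7, Int.negSucc 10, Int.ofNat 7, Int.negSucc 4,
    Int.ofNat 7, Int.ofNat 9, Int.negSucc 2, Int.negSucc 21, Int.negSucc 9, Int.negSucc 5],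
  [Int.negSucc 40, Int.ofNat 28, Int.ofNat 15, Int.negSucc 12, Int.ofNat 10, Int.negSucc 14,
    Int.ofNat 15, Int.ofNat 19, Int.ofNat 1, Int.negSucc 41, Int.negSucc 19, Int.negSucc 13],
  [Int.ofNat 7, Int.negSucc 5, Int.negSucc 1, Int.ofNat 3, Int.negSucc 0, Int.ofNat 3,
    Int.negSucc 1, Int.negSucc 3, Int.negSucc 1, Int.ofNat 8, Int.ofNat 4, Int.ofNat 4],
  [Int.ofNat 24, Int.negSucc 15, Int.negSucc 7, Int.ofNat 8, Int.negSucc 5, Int.ofNat 8,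
    Int.negSucc 7, Int.negSucc 9, Int.ofNat 0, Int.ofNat 24, Int.ofNat 12, Int.ofNat 8]]

def bVVF2 : List (List ℤ) :=
  [  [],
  [],
  [],
  [],
  [],
  [Int.ofNat 8, Int.negSucc 5, Int.negSucc 1, Int.ofNat 4, Int.negSucc 1, Int.ofNat 2,
    Int.negSucc 1, Int.negSucc 3, Int.ofNat 0, Int.ofNat 8, Int.ofNat 4, Int.ofNat 4],
  [],
  [],
  [],
  [],
  [],
  []]

def bVVF3 : List (List ℤ) :=
  [  [],
  [],
  [Int.ofNat 8, Int.negSucc 5, Int.negSucc 1, Int.ofNat 4, Int.negSucc 1, Int.ofNat 2,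
    Int.negSucc 1, Int.negSucc 3, Int.ofNat 0, Int.ofNat 8, Int.ofNat 4, Int.ofNat 4],
  [Int.negSucc 7, Int.ofNat 6, Int.ofNat 2, Int.negSucc 3, Int.ofNat 2, Int.negSucc 1,
    Int.ofNat 2, Int.ofNat 4, Int.ofNat 0, Int.negSucc 7, Int.negSucc 3, Int.negSucc 3],
  [],
  [],
  [],
  [],
  [Int.ofNat 8, Int.negSucc 5, Int.negSucc 1, Int.ofNat 4, Int.negSucc 1, Int.ofNat 2,
    Int.negSucc 1, Int.negSucc 3, Int.ofNat 0, Int.ofNat 8, Int.ofNat 4, Int.ofNat 4],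
  [Int.ofNat 8, Int.negSucc 5, Int.negSucc 1, Int.ofNat 4, Int.negSucc 1, Int.ofNat 2,
    Int.negSucc 1, Int.negSucc 3, Int.ofNat 0, Int.ofNat 8, Int.ofNat 4, Int.ofNat 4],
  [],
  []]

def bVVF4 : List (List ℤ) :=
  [  [Int.ofNat 6, Int.negSucc 3, Int.negSucc 1, Int.ofNat 2, Int.negSucc 1, Int.ofNat 2,
    Int.negSucc 1, Int.negSucc 1, Int.ofNat 0, Int.ofNat 6, Int.ofNat 2, Int.ofNat 2],
  [],
  [],
  [],
  [],
  [],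
  [],
  [],
  [],
  [],
  [],
  []]

def bVVF5 : List (List ℤ) :=
  [  [],
  [Int.negSucc 5, Int.ofNat 4, Int.ofNat 2, Int.negSucc 1, Int.ofNat 2, Int.negSucc 1,
    Int.ofNat 2, Int.ofNat 2, Int.ofNat 0, Int.negSucc 5, Int.negSucc 1, Int.negSucc 1],
  [],
  [Int.ofNat 36, Int.negSucc 23, Int.negSucc 11, Int.ofNat 12, Int.negSucc 11, Int.ofNat 12,
    Int.negSucc 11, Int.negSucc 11, Int.ofNat 0, Int.ofNat 36, Int.ofNat 12, Int.ofNat 12],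
  [Int.ofNat 30, Int.negSucc 19, Int.negSucc 9, Int.ofNat 10, Int.negSucc 9, Int.ofNat 10,
    Int.negSucc 9, Int.negSucc 9, Int.ofNat 0, Int.ofNat 30, Int.ofNat 10, Int.ofNat 10],
  [Int.ofNat 24, Int.negSucc 15, Int.negSucc 7, Int.ofNat 8, Int.negSucc 7, Int.ofNat 8,
    Int.negSucc 7, Int.negSucc 7, Int.ofNat 0, Int.ofNat 24, Int.ofNat 8, Int.ofNat 8],
  [],
  [Int.ofNat 30, Int.negSucc 19, Int.negSucc 9, Int.ofNat 10, Int.negSucc 9, Int.ofNat 10,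
    Int.negSucc 9, Int.negSucc 9, Int.ofNat 0, Int.ofNat 30, Int.ofNat 10, Int.ofNat 10],
  [],
  [Int.negSucc 11, Int.ofNat 8, Int.ofNat 4, Int.negSucc 3, Int.ofNat 4, Int.negSucc 3,
    Int.ofNat 4, Int.ofNat 4, Int.ofNat 0, Int.negSucc 11, Int.negSucc 3, Int.negSucc 3],
  [],
  []]

def bVVF6 : List (List ℤ) :=
  [  [],
  [],
  [],
  [],
  [],
  [],
  [],
  [],
  [],
  [],
  [],
  []]

def bVVF7 : List (List ℤ) :=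
  [  [],
  [],
  [],
  [],
  [],
  [],
  [],
  [],
  [],
  [],
  [],
  []]

def bVVS1 : List (List ℤ) :=
  [  [Int.negSucc 22, Int.ofNat 15, Int.ofNat 6, Int.negSucc 8, Int.ofNat 8, Int.negSucc 4,
    Int.ofNat 6, Int.ofNat 6, Int.negSucc 1, Int.negSucc 21, Int.negSucc 7, Int.negSucc 7],
  [Int.ofNat 4, Int.negSucc 1, Int.negSucc 1, Int.ofNat 1, Int.ofNat 0, Int.ofNat 1,
    Int.negSucc 0, Int.negSucc 1, Int.ofNat 0, Int.ofNat 4, Int.ofNat 2, Int.ofNat 2],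
  [Int.negSucc 40, Int.ofNat 28, Int.ofNat 12, Int.negSucc 14, Int.ofNat 13, Int.negSucc 10,
    Int.ofNat 12, Int.ofNat 14, Int.negSucc 1, Int.negSucc 39, Int.negSucc 15, Int.negSucc 13],
  [Int.ofNat 20, Int.negSucc 12, Int.negSucc 5, Int.ofNat 7, Int.negSucc 2, Int.ofNat 5,
    Int.negSucc 6, Int.negSucc 9, Int.ofNat 2, Int.ofNat 20, Int.ofNat 12, Int.ofNat 8],
  [Int.negSucc 16, Int.ofNat 11, Int.ofNat 6, Int.negSucc 6, Int.ofNat 6, Int.negSucc 4,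
    Int.ofNat 4, Int.ofNat 4, Int.ofNat 0, Int.negSucc 15, Int.negSucc 5, Int.negSucc 3],
  [Int.negSucc 21, Int.ofNat 13, Int.ofNat 4, Int.negSucc 10, Int.ofNat 9, Int.negSucc 2,
    Int.ofNat 5, Int.ofNat 4, Int.negSucc 3, Int.negSucc 17, Int.negSucc 5, Int.negSucc 3],
  [Int.negSucc 24, Int.ofNat 15, Int.ofNat 8, Int.negSucc 9, Int.ofNat 8, Int.negSucc 5,
    Int.ofNat 7, Int.ofNat 8, Int.negSucc 1, Int.negSucc 21, Int.negSucc 9, Int.negSucc 5],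
  [Int.negSucc 4, Int.ofNat 4, Int.ofNat 3, Int.negSucc 0, Int.ofNat 4, Int.negSucc 2,
    Int.ofNat 1, Int.negSucc 0, Int.ofNat 1, Int.negSucc 5, Int.ofNat 2, Int.negSucc 1],
  [Int.negSucc 24, Int.ofNat 15, Int.ofNat 7, Int.negSucc 10, Int.ofNat 7, Int.negSucc 4,
    Int.ofNat 7, Int.ofNat 9, Int.negSucc 2, Int.negSucc 21, Int.negSucc 9, Int.negSucc 5],
  [Int.negSucc 10, Int.ofNat 8, Int.ofNat 5, Int.negSucc 2, Int.ofNat 0, Int.negSucc 4,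
    Int.ofNat 5, Int.ofNat 9, Int.ofNat 1, Int.negSucc 11, Int.negSucc 9, Int.negSucc 3],
  [Int.negSucc 12, Int.ofNat 8, Int.ofNat 4, Int.negSucc 4, Int.ofNat 5, Int.negSucc 2,
    Int.ofNat 4, Int.ofNat 4, Int.negSucc 1, Int.negSucc 11, Int.negSucc 3, Int.negSucc 3],
  [Int.ofNat 6, Int.negSucc 3, Int.negSucc 1, Int.ofNat 2, Int.ofNat 0, Int.ofNat 2,
    Int.negSucc 1, Int.negSucc 3, Int.ofNat 0, Int.ofNat 6, Int.ofNat 6, Int.ofNat 2]]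

def bVVS2 : List (List ℤ) :=
  [  [Int.ofNat 12, Int.negSucc 7, Int.negSucc 3, Int.ofNat 4, Int.negSucc 3, Int.ofNat 4,
    Int.negSucc 3, Int.negSucc 3, Int.ofNat 0, Int.ofNat 12, Int.ofNat 4, Int.ofNat 4],
  [Int.ofNat 12, Int.negSucc 7, Int.negSucc 3, Int.ofNat 4, Int.negSucc 3, Int.ofNat 4,
    Int.negSucc 3, Int.negSucc 3, Int.ofNat 0, Int.ofNat 12, Int.ofNat 4, Int.ofNat 4],
  [Int.ofNat 24, Int.negSucc 15, Int.negSucc 7, Int.ofNat 8, Int.negSucc 7, Int.ofNat 8,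
    Int.negSucc 7, Int.negSucc 7, Int.ofNat 0, Int.ofNat 24, Int.ofNat 8, Int.ofNat 8],
  [Int.negSucc 11, Int.ofNat 8, Int.ofNat 4, Int.negSucc 3, Int.ofNat 4, Int.negSucc 3,
    Int.ofNat 4, Int.ofNat 4, Int.ofNat 0, Int.negSucc 11, Int.negSucc 3, Int.negSucc 3],
  [Int.ofNat 12, Int.negSucc 7, Int.negSucc 3, Int.ofNat 4, Int.negSucc 3, Int.ofNat 4,
    Int.negSucc 3, Int.negSucc 3, Int.ofNat 0, Int.ofNat 12, Int.ofNat 4, Int.ofNat 4],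
  [Int.ofNat 32, Int.negSucc 21, Int.negSucc 9, Int.ofNat 12, Int.negSucc 9, Int.ofNat 10,
    Int.negSucc 9, Int.negSucc 11, Int.ofNat 0, Int.ofNat 32, Int.ofNat 12, Int.ofNat 12],
  [Int.negSucc 11, Int.ofNat 8, Int.ofNat 4, Int.negSucc 3, Int.ofNat 4, Int.negSucc 3,
    Int.ofNat 4, Int.ofNat 4, Int.ofNat 0, Int.negSucc 11, Int.negSucc 3, Int.negSucc 3],
  [],
  [],
  [Int.ofNat 18, Int.negSucc 11, Int.negSucc 5, Int.ofNat 6, Int.negSucc 5, Int.ofNat 6,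
    Int.negSucc 5, Int.negSucc 5, Int.ofNat 0, Int.ofNat 18, Int.ofNat 6, Int.ofNat 6],
  [Int.negSucc 5, Int.ofNat 4, Int.ofNat 2, Int.negSucc 1, Int.ofNat 2, Int.negSucc 1,
    Int.ofNat 2, Int.ofNat 2, Int.ofNat 0, Int.negSucc 5, Int.negSucc 1, Int.negSucc 1],
  [Int.negSucc 17, Int.ofNat 12, Int.ofNat 6, Int.negSucc 5, Int.ofNat 6, Int.negSucc 5,
    Int.ofNat 6, Int.ofNat 6, Int.ofNat 0, Int.negSucc 17, Int.negSucc 5, Int.negSucc 5]]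

def bVVS3 : List (List ℤ) :=
  [  [Int.ofNat 15, Int.negSucc 8, Int.negSucc 5, Int.ofNat 5, Int.negSucc 5, Int.ofNat 5,
    Int.negSucc 3, Int.negSucc 3, Int.ofNat 0, Int.ofNat 14, Int.ofNat 4, Int.ofNat 4],
  [Int.negSucc 9, Int.ofNat 6, Int.ofNat 2, Int.negSucc 4, Int.ofNat 2, Int.negSucc 0,
    Int.ofNat 3, Int.ofNat 4, Int.negSucc 1, Int.negSucc 7, Int.negSucc 5, Int.negSucc 1],
  [Int.negSucc 0, Int.ofNat 0, Int.ofNat 0, Int.negSucc 0, Int.ofNat 1, Int.ofNat 1, Int.ofNat 0,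
    Int.negSucc 1, Int.negSucc 1, Int.ofNat 0, Int.ofNat 0, Int.ofNat 2],
  [Int.ofNat 8, Int.negSucc 4, Int.negSucc 5, Int.ofNat 1, Int.negSucc 2, Int.ofNat 5,
    Int.negSucc 2, Int.negSucc 1, Int.negSucc 1, Int.ofNat 12, Int.ofNat 4, Int.ofNat 4],
  [Int.negSucc 22, Int.ofNat 13, Int.ofNat 6, Int.negSucc 8, Int.ofNat 6, Int.negSucc 2,
    Int.ofNat 4, Int.ofNat 6, Int.negSucc 1, Int.negSucc 19, Int.negSucc 5, Int.negSucc 7],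
  [Int.negSucc 15, Int.ofNat 9, Int.ofNat 2, Int.negSucc 6, Int.negSucc 0, Int.ofNat 1,
    Int.ofNat 5, Int.ofNat 8, Int.negSucc 3, Int.negSucc 13, Int.negSucc 9, Int.negSucc 7],
  [Int.negSucc 26, Int.ofNat 17, Int.ofNat 8, Int.negSucc 9, Int.ofNat 8, Int.negSucc 5,
    Int.ofNat 7, Int.ofNat 8, Int.negSucc 1, Int.negSucc 25, Int.negSucc 9, Int.negSucc 9],
  [Int.ofNat 25, Int.negSucc 15, Int.negSucc 8, Int.ofNat 9, Int.negSucc 5, Int.ofNat 7,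
    Int.negSucc 8, Int.negSucc 10, Int.ofNat 1, Int.ofNat 26, Int.ofNat 14, Int.ofNat 10],
  [Int.negSucc 26, Int.ofNat 15, Int.ofNat 9, Int.negSucc 8, Int.ofNat 7, Int.negSucc 4,
    Int.ofNat 7, Int.ofNat 7, Int.negSucc 2, Int.negSucc 25, Int.negSucc 9, Int.negSucc 9],
  [Int.negSucc 48, Int.ofNat 30, Int.ofNat 19, Int.negSucc 16, Int.ofNat 18, Int.negSucc 14,
    Int.ofNat 13, Int.ofNat 13, Int.negSucc 0, Int.negSucc 47, Int.negSucc 15, Int.negSucc 13],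
  [Int.ofNat 7, Int.negSucc 3, Int.negSucc 1, Int.ofNat 3, Int.negSucc 0, Int.ofNat 1,
    Int.negSucc 1, Int.negSucc 3, Int.ofNat 0, Int.ofNat 6, Int.ofNat 4, Int.ofNat 2],
  [Int.ofNat 28, Int.negSucc 17, Int.negSucc 9, Int.ofNat 10, Int.negSucc 7, Int.ofNat 8,
    Int.negSucc 7, Int.negSucc 9, Int.ofNat 0, Int.ofNat 28, Int.ofNat 12, Int.ofNat 10]]

def bVVS4 : List (List ℤ) :=
  [  [Int.ofNat 6, Int.negSucc 3, Int.negSucc 1, Int.ofNat 2, Int.negSucc 1, Int.ofNat 2,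
    Int.negSucc 1, Int.negSucc 1, Int.ofNat 0, Int.ofNat 6, Int.ofNat 2, Int.ofNat 2],
  [Int.negSucc 5, Int.ofNat 4, Int.ofNat 2, Int.negSucc 1, Int.ofNat 2, Int.negSucc 1,
    Int.ofNat 2, Int.ofNat 2, Int.ofNat 0, Int.negSucc 5, Int.negSucc 1, Int.negSucc 1],
  [],
  [Int.negSucc 35, Int.ofNat 24, Int.ofNat 12, Int.negSucc 11, Int.ofNat 12, Int.negSucc 11,
    Int.ofNat 12, Int.ofNat 12, Int.ofNat 0, Int.negSucc 35, Int.negSucc 11, Int.negSucc 11],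
  [Int.negSucc 29, Int.ofNat 20, Int.ofNat 10, Int.negSucc 9, Int.ofNat 10, Int.negSucc 9,
    Int.ofNat 10, Int.ofNat 10, Int.ofNat 0, Int.negSucc 29, Int.negSucc 9, Int.negSucc 9],
  [Int.negSucc 47, Int.ofNat 32, Int.ofNat 16, Int.negSucc 15, Int.ofNat 16, Int.negSucc 15,
    Int.ofNat 16, Int.ofNat 16, Int.ofNat 0, Int.negSucc 47, Int.negSucc 15, Int.negSucc 15],
  [],
  [Int.negSucc 5, Int.ofNat 4, Int.ofNat 2, Int.negSucc 1, Int.ofNat 2, Int.negSucc 1,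
    Int.ofNat 2, Int.ofNat 2, Int.ofNat 0, Int.negSucc 5, Int.negSucc 1, Int.negSucc 1],
  [Int.negSucc 23, Int.ofNat 16, Int.ofNat 8, Int.negSucc 7, Int.ofNat 8, Int.negSucc 7,
    Int.ofNat 8, Int.ofNat 8, Int.ofNat 0, Int.negSucc 23, Int.negSucc 7, Int.negSucc 7],
  [Int.ofNat 18, Int.negSucc 11, Int.negSucc 5, Int.ofNat 6, Int.negSucc 5, Int.ofNat 6,
    Int.negSucc 5, Int.negSucc 5, Int.ofNat 0, Int.ofNat 18, Int.ofNat 6, Int.ofNat 6],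
  [Int.ofNat 12, Int.negSucc 7, Int.negSucc 3, Int.ofNat 4, Int.negSucc 3, Int.ofNat 4,
    Int.negSucc 3, Int.negSucc 3, Int.ofNat 0, Int.ofNat 12, Int.ofNat 4, Int.ofNat 4],
  [Int.negSucc 5, Int.ofNat 4, Int.ofNat 2, Int.negSucc 1, Int.ofNat 2, Int.negSucc 1,
    Int.ofNat 2, Int.ofNat 2, Int.ofNat 0, Int.negSucc 5, Int.negSucc 1, Int.negSucc 1]]

def bVVS5 : List (List ℤ) :=
  [  [],
  [Int.negSucc 5, Int.ofNat 4, Int.ofNat 2, Int.negSucc 1, Int.ofNat 2, Int.negSucc 1,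
    Int.ofNat 2, Int.ofNat 2, Int.ofNat 0, Int.negSucc 5, Int.negSucc 1, Int.negSucc 1],
  [],
  [Int.ofNat 36, Int.negSucc 23, Int.negSucc 11, Int.ofNat 12, Int.negSucc 11, Int.ofNat 12,
    Int.negSucc 11, Int.negSucc 11, Int.ofNat 0, Int.ofNat 36, Int.ofNat 12, Int.ofNat 12],
  [Int.ofNat 30, Int.negSucc 19, Int.negSucc 9, Int.ofNat 10, Int.negSucc 9, Int.ofNat 10,
    Int.negSucc 9, Int.negSucc 9, Int.ofNat 0, Int.ofNat 30, Int.ofNat 10, Int.ofNat 10],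
  [Int.ofNat 24, Int.negSucc 15, Int.negSucc 7, Int.ofNat 8, Int.negSucc 7, Int.ofNat 8,
    Int.negSucc 7, Int.negSucc 7, Int.ofNat 0, Int.ofNat 24, Int.ofNat 8, Int.ofNat 8],
  [],
  [Int.ofNat 30, Int.negSucc 19, Int.negSucc 9, Int.ofNat 10, Int.negSucc 9, Int.ofNat 10,
    Int.negSucc 9, Int.negSucc 9, Int.ofNat 0, Int.ofNat 30, Int.ofNat 10, Int.ofNat 10],
  [],
  [Int.negSucc 11, Int.ofNat 8, Int.ofNat 4, Int.negSucc 3, Int.ofNat 4, Int.negSucc 3,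
    Int.ofNat 4, Int.ofNat 4, Int.ofNat 0, Int.negSucc 11, Int.negSucc 3, Int.negSucc 3],
  [],
  []]

def bVVS7 : List (List ℤ) :=
  [  [Int.negSucc 5, Int.ofNat 4, Int.ofNat 2, Int.negSucc 1, Int.ofNat 2, Int.negSucc 1,
    Int.ofNat 2, Int.ofNat 2, Int.ofNat 0, Int.negSucc 5, Int.negSucc 1, Int.negSucc 1],
  [],
  [],
  [Int.ofNat 24, Int.negSucc 15, Int.negSucc 7, Int.ofNat 8, Int.negSucc 7, Int.ofNat 8,
    Int.negSucc 7, Int.negSucc 7, Int.ofNat 0, Int.ofNat 24, Int.ofNat 8, Int.ofNat 8],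
  [Int.ofNat 24, Int.negSucc 15, Int.negSucc 7, Int.ofNat 8, Int.negSucc 7, Int.ofNat 8,
    Int.negSucc 7, Int.negSucc 7, Int.ofNat 0, Int.ofNat 24, Int.ofNat 8, Int.ofNat 8],
  [Int.ofNat 12, Int.negSucc 7, Int.negSucc 3, Int.ofNat 4, Int.negSucc 3, Int.ofNat 4,
    Int.negSucc 3, Int.negSucc 3, Int.ofNat 0, Int.ofNat 12, Int.ofNat 4, Int.ofNat 4],
  [],
  [Int.ofNat 24, Int.negSucc 15, Int.negSucc 7, Int.ofNat 8, Int.negSucc 7, Int.ofNat 8,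
    Int.negSucc 7, Int.negSucc 7, Int.ofNat 0, Int.ofNat 24, Int.ofNat 8, Int.ofNat 8],
  [],
  [Int.ofNat 6, Int.negSucc 3, Int.negSucc 1, Int.ofNat 2, Int.negSucc 1, Int.ofNat 2,
    Int.negSucc 1, Int.negSucc 1, Int.ofNat 0, Int.ofNat 6, Int.ofNat 2, Int.ofNat 2],
  [Int.negSucc 5, Int.ofNat 4, Int.ofNat 2, Int.negSucc 1, Int.ofNat 2, Int.negSucc 1,
    Int.ofNat 2, Int.ofNat 2, Int.ofNat 0, Int.negSucc 5, Int.negSucc 1, Int.negSucc 1],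
  [Int.negSucc 11, Int.ofNat 8, Int.ofNat 4, Int.negSucc 3, Int.ofNat 4, Int.negSucc 3,
    Int.ofNat 4, Int.ofNat 4, Int.ofNat 0, Int.negSucc 11, Int.negSucc 3, Int.negSucc 3]]

def bVV : VD where
  F := [bVVF0, bVVF1, bVVF2, bVVF3, bVVF4, bVVF5, bVVF6, bVVF7]
  S := [diagL (List.replicate 12 (Int.ofNat 2)), bVVS1, bVVS2, bVVS3, bVVS4, bVVS5, [], bVVS7]
  δ := Int.ofNat 2

set_option maxRecDepth 100000 in
theorem bV_ok : chkBD 12 36 bV = true := by decide +kernel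

set_option maxRecDepth 100000 in
theorem bVV_ok : chkV 12 bV.A bVV = true := by decide +kernel

end Pool.Agent.H809
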