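import Mathlib

/-!
Group-theoretic description of surface bundles over surfaces, their signature and their fibre
subgroups.
-/

namespace Pool.Agent.H809.Bundle

/-- The word `∏ [x_i, y_i]`, where `x_i` is the generator `(i, false)` and `y_i` the
generator `(i, true)` of the free group. -/
def relator (g : ℕ) : FreeGroup (Fin g × Bool) :=
  (List.ofFn fun i : Fin g => FreeGroup.of (i, false) * FreeGroup.of (i, true) *
    (FreeGroup.of (i, false))⁻¹ * (FreeGroup.of (i, true))⁻¹).prod

/-- The homomorphism from the free group that sends the generators to `x_i, y_i`. -/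
def genMap {G : Type} [Group G] {g : ℕ} (x y : Fin g → G) : FreeGroup (Fin g × Bool) →* G :=
  FreeGroup.lift fun p => bif p.2 then y p.1 else x p.1

/-- `G` is presented by the generators `x_i, y_i` (`i < g`) and the single relation
`∏ [x_i, y_i] = 1`: `G` is the fundamental group of the closed oriented surface of genus `g`
and `x_i, y_i` are its standard generators. -/
def IsSurfaceGroup {G : Type} [Group G] {g : ℕ} (x y : Fin g → G) : Prop :=
  Function.Surjective (genMap x y) ∧ (genMap x y).ker = Subgroup.normalClosure {relator g}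

section

variable {K Q : Type} [Group K] [Group Q] {g h : ℕ}

/-- The cup product form of the surface of genus `g` on `H¹(K; ℝ) = Hom(K, ℝ)`. -/
def cupH1 (a b : Fin g → K) (u v : Additive K →+ ℝ) : ℝ :=
  ∑ i, (u (Additive.ofMul (a i)) * v (Additive.ofMul (b i)) -
    u (Additive.ofMul (b i)) * v (Additive.ofMul (a i)))

/-- The action of automorphisms on `H¹(K; ℝ)`: `(α u)(n) = u(α⁻¹ n)`. -/
def act (α : MulAut K) (u : Additive K →+ ℝ) : Additive K →+ ℝ :=
  u.comp (MonoidHom.toAdditive (α⁻¹ : MulAut K).toMonoidHom)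

/-- `∑ c(p l₁ ⋯ l_{k-1}, l_k)` for the list `l₁, l₂, ...`. -/
def barSum (c : Q → Q → ℝ) : Q → List Q → ℝ
  | _, [] => 0
  | p, l :: ls => c p l + barSum c (p * l) ls

/-- The letters `x₁, y₁, x₁⁻¹, y₁⁻¹, x₂, ...` of the relator. -/
def relLetters (x y : Fin h → Q) : List Q :=
  (List.ofFn fun i : Fin h => [x i, y i, (x i)⁻¹, (y i)⁻¹]).flatten

/-- Value of the normalised 2-cocycle `c` of `Q` on the fundamental class
`∑ [l₁ ⋯ l_{k-1} | l_k] - ∑ ([x_i | x_i⁻¹] + [y_i | y_i⁻¹])` of the base surface. -/
def evalFund (x y : Fin h → Q) (c : Q → Q → ℝ) : ℝ :=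
  barSum c 1 (relLetters x y) - ∑ i, (c (x i) (x i)⁻¹ + c (y i) (y i)⁻¹)

/-- The crossed homomorphisms (1-cocycles) of `Q` with values in `H¹(K; ℝ)`. -/
def crossedHoms (ρ : Q →* MulAut K) : Set (Q → Additive K →+ ℝ) :=
  {f | ∀ s t, f (s * t) = f s + act (ρ s) (f t)}

/-- The cup product of 1-cocycles, followed by the cup product form on the coefficients
`H¹(K; ℝ)` and by evaluation on the fundamental class of the base. -/
def cupForm (a b : Fin g → K) (x y : Fin h → Q) (ρ : Q →* MulAut K)
    (f f' : Q → Additive K →+ ℝ) : ℝ :=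
  evalFund x y fun s t => cupH1 a b (f s) (act (ρ s) (f' t))

/-- The form `B` on the linear subspace `Z` of `M` has `p` positive and `q` negative squares: `Z`
has a finite basis, orthogonal with respect to `B` (on both sides), with exactly `p` vectors of
positive square and `q` vectors of negative square. -/
def HasInertia {M : Type} [AddCommGroup M] [Module ℝ M] (B : M → M → ℝ) (Z : Set M)
    (p q : ℕ) : Prop :=
  ∃ (ι : Type) (_ : Fintype ι) (b : ι → M), LinearIndependent ℝ b ∧
    (Submodule.span ℝ (Set.range b) : Set M) = Z ∧ (∀ i j, i ≠ j → B (b i) (b j) = 0) ∧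
    Nat.card {i // 0 < B (b i) (b i)} = p ∧ Nat.card {i // B (b i) (b i) < 0} = q

/-- `N` is a fibre subgroup of `Γ`: it is the fundamental group of the surface of genus `g`, and
the kernel of an epimorphism from `Γ` onto the fundamental group of the surface of genus `h`. -/
def IsFibreSubgroup {Γ : Type} [Group Γ] (g h : ℕ) (N : Subgroup Γ) : Prop :=
  (∃ a b : Fin g → N, IsSurfaceGroup a b) ∧
    ∃ (P : Type) (_ : Group P) (x y : Fin h → P) (p : Γ →* P),
      IsSurfaceGroup x y ∧ Function.Surjective p ∧ p.ker = N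

/-- The subgroup `T(K)` of `K ⋊ Q`. -/
def fibre (ρ : Q →* MulAut K) (T : MulAut (K ⋊[ρ] Q)) : Subgroup (K ⋊[ρ] Q) :=
  (SemidirectProduct.inl : K →* K ⋊[ρ] Q).range.map T.toMonoidHom

/-- The surface bundle with fibre group `K` (genus `g`, standard generators `a, b`), base group
`Q` (genus `h`, standard generators `x, y`) and monodromy `ρ` is oriented, the signature form
on its 1-cocycles has `p` positive and `q` negative squares, and its fundamental group
`K ⋊ Q` has at least `n` distinct fibre subgroups of the same type, all in the orbit of `K`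
under automorphisms. -/
def IsBundle (n p q : ℕ) (a b : Fin g → K) (x y : Fin h → Q) (ρ : Q →* MulAut K) : Prop :=
  IsSurfaceGroup a b ∧ IsSurfaceGroup x y ∧
  (∀ s u v, cupH1 a b (act (ρ s) u) (act (ρ s) v) = cupH1 a b u v) ∧
  HasInertia (cupForm a b x y ρ) (crossedHoms ρ) p q ∧
  ∃ T : Fin n → MulAut (K ⋊[ρ] Q),
    (Function.Injective fun t => fibre ρ (T t)) ∧ ∀ t, IsFibreSubgroup g h (fibre ρ (T t))

end

end Pool.Agent.H809.Bundle
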