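import Pool.Agent.H809.Packed
import Pool.Agent.H809.Block2

/-!
Certificates for the inertia of the cup product form.
-/

namespace Pool.Agent.H809

open Matrix

/-- packing base -/
def Xb : ℤ := 1099511627776

/-- the list of rows of a diagonal matrix -/
def diagL (g : List ℤ) : List (List ℤ) :=
  (List.range g.length).map fun i => List.replicate i 0 ++ [g.getD i 0]

theorem toM_diagL {m : ℕ} {g : List ℤ} (h : g.length = m) :
    toM m m (diagL g) = Matrix.diagonal fun i : Fin m => g.getD i 0 := by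
  ext i j
  unfold toM diagL
  have hi : (i : ℕ) < g.length := by rw [h]; exact i.2
  have e1 : ((List.range g.length).map fun i => List.replicate i 0 ++ [g.getD i 0]).getD i [] =
      List.replicate i 0 ++ [g.getD i 0] := by
    rw [List.getD_eq_getElem _ _ (by simpa using hi)]
    simp
  rw [e1, Matrix.diagonal_apply]
  rcases Nat.lt_trichotomy (i : ℕ) j with hij | hij | hij
  · rw [if_neg (fun h => by rw [h] at hij; exact lt_irrefl _ hij)]
    rw [List.getD_eq_default _ _ (by simp; omega)]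
  · rw [if_pos (Fin.ext hij), ← hij]
    rw [List.getD_append_right _ _ _ _ (by simp)]
    simp
  · rw [if_neg (fun h => by rw [h] at hij; exact lt_irrefl _ hij)]
    rw [List.getD_append _ _ _ _ (by simpa using hij)]
    simp [List.getD_eq_getElem, hij]

/-- shape check for a list of matrices -/
def wfs (r c : ℕ) (L : List (List (List ℤ))) : Bool := L.all (wf r c 1024)

theorem wfs_spec {r c : ℕ} {L : List (List (List ℤ))} (h : wfs r c L = true) (l : ℕ) :
    wf r c 1024 (L.getD l []) = true := by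
  unfold wfs at h
  rw [List.all_eq_true] at h
  rcases Nat.lt_or_ge l L.length with hl | hl
  · exact h _ (by rw [List.getD_eq_getElem _ _ hl]; exact List.getElem_mem hl)
  · rw [List.getD_eq_default _ _ hl]
    simp [wf]

/-- values on letters and suffixes -/
structure Chain {n m : ℕ} (A : ℕ → Matrix (Fin n) (Fin n) ℤ)
    (F S : ℕ → Matrix (Fin n) (Fin m) ℤ) : Prop where
  f1 : A 1 * F 0 + F 1 = 0
  f3 : A 3 * F 2 + F 3 = 0
  f5 : A 5 * F 4 + F 5 = 0
  f7 : A 7 * F 6 + F 7 = 0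
  s5 : A 5 * F 6 + F 5 = S 5
  s7 : A 7 * S 5 + F 7 = S 7
  s4 : A 4 * S 7 + F 4 = S 4
  s2 : A 2 * S 4 + F 2 = S 2
  s1 : A 1 * S 2 + F 1 = S 1
  s3 : A 3 * S 1 + F 3 = S 3
  s0 : A 0 * S 3 + F 0 = S 0

/-- the check for `Chain` -/
def chkChain (n : ℕ) (A F S : List (List (List ℤ))) : Bool :=
  (chkMA Xb n (A.getD 1 []) (F.getD 0 []) (F.getD 1 []) [] &&
  (chkMA Xb n (A.getD 3 []) (F.getD 2 []) (F.getD 3 []) [] &&
  (chkMA Xb n (A.getD 5 []) (F.getD 4 []) (F.getD 5 []) [] &&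
  chkMA Xb n (A.getD 7 []) (F.getD 6 []) (F.getD 7 []) []))) &&
  (chkMA Xb n (A.getD 5 []) (F.getD 6 []) (F.getD 5 []) (S.getD 5 []) &&
  (chkMA Xb n (A.getD 7 []) (S.getD 5 []) (F.getD 7 []) (S.getD 7 []) &&
  (chkMA Xb n (A.getD 4 []) (S.getD 7 []) (F.getD 4 []) (S.getD 4 []) &&
  (chkMA Xb n (A.getD 2 []) (S.getD 4 []) (F.getD 2 []) (S.getD 2 []) &&
  (chkMA Xb n (A.getD 1 []) (S.getD 2 []) (F.getD 1 []) (S.getD 1 []) &&
  (chkMA Xb n (A.getD 3 []) (S.getD 1 []) (F.getD 3 []) (S.getD 3 []) &&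
  chkMA Xb n (A.getD 0 []) (S.getD 3 []) (F.getD 0 []) (S.getD 0 [])))))))

theorem toM_nil (a b : ℕ) : toM a b [] = 0 := by
  ext i j
  simp [toM]

theorem ma_sound' {a b c : ℕ} (hb : b ≤ 1000) {A B D C : List (List ℤ)}
    (hA : wf a b 1024 A = true) (hB : wf b c 1024 B = true) (hD : wf a c 1024 D = true)
    (hC : wf a c 1024 C = true) (h : chkMA Xb a A B D C = true) :
    toM a b A * toM b c B + toM a c D = toM a c C := by
  refine ma_sound hA hB hD hC ?_ h
  unfold Xb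
  push_cast
  have : (b : ℤ) ≤ 1000 := by exact_mod_cast hb
  linarith

theorem chain_sound {n m : ℕ} (hn : n ≤ 1000) {A F S : List (List (List ℤ))}
    (hA : wfs n n A = true) (hF : wfs n m F = true) (hS : wfs n m S = true)
    (h : chkChain n A F S = true) :
    Chain (fun l => toM n n (A.getD l [])) (fun l => toM n m (F.getD l []))
      (fun l => toM n m (S.getD l [])) := by
  unfold chkChain at h
  simp only [Bool.and_eq_true] at h
  obtain ⟨⟨h1, h3, h5, h7⟩, k5, k7, k4, k2, k1, k3, k0⟩ := h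
  have e0 : wf n m 1024 [] = true := by simp [wf]
  refine ⟨?_, ?_, ?_, ?_, ?_, ?_, ?_, ?_, ?_, ?_, ?_⟩
  · rw [← toM_nil n m]; exact ma_sound' hn (wfs_spec hA _) (wfs_spec hF _) (wfs_spec hF _) e0 h1
  · rw [← toM_nil n m]; exact ma_sound' hn (wfs_spec hA _) (wfs_spec hF _) (wfs_spec hF _) e0 h3
  · rw [← toM_nil n m]; exact ma_sound' hn (wfs_spec hA _) (wfs_spec hF _) (wfs_spec hF _) e0 h5
  · rw [← toM_nil n m]; exact ma_sound' hn (wfs_spec hA _) (wfs_spec hF _) (wfs_spec hF _) e0 h7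
  · exact ma_sound' hn (wfs_spec hA _) (wfs_spec hF _) (wfs_spec hF _) (wfs_spec hS _) k5
  · exact ma_sound' hn (wfs_spec hA _) (wfs_spec hS _) (wfs_spec hF _) (wfs_spec hS _) k7
  · exact ma_sound' hn (wfs_spec hA _) (wfs_spec hS _) (wfs_spec hF _) (wfs_spec hS _) k4
  · exact ma_sound' hn (wfs_spec hA _) (wfs_spec hS _) (wfs_spec hF _) (wfs_spec hS _) k2
  · exact ma_sound' hn (wfs_spec hA _) (wfs_spec hS _) (wfs_spec hF _) (wfs_spec hS _) k1
  · exact ma_sound' hn (wfs_spec hA _) (wfs_spec hS _) (wfs_spec hF _) (wfs_spec hS _) k3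
  · exact ma_sound' hn (wfs_spec hA _) (wfs_spec hS _) (wfs_spec hF _) (wfs_spec hS _) k0

section chain

variable {n m : ℕ} {A : ℕ → Matrix (Fin n) (Fin n) ℤ} {F S : ℕ → Matrix (Fin n) (Fin m) ℤ}

/-- the columns of generator values -/
def Xof (F : ℕ → Matrix (Fin n) (Fin m) ℤ) (j : ℕ) : Matrix (Fin n) (Fin m) ℤ :=
  if j < 4 then F (2 * j) else 0

theorem Xof_big {j : ℕ} (hj : 4 ≤ j) : Xof F j = 0 := by
  unfold Xof
  rw [if_neg (by omega)]

theorem Chain.letter (h : Chain A F S) {l : ℕ} (hl : l < 8) : FmZ A (Xof F) l = F l := by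
  unfold FmZ Xof
  interval_cases l
  · rfl
  · exact neg_eq_of_add_eq_zero_right h.f1
  · rfl
  · exact neg_eq_of_add_eq_zero_right h.f3
  · rfl
  · exact neg_eq_of_add_eq_zero_right h.f5
  · rfl
  · exact neg_eq_of_add_eq_zero_right h.f7

theorem Chain.w6 (h : Chain A F S) : wvZ A (Xof F) [6] = F 6 := by
  simp only [wvZ, h.letter (l := 6) (by norm_num), Matrix.mul_zero, add_zero]

theorem Chain.w5 (h : Chain A F S) : wvZ A (Xof F) [5, 6] = S 5 := by
  rw [wvZ, h.w6, h.letter (by norm_num), add_comm, h.s5]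

theorem Chain.w7 (h : Chain A F S) : wvZ A (Xof F) [7, 5, 6] = S 7 := by
  rw [wvZ, h.w5, h.letter (by norm_num), add_comm, h.s7]

theorem Chain.w4 (h : Chain A F S) : wvZ A (Xof F) [4, 7, 5, 6] = S 4 := by
  rw [wvZ, h.w7, h.letter (by norm_num), add_comm, h.s4]

theorem Chain.w2 (h : Chain A F S) : wvZ A (Xof F) [2, 4, 7, 5, 6] = S 2 := by
  rw [wvZ, h.w4, h.letter (by norm_num), add_comm, h.s2]

theorem Chain.w1 (h : Chain A F S) : wvZ A (Xof F) [1, 2, 4, 7, 5, 6] = S 1 := by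
  rw [wvZ, h.w2, h.letter (by norm_num), add_comm, h.s1]

theorem Chain.w3 (h : Chain A F S) : wvZ A (Xof F) [3, 1, 2, 4, 7, 5, 6] = S 3 := by
  rw [wvZ, h.w1, h.letter (by norm_num), add_comm, h.s3]

theorem Chain.w0 (h : Chain A F S) : wvZ A (Xof F) wMu = S 0 := by
  unfold wMu
  rw [wvZ, h.w3, h.letter (by norm_num), add_comm, h.s0]

theorem Chain.gram (h : Chain A F S) (h0 : S 0 = 0) {W : Matrix (Fin n) (Fin n) ℤ}
    {Y : ℕ → Matrix (Fin n) (Fin m) ℤ} (hY : ∀ l, l < 8 → W * F l = Y l) :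
    gramZ A W (Xof F) = (F 0)ᵀ * Y 0 + (F 3)ᵀ * Y 3 + (F 4)ᵀ * Y 4 + (F 7)ᵀ * Y 7 -
      ((S 3)ᵀ * Y 3 + ((S 1)ᵀ * Y 1 + ((S 2)ᵀ * Y 2 + ((S 4)ᵀ * Y 4 + ((S 7)ᵀ * Y 7 +
        ((S 5)ᵀ * Y 5 + (F 6)ᵀ * Y 6)))))) := by
  have e : sufZ A W (Xof F) wMu = (S 3)ᵀ * Y 3 + ((S 1)ᵀ * Y 1 + ((S 2)ᵀ * Y 2 +
      ((S 4)ᵀ * Y 4 + ((S 7)ᵀ * Y 7 + ((S 5)ᵀ * Y 5 + (F 6)ᵀ * Y 6))))) := by
    have h1 := h.w0
    unfold wMu at h1 ⊢
    simp only [sufZ]
    rw [h1, h.w3, h.w1, h.w2, h.w4, h.w7, h.w5, h.w6, h0]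
    rw [h.letter (l := 0) (by norm_num), h.letter (l := 3) (by norm_num),
      h.letter (l := 1) (by norm_num), h.letter (l := 2) (by norm_num),
      h.letter (l := 4) (by norm_num), h.letter (l := 7) (by norm_num),
      h.letter (l := 5) (by norm_num), h.letter (l := 6) (by norm_num)]
    simp only [Matrix.mul_assoc]
    rw [hY 0 (by norm_num), hY 3 (by norm_num), hY 1 (by norm_num), hY 2 (by norm_num),
      hY 4 (by norm_num), hY 7 (by norm_num), hY 5 (by norm_num), hY 6 (by norm_num)]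
    simp
  unfold gramZ
  rw [e, h.letter (l := 0) (by norm_num), h.letter (l := 3) (by norm_num),
    h.letter (l := 4) (by norm_num), h.letter (l := 7) (by norm_num)]
  simp only [Matrix.mul_assoc]
  rw [hY 0 (by norm_num), hY 3 (by norm_num), hY 4 (by norm_num), hY 7 (by norm_num)]

end chain

end Pool.Agent.H809
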