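import Pool.Agent.H809.Cert

/-!
Certificates for the inertia of the cup product form, second part.
-/

namespace Pool.Agent.H809

open Matrix

/-- lists for a certificate -/
structure BD where
  A : List (List (List ℤ))
  P : List (List (List ℤ))
  W : List (List ℤ)
  U : List (List (List ℤ))
  F : List (List (List ℤ))
  S : List (List (List ℤ))
  Y : List (List (List ℤ))
  L : List (List (List ℤ))
  g : List ℤ
  δ : ℤ

/-- shape check -/
def chkShape (n m : ℕ) (b : BD) : Bool :=
  (wfs n n b.A && (wfs n n b.P && (wf n n 1024 b.W && wfs n n b.U))) &&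
  ((wfs n m b.F && (wfs n m b.S && (wfs n m b.Y && wfs n m b.L))) &&
  (decide (b.g.length = m) && (wf m m 1024 (diagL b.g) &&
    wf m m 1024 (diagL (List.replicate m b.δ)))))

/-- identity matrix as a list of rows -/
def idL (n : ℕ) : List (List ℤ) := diagL (List.replicate n 1)

/-- check of the representation -/
def chkRep (n : ℕ) (A P : List (List (List ℤ))) : Bool :=
  wf n n 1024 (idL n) &&
  ((chkMA Xb n (A.getD 0 []) (A.getD 1 []) [] (idL n) &&
  (chkMA Xb n (A.getD 2 []) (A.getD 3 []) [] (idL n) &&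
  (chkMA Xb n (A.getD 4 []) (A.getD 5 []) [] (idL n) &&
  chkMA Xb n (A.getD 6 []) (A.getD 7 []) [] (idL n)))) &&
  (chkMA Xb n (A.getD 0 []) (A.getD 3 []) [] (P.getD 0 []) &&
  (chkMA Xb n (P.getD 0 []) (A.getD 1 []) [] (P.getD 1 []) &&
  (chkMA Xb n (P.getD 1 []) (A.getD 2 []) [] (P.getD 2 []) &&
  (chkMA Xb n (P.getD 2 []) (A.getD 4 []) [] (P.getD 3 []) &&
  (chkMA Xb n (P.getD 3 []) (A.getD 7 []) [] (P.getD 4 []) &&
  (chkMA Xb n (P.getD 4 []) (A.getD 5 []) [] (P.getD 5 []) &&
  chkMA Xb n (P.getD 5 []) (A.getD 6 []) [] (idL n))))))))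

theorem toM_idL (n : ℕ) : toM n n (idL n) = 1 := by
  unfold idL
  rw [toM_diagL (by simp)]
  rw [← Matrix.diagonal_one]
  congr 1
  funext i
  have hi := i.2
  rw [List.getD_eq_getElem _ _ (by simp)]
  simp

theorem rep_sound {n : ℕ} (hn : n ≤ 1000) {A P : List (List (List ℤ))}
    (hA : wfs n n A = true) (hP : wfs n n P = true) (h : chkRep n A P = true) :
    IsRep (fun l => toM n n (A.getD l [])) := by
  unfold chkRep at h
  simp only [Bool.and_eq_true] at h
  obtain ⟨hI, ⟨h0, h2, h4, h6⟩, p0, p1, p2, p3, p4, p5, p6⟩ := h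
  have e0 : wf n n 1024 [] = true := by simp [wf]
  have key : ∀ {B D : List (List ℤ)}, wf n n 1024 B = true → wf n n 1024 D = true →
      chkMA Xb n B D [] (idL n) = true → toM n n B * toM n n D = 1 := by
    intro B D hB hD hh
    have := ma_sound' hn hB hD e0 hI hh
    rwa [toM_nil, add_zero, toM_idL] at this
  have key2 : ∀ {B D C : List (List ℤ)}, wf n n 1024 B = true → wf n n 1024 D = true →
      wf n n 1024 C = true → chkMA Xb n B D [] C = true →
        toM n n B * toM n n D = toM n n C := by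
    intro B D C hB hD hC hh
    have := ma_sound' hn hB hD e0 hC hh
    rwa [toM_nil, add_zero] at this
  have i1 : ∀ j, j < 4 → toM n n (A.getD (2 * j) []) * toM n n (A.getD (2 * j + 1) []) = 1 := by
    intro j hj
    interval_cases j
    · exact key (wfs_spec hA _) (wfs_spec hA _) h0
    · exact key (wfs_spec hA _) (wfs_spec hA _) h2
    · exact key (wfs_spec hA _) (wfs_spec hA _) h4
    · exact key (wfs_spec hA _) (wfs_spec hA _) h6
  refine ⟨i1, fun j hj => mul_eq_one_comm.1 (i1 j hj), ?_⟩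
  have q0 := key2 (wfs_spec hA _) (wfs_spec hA _) (wfs_spec hP _) p0
  have q1 := key2 (wfs_spec hP _) (wfs_spec hA _) (wfs_spec hP _) p1
  have q2 := key2 (wfs_spec hP _) (wfs_spec hA _) (wfs_spec hP _) p2
  have q3 := key2 (wfs_spec hP _) (wfs_spec hA _) (wfs_spec hP _) p3
  have q4 := key2 (wfs_spec hP _) (wfs_spec hA _) (wfs_spec hP _) p4
  have q5 := key2 (wfs_spec hP _) (wfs_spec hA _) (wfs_spec hP _) p5
  have q6 := key (wfs_spec hP _) (wfs_spec hA _) p6
  unfold wMu
  simp only [List.map_cons, List.map_nil, List.prod_cons, List.prod_nil, mul_one]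
  rw [← q5, ← q4, ← q3, ← q2, ← q1, ← q0] at q6
  simpa only [Matrix.mul_assoc] using q6

/-- the pairs of the invariance check -/
def psU (b : BD) (j : ℕ) : List (ℤ × List (List ℤ) × List (List ℤ)) :=
  [(1, b.U.getD j [], b.A.getD (2 * j) [])]

/-- check of the invariance of the form -/
def chkWinv (n : ℕ) (b : BD) : Bool :=
  (List.range 4).all fun j =>
    chkMA Xb n b.W (b.A.getD (2 * j) []) [] (b.U.getD j []) &&
    decide (pairV Xb (Xb ^ n) (psU b j) = pk (Xb ^ n) (b.W.map (pk Xb)))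

/-- the pairs of the Gram check -/
def psG (b : BD) : List (ℤ × List (List ℤ) × List (List ℤ)) :=
  [(1, b.F.getD 0 [], b.Y.getD 0 []), (1, b.F.getD 3 [], b.Y.getD 3 []),
   (1, b.F.getD 4 [], b.Y.getD 4 []), (1, b.F.getD 7 [], b.Y.getD 7 []),
   (-1, b.S.getD 3 [], b.Y.getD 3 []), (-1, b.S.getD 1 [], b.Y.getD 1 []),
   (-1, b.S.getD 2 [], b.Y.getD 2 []), (-1, b.S.getD 4 [], b.Y.getD 4 []),
   (-1, b.S.getD 7 [], b.Y.getD 7 []), (-1, b.S.getD 5 [], b.Y.getD 5 []),
   (-1, b.F.getD 6 [], b.Y.getD 6 [])]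

/-- the pairs of the independence check -/
def psL (b : BD) : List (ℤ × List (List ℤ) × List (List ℤ)) :=
  [(1, b.L.getD 0 [], b.F.getD 0 []), (1, b.L.getD 1 [], b.F.getD 2 []),
   (1, b.L.getD 2 [], b.F.getD 4 []), (1, b.L.getD 3 [], b.F.getD 6 [])]

/-- check of the Gram matrix -/
def chkGram (n m : ℕ) (b : BD) : Bool :=
  ((List.range 8).all fun l =>
    chkMA Xb n b.W (b.F.getD l []) [] (b.Y.getD l [])) &&
  (decide (pairV Xb (Xb ^ m) (psG b) = pk (Xb ^ m) ((diagL b.g).map (pk Xb))) &&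
  (decide (pairV Xb (Xb ^ m) (psL b) =
    pk (Xb ^ m) ((diagL (List.replicate m b.δ)).map (pk Xb))) &&
  (decide (toM n m (b.S.getD 0 []) = 0) && decide (b.δ ≠ 0))))

/-- all checks -/
def chkBD (n m : ℕ) (b : BD) : Bool :=
  chkShape n m b && (chkRep n b.A b.P && (chkWinv n b && (chkChain n b.A b.F b.S &&
    chkGram n m b)))

theorem pair_sound' {K m m' : ℕ} {ps : List (ℤ × List (List ℤ) × List (List ℤ))}
    (hK : K ≤ 1000) (hl : ps.length ≤ 11)
    {G : List (List ℤ)} (hs : ∀ t ∈ ps, |t.1| ≤ 1)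
    (hw : ∀ t ∈ ps, wf K m 1024 t.2.1 = true ∧ wf K m' 1024 t.2.2 = true)
    (hG : wf m' m 1024 G = true)
    (h : pairV Xb (Xb ^ m) ps = pk (Xb ^ m) (G.map (pk Xb))) :
    pairM K m m' ps = (toM m' m G).transpose := by
  refine pair_sound hs hw hG ?_ h
  unfold Xb
  push_cast
  have h1 : (K : ℤ) ≤ 1000 := by exact_mod_cast hK
  have h2 : (ps.length : ℤ) ≤ 11 := by exact_mod_cast hl
  have h3 : (0 : ℤ) ≤ K := by positivity
  have h4 : (ps.length : ℤ) * (K * (1024 * 1024)) ≤ 11 * (1000 * (1024 * 1024)) :=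
    mul_le_mul h2 (by linarith) (by positivity) (by norm_num)
  linarith

/-- real consequences of a certificate -/
structure BDspec (n m : ℕ) (b : BD) : Prop where
  hA : wfs n n b.A = true
  rep : IsRep (fun l => toM n n (b.A.getD l []))
  inv : ∀ j, j < 4 → (toM n n (b.A.getD (2 * j) []))ᵀ * (toM n n b.W *
    toM n n (b.A.getD (2 * j) [])) = toM n n b.W
  chain : Chain (fun l => toM n n (b.A.getD l [])) (fun l => toM n m (b.F.getD l []))
      (fun l => toM n m (b.S.getD l []))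
  s0 : toM n m (b.S.getD 0 []) = 0
  gram : gramZ (fun l => toM n n (b.A.getD l [])) (toM n n b.W)
    (Xof (fun l => toM n m (b.F.getD l []))) = Matrix.diagonal fun i : Fin m => b.g.getD i 0
  δ0 : b.δ ≠ 0
  lin : (toM n m (b.L.getD 0 []))ᵀ * toM n m (b.F.getD 0 []) +
    (toM n m (b.L.getD 1 []))ᵀ * toM n m (b.F.getD 2 []) +
    (toM n m (b.L.getD 2 []))ᵀ * toM n m (b.F.getD 4 []) +
    (toM n m (b.L.getD 3 []))ᵀ * toM n m (b.F.getD 6 []) = b.δ • (1 : Matrix (Fin m) (Fin m) ℤ)

theorem toM_diag_replicate (m : ℕ) (δ : ℤ) :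
    toM m m (diagL (List.replicate m δ)) = δ • (1 : Matrix (Fin m) (Fin m) ℤ) := by
  rw [toM_diagL (by simp)]
  ext i j
  rw [Matrix.diagonal_apply, Matrix.smul_apply, Matrix.one_apply]
  have hi := i.2
  rw [List.getD_eq_getElem _ _ (by simp)]
  split_ifs <;> simp

theorem bd_spec {n m : ℕ} (hn : n ≤ 1000) {b : BD} (h : chkBD n m b = true) :
    BDspec n m b := by
  unfold chkBD chkShape at h
  simp only [Bool.and_eq_true] at h
  obtain ⟨⟨⟨wA, wP, wW, wU⟩, ⟨wF, wS, wY, wL⟩, lg, wg, wd⟩, hrep, hinv, hch, hgr⟩ := h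
  have lg' : b.g.length = m := of_decide_eq_true lg
  have e0 : wf n n 1024 [] = true := by simp [wf]
  have e1 : wf n m 1024 [] = true := by simp [wf]
  have chain := chain_sound hn wA wF wS hch
  unfold chkGram at hgr
  simp only [Bool.and_eq_true] at hgr
  obtain ⟨hY, hG, hL, hS, hd⟩ := hgr
  have s0 : toM n m (b.S.getD 0 []) = 0 := of_decide_eq_true hS
  have hYs : ∀ l, l < 8 → toM n n b.W * toM n m (b.F.getD l []) = toM n m (b.Y.getD l []) := by
    intro l hl
    rw [List.all_eq_true] at hY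
    have := ma_sound' hn wW (wfs_spec wF l) e1 (wfs_spec wY l) (hY l (List.mem_range.2 hl))
    rwa [toM_nil, add_zero] at this
  have gram := chain.gram s0 (W := toM n n b.W) (Y := fun l => toM n m (b.Y.getD l [])) hYs
  have hG' := pair_sound' (K := n) (m := m) (m' := m) (ps := psG b) hn (by simp [psG])
    (by
      intro t ht
      simp only [psG, List.mem_cons, List.not_mem_nil, or_false] at ht
      rcases ht with rfl | rfl | rfl | rfl | rfl | rfl | rfl | rfl | rfl | rfl | rfl <;> simp)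
    (by
      intro t ht
      simp only [psG, List.mem_cons, List.not_mem_nil, or_false] at ht
      rcases ht with rfl | rfl | rfl | rfl | rfl | rfl | rfl | rfl | rfl | rfl | rfl <;>
        first
        | exact ⟨wfs_spec wF _, wfs_spec wY _⟩
        | exact ⟨wfs_spec wS _, wfs_spec wY _⟩)
    wg (of_decide_eq_true hG)
  have hL' := pair_sound' (K := n) (m := m) (m' := m) (ps := psL b) hn (by simp [psL])
    (by
      intro t ht
      simp only [psL, List.mem_cons, List.not_mem_nil, or_false] at ht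
      rcases ht with rfl | rfl | rfl | rfl <;> simp)
    (by
      intro t ht
      simp only [psL, List.mem_cons, List.not_mem_nil, or_false] at ht
      rcases ht with rfl | rfl | rfl | rfl <;> exact ⟨wfs_spec wL _, wfs_spec wF _⟩)
    wd (of_decide_eq_true hL)
  rw [toM_diagL lg', Matrix.diagonal_transpose] at hG'
  rw [toM_diag_replicate, Matrix.transpose_smul, Matrix.transpose_one] at hL'
  refine ⟨wA, rep_sound hn wA wP hrep, ?_, chain, s0, ?_, of_decide_eq_true hd, ?_⟩
  · intro j hj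
    unfold chkWinv at hinv
    rw [List.all_eq_true] at hinv
    have h1 := hinv j (List.mem_range.2 hj)
    rw [Bool.and_eq_true] at h1
    have h2 := ma_sound' hn wW (wfs_spec wA (2 * j)) e0 (wfs_spec wU j) h1.1
    rw [toM_nil, add_zero] at h2
    have h3 := pair_sound' (K := n) (m := n) (m' := n) (ps := psU b j) hn (by simp [psU])
      (by
        intro t ht
        simp only [psU, List.mem_cons, List.not_mem_nil, or_false] at ht
        rcases ht with rfl
        simp)
      (by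
        intro t ht
        simp only [psU, List.mem_cons, List.not_mem_nil, or_false] at ht
        rcases ht with rfl
        exact ⟨wfs_spec wU _, wfs_spec wA _⟩)
      wW (of_decide_eq_true h1.2)
    rw [h2]
    have h4 := congrArg Matrix.transpose h3
    rw [Matrix.transpose_transpose] at h4
    rw [← h4]
    simp only [psU, pairM, one_smul, add_zero, Matrix.transpose_mul, Matrix.transpose_transpose]
  · rw [gram, ← hG']
    simp only [psG, pairM, one_smul, neg_smul]
    abel
  · rw [← hL']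
    simp only [psL, pairM, one_smul]
    abel

/-- invariance of the form under the group -/
theorem omW_invariant {n m : ℕ} {b : BD} (hb : BDspec n m b)
    {Mh : Q →* (Matrix (Fin n) (Fin n) ℤ)ˣ}
    (hM : ∀ l, l < 8 → (Mh (ltr qS l) : Matrix (Fin n) (Fin n) ℤ) = toM n n (b.A.getD l []))
    (q : Q) (u v : Fin n → ℝ) :
    omW (toM n n b.W) (repOf Mh q u) (repOf Mh q v) = omW (toM n n b.W) u v := by
  have key : ∀ q : Q, (Mh q : Matrix (Fin n) (Fin n) ℤ)ᵀ * (toM n n b.W *
      (Mh q : Matrix (Fin n) (Fin n) ℤ)) = toM n n b.W := by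
    intro q
    refine Q_induction (P := fun q => (Mh q : Matrix (Fin n) (Fin n) ℤ)ᵀ * (toM n n b.W *
      (Mh q : Matrix (Fin n) (Fin n) ℤ)) = toM n n b.W) ?_ ?_ ?_ ?_ q
    · simp
    · intro j
      rcases Nat.lt_or_ge j 4 with hj | hj
      · have h1 := hM (2 * j) (by omega)
        rw [ltr_even] at h1
        rw [h1]
        exact hb.inv j hj
      · rw [qS_big hj]
        simp
    · intro a c ha hc
      rw [map_mul, Units.val_mul, Matrix.transpose_mul]
      calc (Mh c : Matrix (Fin n) (Fin n) ℤ)ᵀ * (Mh a : Matrix (Fin n) (Fin n) ℤ)ᵀ *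
            (toM n n b.W * ((Mh a : Matrix (Fin n) (Fin n) ℤ) * (Mh c : Matrix (Fin n) (Fin n) ℤ)))
          = (Mh c : Matrix (Fin n) (Fin n) ℤ)ᵀ * (((Mh a : Matrix (Fin n) (Fin n) ℤ)ᵀ *
            (toM n n b.W * (Mh a : Matrix (Fin n) (Fin n) ℤ))) *
              (Mh c : Matrix (Fin n) (Fin n) ℤ)) := by
            simp only [Matrix.mul_assoc]
        _ = toM n n b.W := by rw [ha, hc]
    · intro a ha
      rw [map_inv]
      have h1 : (Mh a : Matrix (Fin n) (Fin n) ℤ) * ((Mh a)⁻¹ : (Matrix (Fin n) (Fin n) ℤ)ˣ) = 1 :=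
        Units.mul_inv (Mh a)
      have h2 := congrArg Matrix.transpose h1
      rw [Matrix.transpose_mul, Matrix.transpose_one] at h2
      calc ((((Mh a)⁻¹ : (Matrix (Fin n) (Fin n) ℤ)ˣ) : Matrix (Fin n) (Fin n) ℤ))ᵀ *
            (toM n n b.W * ((Mh a)⁻¹ : (Matrix (Fin n) (Fin n) ℤ)ˣ))
          = ((((Mh a)⁻¹ : (Matrix (Fin n) (Fin n) ℤ)ˣ) : Matrix (Fin n) (Fin n) ℤ))ᵀ *
            (((Mh a : Matrix (Fin n) (Fin n) ℤ)ᵀ * (toM n n b.W *
              (Mh a : Matrix (Fin n) (Fin n) ℤ))) *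
                ((Mh a)⁻¹ : (Matrix (Fin n) (Fin n) ℤ)ˣ)) := by rw [ha]
        _ = (((((Mh a)⁻¹ : (Matrix (Fin n) (Fin n) ℤ)ˣ) : Matrix (Fin n) (Fin n) ℤ))ᵀ *
              (Mh a : Matrix (Fin n) (Fin n) ℤ)ᵀ) * (toM n n b.W *
                ((Mh a : Matrix (Fin n) (Fin n) ℤ) *
                  ((Mh a)⁻¹ : (Matrix (Fin n) (Fin n) ℤ)ˣ))) := by
            simp only [Matrix.mul_assoc]
        _ = toM n n b.W := by rw [h1, h2, Matrix.one_mul, Matrix.mul_one]
  rw [repOf_apply, repOf_apply, omW_mulVec, Matrix.mul_assoc, key, omW_apply]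

/-- the main consequence of a certificate -/
theorem bd_inertia {n m : ℕ} (hm : 0 < m) {b : BD} (hb : BDspec n m b)
    {Mh : Q →* (Matrix (Fin n) (Fin n) ℤ)ˣ}
    (hM : ∀ l, l < 8 → (Mh (ltr qS l) : Matrix (Fin n) (Fin n) ℤ) = toM n n (b.A.getD l []))
    (hdim : Module.finrank ℝ (Z1 (repOf Mh)) ≤ m) :
    HasInertia (cupForm (repOf Mh) (omW (toM n n b.W))) (Z1 (repOf Mh))
      (Fintype.card {i : Fin m // 0 < b.g.getD i 0})
      (Fintype.card {i : Fin m // b.g.getD i 0 < 0}) := by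
  refine block_inertia (A := fun l => toM n n (b.A.getD l []))
    (X := Xof (fun l => toM n m (b.F.getD l []))) hm ?_ (omW_invariant hb hM)
    (fun j hj => Xof_big hj) ?_ hb.gram
    (L := fun j => (toM n m (b.L.getD j []))ᵀ) hb.δ0 hb.lin hdim
  · intro l hl v
    rw [repOf_apply, hM l hl]
  · rw [hb.chain.w0, hb.s0]

theorem bd_dim4 {n m : ℕ} (h : m = 4 * n) (Mh : Q →* (Matrix (Fin n) (Fin n) ℤ)ˣ) :
    Module.finrank ℝ (Z1 (repOf Mh)) ≤ m := by
  rw [h]
  exact Z1_finrank_le

/-- lists for the dimension bound -/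
structure VD where
  F : List (List (List ℤ))
  S : List (List (List ℤ))
  δ : ℤ

/-- check for the dimension bound -/
def chkV (n : ℕ) (A : List (List (List ℤ))) (v : VD) : Bool :=
  (wfs n n v.F && wfs n n v.S) && (chkChain n A v.F v.S &&
    (decide (v.S.getD 0 [] = diagL (List.replicate n v.δ)) && decide (v.δ ≠ 0)))

theorem bd_dim3 {n m : ℕ} (h : m = 3 * n) (hn : n ≤ 1000) {b : BD} (hb : BDspec n m b) {v : VD}
    (hv : chkV n b.A v = true) {Mh : Q →* (Matrix (Fin n) (Fin n) ℤ)ˣ}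
    (hM : ∀ l, l < 8 → (Mh (ltr qS l) : Matrix (Fin n) (Fin n) ℤ) = toM n n (b.A.getD l [])) :
    Module.finrank ℝ (Z1 (repOf Mh)) ≤ m := by
  rw [h]
  unfold chkV at hv
  simp only [Bool.and_eq_true] at hv
  obtain ⟨⟨wF, wS⟩, hc, h0, hδ⟩ := hv
  have chain := chain_sound hn hb.hA wF wS hc
  refine Z1_finrank_le' (A := fun l => toM n n (b.A.getD l []))
    (V := Xof (fun l => toM n n (v.F.getD l []))) ?_ (fun j hj => Xof_big hj)
    (δ := v.δ) (of_decide_eq_true hδ) ?_
  · intro l hl w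
    rw [repOf_apply, hM l hl]
  · rw [chain.w0, of_decide_eq_true h0, toM_diag_replicate]

end Pool.Agent.H809
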