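import Pool.Agent.H809.Word

/-!
Fundamental groups of closed orientable surfaces.
-/

namespace Pool.Agent.H809

/-- the relator `∏ [x_i, y_i]`, where `x_i` is the generator `(i, false)` and `y_i` the
generator `(i, true)` -/
def surfaceRelator (g : ℕ) : FreeGroup (Fin g × Bool) :=
  (List.ofFn fun i : Fin g => FreeGroup.of (i, false) * FreeGroup.of (i, true) *
    (FreeGroup.of (i, false))⁻¹ * (FreeGroup.of (i, true))⁻¹).prod

/-- the fundamental group of the closed orientable surface of genus `g` -/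
abbrev SurfaceGroup (g : ℕ) : Type :=
  PresentedGroup ({surfaceRelator g} : Set (FreeGroup (Fin g × Bool)))

/-- the generator `x_i` -/
def xgen {g : ℕ} (i : Fin g) : SurfaceGroup g := PresentedGroup.of (i, false)

/-- the generator `y_i` -/
def ygen {g : ℕ} (i : Fin g) : SurfaceGroup g := PresentedGroup.of (i, true)

/-- the generators numbered by natural numbers: `x_i` has number `2 i`, `y_i` has number
`2 i + 1` -/
def sg (g : ℕ) (n : ℕ) : SurfaceGroup g :=
  if h : n / 2 < g then PresentedGroup.of (⟨n / 2, h⟩, !Nat.beq (n % 2) 0) else 1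

/-- the standard relator as a word -/
def stdRel : ℕ → List ℕ
  | 0 => []
  | n + 1 => stdRel n ++ [4 * n, 4 * n + 2, 4 * n + 1, 4 * n + 3]

theorem sg_x {g : ℕ} (i : Fin g) : sg g (2 * i) = xgen i := by
  unfold sg xgen
  have h1 : 2 * (i : ℕ) / 2 = i := by omega
  have h2 : 2 * (i : ℕ) % 2 = 0 := by omega
  rw [dif_pos (by rw [h1]; exact i.2)]
  congr 1
  rw [h2]
  exact Prod.ext (Fin.ext h1) rfl

theorem sg_y {g : ℕ} (i : Fin g) : sg g (2 * i + 1) = ygen i := by
  unfold sg ygen
  have h1 : (2 * (i : ℕ) + 1) / 2 = i := by omega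
  have h2 : (2 * (i : ℕ) + 1) % 2 = 1 := by omega
  rw [dif_pos (by rw [h1]; exact i.2)]
  congr 1
  rw [h2]
  exact Prod.ext (Fin.ext h1) rfl

theorem sg_big {g n : ℕ} (h : 2 * g ≤ n) : sg g n = 1 := by
  unfold sg
  rw [dif_neg (by omega)]

theorem ev_stdRel {G : Type*} [Group G] (s : ℕ → G) (g : ℕ) :
    ev s (stdRel g) = (List.ofFn fun i : Fin g =>
      s (2 * i) * s (2 * i + 1) * (s (2 * i))⁻¹ * (s (2 * i + 1))⁻¹).prod := by
  induction g with
  | zero => simp [stdRel]
  | succ n ih =>
    rw [List.ofFn_succ_last, List.prod_append]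
    unfold stdRel
    rw [ev_append, ih]
    congr 1
    have e1 : 4 * n = 2 * (2 * n) := by ring
    have e2 : 4 * n + 2 = 2 * (2 * n + 1) := by ring
    have e3 : 4 * n + 1 = 2 * (2 * n) + 1 := by ring
    have e4 : 4 * n + 3 = 2 * (2 * n + 1) + 1 := by ring
    rw [ev_cons, ev_cons, ev_cons, ev_cons, ev_nil, e4, e3, e2, e1, ltr_even, ltr_even,
      ltr_odd, ltr_odd]
    simp [mul_assoc]

theorem ev_sg_stdRel (g : ℕ) : ev (sg g) (stdRel g) = 1 := by
  rw [ev_stdRel]
  have h : (PresentedGroup.mk ({surfaceRelator g} : Set (FreeGroup (Fin g × Bool))))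
      (surfaceRelator g) = 1 :=
    PresentedGroup.one_of_mem (Set.mem_singleton _)
  rw [← h]
  unfold surfaceRelator
  rw [map_list_prod, List.map_ofFn]
  congr 2
  funext i
  rw [sg_x, sg_y]
  simp only [Function.comp_apply, map_mul, map_inv]
  rfl

/-- universal property of the surface group -/
theorem SurfaceGroup.exists_hom {G : Type*} [Group G] {g : ℕ} {s : ℕ → G}
    (h : ev s (stdRel g) = 1) :
    ∃ φ : SurfaceGroup g →* G, ∀ n, n < 2 * g → φ (sg g n) = s n := by
  let f : Fin g × Bool → G := fun p => s (2 * p.1 + (bif p.2 then 1 else 0))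
  have hf : ∀ r ∈ ({surfaceRelator g} : Set (FreeGroup (Fin g × Bool))),
      FreeGroup.lift f r = 1 := by
    intro r hr
    rw [Set.mem_singleton_iff.1 hr, ← h, ev_stdRel]
    unfold surfaceRelator
    rw [map_list_prod, List.map_ofFn]
    congr 2
    funext i
    simp [f]
  refine ⟨PresentedGroup.toGroup hf, fun n hn => ?_⟩
  unfold sg
  rw [dif_pos (by omega)]
  rw [PresentedGroup.toGroup.of]
  change s (2 * (n / 2) + bif !Nat.beq (n % 2) 0 then 1 else 0) = s n
  congr 1
  rcases Nat.mod_two_eq_zero_or_one n with h2 | h2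
  · rw [h2]
    change 2 * (n / 2) + 0 = n
    omega
  · rw [h2]
    change 2 * (n / 2) + 1 = n
    omega

theorem SurfaceGroup.hom_ext {G : Type*} [Group G] {g : ℕ} {φ ψ : SurfaceGroup g →* G}
    (h : ∀ n, n < 2 * g → φ (sg g n) = ψ (sg g n)) : φ = ψ := by
  apply PresentedGroup.ext
  rintro ⟨i, b⟩
  cases b with
  | false =>
    have h1 := h (2 * i) (by omega)
    rw [sg_x] at h1
    exact h1
  | true =>
    have h1 := h (2 * i + 1) (by omega)
    rw [sg_y] at h1
    exact h1

end Pool.Agent.H809
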