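import Pool.Agent.H809.PRep
import Pool.Agent.H809.Surface
import Pool.Agent.H809.Tables

/-!
Verifications by computation with words.
-/

namespace Pool.Agent.H809

/-- first relation: the letter `30` is the inverse of `mu` of the first copy -/
def R1 : List ℕ := 60 :: wMu

/-- second relation -/
def R2 : List ℕ := 62 :: (wV ++ 61 :: wU)

/-- third relation: the letter `31` is `mu` of the second copy -/
def R3 : List ℕ := 63 :: wMu2

/-- all letters of a word are smaller than `n` -/
def allLt (n : ℕ) (w : List ℕ) : Bool := w.all fun x => Nat.blt x n

/-- no letter `x` of the word satisfies `m ≤ x < n` -/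
def noneIn (m n : ℕ) (w : List ℕ) : Bool := w.all fun x => Nat.blt x m || Nat.ble n x

/-- expansion of the letters `30` and `31` -/
def tabM : List (List (List ℕ)) :=
  [[[0], [2], [4], [6], [8], [10], [12], [14]], [[16], [18], [20], [22], [24], [26], [28], [30]],
   [[32], [34], [36], [38], [40], [42], [44], [46]], [[48], [50], [52], [54], [56], [58],
    invW wMu, wMu2]]

/-- table of an automorphism or its inverse -/
def TX (l : ℕ) : List (List (List ℕ)) := tabsX.getD l []

/-- conjugating words for the relation `R2` -/
def cw (l : ℕ) : List ℕ :=
  bif Nat.beq (l % 2) 0 then tabK.getD (l / 2) [] else tabK'.getD (l / 2) []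

/-- recoding of the letters for the first copy -/
def rec1 : List (List (List ℕ)) := [[[0], [2], [4], [6], [61]]]

/-- recoding of the letters for the second copy -/
def rec2 : List (List (List ℕ)) := [[[52], [54], [56], [58], [62]]]

/-- check of the relations for the letters as elements of the surface group -/
def chkE : Bool :=
  eqW (sub tabE R1) [] && (eqW (sub tabE R3) [] &&
  eqW (sub tabE R2) (red (invW (sub tabE wU) ++ (stdRel 15 ++ sub tabE wU))))

/-- check for the universal property -/
def chkXY1 : Bool := eqW (sub tabXY (stdRel 15)) (red (wU ++ (wMu2 ++ (wV ++ wMu))))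

/-- check for the universal property -/
def chkXY2 : Bool :=
  (List.range 32).all fun i => allLt 60 (look tabE i) &&
    eqW (sub tabXY (look tabE i))
      (bif Nat.beq i 30 then invW wMu else bif Nat.beq i 31 then wMu2 else [2 * i])

/-- check for generation -/
def chkXY3 : Bool :=
  (List.range 30).all fun i => allLt 60 (look tabXY i) && eqW (sub tabE (look tabXY i)) [2 * i]

/-- an automorphism respects the relations -/
def chkR (l : ℕ) : Bool :=
  eqW (sub tabM (sub (TX l) R1)) [] && (eqW (sub tabM (sub (TX l) R3)) [] &&
  eqW (sub (TX l) R2) (red (invW (cw l) ++ (R2 ++ cw l))))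

/-- two tables are inverse to each other -/
def chkInv (l m : ℕ) : Bool :=
  (List.range 32).all fun i => eqW (sub (TX l) (look (TX m) i)) [2 * i]

/-- compatibility with the tables `TD` -/
def chkRec : Bool :=
  (List.range 4).all fun j => (List.range 5).all fun i =>
    (allLt 10 (look (TD (2 * j)) i) &&
    (eqW (sub rec2 (look (TD (2 * j)) i))
      (red (tabK.getD j [] ++ ((look (TX (2 * j)) (bif Nat.beq i 4 then 31 else 26 + i)) ++
        invW (tabK.getD j [])))))) &&
    (bif Nat.beq i 4 then eqW (look (TX (2 * j)) 30) [60] else
      eqW (sub rec1 (look (TD (2 * j)) i)) (look (TX (2 * j)) i))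

/-- letters occurring in the tables -/
def chkSup : Bool :=
  ((List.range 4).all fun j => (List.range 32).all fun i =>
    (Nat.blt i 4 || noneIn 0 8 (look (TX (2 * j)) i)) &&
    ((Nat.ble 26 i && Nat.blt i 30) || noneIn 52 60 (look (TX (2 * j)) i))) &&
  ((noneIn 0 8 R2 && noneIn 0 8 R3) && (noneIn 52 60 R1 && noneIn 52 60 R2) &&
    ((List.range 4).all fun j => noneIn 0 8 (tabK.getD j []) && noneIn 52 60 (tabK.getD j [])))

/-- the surface relation on the first generators -/
def chkS1 : Bool :=
  (List.range 4).all fun i =>
    eqW (sub tabM (act TX wMu [2 * i])) (sub tabM [60, 60, 2 * i, 61, 61])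

/-- the surface relation on the generator `i` -/
def chkS2 (i : ℕ) : Bool := eqW (act TX wMu [2 * i]) [60, 60, 2 * i, 61, 61]

/-- pairs of words for the second boundary component -/
def tK (j : ℕ) : List ℕ × List ℕ := (tabK.getD j [], [2 * j])

/-- the word of the second boundary component -/
def wM2 : List ℕ := wV ++ 61 :: wU

/-- the check at the second boundary component -/
def chkK : Bool :=
  eqW (red ((subP TX tK wMu).1 ++ [60, 60])) (red (wM2 ++ wM2)) &&
    eqW (subP TX tK wMu).2 wMu

/-- the surface relation in terms of the tables `TD` -/
def chkS3 : Bool :=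
  (List.range 5).all fun i =>
    eqW (sub tabEx (act TD wMu [2 * i])) (sub tabEx [9, 9, 2 * i, 8, 8])

theorem chkE_true : chkE = true := by decide +kernel
theorem chkXY1_true : chkXY1 = true := by decide +kernel
theorem chkXY2_true : chkXY2 = true := by decide +kernel
theorem chkXY3_true : chkXY3 = true := by decide +kernel
theorem chkRec_true : chkRec = true := by decide +kernel
theorem chkSup_true : chkSup = true := by decide +kernel
theorem chkS3_true : chkS3 = true := by decide +kernel

end Pool.Agent.H809
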