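import Mathlib

/-!
Inertia of a bilinear form.
-/

namespace Pool.Agent.H809

/-- The form `B` on the real vector space `Z` has `p` positive and `q` negative squares: there
is a basis of `Z`, orthogonal with respect to `B` (on both sides), with exactly `p` vectors of
positive square and `q` vectors of negative square. -/
def HasInertia {M : Type} [AddCommGroup M] [Module ℝ M] (B : M → M → ℝ) (Z : Submodule ℝ M)
    (p q : ℕ) : Prop :=
  ∃ (ι : Type) (_ : Fintype ι) (b : Module.Basis ι ℝ Z),
    (∀ i j, i ≠ j → B (b i) (b j) = 0) ∧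
    Nat.card {i // 0 < B (b i) (b i)} = p ∧ Nat.card {i // B (b i) (b i) < 0} = q

theorem HasInertia.pi {κ : Type} [Fintype κ] [DecidableEq κ] {M : Type} [AddCommGroup M]
    [Module ℝ M] {M' : κ → Type} [∀ k, AddCommGroup (M' k)] [∀ k, Module ℝ (M' k)]
    {B : M → M → ℝ} {Z : Submodule ℝ M} {B' : ∀ k, M' k → M' k → ℝ}
    {Z' : ∀ k, Submodule ℝ (M' k)} {p q : κ → ℕ}
    (h : ∀ k, HasInertia (B' k) (Z' k) (p k) (q k))
    (hl : ∀ k x, B' k 0 x = 0) (hr : ∀ k x, B' k x 0 = 0)
    (e : Z ≃ₗ[ℝ] ∀ k, Z' k) (c : ℝ) (hc : 0 < c) (w : κ → ℝ) (hw : ∀ k, 0 < w k)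
    (hB : ∀ x y : Z, c * B x y = ∑ k, w k * B' k (e x k) (e y k)) :
    HasInertia B Z (∑ k, p k) (∑ k, q k) := by
  choose ι hι b hb hp hq using h
  have key : ∀ s t : (Σ k, ι k),
      c * B (((Pi.basis b).map e.symm) s) (((Pi.basis b).map e.symm) t) =
        if h : s.1 = t.1 then w t.1 * B' t.1 (b t.1 (h ▸ s.2)) (b t.1 t.2) else 0 := by
    rintro ⟨k, i⟩ ⟨l, j⟩
    rw [hB]
    simp only [Module.Basis.map_apply, LinearEquiv.apply_symm_apply, Pi.basis_apply]
    split_ifs with hkl
    · obtain rfl : k = l := hkl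
      rw [Finset.sum_eq_single k]
      · simp
      · intro m _ hm
        rw [Pi.single_eq_of_ne hm, Pi.single_eq_of_ne hm]
        simp [hl]
      · intro hk
        exact absurd (Finset.mem_univ k) hk
    · apply Finset.sum_eq_zero
      intro m _
      by_cases hm : m = k
      · subst hm
        have : (Pi.single l (b l j) : ∀ k, Z' k) m = 0 := Pi.single_eq_of_ne hkl _
        rw [this]
        simp [hr]
      · have : (Pi.single k (b k i) : ∀ k, Z' k) m = 0 := Pi.single_eq_of_ne hm _
        rw [this]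
        simp [hl]
  have hpos : ∀ s : (Σ k, ι k),
      0 < B (((Pi.basis b).map e.symm) s) (((Pi.basis b).map e.symm) s) ↔
        0 < B' s.1 (b s.1 s.2) (b s.1 s.2) := by
    intro s
    have h1 := key s s
    rw [dif_pos rfl] at h1
    constructor
    · intro h2
      have h3 : 0 < w s.1 * B' s.1 (b s.1 s.2) (b s.1 s.2) := by
        rw [← h1]; exact mul_pos hc h2
      exact (mul_pos_iff_of_pos_left (hw s.1)).1 h3
    · intro h2
      have h3 : 0 < c * B (((Pi.basis b).map e.symm) s) (((Pi.basis b).map e.symm) s) := by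
        rw [h1]; exact mul_pos (hw s.1) h2
      exact (mul_pos_iff_of_pos_left hc).1 h3
  have hneg : ∀ s : (Σ k, ι k),
      B (((Pi.basis b).map e.symm) s) (((Pi.basis b).map e.symm) s) < 0 ↔
        B' s.1 (b s.1 s.2) (b s.1 s.2) < 0 := by
    intro s
    have h1 := key s s
    rw [dif_pos rfl] at h1
    constructor
    · intro h2
      have h3 : w s.1 * B' s.1 (b s.1 s.2) (b s.1 s.2) < 0 := by
        rw [← h1]; exact mul_neg_of_pos_of_neg hc h2
      by_contra hcon
      have h4 := mul_nonneg (hw s.1).le (not_lt.1 hcon)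
      linarith
    · intro h2
      have h3 : c * B (((Pi.basis b).map e.symm) s) (((Pi.basis b).map e.symm) s) < 0 := by
        rw [h1]; exact mul_neg_of_pos_of_neg (hw s.1) h2
      by_contra hcon
      have h4 := mul_nonneg hc.le (not_lt.1 hcon)
      linarith
  refine ⟨Σ k, ι k, inferInstance, (Pi.basis b).map e.symm, ?_, ?_, ?_⟩
  · rintro ⟨k, i⟩ ⟨l, j⟩ hne
    have h1 := key ⟨k, i⟩ ⟨l, j⟩
    have h2 : c * B (((Pi.basis b).map e.symm) ⟨k, i⟩) (((Pi.basis b).map e.symm) ⟨l, j⟩) = 0 := by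
      rw [h1]
      split_ifs with hkl
      · obtain rfl : k = l := hkl
        have hij : i ≠ j := fun hij => hne (by rw [hij])
        change w k * B' k (b k i) (b k j) = 0
        rw [hb k i j hij, mul_zero]
      · rfl
    exact (mul_eq_zero.1 h2).resolve_left hc.ne'
  · have e1 : {s : (Σ k, ι k) //
        0 < B (((Pi.basis b).map e.symm) s) (((Pi.basis b).map e.symm) s)} ≃
        Σ k, {i : ι k // 0 < B' k (b k i) (b k i)} :=
      (Equiv.subtypeEquivRight hpos).trans
        { toFun := fun s => ⟨s.1.1, ⟨s.1.2, s.2⟩⟩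
          invFun := fun s => ⟨⟨s.1, s.2.1⟩, s.2.2⟩
          left_inv := fun _ => rfl
          right_inv := fun _ => rfl }
    rw [Nat.card_congr e1, Nat.card_sigma]
    exact Finset.sum_congr rfl fun k _ => hp k
  · have e1 : {s : (Σ k, ι k) //
        B (((Pi.basis b).map e.symm) s) (((Pi.basis b).map e.symm) s) < 0} ≃
        Σ k, {i : ι k // B' k (b k i) (b k i) < 0} :=
      (Equiv.subtypeEquivRight hneg).trans
        { toFun := fun s => ⟨s.1.1, ⟨s.1.2, s.2⟩⟩
          invFun := fun s => ⟨⟨s.1, s.2.1⟩, s.2.2⟩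
          left_inv := fun _ => rfl
          right_inv := fun _ => rfl }
    rw [Nat.card_congr e1, Nat.card_sigma]
    exact Finset.sum_congr rfl fun k _ => hq k

end Pool.Agent.H809
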