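import Pool.Agent.H809.Surface
import Pool.Agent.H809.Inertia

/-!
First cohomology of a surface group with coefficients in a representation, and the cup product
form.
-/

namespace Pool.Agent.H809

/-- `∑ c(p l₁ ⋯ l_{k-1}, l_k)` for the list `l₁, l₂, ...` -/
def barSum {Q : Type} [Group Q] (c : Q → Q → ℝ) : Q → List Q → ℝ
  | _, [] => 0
  | p, l :: ls => c p l + barSum c (p * l) ls

/-- the letters `x₁, y₁, x₁⁻¹, y₁⁻¹, x₂, ...` of the relator -/
def relLetters (h : ℕ) : List (SurfaceGroup h) :=
  (List.ofFn fun i : Fin h => [xgen i, ygen i, (xgen i)⁻¹, (ygen i)⁻¹]).flatten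

/-- evaluation of a normalised 2-cocycle `c` of the surface group on the fundamental class
`∑ [l₁ ⋯ l_{k-1} | l_k] - ∑ ([x_i | x_i⁻¹] + [y_i | y_i⁻¹])` of the surface -/
def evalFund {h : ℕ} (c : SurfaceGroup h → SurfaceGroup h → ℝ) : ℝ :=
  barSum c 1 (relLetters h) - ∑ i : Fin h, (c (xgen i) (xgen i)⁻¹ + c (ygen i) (ygen i)⁻¹)

section

variable {V : Type} [AddCommGroup V] [Module ℝ V] {h : ℕ}

/-- crossed homomorphisms from the surface group to the representation `σ` -/
def Z1 (σ : SurfaceGroup h →* Module.End ℝ V) : Submodule ℝ (SurfaceGroup h → V) where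
  carrier := {f | ∀ s t, f (s * t) = f s + σ s (f t)}
  add_mem' := by
    intro a b ha hb s t
    simp only [Pi.add_apply, map_add]
    rw [ha s t, hb s t]
    abel
  zero_mem' := by
    intro s t
    simp
  smul_mem' := by
    intro c f hf s t
    simp only [Pi.smul_apply, map_smul]
    rw [hf s t, smul_add]

/-- the cup product of two crossed homomorphisms, combined with the form `ω` on the
coefficients and evaluated on the fundamental class -/
def cupForm (σ : SurfaceGroup h →* Module.End ℝ V) (ω : V →ₗ[ℝ] V →ₗ[ℝ] ℝ)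
    (f f' : SurfaceGroup h → V) : ℝ :=
  evalFund fun s t => ω (f s) (σ s (f' t))

end

/-- the first cohomology `H¹(Σ_g; ℝ)` -/
abbrev H1 (g : ℕ) : Type := Additive (SurfaceGroup g) →+ ℝ

/-- the cup product form on `H¹(Σ_g; ℝ)` -/
def h1Cup (g : ℕ) : H1 g →ₗ[ℝ] H1 g →ₗ[ℝ] ℝ :=
  LinearMap.mk₂ ℝ
    (fun u v => ∑ i : Fin g,
      (u (Additive.ofMul (xgen i)) * v (Additive.ofMul (ygen i)) -
        u (Additive.ofMul (ygen i)) * v (Additive.ofMul (xgen i))))
    (by
      intro a b c
      rw [← Finset.sum_add_distrib]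
      exact Finset.sum_congr rfl fun i _ => by simp only [AddMonoidHom.add_apply]; ring)
    (by
      intro a b c
      rw [Finset.smul_sum]
      exact Finset.sum_congr rfl fun i _ => by
        simp only [AddMonoidHom.smul_apply, smul_eq_mul]; ring)
    (by
      intro a b c
      rw [← Finset.sum_add_distrib]
      exact Finset.sum_congr rfl fun i _ => by simp only [AddMonoidHom.add_apply]; ring)
    (by
      intro a b c
      rw [Finset.smul_sum]
      exact Finset.sum_congr rfl fun i _ => by
        simp only [AddMonoidHom.smul_apply, smul_eq_mul]; ring)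

/-- the action of automorphisms of the surface group on `H¹(Σ_g; ℝ)`, `(α u)(n) = u(α⁻¹ n)` -/
def h1Act (g : ℕ) : MulAut (SurfaceGroup g) →* Module.End ℝ (H1 g) where
  toFun α :=
    { toFun := fun u => u.comp (MonoidHom.toAdditive (α⁻¹ : MulAut (SurfaceGroup g)).toMonoidHom)
      map_add' := fun _ _ => rfl
      map_smul' := fun _ _ => rfl }
  map_one' := rfl
  map_mul' := fun _ _ => rfl

theorem h1Act_apply {g : ℕ} (α : MulAut (SurfaceGroup g)) (u : H1 g) (n : SurfaceGroup g) :
    h1Act g α u (Additive.ofMul n) = u (Additive.ofMul (α⁻¹ n)) := rfl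

end Pool.Agent.H809
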