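import Pool.Agent.H809.Aut

/-!
The monodromy homomorphism, the fundamental group of the total space, and its automorphisms.
-/

namespace Pool.Agent.H809

/-- the fundamental group of the base -/
abbrev Q : Type := SurfaceGroup 2

/-- recoding of the generators of the base -/
def recQ : List (List (List ℕ)) := [[[0], [3], [4], [7]]]

/-- the generators of the base -/
def qS (j : ℕ) : Q := ev (sg 2) (look recQ j)

theorem recQ_big {i : ℕ} (h : 4 ≤ i) : look recQ i = [2 * i] :=
  look_ge_short (n := 4) (le_refl _) (le_refl _) h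

theorem qS_rel : ev qS wMu = 1 := by
  have h1 : ev qS wMu = ev (sg 2) (sub recQ wMu) := (ev_sub _ _ _).symm
  have h2 : sub recQ wMu = stdRel 2 := by decide +kernel
  rw [h1, h2, ev_sg_stdRel]

theorem qS_big {j : ℕ} (h : 4 ≤ j) : qS j = 1 := by
  unfold qS
  rw [recQ_big h, ev_single, sg_big (by omega)]

theorem sg_eq_qS (n : ℕ) : sg 2 n = ev qS (look recQ n) := by
  have h1 : ev qS (look recQ n) = ev (sg 2) (sub recQ (look recQ n)) := (ev_sub _ _ _).symm
  rw [h1]
  rcases Nat.lt_or_ge n 4 with h | h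
  · have h2 : sub recQ (look recQ n) = [2 * n] := by
      interval_cases n <;> rfl
    rw [h2, ev_single]
  · rw [recQ_big h]
    have h2 : ev (sg 2) (sub recQ [2 * n]) = ev (fun i => ev (sg 2) (look recQ i)) [2 * n] :=
      ev_sub _ _ _
    rw [h2, ev_single, recQ_big h, ev_single]

theorem exists_homQ {G : Type*} [Group G] {q : ℕ → G} (hbig : ∀ j, 4 ≤ j → q j = 1)
    (h : ev q wMu = 1) : ∃ φ : Q →* G, ∀ j, φ (qS j) = q j := by
  have hs : ev (fun n => ev q (look recQ n)) (stdRel 2) = 1 := by
    have h2 : sub recQ (stdRel 2) = wMu := by decide +kernel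
    rw [← ev_sub, h2, h]
  obtain ⟨φ, hφ⟩ := SurfaceGroup.exists_hom hs
  refine ⟨φ, fun j => ?_⟩
  rcases Nat.lt_or_ge j 4 with hj | hj
  · unfold qS
    rw [map_ev]
    have h3 : ev (fun i => φ (sg 2 i)) (look recQ j)
        = ev (fun n => ev q (look recQ n)) (look recQ j) := by
      apply ev_congr
      intro x hx
      apply hφ
      have h4 : allLt 8 (look recQ j) = true := by interval_cases j <;> rfl
      have := allLt_spec h4 x hx
      omega
    rw [h3, ← ev_sub]
    have h2 : sub recQ (look recQ j) = [2 * j] := by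
      interval_cases j <;> rfl
    rw [h2, ev_single]
  · rw [qS_big hj, hbig j hj, map_one]

theorem homQ_ext {G : Type*} [Group G] {φ ψ : Q →* G} (h : ∀ j, j < 4 → φ (qS j) = ψ (qS j)) :
    φ = ψ := by
  apply SurfaceGroup.hom_ext
  intro n hn
  rw [sg_eq_qS, map_ev, map_ev]
  apply ev_congr
  intro x hx
  apply h
  have h4 : allLt 8 (look recQ n) = true := by
    have : n < 4 := by omega
    interval_cases n <;> rfl
  have := allLt_spec h4 x hx
  omega

theorem qA_big {j : ℕ} (h : 4 ≤ j) : qA j = 1 := by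
  unfold qA qP
  rw [dl_big h, List.getD_eq_default _ _ h, ev_nil, mul_one]

/-- the monodromy -/
noncomputable def rho : Q →* MulAut K :=
  (exists_homQ (fun _ h => qA_big h) qA_rel).choose

theorem rho_qS (j : ℕ) : rho (qS j) = qA j :=
  (exists_homQ (fun _ h => qA_big h) qA_rel).choose_spec j

/-- the fundamental group of the total space -/
abbrev Gam : Type := K ⋊[rho] Q

/-- the letters in `Gam` -/
noncomputable def gG (i : ℕ) : Gam := SemidirectProduct.inl (gX i)

/-- the letters `q` in `Gam` -/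
noncomputable def qG (j : ℕ) : Gam := SemidirectProduct.inr (qS j)

/-- the letters `d` in `Gam` -/
noncomputable def dG (j : ℕ) : Gam := (ev (A1 gG) (tabFs.getD j []))⁻¹ * qG j

theorem A1_map {G H : Type*} [Group G] [Group H] (g : ℕ → G) (φ : G →* H) :
    A1 (fun i => φ (g i)) = fun i => φ (A1 g i) := by
  funext i
  unfold A1
  split_ifs <;> simp

theorem A2_map {G H : Type*} [Group G] [Group H] (g : ℕ → G) (φ : G →* H) :
    A2 (fun i => φ (g i)) = fun i => φ (A2 g i) := by
  funext i
  unfold A2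
  split_ifs <;> simp

theorem qA_apply (j : ℕ) (x : K) :
    qA j x = ev (A1 gX) (tabFs.getD j []) * dl j x * (ev (A1 gX) (tabFs.getD j []))⁻¹ := by
  unfold qA qP
  have h := A1_map gX (MulAut.conj : K →* MulAut K)
  rw [h, ← map_ev]
  rfl

theorem gam_conj (q : Q) (x : K) :
    (SemidirectProduct.inr q : Gam) * SemidirectProduct.inl x * (SemidirectProduct.inr q)⁻¹ =
      SemidirectProduct.inl (rho q x) := by
  rw [← map_inv]
  exact (SemidirectProduct.inl_aut (φ := rho) q x).symm

theorem ev_A1_gG (w : List ℕ) : ev (A1 gG) w = SemidirectProduct.inl (ev (A1 gX) w) := by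
  have h : A1 gG = fun i => (SemidirectProduct.inl : K →* Gam) (A1 gX i) :=
    A1_map gX (SemidirectProduct.inl : K →* Gam)
  rw [h, ← map_ev]

theorem dG_conj (j : ℕ) (x : K) :
    dG j * SemidirectProduct.inl x * (dG j)⁻¹ = SemidirectProduct.inl (dl j x) := by
  unfold dG qG
  rw [ev_A1_gG]
  have h1 := gam_conj (qS j) x
  rw [rho_qS, qA_apply] at h1
  calc (SemidirectProduct.inl (ev (A1 gX) (tabFs.getD j [])) : Gam)⁻¹ *
        SemidirectProduct.inr (qS j) * SemidirectProduct.inl x *
        ((SemidirectProduct.inl (ev (A1 gX) (tabFs.getD j [])) : Gam)⁻¹ *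
          SemidirectProduct.inr (qS j))⁻¹
      = (SemidirectProduct.inl (ev (A1 gX) (tabFs.getD j [])) : Gam)⁻¹ *
        (SemidirectProduct.inr (qS j) * SemidirectProduct.inl x *
          (SemidirectProduct.inr (qS j))⁻¹) *
        (SemidirectProduct.inl (ev (A1 gX) (tabFs.getD j [])) : Gam) := by group
    _ = SemidirectProduct.inl (dl j x) := by
        rw [h1]
        simp only [map_mul, map_inv]
        group

theorem gG_repX : RepX gG dG := by
  refine ⟨⟨fun i hi => ?_, ?_, ?_, ?_⟩, fun j hj => ?_, fun j hj i _ => ?_⟩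
  · unfold gG
    rw [gX_rels.big i hi, map_one]
  · unfold gG
    rw [← map_ev, gX_rels.r1, map_one]
  · unfold gG
    rw [← map_ev, gX_rels.r2, map_one]
  · unfold gG
    rw [← map_ev, gX_rels.r3, map_one]
  · unfold dG qG
    rw [List.getD_eq_default _ _ hj, qS_big hj, ev_nil, map_one]
    simp
  · unfold gG
    rw [dG_conj, dl_gX hj, map_ev]

theorem qP_dG : qP (A1 gG) dG = qG := by
  funext j
  unfold qP dG
  group

theorem gG_rep : RepXs gG dG := by
  refine ⟨gG_repX, ?_⟩
  have h := gG_repX.prep1.section_eq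
  rw [qP_dG] at h
  have h1 : ev qG wMu = 1 := by
    unfold qG
    rw [← map_ev, qS_rel, map_one]
  rw [h1] at h
  have h2 : A1 gG 4 = (gG 30)⁻¹ := rfl
  rw [h2] at h
  calc ev dG wMu = gG 30 * gG 30 * ((gG 30)⁻¹ * (gG 30)⁻¹ * ev dG wMu) := by group
    _ = gG 30 * gG 30 := by rw [← h, mul_one]

section

variable {G : Type*} [Group G] {Y D : ℕ → G}

theorem compat_gen {φ : K →* G} (h : RepXs Y D) (hφ : ∀ i, φ (gX i) = Y i) {j : ℕ} (hj : j < 4)
    (k : K) : φ (qA j k) = qP (A1 Y) D j * φ k * (qP (A1 Y) D j)⁻¹ := by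
  have h1 : φ.comp (dl j).toMonoidHom = (MulAut.conj (D j)).toMonoidHom.comp φ := by
    apply homX_ext
    intro i hi
    change φ (dl j (gX i)) = D j * φ (gX i) * (D j)⁻¹
    rw [dl_gX hj, map_ev, hφ i, h.rel j hj i (by omega)]
    congr 1
    funext i
    exact hφ i
  have h2 : φ (dl j k) = D j * φ k * (D j)⁻¹ := DFunLike.congr_fun h1 k
  have h3 : φ (ev (A1 gX) (tabFs.getD j [])) = ev (A1 Y) (tabFs.getD j []) := by
    rw [map_ev, ← A1_map]
    congr 2
    funext i
    exact hφ i
  rw [qA_apply, map_mul, map_mul, map_inv, h2, h3]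
  unfold qP
  group

/-- universal property of `Gam` -/
theorem exists_homG (h : RepXs Y D) :
    ∃ φ : Gam →* G, (∀ i, φ (gG i) = Y i) ∧ ∀ j, φ (dG j) = D j := by
  obtain ⟨φ, hφ⟩ := exists_homX h.toRels
  have hb : ∀ j, 4 ≤ j → qP (A1 Y) D j = 1 := by
    intro j hj
    unfold qP
    rw [h.dbig j hj, List.getD_eq_default _ _ hj, ev_nil, mul_one]
  obtain ⟨ψ, hψ⟩ := exists_homQ hb h.prep1.section_rel
  let P : Subgroup Q :=
    { carrier := {q | ∀ k, φ (rho q k) = ψ q * φ k * (ψ q)⁻¹}
      mul_mem' := by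
        intro a b ha hb k
        rw [map_mul, map_mul, MulAut.mul_apply, ha, hb]
        group
      one_mem' := by
        intro k
        simp
      inv_mem' := by
        intro a ha k
        have h1 := ha ((rho a)⁻¹ k)
        rw [MulAut.apply_inv_self] at h1
        rw [map_inv, map_inv, h1]
        group }
  have hq : ∀ j, qS j ∈ P := by
    intro j
    rcases Nat.lt_or_ge j 4 with hj | hj
    · intro k
      rw [rho_qS, hψ, compat_gen h hφ hj]
    · rw [qS_big hj]
      exact P.one_mem
  have hev : ∀ w : List ℕ, ev qS w ∈ P := by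
    intro w
    induction w with
    | nil => exact P.one_mem
    | cons x w ih =>
      rw [ev_cons]
      refine P.mul_mem ?_ ih
      unfold ltr
      split_ifs
      · exact hq _
      · exact P.inv_mem (hq _)
  have hP : ∀ q : Q, q ∈ P := by
    have h1 : (⊤ : Subgroup Q) ≤ P := by
      rw [← PresentedGroup.closure_range_of]
      rw [Subgroup.closure_le]
      rintro _ ⟨⟨i, b⟩, rfl⟩
      cases b with
      | false =>
        change xgen i ∈ P
        rw [← sg_x, sg_eq_qS]
        exact hev _
      | true =>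
        change ygen i ∈ P
        rw [← sg_y, sg_eq_qS]
        exact hev _
    intro q
    exact h1 (Subgroup.mem_top q)
  refine ⟨SemidirectProduct.lift φ ψ ?_, fun i => ?_, fun j => ?_⟩
  · intro q
    exact MonoidHom.ext fun k => hP q k
  · unfold gG
    rw [SemidirectProduct.lift_inl, hφ]
  · unfold dG qG
    rw [map_mul, map_inv, ev_A1_gG, SemidirectProduct.lift_inl, SemidirectProduct.lift_inr, hψ]
    have h3 : φ (ev (A1 gX) (tabFs.getD j [])) = ev (A1 Y) (tabFs.getD j []) := by
      rw [map_ev, ← A1_map]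
      congr 2
      funext i
      exact hφ i
    rw [h3]
    unfold qP
    group

theorem homG_ext {φ ψ : Gam →* G} (h1 : ∀ i, i < 32 → φ (gG i) = ψ (gG i))
    (h2 : ∀ j, j < 4 → φ (dG j) = ψ (dG j)) : φ = ψ := by
  have h3 : φ.comp SemidirectProduct.inl = ψ.comp SemidirectProduct.inl :=
    homX_ext fun i hi => h1 i (by omega)
  apply SemidirectProduct.hom_ext h3
  apply homQ_ext
  intro j hj
  have h4 : qG j = ev (A1 gG) (tabFs.getD j []) * dG j := by
    unfold dG
    group
  change φ (qG j) = ψ (qG j)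
  rw [h4, map_mul, map_mul, h2 j hj, ev_A1_gG]
  congr 1
  exact DFunLike.congr_fun h3 _

end

end Pool.Agent.H809
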