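import Pool.Agent.H809.Coh
import Pool.Agent.H809.Gamma

/-!
Crossed homomorphisms of the surface group of genus two in terms of their values on generators.
-/

namespace Pool.Agent.H809

section

variable {V : Type} [AddCommGroup V] [Module ℝ V]

/-- value on a letter of the crossed homomorphism with values `x j` on the generators -/
def Fl (σ : Q →* Module.End ℝ V) (x : ℕ → V) (l : ℕ) : V :=
  if l % 2 = 0 then x (l / 2) else - σ (qS (l / 2))⁻¹ (x (l / 2))

/-- value on a word of the crossed homomorphism with values `x j` on the generators -/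
def wv (σ : Q →* Module.End ℝ V) (x : ℕ → V) : List ℕ → V
  | [] => 0
  | l :: w => Fl σ x l + σ (ltr qS l) (wv σ x w)

variable {σ : Q →* Module.End ℝ V}

theorem Z1_mul {f : Q → V} (hf : f ∈ Z1 σ) (s t : Q) : f (s * t) = f s + σ s (f t) := hf s t

theorem Z1_one {f : Q → V} (hf : f ∈ Z1 σ) : f 1 = 0 := by
  have h := hf 1 1
  rw [one_mul, map_one, Module.End.one_apply] at h
  simpa using h

theorem σ_inv_apply (q : Q) (v : V) : σ q (σ q⁻¹ v) = v := by
  rw [← Module.End.mul_apply, ← map_mul, mul_inv_cancel, map_one, Module.End.one_apply]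

theorem σ_inv_apply' (q : Q) (v : V) : σ q⁻¹ (σ q v) = v := by
  rw [← Module.End.mul_apply, ← map_mul, inv_mul_cancel, map_one, Module.End.one_apply]

theorem Z1_inv {f : Q → V} (hf : f ∈ Z1 σ) (s : Q) : f s⁻¹ = - σ s⁻¹ (f s) := by
  have h := hf s⁻¹ s
  rw [inv_mul_cancel, Z1_one hf] at h
  exact eq_neg_of_add_eq_zero_left h.symm

theorem Z1_letter {f : Q → V} (hf : f ∈ Z1 σ) (l : ℕ) :
    f (ltr qS l) = Fl σ (fun j => f (qS j)) l := by
  unfold ltr Fl
  split_ifs
  · rfl
  · exact Z1_inv hf _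

theorem Z1_word {f : Q → V} (hf : f ∈ Z1 σ) (w : List ℕ) :
    f (ev qS w) = wv σ (fun j => f (qS j)) w := by
  induction w with
  | nil => exact Z1_one hf
  | cons l w ih =>
    rw [ev_cons, Z1_mul hf, ih, Z1_letter hf]
    rfl

/-- induction on elements of the base group -/
theorem Q_induction {P : Q → Prop} (h1 : P 1) (hq : ∀ j, P (qS j))
    (hm : ∀ a b, P a → P b → P (a * b)) (hi : ∀ a, P a → P a⁻¹) (q : Q) : P q := by
  let S : Subgroup Q :=
    { carrier := {q | P q}
      mul_mem' := fun {a b} ha hb => hm a b ha hb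
      one_mem' := h1
      inv_mem' := fun {a} ha => hi a ha }
  have hev : ∀ w : List ℕ, ev qS w ∈ S := by
    intro w
    induction w with
    | nil => exact S.one_mem
    | cons x w ih =>
      rw [ev_cons]
      refine S.mul_mem ?_ ih
      unfold ltr
      split_ifs
      · exact hq _
      · exact S.inv_mem (hq _)
  have hP : (⊤ : Subgroup Q) ≤ S := by
    rw [← PresentedGroup.closure_range_of, Subgroup.closure_le]
    rintro _ ⟨⟨i, b⟩, rfl⟩
    cases b with
    | false =>
      change xgen i ∈ S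
      rw [← sg_x, sg_eq_qS]
      exact hev _
    | true =>
      change ygen i ∈ S
      rw [← sg_y, sg_eq_qS]
      exact hev _
  exact hP (Subgroup.mem_top q)

theorem Z1_ext {f f' : Q → V} (hf : f ∈ Z1 σ) (hf' : f' ∈ Z1 σ)
    (h : ∀ j, j < 4 → f (qS j) = f' (qS j)) : f = f' := by
  funext q
  refine Q_induction (P := fun q => f q = f' q) ?_ ?_ ?_ ?_ q
  · rw [Z1_one hf, Z1_one hf']
  · intro j
    rcases Nat.lt_or_ge j 4 with hj | hj
    · exact h j hj
    · rw [qS_big hj, Z1_one hf, Z1_one hf']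
  · intro a b ha hb
    rw [Z1_mul hf, Z1_mul hf', ha, hb]
  · intro a ha
    rw [Z1_inv hf, Z1_inv hf', ha]

/-- the action on the coefficients as automorphisms of a multiplicative group -/
def phiV (σ : Q →* Module.End ℝ V) : Q →* MulAut (Multiplicative V) where
  toFun q :=
    { toFun := fun v => Multiplicative.ofAdd (σ q (Multiplicative.toAdd v))
      invFun := fun v => Multiplicative.ofAdd (σ q⁻¹ (Multiplicative.toAdd v))
      left_inv := fun v => by simp
      right_inv := fun v => by simp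
      map_mul' := fun v w => by simp }
  map_one' := by
    ext v
    simp
  map_mul' q r := by
    ext v
    simp

theorem Z1_exists {x : ℕ → V} (hx : ∀ j, 4 ≤ j → x j = 0) (h : wv σ x wMu = 0) :
    ∃ f ∈ Z1 σ, ∀ j, f (qS j) = x j := by
  let s : ℕ → Multiplicative V ⋊[phiV σ] Q := fun j => ⟨Multiplicative.ofAdd (x j), qS j⟩
  have hl : ∀ l, ltr s l = ⟨Multiplicative.ofAdd (Fl σ x l), ltr qS l⟩ := by
    intro l
    unfold ltr Fl
    split_ifs
    · rfl
    · apply SemidirectProduct.ext
      · simp only [SemidirectProduct.inv_left, s]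
        rw [← ofAdd_neg]
        simp [phiV]
      · rfl
  have hev : ∀ w, ev s w = ⟨Multiplicative.ofAdd (wv σ x w), ev qS w⟩ := by
    intro w
    induction w with
    | nil => rfl
    | cons l w ih =>
      rw [ev_cons, ih, hl, ev_cons]
      apply SemidirectProduct.ext
      · rfl
      · rfl
  have hrel : ev s wMu = 1 := by
    rw [hev, h, qS_rel]
    rfl
  have hbig : ∀ j, 4 ≤ j → s j = 1 := by
    intro j hj
    simp only [s]
    rw [hx j hj, qS_big hj]
    rfl
  obtain ⟨ψ, hψ⟩ := exists_homQ hbig hrel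
  have hright : ∀ q, (ψ q).right = q := by
    have h1 : (SemidirectProduct.rightHom : Multiplicative V ⋊[phiV σ] Q →* Q).comp ψ =
        MonoidHom.id Q := by
      apply homQ_ext
      intro j _
      rw [MonoidHom.comp_apply, hψ]
      rfl
    intro q
    exact DFunLike.congr_fun h1 q
  refine ⟨fun q => Multiplicative.toAdd (ψ q).left, ?_, ?_⟩
  · intro a b
    change Multiplicative.toAdd (ψ (a * b)).left = _
    rw [map_mul, SemidirectProduct.mul_left, hright]
    rfl
  · intro j
    change Multiplicative.toAdd (ψ (qS j)).left = _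
    rw [hψ]
    rfl

/-- sum over the suffixes of a word -/
def sufW (σ : Q →* Module.End ℝ V) (ω : V →ₗ[ℝ] V →ₗ[ℝ] ℝ) (x x' : ℕ → V) : List ℕ → ℝ
  | [] => 0
  | l :: w => ω (wv σ x (l :: w)) (Fl σ x' l) + sufW σ ω x x' w

variable {ω : V →ₗ[ℝ] V →ₗ[ℝ] ℝ}

theorem barSum_suf (hω : ∀ q u v, ω (σ q u) (σ q v) = ω u v) {f f' : Q → V}
    (hf : f ∈ Z1 σ) (hf' : f' ∈ Z1 σ) (L : List ℕ) (p : Q) (hp : p * ev qS L = 1) :
    barSum (fun s t => ω (f s) (σ s (f' t))) p (L.map (ltr qS)) =
      - sufW σ ω (fun j => f (qS j)) (fun j => f' (qS j)) L := by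
  induction L generalizing p with
  | nil => simp [barSum, sufW]
  | cons l w ih =>
    rw [List.map_cons]
    change ω (f p) (σ p (f' (ltr qS l))) + barSum _ (p * ltr qS l) (w.map (ltr qS)) =
      - (ω (wv σ (fun j => f (qS j)) (l :: w)) (Fl σ (fun j => f' (qS j)) l) +
        sufW σ ω (fun j => f (qS j)) (fun j => f' (qS j)) w)
    have h1 : p * ltr qS l * ev qS w = 1 := by
      rw [mul_assoc, ← ev_cons, hp]
    rw [ih _ h1, ← Z1_word hf, ← Z1_letter hf']
    have h2 : f p = - σ p (f (ev qS (l :: w))) := by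
      have h3 := Z1_mul hf p (ev qS (l :: w))
      rw [hp, Z1_one hf] at h3
      exact eq_neg_of_add_eq_zero_left h3.symm
    rw [h2, map_neg, LinearMap.neg_apply, hω]
    ring

theorem relLetters_two : relLetters 2 = wMu.map (ltr qS) := by
  have h0 : qS 0 = xgen 0 := by
    have := sg_x (g := 2) 0
    change ev (sg 2) [2 * 0] = _
    rw [ev_single]
    exact this
  have h1 : qS 1 = (ygen 0)⁻¹ := by
    have := sg_y (g := 2) 0
    change ev (sg 2) [2 * 1 + 1] = _
    rw [ev_cons, ltr_odd, ev_nil, mul_one]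
    exact congrArg _ this
  have h2 : qS 2 = xgen 1 := by
    have := sg_x (g := 2) 1
    change ev (sg 2) [2 * 2] = _
    rw [ev_single]
    exact this
  have h3 : qS 3 = (ygen 1)⁻¹ := by
    have := sg_y (g := 2) 1
    change ev (sg 2) [2 * 3 + 1] = _
    rw [ev_cons, ltr_odd, ev_nil, mul_one]
    exact congrArg _ this
  have e : wMu.map (ltr qS) = [qS 0, (qS 1)⁻¹, (qS 0)⁻¹, qS 1, qS 2, (qS 3)⁻¹, (qS 2)⁻¹, qS 3] :=
    rfl
  rw [e, h0, h1, h2, h3]
  simp [relLetters, List.ofFn_succ]

theorem cupForm_eq (hω : ∀ q u v, ω (σ q u) (σ q v) = ω u v) {f f' : Q → V}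
    (hf : f ∈ Z1 σ) (hf' : f' ∈ Z1 σ) {x x' : ℕ → V} (hx : ∀ j, f (qS j) = x j)
    (hx' : ∀ j, f' (qS j) = x' j) :
    cupForm σ ω f f' =
      ω (Fl σ x 0) (Fl σ x' 0) + ω (Fl σ x 3) (Fl σ x' 3) + ω (Fl σ x 4) (Fl σ x' 4) +
        ω (Fl σ x 7) (Fl σ x' 7) - sufW σ ω x x' wMu := by
  obtain rfl : (fun j => f (qS j)) = x := funext hx
  obtain rfl : (fun j => f' (qS j)) = x' := funext hx'
  have hc : ∀ s : Q, ω (f s) (σ s (f' s⁻¹)) = - ω (f s) (f' s) := by
    intro s
    rw [Z1_inv hf', map_neg, σ_inv_apply, map_neg]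
  unfold cupForm evalFund
  rw [relLetters_two, barSum_suf hω hf hf' wMu 1 (by rw [one_mul, qS_rel])]
  simp only [hc]
  have e0 : xgen 0 = ltr qS 0 := by
    have := congrArg (fun L : List Q => L.getD 0 1) relLetters_two
    simpa [relLetters, List.ofFn_succ, wMu] using this
  have e1 : ygen 0 = ltr qS 3 := by
    have := congrArg (fun L : List Q => L.getD 1 1) relLetters_two
    simpa [relLetters, List.ofFn_succ, wMu] using this
  have e2 : xgen 1 = ltr qS 4 := by
    have := congrArg (fun L : List Q => L.getD 4 1) relLetters_two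
    simpa [relLetters, List.ofFn_succ, wMu] using this
  have e3 : ygen 1 = ltr qS 7 := by
    have := congrArg (fun L : List Q => L.getD 5 1) relLetters_two
    simpa [relLetters, List.ofFn_succ, wMu] using this
  rw [Fin.sum_univ_two, e0, e1, e2, e3, Z1_letter hf, Z1_letter hf, Z1_letter hf, Z1_letter hf,
    Z1_letter hf', Z1_letter hf', Z1_letter hf', Z1_letter hf']
  ring

end

end Pool.Agent.H809
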