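import Pool.Agent.H809.DecChk
import Pool.Agent.H809.Coh
import Pool.Agent.H809.Gamma

/-!
Coordinates on the first cohomology of the surface of genus fifteen.
-/

namespace Pool.Agent.H809

open Matrix

/-- value of a word in a commutative group -/
theorem toAdd_ev (f : ℕ → ℝ) (w : List ℕ) (hw : ∀ x ∈ w, x < 60 ∨ f (x / 2) = 0) :
    Multiplicative.toAdd (ev (fun i => Multiplicative.ofAdd (f i)) w) =
      ∑ k : Fin 30, (expo k w : ℝ) * f k := by
  induction w with
  | nil => simp [expo]
  | cons x w ih =>
    rw [ev_cons, toAdd_mul, ih fun y hy => hw y (List.mem_cons_of_mem _ hy)]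
    have h1 : ∑ k : Fin 30, (expo k (x :: w) : ℝ) * f k =
        ∑ k : Fin 30, (((bif Nat.beq (x / 2) k then
          (bif Nat.beq (x % 2) 0 then 1 else -1) else 0 : ℤ) : ℝ) * f k) +
        ∑ k : Fin 30, (expo k w : ℝ) * f k := by
      rw [← Finset.sum_add_distrib]
      apply Finset.sum_congr rfl
      intro k _
      have e : expo k (x :: w) = (bif Nat.beq (x / 2) k then
          (bif Nat.beq (x % 2) 0 then 1 else -1) else 0) + expo k w := rfl
      rw [e, Int.cast_add, add_mul]
    rw [h1]
    congr 1
    have h2 : ∀ k : Fin 30, (((bif Nat.beq (x / 2) k then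
          (bif Nat.beq (x % 2) 0 then 1 else -1) else 0 : ℤ) : ℝ) * f k) =
        if x / 2 = k then (if x % 2 = 0 then f (x / 2) else - f (x / 2)) else 0 := by
      intro k
      by_cases h : x / 2 = k
      · rw [if_pos h, ← h]
        have e1 : Nat.beq (x / 2) (x / 2) = true := Nat.beq_refl _
        rw [e1, cond_true]
        split_ifs with h3
        · rw [h3]
          simp
        · have e2 : Nat.beq (x % 2) 0 = false := by rw [← Bool.not_eq_true, Nat.beq_eq]; exact h3
          rw [e2, cond_false]
          simp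
      · have e1 : Nat.beq (x / 2) k = false := by rw [← Bool.not_eq_true, Nat.beq_eq]; exact h
        rw [e1, cond_false, if_neg h]
        simp
    rw [Finset.sum_congr rfl fun k _ => h2 k]
    have h4 : Multiplicative.toAdd (ltr (fun i => Multiplicative.ofAdd (f i)) x) =
        if x % 2 = 0 then f (x / 2) else - f (x / 2) := by
      unfold ltr
      split_ifs
      · rfl
      · rfl
    rw [h4]
    rcases Nat.lt_or_ge (x / 2) 30 with h5 | h5
    · rw [Finset.sum_eq_single (⟨x / 2, h5⟩ : Fin 30)]
      · rw [if_pos rfl]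
      · intro k _ hk
        rw [if_neg]
        intro h6
        exact hk (Fin.ext h6.symm)
      · intro h
        exact absurd (Finset.mem_univ _) h
    · rw [Finset.sum_eq_zero]
      · rcases hw x List.mem_cons_self with h6 | h6
        · omega
        · rw [h6]
          simp
      · intro k _
        rw [if_neg]
        have := k.2
        omega

/-- a class as a homomorphism -/
def homOf (u : H1 15) : K →* Multiplicative ℝ where
  toFun n := Multiplicative.ofAdd (u (Additive.ofMul n))
  map_one' := by
    rw [ofMul_one, map_zero]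
    rfl
  map_mul' a b := by
    rw [ofMul_mul, map_add]
    rfl

theorem val_ev' (u : H1 15) (w : List ℕ)
    (hw : ∀ x ∈ w, x < 60 ∨ u (Additive.ofMul (gX (x / 2))) = 0) :
    u (Additive.ofMul (ev gX w)) =
      ∑ k : Fin 30, (expo k w : ℝ) * u (Additive.ofMul (gX k)) := by
  have h := map_ev gX (homOf u) w
  rw [← toAdd_ev (fun i => u (Additive.ofMul (gX i))) w hw]
  exact congrArg Multiplicative.toAdd h

theorem expo_wMu (m : ℕ) : expo m wMu = 0 := by
  unfold wMu
  simp only [expo, Nat.reduceDiv, Nat.reduceMod]
  generalize Nat.beq 0 m = a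
  generalize Nat.beq 1 m = b
  generalize Nat.beq 2 m = c
  generalize Nat.beq 3 m = d
  cases a <;> cases b <;> cases c <;> cases d <;> rfl

theorem val_30 (u : H1 15) : u (Additive.ofMul (gX 30)) = 0 := by
  have h := val_ev' u wMu (by
    intro x hx
    left
    have := allLt_spec (n := 60) (w := wMu) (by decide) x hx
    exact this)
  rw [gX_rels.mu, ofMul_inv, map_neg] at h
  simp only [expo_wMu] at h
  simpa using h

theorem expo_wMu2 {m : ℕ} (hm : m < 30) : expo m wMu2 = 0 := by
  have h := expo_mu2
  rw [List.all_eq_true] at h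
  exact of_decide_eq_true (h m (List.mem_range.2 hm))

theorem val_31 (u : H1 15) : u (Additive.ofMul (gX 31)) = 0 := by
  have h := val_ev' u wMu2 (by
    intro x hx
    left
    exact allLt_spec wMu2_lt x hx)
  rw [gX_rels.mu2] at h
  rw [h]
  apply Finset.sum_eq_zero
  intro k _
  rw [expo_wMu2 k.2]
  simp

theorem val_big (u : H1 15) {i : ℕ} (hi : 30 ≤ i) : u (Additive.ofMul (gX i)) = 0 := by
  rcases Nat.lt_or_ge i 32 with h | h
  · have h2 : i = 30 ∨ i = 31 := by omega
    rcases h2 with rfl | rfl
    · exact val_30 u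
    · exact val_31 u
  · rw [gX_rels.big i h, ofMul_one, map_zero]

theorem val_ev (u : H1 15) (w : List ℕ) :
    u (Additive.ofMul (ev gX w)) =
      ∑ k : Fin 30, (expo k w : ℝ) * u (Additive.ofMul (gX k)) := by
  apply val_ev'
  intro x _
  rcases Nat.lt_or_ge x 60 with h | h
  · exact Or.inl h
  · exact Or.inr (val_big u (by omega))

/-- the coordinates -/
def uX : H1 15 →ₗ[ℝ] (Fin 30 → ℝ) where
  toFun u := fun k => u (Additive.ofMul (gX k))
  map_add' _ _ := rfl
  map_smul' _ _ := rfl

theorem uX_apply (u : H1 15) (k : Fin 30) : uX u k = u (Additive.ofMul (gX k)) := rfl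

theorem uX_injective : Function.Injective uX := by
  intro u v h
  have h1 : homOf u = homOf v := by
    apply homX_ext
    intro i hi
    exact congrArg Multiplicative.ofAdd (congrFun h ⟨i, hi⟩)
  apply AddMonoidHom.ext
  intro x
  exact congrArg Multiplicative.toAdd (DFunLike.congr_fun h1 (Additive.toMul x))

theorem uX_surjective : Function.Surjective uX := by
  intro c
  let f : ℕ → ℝ := fun i => if h : i < 30 then c ⟨i, h⟩ else 0
  have hf : ∀ i, 30 ≤ i → f i = 0 := fun i hi => dif_neg (by omega)
  have hev : ∀ w, Multiplicative.toAdd (ev (fun i => Multiplicative.ofAdd (f i)) w) =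
      ∑ k : Fin 30, (expo k w : ℝ) * f k := by
    intro w
    apply toAdd_ev
    intro x _
    rcases Nat.lt_or_ge x 60 with h | h
    · exact Or.inl h
    · exact Or.inr (hf _ (by omega))
  have h60 : Multiplicative.ofAdd (f 30) = 1 := by rw [hf 30 (le_refl _)]; rfl
  have h62 : Multiplicative.ofAdd (f 31) = 1 := by rw [hf 31 (by norm_num)]; rfl
  have hmu : ev (fun i => Multiplicative.ofAdd (f i)) wMu = 1 := by
    apply Multiplicative.toAdd.injective
    rw [hev]
    simp [expo_wMu]
  have hmu2 : ev (fun i => Multiplicative.ofAdd (f i)) wMu2 = 1 := by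
    apply Multiplicative.toAdd.injective
    rw [hev, toAdd_one]
    apply Finset.sum_eq_zero
    intro k _
    rw [expo_wMu2 k.2]
    simp
  have hrel : Rels (fun i => Multiplicative.ofAdd (f i)) := by
    refine ⟨fun i hi => ?_, ?_, ?_, ?_⟩
    · rw [hf i (by omega)]
      rfl
    · unfold R1
      rw [ev_cons, show (60 : ℕ) = 2 * 30 from rfl, ltr_even, h60, hmu, one_mul]
    · unfold R2
      rw [ev_cons, show (62 : ℕ) = 2 * 31 from rfl, ltr_even, h62, one_mul, ev_append, ev_cons,
        show (61 : ℕ) = 2 * 30 + 1 from rfl, ltr_odd, h60, inv_one, one_mul, ← ev_append]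
      apply Multiplicative.toAdd.injective
      rw [hev, toAdd_one]
      apply Finset.sum_eq_zero
      intro k _
      have h := expo_UV
      rw [List.all_eq_true] at h
      rw [of_decide_eq_true (h k (List.mem_range.2 k.2))]
      simp
    · unfold R3
      rw [ev_cons, show (63 : ℕ) = 2 * 31 + 1 from rfl, ltr_odd, h62, hmu2]
      simp
  obtain ⟨φ, hφ⟩ := exists_homX hrel
  refine ⟨{ toFun := fun n => Multiplicative.toAdd (φ (Additive.toMul n))
            map_zero' := by rw [toMul_zero, map_one]; rfl
            map_add' := fun a b => by rw [toMul_add, map_mul]; rfl }, ?_⟩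
  funext k
  change Multiplicative.toAdd (φ (gX k)) = c k
  rw [hφ]
  change f k = c k
  exact dif_pos k.2

/-- the coordinates as an equivalence -/
noncomputable def uXe : H1 15 ≃ₗ[ℝ] (Fin 30 → ℝ) :=
  LinearEquiv.ofBijective uX ⟨uX_injective, uX_surjective⟩

end Pool.Agent.H809
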