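import Pool.Agent.H809.BlockV
import Pool.Agent.H809.BlockS
import Pool.Agent.H809.DecData
import Pool.Agent.H809.Checks

/-!
Checks for the decomposition of the first cohomology.
-/

namespace Pool.Agent.H809

/-- exponent of a generator in a word -/
def expo (m : ℕ) : List ℕ → ℤ
  | [] => 0
  | x :: w => (bif Nat.beq (x / 2) m then (bif Nat.beq (x % 2) 0 then 1 else -1) else 0) + expo m w

/-- block sizes -/
def nB : ℕ → ℕ
  | 0 => 12
  | _ + 1 => 2

/-- block offsets -/
def oB : ℕ → ℕ
  | 0 => 0
  | b + 1 => oB b + nB b

/-- dimensions of the spaces of crossed homomorphisms -/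
def mB : ℕ → ℕ
  | 0 => 36
  | 7 => 6
  | 8 => 6
  | 9 => 6
  | _ => 8

/-- the certificates -/
def bD : ℕ → BD
  | 0 => bV
  | 7 => bE
  | 8 => bF
  | 9 => bG
  | _ => bT

/-- the weights -/
def wB : ℕ → ℤ
  | 0 => 4
  | 1 => 8
  | 2 => 8
  | 3 => 8
  | 4 => 8
  | 5 => 4
  | _ => 1

/-- rows of a block -/
def slc (b : ℕ) (M : List (List ℤ)) : List (List ℤ) := (M.drop (oB b)).take (nB b)

/-- the weighted form of a block -/
def wW (b : ℕ) : List (List ℤ) := (bD b).W.map fun r => r.map fun x => wB b * x

/-- check that a table of exponents is correct -/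
def chkExpo (T : ℕ → List ℕ) (E : List (List ℤ)) : Bool :=
  (List.range 30).all fun k => (List.range 30).all fun m =>
    decide (expo m (T k) = (E.getD k []).getD m 0)

/-- check of the block actions -/
def chkAct : Bool :=
  (List.range 10).all fun b => (List.range 4).all fun j =>
    chkMA Xb (nB b) ((bD b).A.getD (2 * j) []) (slc b tS30) [] (slc b (tDT.getD j [])) &&
    chkMA Xb (nB b) (slc b tS30) (tE.getD j []) [] (slc b (tDT.getD j []))

/-- shapes -/
def chkShp : Bool :=
  (List.range 10).all (fun b => wf (nB b) 30 1024 (slc b tS30) &&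
    (wf (nB b) (nB b) 1024 (wW b) && (wf (nB b) 30 1024 (slc b tWS) &&
    ((List.range 4).all fun j => wf (nB b) 30 1024 (slc b (tDT.getD j [])))))) &&
  (wf 30 30 1024 tS30 && (wf 30 30 1024 tR30 && (wf 30 30 1024 tXE && (wf 30 30 1024 tWS &&
    ((List.range 4).all fun j => wf 30 30 1024 (tE.getD j []))))))

/-- the matrix `8 J XE` -/
def tJX : List (List ℤ) :=
  (List.range 30).map fun n => bif Nat.beq (n % 2) 0 then
    (tXE.getD (n + 1) []).map fun x => 8 * x else (tXE.getD (n - 1) []).map fun x => -8 * x

/-- check of the forms -/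
def chkForm : Bool :=
  (List.range 10).all (fun b =>
    chkMA Xb (nB b) (wW b) (slc b tS30) [] (slc b tWS)) &&
  (wf 30 30 1024 tJX &&
  (decide (pairV Xb (Xb ^ 30) [(1, tXE, tJX), (-1, tS30, tWS)] = 0) &&
  (wf 30 30 1024 (diagL (List.replicate 30 tδ)) &&
  chkMA Xb 30 tR30 tS30 [] (diagL (List.replicate 30 tδ)))))

theorem chkAct_true : chkAct = true := by decide +kernel

theorem chkShp_true : chkShp = true := by decide +kernel

theorem chkForm_true : chkForm = true := by decide +kernel

set_option maxRecDepth 100000 in
theorem chkExpoXE_true : chkExpo (look tabXY) tXE = true := by decide +kernel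

set_option maxRecDepth 100000 in
theorem chkExpo0_true : chkExpo (look (TX 1)) tE0 = true := by decide +kernel

set_option maxRecDepth 100000 in
theorem chkExpo1_true : chkExpo (look (TX 3)) tE1 = true := by decide +kernel

set_option maxRecDepth 100000 in
theorem chkExpo2_true : chkExpo (look (TX 5)) tE2 = true := by decide +kernel

set_option maxRecDepth 100000 in
theorem chkExpo3_true : chkExpo (look (TX 7)) tE3 = true := by decide +kernel

set_option maxRecDepth 100000 in
theorem expo_mu2 : ((List.range 30).all fun m => decide (expo m wMu2 = 0)) = true := by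
  decide +kernel

set_option maxRecDepth 100000 in
theorem expo_UV : ((List.range 30).all fun m => decide (expo m (wV ++ wU) = 0)) = true := by
  decide +kernel

theorem wMu2_lt : allLt 60 wMu2 = true := by decide +kernel

end Pool.Agent.H809
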