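import Pool.Agent.H809.Coh

/-!
Decomposition of the coefficients of the cup product form.
-/

namespace Pool.Agent.H809

theorem barSum_sum {Q : Type} [Group Q] {κ : Type} (s : Finset κ) (w : κ → ℝ)
    (c : κ → Q → Q → ℝ) (L : List Q) (p : Q) :
    barSum (fun a b => ∑ k ∈ s, w k * c k a b) p L = ∑ k ∈ s, w k * barSum (c k) p L := by
  induction L generalizing p with
  | nil => simp [barSum]
  | cons l L ih =>
    unfold barSum
    rw [ih, ← Finset.sum_add_distrib]
    exact Finset.sum_congr rfl fun k _ => by ring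

theorem evalFund_sum {h : ℕ} {κ : Type} (s : Finset κ) (w : κ → ℝ)
    (c : κ → SurfaceGroup h → SurfaceGroup h → ℝ) :
    evalFund (fun a b => ∑ k ∈ s, w k * c k a b) = ∑ k ∈ s, w k * evalFund (c k) := by
  unfold evalFund
  rw [barSum_sum]
  simp only [← Finset.sum_add_distrib, ← mul_add]
  rw [Finset.sum_comm, ← Finset.sum_sub_distrib]
  apply Finset.sum_congr rfl
  intro k _
  rw [mul_sub, Finset.mul_sum]

theorem evalFund_smul {h : ℕ} (w : ℝ) (c : SurfaceGroup h → SurfaceGroup h → ℝ) :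
    evalFund (fun a b => w * c a b) = w * evalFund c := by
  have := evalFund_sum (κ := Unit) Finset.univ (fun _ => w) (fun _ => c)
  simpa using this

theorem evalFund_zero {h : ℕ} : evalFund (fun _ _ : SurfaceGroup h => (0 : ℝ)) = 0 := by
  have := evalFund_smul (h := h) 0 (fun _ _ => 0)
  simpa using this

section

variable {h : ℕ} {V : Type} [AddCommGroup V] [Module ℝ V] {κ : Type}
  {V' : κ → Type} [∀ k, AddCommGroup (V' k)] [∀ k, Module ℝ (V' k)]
  {σ : SurfaceGroup h →* Module.End ℝ V} {σ' : ∀ k, SurfaceGroup h →* Module.End ℝ (V' k)}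

theorem cupForm_zero_left (ω : V →ₗ[ℝ] V →ₗ[ℝ] ℝ) (f : SurfaceGroup h → V) :
    cupForm σ ω 0 f = 0 := by
  unfold cupForm
  simp only [Pi.zero_apply, map_zero, LinearMap.zero_apply]
  exact evalFund_zero

theorem cupForm_zero_right (ω : V →ₗ[ℝ] V →ₗ[ℝ] ℝ) (f : SurfaceGroup h → V) :
    cupForm σ ω f 0 = 0 := by
  unfold cupForm
  simp only [Pi.zero_apply, map_zero]
  exact evalFund_zero

/-- crossed homomorphisms with values in a direct sum -/
def Z1equiv (Φ : V ≃ₗ[ℝ] ∀ k, V' k) (hΦ : ∀ q v k, Φ (σ q v) k = σ' k q (Φ v k)) :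
    Z1 σ ≃ₗ[ℝ] ∀ k, Z1 (σ' k) where
  toFun f := fun k => ⟨fun q => Φ ((f : SurfaceGroup h → V) q) k, by
    intro s t
    change Φ ((f : SurfaceGroup h → V) (s * t)) k = _
    rw [f.2 s t, map_add, Pi.add_apply, hΦ]⟩
  invFun F := ⟨fun q => Φ.symm fun k => (F k : SurfaceGroup h → V' k) q, by
    intro s t
    change Φ.symm _ = Φ.symm _ + σ s (Φ.symm _)
    rw [LinearEquiv.symm_apply_eq, map_add, LinearEquiv.apply_symm_apply]
    funext k
    rw [Pi.add_apply, hΦ, LinearEquiv.apply_symm_apply]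
    exact (F k).2 s t⟩
  left_inv f := by
    apply Subtype.ext
    funext q
    exact Φ.symm_apply_apply _
  right_inv F := by
    funext k
    apply Subtype.ext
    funext q
    change Φ (Φ.symm fun k => (F k : SurfaceGroup h → V' k) q) k = _
    rw [LinearEquiv.apply_symm_apply]
  map_add' f f' := by
    funext k
    apply Subtype.ext
    funext q
    change Φ ((f : SurfaceGroup h → V) q + (f' : SurfaceGroup h → V) q) k = _
    rw [map_add]
    rfl
  map_smul' c f := by
    funext k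
    apply Subtype.ext
    funext q
    change Φ (c • (f : SurfaceGroup h → V) q) k = _
    rw [map_smul]
    rfl

theorem HasInertia.split [Fintype κ] [DecidableEq κ] (Φ : V ≃ₗ[ℝ] ∀ k, V' k)
    (hΦ : ∀ q v k, Φ (σ q v) k = σ' k q (Φ v k))
    {ω : V →ₗ[ℝ] V →ₗ[ℝ] ℝ} {ω' : ∀ k, V' k →ₗ[ℝ] V' k →ₗ[ℝ] ℝ} {c : ℝ} (hc : 0 < c)
    {w : κ → ℝ} (hw : ∀ k, 0 < w k)
    (hω : ∀ u v, c * ω u v = ∑ k, w k * ω' k (Φ u k) (Φ v k))
    {p q : κ → ℕ} (h : ∀ k, HasInertia (cupForm (σ' k) (ω' k)) (Z1 (σ' k)) (p k) (q k)) :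
    HasInertia (cupForm σ ω) (Z1 σ) (∑ k, p k) (∑ k, q k) := by
  refine HasInertia.pi (B' := fun k => cupForm (σ' k) (ω' k)) h
    (fun k x => cupForm_zero_left _ _) (fun k x => cupForm_zero_right _ _) (Z1equiv Φ hΦ) c hc w hw
    ?_
  intro x y
  unfold cupForm
  rw [← evalFund_smul, ← evalFund_sum]
  congr 1
  funext s t
  rw [hω]
  apply Finset.sum_congr rfl
  intro k _
  rw [hΦ]
  rfl

end

end Pool.Agent.H809
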