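import Pool.Agent.H809.Coord
import Pool.Agent.H809.Split

/-!
Decomposition of the first cohomology of the surface of genus fifteen.
-/

namespace Pool.Agent.H809

open Matrix

/-- the map to the coordinates of a block -/
noncomputable def PhiB (b : ℕ) : H1 15 →ₗ[ℝ] (Fin (nB b) → ℝ) :=
  (Matrix.toLin' (cR (toM (nB b) 30 (slc b tS30)))).comp uX

theorem PhiB_apply (b : ℕ) (u : H1 15) :
    PhiB b u = cR (toM (nB b) 30 (slc b tS30)) *ᵥ uX u := rfl

theorem nB_le (b : ℕ) : nB b ≤ 1000 := by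
  cases b with
  | zero => exact (by norm_num : (12 : ℕ) ≤ 1000)
  | succ b => exact (by norm_num : (2 : ℕ) ≤ 1000)

theorem bD_chk {b : ℕ} (hb : b < 10) : chkBD (nB b) (mB b) (bD b) = true := by
  interval_cases b
  · exact bV_ok
  · exact bT_ok
  · exact bT_ok
  · exact bT_ok
  · exact bT_ok
  · exact bT_ok
  · exact bT_ok
  · exact bE_ok
  · exact bF_ok
  · exact bG_ok

theorem bD_spec {b : ℕ} (hb : b < 10) : BDspec (nB b) (mB b) (bD b) :=
  bd_spec (nB_le b) (bD_chk hb)

/-- the representations on the blocks -/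
noncomputable def MhB (b : Fin 10) : Q →* (Matrix (Fin (nB b)) (Fin (nB b)) ℤ)ˣ :=
  ((bD_spec b.2).rep.exists_hom).choose

theorem MhB_spec (b : Fin 10) (l : ℕ) (hl : l < 8) :
    (MhB b (ltr qS l) : Matrix (Fin (nB b)) (Fin (nB b)) ℤ) =
      toM (nB b) (nB b) ((bD b).A.getD l []) :=
  ((bD_spec b.2).rep.exists_hom).choose_spec l hl

/-- the action on the first cohomology of the fibre -/
noncomputable def sH : Q →* Module.End ℝ (H1 15) := (h1Act 15).comp rho

theorem shp_block {b : ℕ} (hb : b < 10) :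
    wf (nB b) 30 1024 (slc b tS30) = true ∧ wf (nB b) (nB b) 1024 (wW b) = true ∧
    wf (nB b) 30 1024 (slc b tWS) = true ∧
    ∀ j, j < 4 → wf (nB b) 30 1024 (slc b (tDT.getD j [])) = true := by
  have h := chkShp_true
  unfold chkShp at h
  rw [Bool.and_eq_true, List.all_eq_true] at h
  have h1 := h.1 b (List.mem_range.2 hb)
  simp only [Bool.and_eq_true, List.all_eq_true] at h1
  exact ⟨h1.1, h1.2.1, h1.2.2.1, fun j hj => h1.2.2.2 j (List.mem_range.2 hj)⟩

theorem shp_glob : wf 30 30 1024 tS30 = true ∧ wf 30 30 1024 tR30 = true ∧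
    wf 30 30 1024 tXE = true ∧ wf 30 30 1024 tWS = true ∧
    ∀ j, j < 4 → wf 30 30 1024 (tE.getD j []) = true := by
  have h := chkShp_true
  unfold chkShp at h
  rw [Bool.and_eq_true] at h
  have h1 := h.2
  simp only [Bool.and_eq_true, List.all_eq_true] at h1
  exact ⟨h1.1, h1.2.1, h1.2.2.1, h1.2.2.2.1, fun j hj => h1.2.2.2.2 j (List.mem_range.2 hj)⟩

theorem act_mat {b j : ℕ} (hb : b < 10) (hj : j < 4) :
    toM (nB b) (nB b) ((bD b).A.getD (2 * j) []) * toM (nB b) 30 (slc b tS30) =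
      toM (nB b) 30 (slc b tS30) * toM 30 30 (tE.getD j []) := by
  have h := chkAct_true
  unfold chkAct at h
  rw [List.all_eq_true] at h
  have h1 := h b (List.mem_range.2 hb)
  rw [List.all_eq_true] at h1
  have h2 := h1 j (List.mem_range.2 hj)
  rw [Bool.and_eq_true] at h2
  obtain ⟨s1, -, -, s4⟩ := shp_block hb
  have e0 : wf (nB b) 30 1024 [] = true := by simp [wf]
  have h3 := ma_sound' (nB_le b) (wfs_spec (bD_spec hb).hA (2 * j)) s1 e0 (s4 j hj) h2.1
  have h4 := ma_sound' (by norm_num : 30 ≤ 1000) s1 (shp_glob.2.2.2.2 j hj) e0 (s4 j hj) h2.2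
  rw [toM_nil, add_zero] at h3 h4
  rw [h3, ← h4]

theorem chkExpo_spec {T : ℕ → List ℕ} {E : List (List ℤ)} (h : chkExpo T E = true) {k m : ℕ}
    (hk : k < 30) (hm : m < 30) : expo m (T k) = (E.getD k []).getD m 0 := by
  unfold chkExpo at h
  rw [List.all_eq_true] at h
  have h1 := h k (List.mem_range.2 hk)
  rw [List.all_eq_true] at h1
  exact of_decide_eq_true (h1 m (List.mem_range.2 hm))

theorem val_word_mat {T : ℕ → List ℕ} {E : List (List ℤ)} (h : chkExpo T E = true) (u : H1 15)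
    (k : Fin 30) : u (Additive.ofMul (ev gX (T k))) = (cR (toM 30 30 E) *ᵥ uX u) k := by
  rw [val_ev]
  unfold Matrix.mulVec dotProduct
  apply Finset.sum_congr rfl
  intro m _
  rw [chkExpo_spec h k.2 m.2]
  rfl

theorem chkExpo_TX {j : ℕ} (hj : j < 4) :
    chkExpo (look (TX (2 * j + 1))) (tE.getD j []) = true := by
  interval_cases j
  · exact chkExpo0_true
  · exact chkExpo1_true
  · exact chkExpo2_true
  · exact chkExpo3_true

theorem dl_inv_gX {j : ℕ} (hj : j < 4) (i : ℕ) :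
    (dl j)⁻¹ (gX i) = ev gX (look (TX (2 * j + 1)) i) := by
  unfold dl
  rw [dif_pos hj]
  exact Dh_gX (by omega) i

theorem sH_qS (j : ℕ) (u : H1 15) (n : K) :
    sH (qS j) u (Additive.ofMul n) = u (Additive.ofMul ((dl j)⁻¹ n)) := by
  unfold sH
  rw [MonoidHom.comp_apply, rho_qS, h1Act_apply]
  have h1 : (qA j)⁻¹ n = (dl j)⁻¹ ((ev (A1 gX) (tabFs.getD j []))⁻¹ * n *
      ev (A1 gX) (tabFs.getD j [])) := by
    apply (qA j).injective
    rw [MulAut.apply_inv_self, qA_apply, MulAut.apply_inv_self]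
    group
  rw [h1]
  have h2 : (dl j)⁻¹ ((ev (A1 gX) (tabFs.getD j []))⁻¹ * n * ev (A1 gX) (tabFs.getD j [])) =
      ((dl j)⁻¹ (ev (A1 gX) (tabFs.getD j [])))⁻¹ * (dl j)⁻¹ n *
        (dl j)⁻¹ (ev (A1 gX) (tabFs.getD j [])) := by
    rw [map_mul, map_mul, map_inv]
  rw [h2, ofMul_mul, ofMul_mul, ofMul_inv, map_add, map_add, map_neg]
  ring

theorem uX_sH {j : ℕ} (hj : j < 4) (u : H1 15) :
    uX (sH (qS j) u) = cR (toM 30 30 (tE.getD j [])) *ᵥ uX u := by
  funext k
  rw [uX_apply, sH_qS j, dl_inv_gX hj, val_word_mat (chkExpo_TX hj)]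

theorem PhiB_qS (b : Fin 10) {j : ℕ} (hj : j < 4) (u : H1 15) :
    PhiB b (sH (qS j) u) = repOf (MhB b) (qS j) (PhiB b u) := by
  have h1 := MhB_spec b (2 * j) (by omega)
  rw [ltr_even] at h1
  rw [PhiB_apply, uX_sH hj, repOf_apply, h1, PhiB_apply, Matrix.mulVec_mulVec,
    Matrix.mulVec_mulVec, ← cR_mul, ← cR_mul, act_mat b.2 hj]

theorem PhiB_equiv (b : Fin 10) (q : Q) (u : H1 15) :
    PhiB b (sH q u) = repOf (MhB b) q (PhiB b u) := by
  refine Q_induction (P := fun q => ∀ u, PhiB b (sH q u) = repOf (MhB b) q (PhiB b u))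
    ?_ ?_ ?_ ?_ q u
  · intro u
    simp
  · intro j u
    rcases Nat.lt_or_ge j 4 with hj | hj
    · exact PhiB_qS b hj u
    · rw [qS_big hj]
      simp
  · intro a c ha hc u
    rw [map_mul, map_mul, Module.End.mul_apply, Module.End.mul_apply, ha, hc]
  · intro a ha u
    have h1 := ha (sH a⁻¹ u)
    rw [σ_inv_apply] at h1
    rw [h1, σ_inv_apply']

/-- the map to the coordinates of all blocks -/
noncomputable def PhiL : H1 15 →ₗ[ℝ] ∀ b : Fin 10, (Fin (nB b) → ℝ) :=
  LinearMap.pi fun b => PhiB b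

theorem slc_entry (b : ℕ) (M : List (List ℤ)) {i : ℕ} (hi : i < nB b) :
    (slc b M).getD i [] = M.getD (oB b + i) [] := by
  unfold slc
  rw [List.getD_eq_getElem?_getD, List.getD_eq_getElem?_getD, List.getElem?_take_of_lt hi,
    List.getElem?_drop]

theorem sum_blocks (f : ℕ → ℝ) (n : ℕ) :
    ∑ b ∈ Finset.range n, ∑ i ∈ Finset.range (nB b), f (oB b + i) =
      ∑ r ∈ Finset.range (oB n), f r := by
  induction n with
  | zero => simp [oB]
  | succ n ih =>
    rw [Finset.sum_range_succ, ih]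
    change _ = ∑ r ∈ Finset.range (oB n + nB n), f r
    rw [Finset.sum_range_add]

theorem sum_blocks' (f : ℕ → ℝ) :
    ∑ b : Fin 10, ∑ i : Fin (nB b), f (oB b + i) = ∑ r : Fin 30, f r := by
  have h := sum_blocks f 10
  have e1 : oB 10 = 30 := rfl
  rw [e1, Finset.sum_range, Finset.sum_range] at h
  rw [← h]
  apply Finset.sum_congr rfl
  intro b _
  rw [Finset.sum_range]

theorem oB_mono {a b : ℕ} (h : a ≤ b) : oB a ≤ oB b := by
  induction h with
  | refl => exact le_refl _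
  | step _ ih => exact ih.trans (Nat.le_add_right _ _)

theorem exists_block {r : ℕ} (hr : r < 30) :
    ∃ b : Fin 10, ∃ i : Fin (nB b), r = oB b + i := by
  have h : ∀ n, r < oB n → ∃ b < n, ∃ i < nB b, r = oB b + i := by
    intro n
    induction n with
    | zero => intro h; exact absurd h (by simp [oB])
    | succ n ih =>
      intro h
      rcases Nat.lt_or_ge r (oB n) with h1 | h1
      · obtain ⟨b, hb, i, hi, h2⟩ := ih h1
        exact ⟨b, by omega, i, hi, h2⟩
      · refine ⟨n, by omega, r - oB n, ?_, by omega⟩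
        have : r < oB n + nB n := h
        omega
  obtain ⟨b, hb, i, hi, h2⟩ := h 10 hr
  exact ⟨⟨b, hb⟩, ⟨i, hi⟩, h2⟩

theorem PhiB_entry (b : ℕ) (u : H1 15) (i : Fin (nB b)) :
    PhiB b u i = ∑ k : Fin 30, (((tS30.getD (oB b + i) []).getD k 0 : ℤ) : ℝ) * uX u k := by
  have h : ∀ k : Fin 30, cR (toM (nB b) 30 (slc b tS30)) i k =
      (((tS30.getD (oB b + i) []).getD k 0 : ℤ) : ℝ) := by
    intro k
    rw [← slc_entry b tS30 i.2]
    rfl
  rw [PhiB_apply]
  unfold Matrix.mulVec dotProduct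
  exact Finset.sum_congr rfl fun k _ => congrArg (· * uX u k) (h k)

theorem PhiL_injective : Function.Injective PhiL := by
  rw [← LinearMap.ker_eq_bot, LinearMap.ker_eq_bot']
  intro u hu
  apply uX_injective
  rw [map_zero]
  have h1 : cR (toM 30 30 tS30) *ᵥ uX u = 0 := by
    funext r
    obtain ⟨b, i, hr⟩ := exists_block r.2
    have h2 : PhiB b u i = 0 := congrFun (congrFun hu b) i
    rw [PhiB_entry, ← hr] at h2
    exact h2
  have hf := chkForm_true
  unfold chkForm at hf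
  simp only [Bool.and_eq_true] at hf
  obtain ⟨-, -, -, wd, hR⟩ := hf
  have e0 : wf 30 30 1024 [] = true := by simp [wf]
  have h3 := ma_sound' (by norm_num : 30 ≤ 1000) shp_glob.2.1 shp_glob.1 e0 wd hR
  rw [toM_nil, add_zero, toM_diag_replicate] at h3
  have h4 := congrArg (fun M => cR M *ᵥ uX u) h3
  simp only [cR_mul, cR_smul, cR_one, ← Matrix.mulVec_mulVec, h1, Matrix.mulVec_zero,
    Matrix.smul_mulVec, Matrix.one_mulVec] at h4
  have h5 : (tδ : ℝ) ≠ 0 := by
    have : tδ ≠ 0 := by decide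
    exact_mod_cast this
  exact (smul_eq_zero.1 h4.symm).resolve_left h5

theorem PhiL_bijective : Function.Bijective PhiL := by
  have hfin : Module.Finite ℝ (H1 15) := Module.Finite.equiv uXe.symm
  have h1 : Module.finrank ℝ (H1 15) = 30 := by
    rw [LinearEquiv.finrank_eq uXe]
    simp
  have h2 : Module.finrank ℝ (∀ b : Fin 10, (Fin (nB b) → ℝ)) = 30 := by
    rw [Module.finrank_pi_fintype]
    simp only [Module.finrank_pi, Fintype.card_fin]
    rfl
  refine ⟨PhiL_injective, ?_⟩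
  exact (LinearMap.injective_iff_surjective_of_finrank_eq_finrank (by rw [h1, h2])).1
    PhiL_injective

/-- the decomposition -/
noncomputable def PhiE : H1 15 ≃ₗ[ℝ] ∀ b : Fin 10, (Fin (nB b) → ℝ) :=
  LinearEquiv.ofBijective PhiL PhiL_bijective

theorem PhiE_apply (u : H1 15) (b : Fin 10) : PhiE u b = PhiB b u := rfl

end Pool.Agent.H809
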