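import Pool.Agent.H809.Surface

/-!
Fibre subgroups.
-/

namespace Pool.Agent.H809

/-- `N` is the fibre subgroup of a splitting of `Γ` as an extension of the fundamental group
of the surface of genus `h` by the fundamental group of the surface of genus `g` -/
def IsFibreSubgroup {Γ : Type} [Group Γ] (g h : ℕ) (N : Subgroup Γ) : Prop :=
  Nonempty (N ≃* SurfaceGroup g) ∧
    ∃ p : Γ →* SurfaceGroup h, Function.Surjective p ∧ p.ker = N

end Pool.Agent.H809
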