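import Pool.Agent.H809.Word

/-!
Homomorphisms from the group of the configuration space of two ordered points on the closed
surface of genus two, in terms of generators `a 0, ..., a 3` (motions of the second point),
`d 0, ..., d 3` (parallel motions of both points) and `a 4` (the full twist), and the
automorphism induced by exchanging the two points.
-/

namespace Pool.Agent.H809

/-- the product of commutators `[a₀, a₁⁻¹] [a₂, a₃⁻¹]` -/
def wMu : List ℕ := [0, 3, 1, 2, 4, 7, 5, 6]

/-- conjugation action of the `d`'s and their inverses on the `a`'s -/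
def tabsD : List (List (List (List ℕ))) :=
  [[[[0], [0, 2, 1, 8], [9, 0, 4, 1, 8], [9, 0, 6, 1, 8], [8]]],
   [[[0], [1, 2, 9, 0], [1, 8, 4, 9, 0], [1, 8, 6, 9, 0], [8]]],
   [[[2, 9, 0, 3], [2], [9, 2, 4, 3, 8], [9, 2, 6, 3, 8], [8]]],
   [[[8, 3, 0, 2], [2], [3, 8, 4, 9, 2], [3, 8, 6, 9, 2], [8]]],
   [[[4, 9, 0, 8, 5], [4, 9, 2, 8, 5], [4], [4, 6, 5, 8], [8]]],
   [[[8, 5, 0, 4, 9], [8, 5, 2, 4, 9], [4], [5, 6, 9, 4], [8]]],
   [[[6, 9, 0, 8, 7], [6, 9, 2, 8, 7], [6, 9, 4, 7], [6], [8]]],
   [[[8, 7, 0, 6, 9], [8, 7, 2, 6, 9], [8, 7, 4, 6], [6], [8]]]]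

/-- the table of the `l`-th letter -/
def TD (l : ℕ) : List (List (List ℕ)) := tabsD.getD l []

/-- expansion of the letter `a 4` -/
def tabEx : List (List (List ℕ)) := [[[0], [2], [4], [6], wMu]]

/-- the conjugation relations of the pure braid group on two strands of the surface of genus
two -/
structure PRep0 {G : Type*} [Group G] (a d : ℕ → G) : Prop where
  abig : ∀ i, 5 ≤ i → a i = 1
  dbig : ∀ j, 4 ≤ j → d j = 1
  mu : a 4 = ev a wMu
  rel : ∀ j, j < 4 → ∀ i, i < 5 → d j * a i * (d j)⁻¹ = ev a (look (TD (2 * j)) i)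

/-- a representation of the pure braid group on two strands of the surface of genus two -/
structure PRep {G : Type*} [Group G] (a d : ℕ → G) : Prop extends PRep0 a d where
  surf : ev d wMu = (a 4)⁻¹ * (a 4)⁻¹

theorem TD_big {l : ℕ} (h : 8 ≤ l) : TD l = [] := by
  unfold TD
  exact List.getD_eq_default _ _ h

theorem look_TD_big (l : ℕ) {i : ℕ} (h : 5 ≤ i) : look (TD l) i = [2 * i] := by
  rcases Nat.lt_or_ge l 8 with hl | hl
  · refine look_ge_short (n := 5) ?_ ?_ h
    · interval_cases l <;> exact le_refl _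
    · interval_cases l <;> exact le_refl _
  · rw [TD_big hl]
    exact look_ge (n := 0) (le_refl _) (by omega)

/-- the tables with odd index are inverse to those with even index -/
def chkTD : Bool :=
  (List.range 4).all fun j => (List.range 5).all fun i =>
    eqW (sub (TD (2 * j)) (look (TD (2 * j + 1)) i)) [2 * i]

theorem chkTD_true : chkTD = true := by decide +kernel

variable {G : Type*} [Group G] {a d : ℕ → G}

theorem PRep0.relAll (h : PRep0 a d) {j : ℕ} (hj : j < 4) (i : ℕ) :
    d j * a i * (d j)⁻¹ = ev a (look (TD (2 * j)) i) := by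
  rcases Nat.lt_or_ge i 5 with hi | hi
  · exact h.rel j hj i hi
  · rw [look_TD_big _ hi, ev_single, h.abig i hi]
    simp

theorem PRep0.relInv (h : PRep0 a d) {j : ℕ} (hj : j < 4) (i : ℕ) :
    (d j)⁻¹ * a i * d j = ev a (look (TD (2 * j + 1)) i) := by
  rcases Nat.lt_or_ge i 5 with hi | hi
  · have h1 := chkTD_true
    unfold chkTD at h1
    rw [List.all_eq_true] at h1
    have h2 := h1 j (List.mem_range.2 hj)
    rw [List.all_eq_true] at h2
    have h3 := eqW_eq (h2 i (List.mem_range.2 hi))
    have h4 := conj_sub (h.relAll hj) (look (TD (2 * j + 1)) i)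
    rw [h3, ev_single] at h4
    rw [← h4]
    group
  · rw [look_TD_big _ hi, ev_single, h.abig i hi]
    simp

theorem PRep0.acts (h : PRep0 a d) : Acts TD a d := by
  intro l i
  rcases Nat.lt_or_ge l 8 with hl | hl
  · rcases Nat.even_or_odd' l with ⟨j, hj | hj⟩
    · rw [hj, ltr_even]
      exact h.relAll (by omega) i
    · rw [hj, ltr_odd, inv_inv]
      exact h.relInv (by omega) i
  · have h1 : d (l / 2) = 1 := h.dbig _ (by omega)
    have h2 : ltr d l = 1 := by
      unfold ltr
      rw [h1]
      simp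
    rw [h2, TD_big hl, look_ge (n := 0) (le_refl _) (by omega), ev_single]
    simp

/-- expansion of the letter `a 4` does not change values -/
theorem PRep0.ev_ex (h : PRep0 a d) (w : List ℕ) : ev a (sub tabEx w) = ev a w := by
  rw [ev_sub]
  congr 1
  funext i
  rcases Nat.lt_or_ge i 5 with hi | hi
  · interval_cases i
    · exact ev_single a 0
    · exact ev_single a 1
    · exact ev_single a 2
    · exact ev_single a 3
    · exact h.mu.symm
  · rw [look_ge_short (n := 5) (le_refl _) (le_refl _) hi, ev_single]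

/-- the generators after the exchange of the two points -/
def aT (a d : ℕ → G) (i : ℕ) : G :=
  if i < 4 then d i * a 4 * (a i)⁻¹ else if i = 4 then a 4 else 1

/-- the generators after the inverse exchange -/
def aT' (a d : ℕ → G) (i : ℕ) : G :=
  if i < 4 then d i * (a i)⁻¹ * a 4 else if i = 4 then a 4 else 1

/-- pairs of words for `aT` -/
def tT (i : ℕ) : List ℕ × List ℕ :=
  bif Nat.blt i 4 then mulP TD ([], [2 * i]) ([8, 2 * i + 1], [])
  else bif Nat.beq i 4 then ([8], []) else ([], [])

/-- pairs of words for `aT'` -/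
def tT' (i : ℕ) : List ℕ × List ℕ :=
  bif Nat.blt i 4 then mulP TD ([], [2 * i]) ([2 * i + 1, 8], [])
  else bif Nat.beq i 4 then ([8], []) else ([], [])

theorem evP_tT (h : PRep0 a d) (i : ℕ) : evP a d (tT i) = aT a d i := by
  unfold tT aT
  rcases Nat.lt_trichotomy i 4 with hi | hi | hi
  · have h1 : Nat.blt i 4 = true := by rw [Nat.blt_eq]; exact hi
    rw [h1, cond_true, if_pos hi, evP_mulP h.acts]
    unfold evP
    simp only [ev_nil, one_mul, mul_one]
    rw [ev_single d i, ev_cons a 8, ev_cons a (2 * i + 1), ev_nil, mul_one, ltr_odd]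
    rw [show (8 : ℕ) = 2 * 4 from rfl, ltr_even, mul_assoc]
  · subst hi
    change ev a [2 * 4] * ev d [] = a 4
    rw [ev_nil, mul_one, ev_single]
  · have h1 : Nat.blt i 4 = false := by
      rw [← Bool.not_eq_true, Nat.blt_eq]; omega
    have h2 : Nat.beq i 4 = false := by
      rw [← Bool.not_eq_true, Nat.beq_eq]; omega
    rw [h1, h2, if_neg (by omega), if_neg (by omega)]
    simp [evP]

theorem evP_tT' (h : PRep0 a d) (i : ℕ) : evP a d (tT' i) = aT' a d i := by
  unfold tT' aT'
  rcases Nat.lt_trichotomy i 4 with hi | hi | hi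
  · have h1 : Nat.blt i 4 = true := by rw [Nat.blt_eq]; exact hi
    rw [h1, cond_true, if_pos hi, evP_mulP h.acts]
    unfold evP
    simp only [ev_nil, one_mul, mul_one]
    rw [ev_single d i, ev_cons a (2 * i + 1), ltr_odd]
    rw [show (8 : ℕ) = 2 * 4 from rfl, ev_single a 4, mul_assoc]
  · subst hi
    change ev a [2 * 4] * ev d [] = a 4
    rw [ev_nil, mul_one, ev_single]
  · have h1 : Nat.blt i 4 = false := by
      rw [← Bool.not_eq_true, Nat.blt_eq]; omega
    have h2 : Nat.beq i 4 = false := by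
      rw [← Bool.not_eq_true, Nat.beq_eq]; omega
    rw [h1, h2, if_neg (by omega), if_neg (by omega)]
    simp [evP]

/-- the check behind `PRep.T` -/
def chkT (t : ℕ → List ℕ × List ℕ) : Bool :=
  eqP (sub tabEx (subP TD t wMu).1, (subP TD t wMu).2) (wMu ++ (wMu ++ wMu), wMu) &&
  (List.range 4).all fun j => (List.range 5).all fun i =>
    eqP (mulP TD ([], [2 * j]) (mulP TD (t i) ([], [2 * j + 1])))
      (subP TD t (look (TD (2 * j)) i))

theorem chkT_true : chkT tT = true := by decide +kernel

theorem chkT'_true : chkT tT' = true := by decide +kernel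

theorem PRep.of_chk (h : PRep a d) {b : ℕ → G} {t : ℕ → List ℕ × List ℕ}
    (hb : ∀ i, evP a d (t i) = b i) (hbig : ∀ i, 5 ≤ i → b i = 1) (h4 : b 4 = a 4)
    (hc : chkT t = true) : PRep b d := by
  unfold chkT at hc
  rw [Bool.and_eq_true] at hc
  have hev : ∀ w, ev b w = evP a d (subP TD t w) := by
    intro w
    rw [evP_subP h.acts]
    congr 1
    funext i
    exact (hb i).symm
  refine ⟨⟨hbig, h.dbig, ?_, ?_⟩, ?_⟩
  · rw [hev]
    have h1 := eqP_eq hc.1
    rw [Prod.mk.injEq] at h1
    unfold evP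
    rw [← h.ev_ex (subP TD t wMu).1, h1.1, h1.2, h.surf, ev_append, ev_append, ← h.mu, h4]
    group
  · intro j hj i hi
    have h1 := hc.2
    rw [List.all_eq_true] at h1
    have h2 := h1 j (List.mem_range.2 hj)
    rw [List.all_eq_true] at h2
    have h3 := eqP_eq (h2 i (List.mem_range.2 hi))
    rw [hev, ← h3, evP_mulP h.acts, evP_mulP h.acts, hb]
    unfold evP
    simp only [ev_nil, one_mul]
    rw [ev_single, ev_cons, ev_nil, mul_one, ltr_odd, mul_assoc]
  · rw [h.surf, h4]

theorem PRep.T (h : PRep a d) : PRep (aT a d) d :=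
  h.of_chk (evP_tT h.toPRep0) (fun i hi => by
    unfold aT; rw [if_neg (by omega), if_neg (by omega)]) rfl chkT_true

theorem PRep.T' (h : PRep a d) : PRep (aT' a d) d :=
  h.of_chk (evP_tT' h.toPRep0) (fun i hi => by
    unfold aT'; rw [if_neg (by omega), if_neg (by omega)]) rfl chkT'_true

theorem PRep.comm (h : PRep a d) {i : ℕ} (hi : i < 4) : d i * a i * (d i)⁻¹ = a i := by
  rw [h.rel i hi i (by omega)]
  interval_cases i
  · exact ev_single a 0
  · exact ev_single a 1
  · exact ev_single a 2
  · exact ev_single a 3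

theorem PRep.comm4 (h : PRep a d) {i : ℕ} (hi : i < 4) : d i * a 4 * (d i)⁻¹ = a 4 := by
  rw [h.rel i hi 4 (by omega)]
  interval_cases i <;> exact ev_single a 4

theorem PRep.T'T (h : PRep a d) : aT' (aT a d) d = a := by
  funext i
  unfold aT' aT
  rcases Nat.lt_trichotomy i 4 with hi | hi | hi
  · rw [if_pos hi]
    simp only [if_pos hi, lt_self_iff_false, if_false, if_true]
    have h1 := h.comm hi
    have h2 := h.comm4 hi
    calc d i * (d i * a 4 * (a i)⁻¹)⁻¹ * a 4
        = (d i * a i * (d i)⁻¹) * (d i * a 4 * (d i)⁻¹)⁻¹ * a 4 := by group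
      _ = a i := by rw [h1, h2]; group
  · subst hi; simp
  · rw [if_neg (by omega), if_neg (by omega), h.abig i (by omega)]

theorem PRep.TT' (h : PRep a d) : aT (aT' a d) d = a := by
  funext i
  unfold aT' aT
  rcases Nat.lt_trichotomy i 4 with hi | hi | hi
  · rw [if_pos hi]
    simp only [if_pos hi, lt_self_iff_false, if_false, if_true]
    have h1 := h.comm hi
    calc d i * a 4 * (d i * (a i)⁻¹ * a 4)⁻¹
        = (d i * a i * (d i)⁻¹) := by group
      _ = a i := h1
  · subst hi; simp
  · rw [if_neg (by omega), if_neg (by omega), h.abig i (by omega)]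

/-- the words `f` -/
def tabFs : List (List ℕ) := [[7, 1, 8], [5, 3, 8], [9, 3, 8, 5, 8], [9, 1, 8, 7, 8]]

/-- the generators of a complement of the free group generated by the `a`'s -/
def qP (a d : ℕ → G) (j : ℕ) : G := ev a (tabFs.getD j []) * d j

/-- the check behind `PRep.section_rel` -/
def chkQ : Bool :=
  eqP (sub tabEx (subP TD (fun j => (tabFs.getD j [], [2 * j])) wMu).1,
    (subP TD (fun j => (tabFs.getD j [], [2 * j])) wMu).2) (wMu ++ wMu, wMu)

theorem chkQ_true : chkQ = true := by decide +kernel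

theorem PRep0.section_eq (h : PRep0 a d) : ev (qP a d) wMu = a 4 * a 4 * ev d wMu := by
  have hev : ev (qP a d) wMu = evP a d (subP TD (fun j => (tabFs.getD j [], [2 * j])) wMu) := by
    rw [evP_subP h.acts]
    congr 1
    funext j
    unfold qP evP
    simp only
    rw [ev_single]
  have h1 := eqP_eq chkQ_true
  rw [Prod.mk.injEq] at h1
  rw [hev]
  unfold evP
  rw [← h.ev_ex (subP TD _ wMu).1, h1.1, h1.2, ev_append, ← h.mu]

theorem PRep.section_rel (h : PRep a d) : ev (qP a d) wMu = 1 := by
  rw [h.toPRep0.section_eq, h.surf]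
  group

end Pool.Agent.H809
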