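import Mathlib

/-!
Verification of integer matrix identities by packing rows into large integers.
-/

namespace Pool.Agent.H809

/-- the value at `X` of the polynomial with coefficients `l` -/
def pk (X : ℤ) : List ℤ → ℤ
  | [] => 0
  | a :: l => a + X * pk X l

/-- sum of products -/
def dotL : List ℤ → List ℤ → ℤ
  | [], _ => 0
  | _ :: _, [] => 0
  | a :: l, b :: m => a * b + dotL l m

/-- matrix given by a list of rows -/
def toM (a b : ℕ) (L : List (List ℤ)) : Matrix (Fin a) (Fin b) ℤ :=
  fun i j => (L.getD i []).getD j 0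

/-- all entries have absolute value at most `β`, at most `r` rows and `c` columns -/
def wf (r c β : ℕ) (L : List (List ℤ)) : Bool :=
  Nat.ble L.length r && L.all fun row => Nat.ble row.length c &&
    row.all fun a => Nat.ble a.natAbs β

theorem pk_eq (X : ℤ) : ∀ (l : List ℤ) (N : ℕ), l.length ≤ N →
    pk X l = ∑ j ∈ Finset.range N, l.getD j 0 * X ^ j
  | [], N, _ => by simp [pk]
  | a :: l, 0, h => by simp at h
  | a :: l, N + 1, h => by
      rw [Finset.sum_range_succ']
      unfold pk
      rw [pk_eq X l N (by simpa using h), Finset.mul_sum, add_comm]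
      congr 1
      · apply Finset.sum_congr rfl
        intro j _
        rw [List.getD_cons_succ, pow_succ]
        ring
      · simp

theorem dotL_eq : ∀ (l m : List ℤ) (N : ℕ), l.length ≤ N →
    dotL l m = ∑ j ∈ Finset.range N, l.getD j 0 * m.getD j 0
  | [], m, N, _ => by simp [dotL]
  | a :: l, [], N, _ => by simp [dotL]
  | a :: l, b :: m, 0, h => by simp at h
  | a :: l, b :: m, N + 1, h => by
      rw [Finset.sum_range_succ']
      unfold dotL
      rw [dotL_eq l m N (by simpa using h), add_comm]
      simp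

theorem digits_zero {X : ℤ} (hX : 0 < X) : ∀ (N : ℕ) (f : ℕ → ℤ),
    (∀ i, i < N → |f i| < X) → ∑ i ∈ Finset.range N, f i * X ^ i = 0 → ∀ i, i < N → f i = 0
  | 0, _, _, _, i, hi => by omega
  | N + 1, f, hb, hs, i, hi => by
      rw [Finset.sum_range_succ'] at hs
      have h1 : ∑ i ∈ Finset.range N, f (i + 1) * X ^ (i + 1) =
          X * ∑ i ∈ Finset.range N, f (i + 1) * X ^ i := by
        rw [Finset.mul_sum]
        apply Finset.sum_congr rfl
        intro j _
        rw [pow_succ]
        ring
      rw [h1, pow_zero, mul_one] at hs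
      have h0 : f 0 = 0 := by
        have hd : X ∣ f 0 := ⟨-∑ i ∈ Finset.range N, f (i + 1) * X ^ i, by linarith⟩
        exact Int.eq_zero_of_abs_lt_dvd hd (hb 0 (by omega))
      rw [h0, add_zero] at hs
      have h2 : ∑ i ∈ Finset.range N, f (i + 1) * X ^ i = 0 :=
        (mul_eq_zero.1 hs).resolve_left hX.ne'
      rcases i with _ | i
      · exact h0
      · exact digits_zero hX N (fun i => f (i + 1)) (fun i hi => hb (i + 1) (by omega)) h2 i
          (by omega)

theorem digits_bound {X : ℤ} (hX : 0 < X) : ∀ (N : ℕ) (f : ℕ → ℤ),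
    (∀ i, i < N → |f i| < X) → |∑ i ∈ Finset.range N, f i * X ^ i| < X ^ N
  | 0, _, _ => by simp
  | N + 1, f, hb => by
      rw [Finset.sum_range_succ]
      have h1 := digits_bound hX N f (fun i hi => hb i (by omega))
      have h2 := hb N (by omega)
      have h3 : |f N * X ^ N| ≤ (X - 1) * X ^ N := by
        rw [abs_mul, abs_of_pos (pow_pos hX N)]
        exact mul_le_mul_of_nonneg_right (by omega) (pow_pos hX N).le
      calc |∑ x ∈ Finset.range N, f x * X ^ x + f N * X ^ N|
          ≤ |∑ x ∈ Finset.range N, f x * X ^ x| + |f N * X ^ N| := abs_add_le _ _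
        _ < X ^ N + (X - 1) * X ^ N := by linarith
        _ = X ^ (N + 1) := by rw [pow_succ]; ring

section wf

variable {r c β : ℕ} {L : List (List ℤ)}

theorem wf_length (h : wf r c β L = true) : L.length ≤ r := by
  unfold wf at h
  rw [Bool.and_eq_true] at h
  exact Nat.le_of_ble_eq_true h.1

theorem wf_row (h : wf r c β L = true) (i : ℕ) : (L.getD i []).length ≤ c := by
  unfold wf at h
  rw [Bool.and_eq_true, List.all_eq_true] at h
  rcases Nat.lt_or_ge i L.length with hi | hi
  · have h1 := h.2 (L.getD i []) (by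
      rw [List.getD_eq_getElem _ _ hi]; exact List.getElem_mem hi)
    rw [Bool.and_eq_true] at h1
    exact Nat.le_of_ble_eq_true h1.1
  · rw [List.getD_eq_default _ _ hi]
    simp

theorem wf_abs (h : wf r c β L = true) (i j : ℕ) : |(L.getD i []).getD j 0| ≤ β := by
  unfold wf at h
  rw [Bool.and_eq_true, List.all_eq_true] at h
  rcases Nat.lt_or_ge i L.length with hi | hi
  · have h1 := h.2 (L.getD i []) (by
      rw [List.getD_eq_getElem _ _ hi]; exact List.getElem_mem hi)
    rw [Bool.and_eq_true, List.all_eq_true] at h1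
    rcases Nat.lt_or_ge j (L.getD i []).length with hj | hj
    · have h2 := h1.2 ((L.getD i []).getD j 0) (by
        rw [List.getD_eq_getElem _ _ hj]; exact List.getElem_mem hj)
      have h3 := Nat.le_of_ble_eq_true h2
      rw [Int.abs_eq_natAbs]
      exact_mod_cast h3
    · rw [List.getD_eq_default (L.getD i []) _ hj]
      simp
  · rw [List.getD_eq_default L _ hi]
    simp

end wf

/-- the check for `A * B + D = C` -/
def chkMA (X : ℤ) (a : ℕ) (A B D C : List (List ℤ)) : Bool :=
  (List.range a).all fun i =>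
    decide (dotL (A.getD i []) (B.map (pk X)) + pk X (D.getD i []) = pk X (C.getD i []))

theorem getD_map_pk (X : ℤ) (B : List (List ℤ)) (k : ℕ) :
    (B.map (pk X)).getD k 0 = pk X (B.getD k []) := by
  rcases Nat.lt_or_ge k B.length with hk | hk
  · rw [List.getD_eq_getElem _ _ (by simpa using hk), List.getD_eq_getElem _ _ hk]
    simp
  · rw [List.getD_eq_default _ _ (by simpa using hk), List.getD_eq_default _ _ hk]
    rfl

theorem ma_sound {X : ℤ} {a b c βA βB βD βC : ℕ} {A B D C : List (List ℤ)}
    (hA : wf a b βA A = true) (hB : wf b c βB B = true) (hD : wf a c βD D = true)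
    (hC : wf a c βC C = true) (hX : (b * (βA * βB) + βD + βC : ℤ) < X)
    (h : chkMA X a A B D C = true) :
    toM a b A * toM b c B + toM a c D = toM a c C := by
  have hX0 : 0 < X := lt_of_le_of_lt (by positivity) hX
  unfold chkMA at h
  rw [List.all_eq_true] at h
  ext i j
  have h1 := h i (List.mem_range.2 i.2)
  rw [decide_eq_true_eq] at h1
  rw [dotL_eq _ _ b (wf_row hA i), pk_eq X _ c (wf_row hD i), pk_eq X _ c (wf_row hC i)] at h1
  have h2 : ∀ k, (A.getD i []).getD k 0 * (B.map (pk X)).getD k 0 =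
      ∑ j ∈ Finset.range c, ((A.getD i []).getD k 0 * (B.getD k []).getD j 0) * X ^ j := by
    intro k
    rw [getD_map_pk, pk_eq X _ c (wf_row hB k), Finset.mul_sum]
    exact Finset.sum_congr rfl fun j _ => by ring
  simp only [h2] at h1
  rw [Finset.sum_comm, ← Finset.sum_add_distrib] at h1
  have h3 : ∑ j ∈ Finset.range c,
      ((∑ k ∈ Finset.range b, (A.getD i []).getD k 0 * (B.getD k []).getD j 0) +
        (D.getD i []).getD j 0 - (C.getD i []).getD j 0) * X ^ j = 0 := by
    have h1' := sub_eq_zero.2 h1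
    rw [← Finset.sum_sub_distrib] at h1'
    refine Eq.trans ?_ h1'
    apply Finset.sum_congr rfl
    intro j _
    rw [sub_mul, add_mul, Finset.sum_mul]
  have h4 := digits_zero hX0 c _ (fun j _ => by
    have e1 : |∑ k ∈ Finset.range b, (A.getD i []).getD k 0 * (B.getD k []).getD j 0| ≤
        (b * (βA * βB) : ℤ) := by
      calc _ ≤ ∑ k ∈ Finset.range b, |(A.getD i []).getD k 0 * (B.getD k []).getD j 0| :=
            Finset.abs_sum_le_sum_abs _ _
        _ ≤ ∑ k ∈ Finset.range b, (βA * βB : ℤ) := by
            apply Finset.sum_le_sum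
            intro k _
            rw [abs_mul]
            exact mul_le_mul (wf_abs hA i k) (wf_abs hB k j) (abs_nonneg _) (by positivity)
        _ = _ := by rw [Finset.sum_const, Finset.card_range]; simp
    have e2 := wf_abs hD i j
    have e3 := wf_abs hC i j
    calc _ ≤ |∑ k ∈ Finset.range b, (A.getD i []).getD k 0 * (B.getD k []).getD j 0| +
          |(D.getD i []).getD j 0| + |(C.getD i []).getD j 0| := by
            exact (abs_sub _ _).trans (add_le_add_left (abs_add_le _ _) _)
      _ < X := by linarith) h3 j j.2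
  rw [Matrix.add_apply, Matrix.mul_apply]
  have h5 : ∑ k : Fin b, toM a b A i k * toM b c B k j =
      ∑ k ∈ Finset.range b, (A.getD i []).getD k 0 * (B.getD k []).getD j 0 := by
    rw [Finset.sum_range]
    rfl
  rw [h5]
  have h6 : toM a c D i j = (D.getD i []).getD j 0 := rfl
  have h7 : toM a c C i j = (C.getD i []).getD j 0 := rfl
  rw [h6, h7]
  linarith

/-- signed sum of pairings of packed rows -/
def pairV (X Y : ℤ) : List (ℤ × List (List ℤ) × List (List ℤ)) → ℤ
  | [] => 0
  | t :: l => t.1 * dotL (t.2.1.map (pk X)) (t.2.2.map (pk Y)) + pairV X Y l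

/-- signed sum of the products `Pᵀ * R` -/
def pairM (K m m' : ℕ) : List (ℤ × List (List ℤ) × List (List ℤ)) →
    Matrix (Fin m) (Fin m') ℤ
  | [] => 0
  | t :: l => t.1 • ((toM K m t.2.1).transpose * toM K m' t.2.2) + pairM K m m' l

/-- entries of `pairM` -/
def pairE (K : ℕ) (i j : ℕ) : List (ℤ × List (List ℤ) × List (List ℤ)) → ℤ
  | [] => 0
  | t :: l => t.1 * (∑ k ∈ Finset.range K, (t.2.1.getD k []).getD i 0 * (t.2.2.getD k []).getD j 0)
      + pairE K i j l

theorem pairM_apply (K m m' : ℕ) (ps : List (ℤ × List (List ℤ) × List (List ℤ)))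
    (i : Fin m) (j : Fin m') : pairM K m m' ps i j = pairE K i j ps := by
  induction ps with
  | nil => rfl
  | cons t l ih =>
    unfold pairM pairE
    rw [Matrix.add_apply, ih, Matrix.smul_apply, Matrix.mul_apply, smul_eq_mul, Finset.sum_range]
    rfl

theorem pairV_eq {X Y : ℤ} {K m m' βP βR : ℕ}
    (ps : List (ℤ × List (List ℤ) × List (List ℤ)))
    (hw : ∀ t ∈ ps, wf K m βP t.2.1 = true ∧ wf K m' βR t.2.2 = true) :
    pairV X Y ps =
      ∑ j ∈ Finset.range m', (∑ i ∈ Finset.range m, pairE K i j ps * X ^ i) * Y ^ j := by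
  induction ps with
  | nil => simp [pairV, pairE]
  | cons t l ih =>
    unfold pairV pairE
    rw [ih fun t ht => hw t (List.mem_cons_of_mem _ ht)]
    obtain ⟨h1, h2⟩ := hw t List.mem_cons_self
    rw [dotL_eq _ _ K (by simpa using wf_length h1)]
    have h3 : ∀ k, (t.2.1.map (pk X)).getD k 0 * (t.2.2.map (pk Y)).getD k 0 =
        ∑ j ∈ Finset.range m', (∑ i ∈ Finset.range m,
          ((t.2.1.getD k []).getD i 0 * (t.2.2.getD k []).getD j 0) * X ^ i) * Y ^ j := by
      intro k
      rw [getD_map_pk, getD_map_pk, pk_eq X _ m (wf_row h1 k), pk_eq Y _ m' (wf_row h2 k),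
        Finset.mul_sum]
      apply Finset.sum_congr rfl
      intro j _
      rw [Finset.sum_mul, Finset.sum_mul]
      apply Finset.sum_congr rfl
      intro i _
      ring
    simp only [h3]
    rw [Finset.sum_comm, Finset.mul_sum, ← Finset.sum_add_distrib]
    apply Finset.sum_congr rfl
    intro j _
    simp only [add_mul, Finset.sum_add_distrib]
    congr 1
    rw [← Finset.sum_mul, Finset.sum_comm, ← mul_assoc, Finset.mul_sum]
    congr 1
    apply Finset.sum_congr rfl
    intro i _
    rw [Finset.mul_sum, Finset.mul_sum, Finset.sum_mul]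
    apply Finset.sum_congr rfl
    intro k _
    ring

theorem pairE_abs {K m m' βP βR : ℕ} (ps : List (ℤ × List (List ℤ) × List (List ℤ)))
    (hs : ∀ t ∈ ps, |t.1| ≤ 1)
    (hw : ∀ t ∈ ps, wf K m βP t.2.1 = true ∧ wf K m' βR t.2.2 = true) (i j : ℕ) :
    |pairE K i j ps| ≤ ps.length * (K * (βP * βR)) := by
  induction ps with
  | nil => simp [pairE]
  | cons t l ih =>
    unfold pairE
    have h0 := ih (fun t ht => hs t (List.mem_cons_of_mem _ ht))
      (fun t ht => hw t (List.mem_cons_of_mem _ ht))
    obtain ⟨h1, h2⟩ := hw t List.mem_cons_self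
    have e1 : |∑ k ∈ Finset.range K, (t.2.1.getD k []).getD i 0 * (t.2.2.getD k []).getD j 0| ≤
        (K * (βP * βR) : ℤ) := by
      calc _ ≤ ∑ k ∈ Finset.range K, |(t.2.1.getD k []).getD i 0 * (t.2.2.getD k []).getD j 0| :=
            Finset.abs_sum_le_sum_abs _ _
        _ ≤ ∑ k ∈ Finset.range K, (βP * βR : ℤ) := by
            apply Finset.sum_le_sum
            intro k _
            rw [abs_mul]
            exact mul_le_mul (wf_abs h1 k i) (wf_abs h2 k j) (abs_nonneg _) (by positivity)
        _ = _ := by rw [Finset.sum_const, Finset.card_range]; simp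
    have e2 : |t.1 * ∑ k ∈ Finset.range K, (t.2.1.getD k []).getD i 0 *
        (t.2.2.getD k []).getD j 0| ≤ (K * (βP * βR) : ℤ) := by
      rw [abs_mul]
      calc _ ≤ 1 * (K * (βP * βR) : ℤ) :=
            mul_le_mul (hs t List.mem_cons_self) e1 (abs_nonneg _) (by norm_num)
        _ = _ := one_mul _
    calc _ ≤ _ := abs_add_le _ _
      _ ≤ (K * (βP * βR) : ℤ) + l.length * (K * (βP * βR)) := add_le_add e2 h0
      _ = _ := by rw [List.length_cons]; push_cast; ring

theorem pair_sound {X : ℤ} {K m m' βP βR βG : ℕ}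
    {ps : List (ℤ × List (List ℤ) × List (List ℤ))} {G : List (List ℤ)}
    (hs : ∀ t ∈ ps, |t.1| ≤ 1)
    (hw : ∀ t ∈ ps, wf K m βP t.2.1 = true ∧ wf K m' βR t.2.2 = true)
    (hG : wf m' m βG G = true)
    (hX : (ps.length * (K * (βP * βR)) + βG : ℤ) < X)
    (h : pairV X (X ^ m) ps = pk (X ^ m) (G.map (pk X))) :
    pairM K m m' ps = (toM m' m G).transpose := by
  have hX0 : 0 < X := lt_of_le_of_lt (by positivity) hX
  rw [pairV_eq ps hw, pk_eq _ _ m' (by simpa using wf_length hG)] at h
  have hb : ∀ i j, |pairE K i j ps - (G.getD j []).getD i 0| < X := by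
    intro i j
    have e1 := pairE_abs ps hs hw i j
    have e2 := wf_abs hG j i
    calc _ ≤ |pairE K i j ps| + |(G.getD j []).getD i 0| := abs_sub _ _
      _ < X := by linarith
  have h1 : ∑ j ∈ Finset.range m', (∑ i ∈ Finset.range m,
      (pairE K i j ps - (G.getD j []).getD i 0) * X ^ i) * (X ^ m) ^ j = 0 := by
    have h1' := sub_eq_zero.2 h
    rw [← Finset.sum_sub_distrib] at h1'
    refine Eq.trans ?_ h1'
    apply Finset.sum_congr rfl
    intro j _
    rw [getD_map_pk, pk_eq X _ m (wf_row hG j), ← sub_mul, ← Finset.sum_sub_distrib]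
    congr 1
    apply Finset.sum_congr rfl
    intro i _
    ring
  have h2 := digits_zero (pow_pos hX0 m) m' _
    (fun j _ => digits_bound hX0 m _ fun i _ => hb i j) h1
  ext i j
  rw [pairM_apply]
  have h3 := digits_zero hX0 m _ (fun i _ => hb i j) (h2 j j.2) i i.2
  exact sub_eq_zero.1 h3

end Pool.Agent.H809
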