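import Pool.Agent.H809.Checks

/-!
A presentation of the surface group of genus fifteen adapted to the decomposition of the
surface into three pieces.
-/

namespace Pool.Agent.H809

/-- the fundamental group of the fibre -/
abbrev K : Type := SurfaceGroup 15

/-- the 32 letters as elements of `K` -/
def gX (i : ℕ) : K := ev (sg 15) (look tabE i)

/-- the three relations -/
structure Rels {G : Type*} [Group G] (g : ℕ → G) : Prop where
  big : ∀ i, 32 ≤ i → g i = 1
  r1 : ev g R1 = 1
  r2 : ev g R2 = 1
  r3 : ev g R3 = 1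

theorem ev_gX (w : List ℕ) : ev gX w = ev (sg 15) (sub tabE w) := (ev_sub (sg 15) tabE w).symm

theorem allLt_spec {n : ℕ} {w : List ℕ} (h : allLt n w = true) : ∀ x ∈ w, x < n := by
  intro x hx
  unfold allLt at h
  rw [List.all_eq_true] at h
  have := h x hx
  rw [Nat.blt_eq] at this
  exact this

theorem noneIn_spec {m n : ℕ} {w : List ℕ} (h : noneIn m n w = true) :
    ∀ x ∈ w, x < m ∨ n ≤ x := by
  intro x hx
  unfold noneIn at h
  rw [List.all_eq_true] at h
  have := h x hx
  rw [Bool.or_eq_true, Nat.blt_eq] at this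
  rcases this with h1 | h1
  · exact Or.inl h1
  · exact Or.inr (Nat.le_of_ble_eq_true h1)

theorem gX_rels : Rels gX := by
  have h := chkE_true
  unfold chkE at h
  rw [Bool.and_eq_true, Bool.and_eq_true] at h
  obtain ⟨h1, h3, h2⟩ := h
  refine ⟨fun i hi => ?_, ?_, ?_, ?_⟩
  · unfold gX
    rw [look_ge (n := 4) (le_refl _) (by omega), ev_single, sg_big (by omega)]
  · rw [ev_gX, eqW_eq h1, ev_nil]
  · rw [ev_gX, eqW_eq h2, ev_red, ev_append, ev_append, ev_invW, ev_sg_stdRel]
    group
  · rw [ev_gX, eqW_eq h3, ev_nil]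

section

variable {G : Type*} [Group G] {g : ℕ → G}

theorem Rels.mu (h : Rels g) : ev g wMu = (g 30)⁻¹ := by
  have h1 := h.r1
  unfold R1 at h1
  rw [ev_cons, show (60 : ℕ) = 2 * 30 from rfl, ltr_even] at h1
  exact eq_inv_of_mul_eq_one_right h1

theorem Rels.mu2 (h : Rels g) : ev g wMu2 = g 31 := by
  have h1 := h.r3
  unfold R3 at h1
  rw [ev_cons, show (63 : ℕ) = 2 * 31 + 1 from rfl, ltr_odd] at h1
  exact (eq_inv_of_mul_eq_one_right h1).trans (inv_inv _)

theorem Rels.m2 (h : Rels g) : g 31 * ev g wM2 = 1 := by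
  have h1 := h.r2
  unfold R2 at h1
  rw [ev_cons, show (62 : ℕ) = 2 * 31 from rfl, ltr_even] at h1
  exact h1

theorem Rels.m2' (h : Rels g) : g 31 * (ev g wV * ((g 30)⁻¹ * ev g wU)) = 1 := by
  have h1 := h.m2
  unfold wM2 at h1
  rw [ev_append, ev_cons, show (61 : ℕ) = 2 * 30 + 1 from rfl, ltr_odd] at h1
  exact h1

/-- expansion of the letters `30` and `31` does not change values -/
theorem Rels.ev_M (h : Rels g) (w : List ℕ) : ev g (sub tabM w) = ev g w := by
  rw [ev_sub]
  congr 1
  funext i
  rcases Nat.lt_or_ge i 32 with hi | hi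
  · rcases Nat.lt_or_ge i 30 with hi2 | hi2
    · have h1 : look tabM i = [2 * i] := by
        interval_cases i <;> rfl
      rw [h1, ev_single]
    · have h2 : i = 30 ∨ i = 31 := by omega
      rcases h2 with h2 | h2
      · subst h2
        have h1 : look tabM 30 = invW wMu := rfl
        rw [h1, ev_invW, h.mu, inv_inv]
      · subst h2
        have h1 : look tabM 31 = wMu2 := rfl
        rw [h1, h.mu2]
  · rw [look_ge (n := 4) (le_refl _) (by omega), ev_single]

/-- universal property of `K` -/
theorem exists_homX (h : Rels g) : ∃ φ : K →* G, ∀ i, φ (gX i) = g i := by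
  have hs : ev (fun n => ev g (look tabXY n)) (stdRel 15) = 1 := by
    rw [← ev_sub, eqW_eq chkXY1_true, ev_red, ev_append, ev_append, ev_append, h.mu, h.mu2]
    have h1 := h.m2'
    calc ev g wU * (g 31 * (ev g wV * (g 30)⁻¹))
        = ev g wU * (g 31 * (ev g wV * ((g 30)⁻¹ * ev g wU))) * (ev g wU)⁻¹ := by group
      _ = 1 := by rw [h1]; group
  obtain ⟨φ, hφ⟩ := SurfaceGroup.exists_hom hs
  refine ⟨φ, fun i => ?_⟩
  rcases Nat.lt_or_ge i 32 with hi | hi
  · have h1 := chkXY2_true
    unfold chkXY2 at h1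
    rw [List.all_eq_true] at h1
    have h2 := h1 i (List.mem_range.2 hi)
    rw [Bool.and_eq_true] at h2
    unfold gX
    rw [map_ev]
    have h3 : ev (fun i => φ (sg 15 i)) (look tabE i)
        = ev (fun n => ev g (look tabXY n)) (look tabE i) := by
      apply ev_congr
      intro x hx
      have := allLt_spec h2.1 x hx
      exact hφ _ (by omega)
    rw [h3, ← ev_sub, eqW_eq h2.2]
    rcases Nat.lt_or_ge i 30 with hi2 | hi2
    · have e1 : Nat.beq i 30 = false := by rw [← Bool.not_eq_true, Nat.beq_eq]; omega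
      have e2 : Nat.beq i 31 = false := by rw [← Bool.not_eq_true, Nat.beq_eq]; omega
      rw [e1, e2, cond_false, cond_false, ev_single]
    · have h2 : i = 30 ∨ i = 31 := by omega
      rcases h2 with h2 | h2
      · subst h2
        change ev g (invW wMu) = g 30
        rw [ev_invW, h.mu, inv_inv]
      · subst h2
        change ev g wMu2 = g 31
        rw [h.mu2]
  · rw [gX_rels.big i hi, h.big i hi, map_one]

theorem sg_eq_gX {n : ℕ} (hn : n < 30) : sg 15 n = ev gX (look tabXY n) := by
  have h1 := chkXY3_true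
  unfold chkXY3 at h1
  rw [List.all_eq_true] at h1
  have h2 := h1 n (List.mem_range.2 hn)
  rw [Bool.and_eq_true] at h2
  rw [ev_gX, eqW_eq h2.2, ev_single]

theorem homX_ext {φ ψ : K →* G} (h : ∀ i, i < 30 → φ (gX i) = ψ (gX i)) : φ = ψ := by
  apply SurfaceGroup.hom_ext
  intro n hn
  have h1 := chkXY3_true
  unfold chkXY3 at h1
  rw [List.all_eq_true] at h1
  have h2 := h1 n (List.mem_range.2 hn)
  rw [Bool.and_eq_true] at h2
  rw [sg_eq_gX hn, map_ev, map_ev]
  apply ev_congr
  intro x hx
  have := allLt_spec h2.1 x hx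
  exact h _ (by omega)

end

end Pool.Agent.H809
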