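import Pool.Agent.H809.Pres

/-!
Representations of the extension in terms of the 32 letters and of the letters `d`.
-/

namespace Pool.Agent.H809

section

variable {G : Type*} [Group G]

/-- generators of the first copy -/
def A1 (g : ℕ → G) (i : ℕ) : G := if i < 4 then g i else if i = 4 then (g 30)⁻¹ else 1

/-- generators of the second copy -/
def A2 (g : ℕ → G) (i : ℕ) : G := if i < 4 then g (26 + i) else if i = 4 then g 31 else 1

/-- the letters `d` at the second boundary component -/
def d2 (g d : ℕ → G) (j : ℕ) : G := ev g (tabK.getD j []) * d j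

/-- conjugation relations -/
structure RepX (g d : ℕ → G) : Prop extends Rels g where
  dbig : ∀ j, 4 ≤ j → d j = 1
  rel : ∀ j, j < 4 → ∀ i, i < 32 → d j * g i * (d j)⁻¹ = ev g (look (TX (2 * j)) i)

/-- conjugation relations and surface relation -/
structure RepXs (g d : ℕ → G) : Prop extends RepX g d where
  surf : ev d wMu = g 30 * g 30

theorem ev_A1 (g : ℕ → G) {w : List ℕ} (hw : allLt 10 w = true) :
    ev (A1 g) w = ev g (sub rec1 w) := by
  rw [ev_sub]
  apply ev_congr
  intro x hx
  have h1 := allLt_spec hw x hx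
  have h2 : x / 2 < 5 := by omega
  generalize x / 2 = i at h2
  interval_cases i
  · exact (ev_single g 0).symm
  · exact (ev_single g 1).symm
  · exact (ev_single g 2).symm
  · exact (ev_single g 3).symm
  · change (g 30)⁻¹ = ev g [61]
    rw [show (61 : ℕ) = 2 * 30 + 1 from rfl, ev_cons, ltr_odd, ev_nil, mul_one]

theorem ev_A2 (g : ℕ → G) {w : List ℕ} (hw : allLt 10 w = true) :
    ev (A2 g) w = ev g (sub rec2 w) := by
  rw [ev_sub]
  apply ev_congr
  intro x hx
  have h1 := allLt_spec hw x hx
  have h2 : x / 2 < 5 := by omega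
  generalize x / 2 = i at h2
  interval_cases i
  · exact (ev_single g 26).symm
  · exact (ev_single g 27).symm
  · exact (ev_single g 28).symm
  · exact (ev_single g 29).symm
  · exact (ev_single g 31).symm

theorem look_TX_big (l : ℕ) {i : ℕ} (h : 32 ≤ i) : look (TX l) i = [2 * i] := by
  rcases Nat.lt_or_ge l 8 with hl | hl
  · refine look_ge (n := 4) ?_ (by omega)
    interval_cases l <;> exact le_refl _
  · have h1 : TX l = [] := List.getD_eq_default _ _ hl
    rw [h1]
    exact look_ge (n := 0) (le_refl _) (by omega)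

variable {g d : ℕ → G}

theorem RepX.relAll (h : RepX g d) {j : ℕ} (hj : j < 4) (i : ℕ) :
    d j * g i * (d j)⁻¹ = ev g (look (TX (2 * j)) i) := by
  rcases Nat.lt_or_ge i 32 with hi | hi
  · exact h.rel j hj i hi
  · rw [look_TX_big _ hi, ev_single, h.big i hi]
    simp

theorem chkRec_spec {j i : ℕ} (hj : j < 4) (hi : i < 5) :
    allLt 10 (look (TD (2 * j)) i) = true ∧
    sub rec2 (look (TD (2 * j)) i) =
      red (tabK.getD j [] ++ ((look (TX (2 * j)) (bif Nat.beq i 4 then 31 else 26 + i)) ++
        invW (tabK.getD j []))) ∧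
    (bif Nat.beq i 4 then eqW (look (TX (2 * j)) 30) [60] else
      eqW (sub rec1 (look (TD (2 * j)) i)) (look (TX (2 * j)) i)) = true := by
  have h1 := chkRec_true
  unfold chkRec at h1
  rw [List.all_eq_true] at h1
  have h2 := h1 j (List.mem_range.2 hj)
  rw [List.all_eq_true] at h2
  have h3 := h2 i (List.mem_range.2 hi)
  rw [Bool.and_eq_true, Bool.and_eq_true] at h3
  exact ⟨h3.1.1, eqW_eq h3.1.2, h3.2⟩

theorem RepX.prep1 (h : RepX g d) : PRep0 (A1 g) d := by
  refine ⟨fun i hi => ?_, h.dbig, ?_, ?_⟩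
  · unfold A1
    rw [if_neg (by omega), if_neg (by omega)]
  · have h1 : ev (A1 g) wMu = ev g wMu := by
      rw [ev_A1 g (by decide)]
      rfl
    rw [h1, h.mu]
    rfl
  · intro j hj i hi
    obtain ⟨h1, -, h3⟩ := chkRec_spec hj hi
    rw [ev_A1 g h1]
    rcases Nat.lt_or_ge i 4 with hi2 | hi2
    · have e1 : Nat.beq i 4 = false := by rw [← Bool.not_eq_true, Nat.beq_eq]; omega
      rw [e1, cond_false] at h3
      rw [eqW_eq h3, ← h.rel j hj i (by omega)]
      unfold A1
      rw [if_pos hi2]
    · have e0 : i = 4 := by omega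
      subst e0
      have h4 := h.rel j hj 30 (by omega)
      rw [eqW_eq h3] at h4
      have e2 : sub rec1 (look (TD (2 * j)) 4) = [61] := by
        interval_cases j <;> rfl
      rw [e2]
      change d j * (g 30)⁻¹ * (d j)⁻¹ = _
      rw [show (61 : ℕ) = 2 * 30 + 1 from rfl, ev_cons, ltr_odd, ev_nil, mul_one]
      rw [show (60 : ℕ) = 2 * 30 from rfl, ev_single] at h4
      calc d j * (g 30)⁻¹ * (d j)⁻¹ = (d j * g 30 * (d j)⁻¹)⁻¹ := by group
        _ = (g 30)⁻¹ := by rw [h4]

theorem RepX.prep2 (h : RepX g d) : PRep0 (A2 g) (d2 g d) := by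
  refine ⟨fun i hi => ?_, fun j hj => ?_, ?_, ?_⟩
  · unfold A2
    rw [if_neg (by omega), if_neg (by omega)]
  · unfold d2
    rw [h.dbig j hj, List.getD_eq_default _ _ hj, ev_nil, mul_one]
  · have h1 : ev (A2 g) wMu = ev g wMu2 := by
      rw [ev_A2 g (by decide)]
      rfl
    rw [h1, h.mu2]
    rfl
  · intro j hj i hi
    obtain ⟨h1, h2, -⟩ := chkRec_spec hj hi
    rw [ev_A2 g h1, h2, ev_red, ev_append, ev_append, ev_invW]
    unfold d2
    rcases Nat.lt_or_ge i 4 with hi2 | hi2
    · have e1 : Nat.beq i 4 = false := by rw [← Bool.not_eq_true, Nat.beq_eq]; omega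
      rw [e1, cond_false, ← h.rel j hj (26 + i) (by omega)]
      unfold A2
      rw [if_pos hi2]
      group
    · have e0 : i = 4 := by omega
      subst e0
      have e1 : Nat.beq 4 4 = true := rfl
      rw [e1, cond_true, ← h.rel j hj 31 (by omega)]
      change (ev g (tabK.getD j []) * d j) * g 31 * (ev g (tabK.getD j []) * d j)⁻¹ = _
      group

theorem RepX.map {H : Type*} [Group H] (h : RepX g d) (φ : G →* H) :
    RepX (fun i => φ (g i)) (fun j => φ (d j)) := by
  refine ⟨⟨fun i hi => ?_, ?_, ?_, ?_⟩, fun j hj => ?_, fun j hj i hi => ?_⟩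
  · rw [h.big i hi, map_one]
  · rw [← map_ev, h.r1, map_one]
  · rw [← map_ev, h.r2, map_one]
  · rw [← map_ev, h.r3, map_one]
  · rw [h.dbig j hj, map_one]
  · rw [← map_ev, ← h.rel j hj i hi]
    simp

end

end Pool.Agent.H809
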