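import Pool.Agent.H809.Decomp

/-!
The inertia of the cup product form on the first cohomology of the base with coefficients in the
first cohomology of the fibre.
-/

namespace Pool.Agent.H809

open Matrix

theorem sum_pairs (f : ℕ → ℝ) (n : ℕ) :
    ∑ r ∈ Finset.range (2 * n), f r = ∑ i ∈ Finset.range n, (f (2 * i) + f (2 * i + 1)) := by
  induction n with
  | zero => simp
  | succ n ih =>
    rw [Finset.sum_range_succ, ← ih, show 2 * (n + 1) = 2 * n + 1 + 1 from rfl,
      Finset.sum_range_succ, Finset.sum_range_succ]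
    ring

/-- value of a row -/
noncomputable def rv (M : List (List ℤ)) (r : ℕ) (x : Fin 30 → ℝ) : ℝ :=
  ∑ k : Fin 30, (((M.getD r []).getD k 0 : ℤ) : ℝ) * x k

theorem rv_eq (M : List (List ℤ)) (r : Fin 30) (x : Fin 30 → ℝ) :
    rv M r x = (cR (toM 30 30 M) *ᵥ x) r := rfl

theorem rv_x (u : H1 15) (i : Fin 15) :
    rv tXE (2 * i) (uX u) = u (Additive.ofMul (xgen i)) := by
  have h := val_word_mat chkExpoXE_true u ⟨2 * i, by omega⟩
  have h2 : xgen i = ev gX (look tabXY (2 * i)) := by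
    rw [← sg_eq_gX (by omega), sg_x]
  rw [h2]
  exact h.symm

theorem rv_y (u : H1 15) (i : Fin 15) :
    rv tXE (2 * i + 1) (uX u) = u (Additive.ofMul (ygen i)) := by
  have h := val_word_mat chkExpoXE_true u ⟨2 * i + 1, by omega⟩
  have h2 : ygen i = ev gX (look tabXY (2 * i + 1)) := by
    rw [← sg_eq_gX (by omega), sg_y]
  rw [h2]
  exact h.symm

theorem getD_map_mul (c : ℤ) (r : List ℤ) (k : ℕ) :
    (r.map fun x => c * x).getD k 0 = c * r.getD k 0 := by
  rcases Nat.lt_or_ge k r.length with h | h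
  · rw [List.getD_eq_getElem _ _ (by simpa using h), List.getD_eq_getElem _ _ h]
    simp
  · rw [List.getD_eq_default _ _ (by simpa using h), List.getD_eq_default _ _ h, mul_zero]

theorem rv_JX_even {i : ℕ} (hi : i < 15) (x : Fin 30 → ℝ) :
    rv tJX (2 * i) x = 8 * rv tXE (2 * i + 1) x := by
  have h1 : tJX.getD (2 * i) [] = (tXE.getD (2 * i + 1) []).map fun x => 8 * x := by
    unfold tJX
    rw [List.getD_eq_getElem _ _ (by simp; omega)]
    simp
  unfold rv
  rw [h1, Finset.mul_sum]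
  apply Finset.sum_congr rfl
  intro k _
  rw [getD_map_mul]
  push_cast
  ring

theorem rv_JX_odd {i : ℕ} (hi : i < 15) (x : Fin 30 → ℝ) :
    rv tJX (2 * i + 1) x = -8 * rv tXE (2 * i) x := by
  have h1 : tJX.getD (2 * i + 1) [] = (tXE.getD (2 * i) []).map fun x => -8 * x := by
    unfold tJX
    rw [List.getD_eq_getElem _ _ (by simp; omega)]
    simp
    rfl
  unfold rv
  rw [h1, Finset.mul_sum]
  apply Finset.sum_congr rfl
  intro k _
  rw [getD_map_mul]
  push_cast
  ring

theorem h1Cup_JX (u v : H1 15) :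
    8 * h1Cup 15 u v = ∑ r : Fin 30, rv tXE r (uX u) * rv tJX r (uX v) := by
  have e : ∑ r : Fin 30, rv tXE r (uX u) * rv tJX r (uX v) =
      ∑ r ∈ Finset.range (2 * 15), rv tXE r (uX u) * rv tJX r (uX v) := by
    rw [Finset.sum_range]
  rw [e, sum_pairs (fun r => rv tXE r (uX u) * rv tJX r (uX v)), Finset.sum_range]
  change 8 * (∑ i : Fin 15, (u (Additive.ofMul (xgen i)) * v (Additive.ofMul (ygen i)) -
        u (Additive.ofMul (ygen i)) * v (Additive.ofMul (xgen i)))) = _
  rw [Finset.mul_sum]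
  apply Finset.sum_congr rfl
  intro i _
  rw [rv_JX_even i.2, rv_JX_odd i.2, rv_x, rv_y, rv_x, rv_y]
  ring

theorem form_data : (∀ b, b < 10 → chkMA Xb (nB b) (wW b) (slc b tS30) [] (slc b tWS) = true) ∧
    wf 30 30 1024 tJX = true ∧ pairV Xb (Xb ^ 30) [(1, tXE, tJX), (-1, tS30, tWS)] = 0 := by
  have hf := chkForm_true
  unfold chkForm at hf
  simp only [Bool.and_eq_true, List.all_eq_true] at hf
  exact ⟨fun b hb => hf.1 b (List.mem_range.2 hb), hf.2.1, of_decide_eq_true hf.2.2.1⟩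

theorem form_pair (x y : Fin 30 → ℝ) :
    ∑ r : Fin 30, rv tXE r x * rv tJX r y = ∑ r : Fin 30, rv tS30 r x * rv tWS r y := by
  obtain ⟨-, wJ, hp⟩ := form_data
  obtain ⟨wS, -, wX, wWS, -⟩ := shp_glob
  have h1 := pair_sound' (K := 30) (m := 30) (m' := 30)
    (ps := [(1, tXE, tJX), (-1, tS30, tWS)]) (G := []) (by norm_num) (by simp)
    (by
      intro t ht
      simp only [List.mem_cons, List.not_mem_nil, or_false] at ht
      rcases ht with rfl | rfl <;> simp)
    (by
      intro t ht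
      simp only [List.mem_cons, List.not_mem_nil, or_false] at ht
      rcases ht with rfl | rfl
      · exact ⟨wX, wJ⟩
      · exact ⟨wS, wWS⟩)
    (by simp [wf]) hp
  rw [toM_nil, Matrix.transpose_zero] at h1
  simp only [pairM, one_smul, neg_smul, add_zero] at h1
  have h2 : (toM 30 30 tXE)ᵀ * toM 30 30 tJX = (toM 30 30 tS30)ᵀ * toM 30 30 tWS :=
    add_neg_eq_zero.1 h1
  have h3 : ∀ A B : List (List ℤ), ∑ r : Fin 30, rv A r x * rv B r y =
      x ⬝ᵥ cR ((toM 30 30 A)ᵀ * toM 30 30 B) *ᵥ y := by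
    intro A B
    rw [cR_mul, cR_transpose, ← Matrix.mulVec_mulVec, Matrix.dotProduct_mulVec,
      Matrix.vecMul_transpose]
    rfl
  rw [h3, h3, h2]

theorem toM_wW (b : ℕ) : toM (nB b) (nB b) (wW b) = wB b • toM (nB b) (nB b) (bD b).W := by
  ext i j
  rw [Matrix.smul_apply, smul_eq_mul]
  unfold toM wW
  have h : ((bD b).W.map fun r => r.map fun x => wB b * x).getD i [] =
      ((bD b).W.getD i []).map fun x => wB b * x := by
    rcases Nat.lt_or_ge i (bD b).W.length with h | h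
    · rw [List.getD_eq_getElem _ _ (by simpa using h), List.getD_eq_getElem _ _ h]
      simp
    · rw [List.getD_eq_default _ _ (by simpa using h), List.getD_eq_default _ _ h]
      rfl
  rw [h, getD_map_mul]

theorem block_form (b : Fin 10) (u v : H1 15) :
    ∑ i : Fin (nB b), rv tS30 (oB b + i) (uX u) * rv tWS (oB b + i) (uX v) =
      (wB b : ℝ) * omW (toM (nB b) (nB b) (bD b).W) (PhiE u b) (PhiE v b) := by
  obtain ⟨s1, s2, s3, -⟩ := shp_block b.2
  have e0 : wf (nB b) 30 1024 [] = true := by simp [wf]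
  have h1 := ma_sound' (nB_le b) s2 s1 e0 s3 (form_data.1 b b.2)
  rw [toM_nil, add_zero, toM_wW] at h1
  have h2 : ∀ i : Fin (nB b), rv tWS (oB b + i) (uX v) =
      (cR (toM (nB b) 30 (slc b tWS)) *ᵥ uX v) i := by
    intro i
    unfold rv
    rw [← slc_entry b tWS i.2]
    rfl
  have h3 : ∀ i : Fin (nB b), rv tS30 (oB b + i) (uX u) = PhiB b u i := by
    intro i
    rw [PhiB_entry]
    rfl
  rw [omW_apply, PhiE_apply, PhiE_apply]
  have h4 : cR (toM (nB b) 30 (slc b tWS)) *ᵥ uX v =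
      (wB b : ℝ) • (cR (toM (nB b) (nB b) (bD b).W) *ᵥ PhiB b v) := by
    rw [← h1, cR_mul, cR_smul, ← Matrix.mulVec_mulVec, Matrix.smul_mulVec]
    rfl
  rw [← smul_eq_mul, ← dotProduct_smul, ← h4]
  unfold dotProduct
  apply Finset.sum_congr rfl
  intro i _
  rw [h2, h3]

theorem h1Cup_blocks (u v : H1 15) :
    8 * h1Cup 15 u v = ∑ b : Fin 10, (wB b : ℝ) *
      omW (toM (nB b) (nB b) (bD b).W) (PhiE u b) (PhiE v b) := by
  rw [h1Cup_JX, form_pair, ← sum_blocks' (fun r => rv tS30 r (uX u) * rv tWS r (uX v))]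
  apply Finset.sum_congr rfl
  intro b _
  exact block_form b u v

theorem wB_pos (b : ℕ) : (0 : ℝ) < (wB b : ℝ) := by
  have h : 0 < wB b := by
    unfold wB
    split <;> norm_num
  exact_mod_cast h

theorem sH_cup (q : Q) (u v : H1 15) : h1Cup 15 (sH q u) (sH q v) = h1Cup 15 u v := by
  have h : 8 * h1Cup 15 (sH q u) (sH q v) = 8 * h1Cup 15 u v := by
    rw [h1Cup_blocks, h1Cup_blocks]
    apply Finset.sum_congr rfl
    intro b _
    rw [PhiE_apply, PhiE_apply, PhiB_equiv, PhiB_equiv,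
      omW_invariant (bD_spec b.2) (MhB_spec b)]
    rfl
  linarith

theorem block_dim (b : Fin 10) : Module.finrank ℝ (Z1 (repOf (MhB b))) ≤ mB b := by
  have key : ∀ b : ℕ, (hb : b < 10) →
      Module.finrank ℝ (Z1 (repOf (MhB ⟨b, hb⟩))) ≤ mB b := by
    intro b hb
    interval_cases b
    · exact bd_dim3 (n := 12) (m := 36) rfl (by norm_num) (bD_spec hb) bVV_ok
        (MhB_spec ⟨0, hb⟩)
    · exact bd_dim4 (n := 2) (m := 8) rfl _
    · exact bd_dim4 (n := 2) (m := 8) rfl _
    · exact bd_dim4 (n := 2) (m := 8) rfl _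
    · exact bd_dim4 (n := 2) (m := 8) rfl _
    · exact bd_dim4 (n := 2) (m := 8) rfl _
    · exact bd_dim4 (n := 2) (m := 8) rfl _
    · exact bd_dim3 (n := 2) (m := 6) rfl (by norm_num) (bD_spec hb) bEV_ok
        (MhB_spec ⟨7, hb⟩)
    · exact bd_dim3 (n := 2) (m := 6) rfl (by norm_num) (bD_spec hb) bFV_ok
        (MhB_spec ⟨8, hb⟩)
    · exact bd_dim3 (n := 2) (m := 6) rfl (by norm_num) (bD_spec hb) bGV_ok
        (MhB_spec ⟨9, hb⟩)
  exact key b b.2

/-- numbers of positive squares -/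
def pB : ℕ → ℕ
  | 0 => 10
  | 7 => 2
  | 8 => 2
  | 9 => 2
  | _ => 4

/-- numbers of negative squares -/
def mnB : ℕ → ℕ
  | 0 => 14
  | 7 => 2
  | 8 => 2
  | 9 => 2
  | _ => 4

theorem mB_pos (b : ℕ) : 0 < mB b := by
  unfold mB
  split <;> norm_num

theorem card_pos {b : ℕ} (hb : b < 10) :
    Fintype.card {i : Fin (mB b) // 0 < (bD b).g.getD i 0} = pB b := by
  interval_cases b <;> decide +kernel

theorem card_neg {b : ℕ} (hb : b < 10) :
    Fintype.card {i : Fin (mB b) // (bD b).g.getD i 0 < 0} = mnB b := by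
  interval_cases b <;> decide +kernel

theorem block_HasInertia (b : Fin 10) :
    HasInertia (cupForm (repOf (MhB b)) (omW (toM (nB b) (nB b) (bD b).W)))
      (Z1 (repOf (MhB b))) (pB b) (mnB b) := by
  rw [← card_pos b.2, ← card_neg b.2]
  exact bd_inertia (mB_pos b) (bD_spec b.2) (MhB_spec b) (block_dim b)

/-- the inertia -/
theorem main_inertia : HasInertia (cupForm sH (h1Cup 15)) (Z1 sH) 40 44 := by
  have h := HasInertia.split (σ := sH) (σ' := fun b : Fin 10 => repOf (MhB b)) PhiE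
    (fun q v b => PhiB_equiv b q v) (ω := h1Cup 15)
    (ω' := fun b : Fin 10 => omW (toM (nB b) (nB b) (bD b).W)) (c := 8) (by norm_num)
    (w := fun b => (wB b : ℝ)) (fun b => wB_pos b) h1Cup_blocks
    (p := fun b => pB b) (q := fun b => mnB b) block_HasInertia
  have e1 : ∑ b : Fin 10, pB b = 40 := by decide
  have e2 : ∑ b : Fin 10, mnB b = 44 := by decide
  rw [e1, e2] at h
  exact h

end Pool.Agent.H809
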