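import Pool.Agent.H809.Gamma
import Pool.Agent.H809.Fib

/-!
The two exchange automorphisms and the four fibre subgroups.
-/

namespace Pool.Agent.H809

section

variable {G : Type*} [Group G] {g d : ℕ → G}

theorem chkSup_spec {j i : ℕ} (hj : j < 4) (hi : i < 32) :
    (4 ≤ i → noneIn 0 8 (look (TX (2 * j)) i) = true) ∧
    ((i < 26 ∨ 30 ≤ i) → noneIn 52 60 (look (TX (2 * j)) i) = true) := by
  have h := chkSup_true
  unfold chkSup at h
  rw [Bool.and_eq_true] at h
  have h1 := h.1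
  rw [List.all_eq_true] at h1
  have h2 := h1 j (List.mem_range.2 hj)
  rw [List.all_eq_true] at h2
  have h3 := h2 i (List.mem_range.2 hi)
  rw [Bool.and_eq_true, Bool.or_eq_true, Bool.or_eq_true, Bool.and_eq_true] at h3
  obtain ⟨h4, h5⟩ := h3
  constructor
  · intro h6
    rcases h4 with h4 | h4
    · rw [Nat.blt_eq] at h4; omega
    · exact h4
  · intro h6
    rcases h5 with h5 | h5
    · have h7 := Nat.le_of_ble_eq_true h5.1
      have h8 := h5.2
      rw [Nat.blt_eq] at h8
      omega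
    · exact h5

theorem chkSup_R :
    (noneIn 0 8 R2 = true ∧ noneIn 0 8 R3 = true) ∧
    (noneIn 52 60 R1 = true ∧ noneIn 52 60 R2 = true) ∧
    ∀ j, j < 4 → noneIn 0 8 (tabK.getD j []) = true ∧ noneIn 52 60 (tabK.getD j []) = true := by
  have h := chkSup_true
  unfold chkSup at h
  rw [Bool.and_eq_true, Bool.and_eq_true, Bool.and_eq_true, Bool.and_eq_true,
    Bool.and_eq_true] at h
  obtain ⟨-, ⟨h1, h2⟩, h3⟩ := h
  refine ⟨h1, h2, fun j hj => ?_⟩
  rw [List.all_eq_true] at h3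
  have h4 := h3 j (List.mem_range.2 hj)
  rw [Bool.and_eq_true] at h4
  exact h4

/-- replace the letters of the first copy -/
def upd1 (b g : ℕ → G) (i : ℕ) : G := if i < 4 then b i else g i

/-- replace the letters of the second copy -/
def upd2 (b g : ℕ → G) (i : ℕ) : G := if 26 ≤ i ∧ i < 30 then b (i - 26) else g i

theorem ev_upd1 (b g : ℕ → G) {w : List ℕ} (h : noneIn 0 8 w = true) :
    ev (upd1 b g) w = ev g w := by
  apply ev_congr
  intro x hx
  have h1 := noneIn_spec h x hx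
  unfold upd1
  rw [if_neg (by omega)]

theorem ev_upd2 (b g : ℕ → G) {w : List ℕ} (h : noneIn 52 60 w = true) :
    ev (upd2 b g) w = ev g w := by
  apply ev_congr
  intro x hx
  have h1 := noneIn_spec h x hx
  unfold upd2
  rw [if_neg (by omega)]

theorem RepXs.upd1 (h : RepXs g d) {b : ℕ → G} (hb : PRep b d) (h4 : b 4 = (g 30)⁻¹) :
    RepXs (upd1 b g) d := by
  obtain ⟨⟨s1, s2⟩, -, -⟩ := chkSup_R
  have hA : A1 (Pool.Agent.H809.upd1 b g) = b := by
    funext i
    unfold A1 Pool.Agent.H809.upd1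
    split_ifs with h1 h2
    · rfl
    · omega
    · rw [h2, h4]
    · exact (hb.abig i (by omega)).symm
  have hw : ev (Pool.Agent.H809.upd1 b g) wMu = b 4 := by
    rw [hb.mu]
    apply ev_congr
    intro x hx
    have h1 : allLt 8 wMu = true := by decide
    have h2 := allLt_spec h1 x hx
    unfold Pool.Agent.H809.upd1
    rw [if_pos (by omega)]
  refine ⟨⟨⟨fun i hi => ?_, ?_, ?_, ?_⟩, h.dbig, fun j hj i hi => ?_⟩, ?_⟩
  · unfold Pool.Agent.H809.upd1
    rw [if_neg (by omega), h.big i hi]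
  · unfold R1
    rw [ev_cons, hw, h4, show (60 : ℕ) = 2 * 30 from rfl, ltr_even]
    unfold Pool.Agent.H809.upd1
    rw [if_neg (by omega)]
    group
  · rw [ev_upd1 b g s1, h.r2]
  · rw [ev_upd1 b g s2, h.r3]
  · rcases Nat.lt_or_ge i 4 with hi4 | hi4
    · obtain ⟨c1, -, c3⟩ := chkRec_spec hj (show i < 5 by omega)
      have e1 : Nat.beq i 4 = false := by rw [← Bool.not_eq_true, Nat.beq_eq]; omega
      rw [e1, cond_false] at c3
      rw [← eqW_eq c3, ← ev_A1 _ c1, hA, ← hb.rel j hj i (by omega)]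
      unfold Pool.Agent.H809.upd1
      rw [if_pos hi4]
    · rw [ev_upd1 b g ((chkSup_spec hj hi).1 hi4), ← h.rel j hj i hi]
      unfold Pool.Agent.H809.upd1
      rw [if_neg (by omega)]
  · rw [h.surf]
    unfold Pool.Agent.H809.upd1
    rw [if_neg (by omega)]

theorem RepXs.upd2 (h : RepXs g d) {b : ℕ → G} (hb : PRep b (d2 g d)) (h4 : b 4 = g 31) :
    RepXs (upd2 b g) d := by
  obtain ⟨-, ⟨s1, s2⟩, s3⟩ := chkSup_R
  have hA : A2 (Pool.Agent.H809.upd2 b g) = b := by
    funext i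
    unfold A2 Pool.Agent.H809.upd2
    split_ifs with h1 h2 h3 h4'
    · congr 1
      omega
    · omega
    · omega
    · rw [h3, h4]
    · exact (hb.abig i (by omega)).symm
  have hw : ev (Pool.Agent.H809.upd2 b g) wMu2 = b 4 := by
    rw [hb.mu, ← hA, ev_A2 _ (by decide)]
    rfl
  have h31 : Pool.Agent.H809.upd2 b g 31 = g 31 := by
    unfold Pool.Agent.H809.upd2
    rw [if_neg (by omega)]
  have h30 : Pool.Agent.H809.upd2 b g 30 = g 30 := by
    unfold Pool.Agent.H809.upd2
    rw [if_neg (by omega)]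
  refine ⟨⟨⟨fun i hi => ?_, ?_, ?_, ?_⟩, h.dbig, fun j hj i hi => ?_⟩, ?_⟩
  · unfold Pool.Agent.H809.upd2
    rw [if_neg (by omega), h.big i hi]
  · rw [ev_upd2 b g s1, h.r1]
  · rw [ev_upd2 b g s2, h.r2]
  · unfold R3
    rw [ev_cons, hw, h4, show (63 : ℕ) = 2 * 31 + 1 from rfl, ltr_odd, h31]
    group
  · by_cases hi2 : 26 ≤ i ∧ i < 30
    · obtain ⟨i', rfl⟩ := Nat.exists_eq_add_of_le hi2.1
      have hi' : i' < 4 := by omega
      obtain ⟨c1, c2, -⟩ := chkRec_spec hj (show i' < 5 by omega)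
      have e1 : Nat.beq i' 4 = false := by rw [← Bool.not_eq_true, Nat.beq_eq]; omega
      rw [e1, cond_false] at c2
      have h5 := hb.rel j hj i' (by omega)
      rw [← hA, ev_A2 _ c1, c2, ev_red, ev_append, ev_append, ev_invW, hA,
        ev_upd2 b g (s3 j hj).2] at h5
      have h6 : Pool.Agent.H809.upd2 b g (26 + i') = b i' := by
        unfold Pool.Agent.H809.upd2
        rw [if_pos (by omega)]
        congr 1
        omega
      rw [h6]
      unfold d2 at h5
      calc d j * b i' * (d j)⁻¹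
          = (ev g (tabK.getD j []))⁻¹ * (ev g (tabK.getD j []) * d j * b i' *
            (ev g (tabK.getD j []) * d j)⁻¹) * ev g (tabK.getD j []) := by group
        _ = _ := by
          rw [h5]
          group
    · have hi3 : i < 26 ∨ 30 ≤ i := by omega
      rw [ev_upd2 b g ((chkSup_spec hj hi).2 hi3), ← h.rel j hj i hi]
      unfold Pool.Agent.H809.upd2
      rw [if_neg hi2]
  · rw [h.surf, h30]

end

section maps

variable {G H : Type*} [Group G] [Group H]

theorem map_aT (φ : G →* H) (a d : ℕ → G) (i : ℕ) :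
    φ (aT a d i) = aT (fun i => φ (a i)) (fun j => φ (d j)) i := by
  unfold aT
  split_ifs <;> simp

theorem map_aT' (φ : G →* H) (a d : ℕ → G) (i : ℕ) :
    φ (aT' a d i) = aT' (fun i => φ (a i)) (fun j => φ (d j)) i := by
  unfold aT'
  split_ifs <;> simp

end maps

theorem rep_T1 : RepXs (upd1 (aT (A1 gG) dG) gG) dG := gG_rep.upd1 gG_rep.prep1.T rfl

theorem rep_T1' : RepXs (upd1 (aT' (A1 gG) dG) gG) dG := gG_rep.upd1 gG_rep.prep1.T' rfl

theorem rep_T2 : RepXs (upd2 (aT (A2 gG) (d2 gG dG)) gG) dG := gG_rep.upd2 gG_rep.prep2.T rfl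

theorem rep_T2' : RepXs (upd2 (aT' (A2 gG) (d2 gG dG)) gG) dG :=
  gG_rep.upd2 gG_rep.prep2.T' rfl

/-- the exchange on the first copy -/
noncomputable def T1h : Gam →* Gam := (exists_homG rep_T1).choose

/-- the inverse exchange on the first copy -/
noncomputable def T1h' : Gam →* Gam := (exists_homG rep_T1').choose

/-- the exchange on the second copy -/
noncomputable def T2h : Gam →* Gam := (exists_homG rep_T2).choose

/-- the inverse exchange on the second copy -/
noncomputable def T2h' : Gam →* Gam := (exists_homG rep_T2').choose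

theorem T1h_gG (i : ℕ) : T1h (gG i) = upd1 (aT (A1 gG) dG) gG i :=
  (exists_homG rep_T1).choose_spec.1 i

theorem T1h_dG (j : ℕ) : T1h (dG j) = dG j := (exists_homG rep_T1).choose_spec.2 j

theorem T1h'_gG (i : ℕ) : T1h' (gG i) = upd1 (aT' (A1 gG) dG) gG i :=
  (exists_homG rep_T1').choose_spec.1 i

theorem T1h'_dG (j : ℕ) : T1h' (dG j) = dG j := (exists_homG rep_T1').choose_spec.2 j

theorem T2h_gG (i : ℕ) : T2h (gG i) = upd2 (aT (A2 gG) (d2 gG dG)) gG i :=
  (exists_homG rep_T2).choose_spec.1 i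

theorem T2h_dG (j : ℕ) : T2h (dG j) = dG j := (exists_homG rep_T2).choose_spec.2 j

theorem T2h'_gG (i : ℕ) : T2h' (gG i) = upd2 (aT' (A2 gG) (d2 gG dG)) gG i :=
  (exists_homG rep_T2').choose_spec.1 i

theorem T2h'_dG (j : ℕ) : T2h' (dG j) = dG j := (exists_homG rep_T2').choose_spec.2 j

theorem A1_of_hom {b : ℕ → Gam} {φ : Gam →* Gam} (h : ∀ i, φ (gG i) = upd1 b gG i)
    (h4 : b 4 = (gG 30)⁻¹) (hb : ∀ i, 5 ≤ i → b i = 1) (i : ℕ) : φ (A1 gG i) = b i := by
  unfold A1
  split_ifs with h1 h2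
  · rw [h]
    unfold upd1
    rw [if_pos h1]
  · rw [h2, h4, map_inv, h]
    unfold upd1
    rw [if_neg (by omega)]
  · rw [map_one, hb i (by omega)]

theorem A2_of_hom {b : ℕ → Gam} {φ : Gam →* Gam} (h : ∀ i, φ (gG i) = upd2 b gG i)
    (h4 : b 4 = gG 31) (hb : ∀ i, 5 ≤ i → b i = 1) (i : ℕ) : φ (A2 gG i) = b i := by
  unfold A2
  split_ifs with h1 h2
  · rw [h]
    unfold upd2
    rw [if_pos (by omega)]
    congr 1
    omega
  · rw [h2, h4, h]
    unfold upd2
    rw [if_neg (by omega)]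
  · rw [map_one, hb i (by omega)]

theorem d2_of_hom {b : ℕ → Gam} {φ : Gam →* Gam} (h : ∀ i, φ (gG i) = upd2 b gG i)
    (hd : ∀ j, φ (dG j) = dG j) (j : ℕ) : φ (d2 gG dG j) = d2 gG dG j := by
  unfold d2
  rw [map_mul, hd, map_ev]
  congr 1
  rcases Nat.lt_or_ge j 4 with hj | hj
  · have h1 : (fun i => φ (gG i)) = upd2 b gG := funext h
    rw [h1, ev_upd2 b gG (chkSup_R.2.2 j hj).2]
  · rw [List.getD_eq_default _ _ hj, ev_nil, ev_nil]

theorem T1_left : T1h'.comp T1h = MonoidHom.id Gam := by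
  have hA := A1_of_hom T1h'_gG rfl (fun i hi => by
    unfold aT'; rw [if_neg (by omega), if_neg (by omega)])
  apply homG_ext
  · intro i hi
    rw [MonoidHom.comp_apply, T1h_gG, MonoidHom.id_apply]
    unfold upd1
    split_ifs with h1
    · rw [map_aT]
      have e1 : (fun i => T1h' (A1 gG i)) = aT' (A1 gG) dG := funext hA
      have e2 : (fun j => T1h' (dG j)) = dG := funext T1h'_dG
      rw [e1, e2, gG_rep.prep1.TT']
      unfold A1
      rw [if_pos h1]
    · rw [T1h'_gG]
      unfold upd1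
      rw [if_neg h1]
  · intro j _
    rw [MonoidHom.comp_apply, T1h_dG, T1h'_dG, MonoidHom.id_apply]

theorem T1_right : T1h.comp T1h' = MonoidHom.id Gam := by
  have hA := A1_of_hom T1h_gG rfl (fun i hi => by
    unfold aT; rw [if_neg (by omega), if_neg (by omega)])
  apply homG_ext
  · intro i hi
    rw [MonoidHom.comp_apply, T1h'_gG, MonoidHom.id_apply]
    unfold upd1
    split_ifs with h1
    · rw [map_aT']
      have e1 : (fun i => T1h (A1 gG i)) = aT (A1 gG) dG := funext hA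
      have e2 : (fun j => T1h (dG j)) = dG := funext T1h_dG
      rw [e1, e2, gG_rep.prep1.T'T]
      unfold A1
      rw [if_pos h1]
    · rw [T1h_gG]
      unfold upd1
      rw [if_neg h1]
  · intro j _
    rw [MonoidHom.comp_apply, T1h'_dG, T1h_dG, MonoidHom.id_apply]

theorem T2_left : T2h'.comp T2h = MonoidHom.id Gam := by
  have hA := A2_of_hom T2h'_gG rfl (fun i hi => by
    unfold aT'; rw [if_neg (by omega), if_neg (by omega)])
  have hd := d2_of_hom T2h'_gG T2h'_dG
  apply homG_ext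
  · intro i hi
    rw [MonoidHom.comp_apply, T2h_gG, MonoidHom.id_apply]
    unfold upd2
    split_ifs with h1
    · rw [map_aT]
      have e1 : (fun i => T2h' (A2 gG i)) = aT' (A2 gG) (d2 gG dG) := funext hA
      have e2 : (fun j => T2h' (d2 gG dG j)) = d2 gG dG := funext hd
      rw [e1, e2, gG_rep.prep2.TT']
      unfold A2
      rw [if_pos (by omega)]
      congr 1
      omega
    · rw [T2h'_gG]
      unfold upd2
      rw [if_neg h1]
  · intro j _
    rw [MonoidHom.comp_apply, T2h_dG, T2h'_dG, MonoidHom.id_apply]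

theorem T2_right : T2h.comp T2h' = MonoidHom.id Gam := by
  have hA := A2_of_hom T2h_gG rfl (fun i hi => by
    unfold aT; rw [if_neg (by omega), if_neg (by omega)])
  have hd := d2_of_hom T2h_gG T2h_dG
  apply homG_ext
  · intro i hi
    rw [MonoidHom.comp_apply, T2h'_gG, MonoidHom.id_apply]
    unfold upd2
    split_ifs with h1
    · rw [map_aT']
      have e1 : (fun i => T2h (A2 gG i)) = aT (A2 gG) (d2 gG dG) := funext hA
      have e2 : (fun j => T2h (d2 gG dG j)) = d2 gG dG := funext hd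
      rw [e1, e2, gG_rep.prep2.T'T]
      unfold A2
      rw [if_pos (by omega)]
      congr 1
      omega
    · rw [T2h_gG]
      unfold upd2
      rw [if_neg h1]
  · intro j _
    rw [MonoidHom.comp_apply, T2h'_dG, T2h_dG, MonoidHom.id_apply]

/-- the exchange automorphism on the first copy -/
noncomputable def T1 : MulAut Gam := MonoidHom.toMulEquiv T1h T1h' T1_left T1_right

/-- the exchange automorphism on the second copy -/
noncomputable def T2 : MulAut Gam := MonoidHom.toMulEquiv T2h T2h' T2_left T2_right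

theorem T1_inv_apply (x : Gam) : T1⁻¹ x = T1h' x := rfl

theorem T2_inv_apply (x : Gam) : T2⁻¹ x = T2h' x := rfl

/-- the projection to the base -/
noncomputable def pr : Gam →* Q := SemidirectProduct.rightHom

theorem pr_gG (i : ℕ) : pr (gG i) = 1 := SemidirectProduct.rightHom_inl _

theorem pr_dG (j : ℕ) : pr (dG j) = qS j := by
  unfold dG qG
  rw [map_mul, map_inv, ev_A1_gG]
  unfold pr
  rw [SemidirectProduct.rightHom_inl, SemidirectProduct.rightHom_inr]
  group

theorem qS_zero_ne : qS 0 ≠ 1 := by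
  have h : ev (fun n => if n = 0 then (-1 : ℤˣ) else 1) wMu = 1 := by decide
  obtain ⟨φ, hφ⟩ := exists_homQ (q := fun n => if n = 0 then (-1 : ℤˣ) else 1)
    (fun j hj => by rw [if_neg (by omega)]) h
  intro h0
  have h1 := hφ 0
  rw [h0, map_one] at h1
  exact absurd h1 (by decide)

theorem a1_T1' : T1h' (gG 0) = dG 0 * (gG 0)⁻¹ * (gG 30)⁻¹ := by
  rw [T1h'_gG]
  rfl

theorem a2_T1' : T1h' (gG 26) = gG 26 := by
  rw [T1h'_gG]
  rfl

theorem a1_T2' : T2h' (gG 0) = gG 0 := by
  rw [T2h'_gG]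
  rfl

theorem a2_T2' : T2h' (gG 26) = d2 gG dG 0 * (gG 26)⁻¹ * gG 31 := by
  rw [T2h'_gG]
  rfl

theorem pr_a1_T1' : pr (T1h' (gG 0)) ≠ 1 := by
  rw [a1_T1', map_mul, map_mul, map_inv, map_inv, pr_gG, pr_gG, pr_dG]
  simpa using qS_zero_ne

theorem pr_d2 : pr (d2 gG dG 0) = qS 0 := by
  unfold d2
  rw [map_mul, pr_dG, map_ev]
  have : ev (fun i => pr (gG i)) (tabK.getD 0 []) = 1 := by
    have h1 : (fun i => pr (gG i)) = fun _ => (1 : Q) := funext pr_gG
    rw [h1]
    generalize tabK.getD 0 [] = w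
    induction w with
    | nil => rfl
    | cons x w ih =>
      rw [ev_cons, ih]
      simp [ltr]
  rw [this, one_mul]

theorem pr_a2_T2' : pr (T2h' (gG 26)) ≠ 1 := by
  rw [a2_T2', map_mul, map_mul, map_inv, pr_gG, pr_gG, pr_d2]
  simpa using qS_zero_ne

/-- the four automorphisms -/
noncomputable def TT (t : Fin 4) : MulAut Gam :=
  if t = 0 then 1 else if t = 1 then T1 else if t = 2 then T2 else T1 * T2

theorem mem_map_TT (T : MulAut Gam) (x : Gam) :
    x ∈ (SemidirectProduct.inl : K →* Gam).range.map T.toMonoidHom ↔ pr (T⁻¹ x) = 1 := by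
  have h : (SemidirectProduct.inl : K →* Gam).range = pr.ker :=
    SemidirectProduct.range_inl_eq_ker_rightHom
  rw [h]
  constructor
  · rintro ⟨y, hy, rfl⟩
    change pr (T⁻¹ (T y)) = 1
    rw [MulAut.inv_apply_self]
    exact hy
  · intro hx
    exact ⟨T⁻¹ x, hx, MulAut.apply_inv_self _ T x⟩

theorem TT_injective :
    Function.Injective fun t : Fin 4 =>
      (SemidirectProduct.inl : K →* Gam).range.map (TT t).toMonoidHom := by
  have h00 : pr ((TT 0)⁻¹ (gG 0)) = 1 := by
    have : TT 0 = 1 := rfl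
    rw [this, inv_one]
    exact pr_gG 0
  have h01 : pr ((TT 0)⁻¹ (gG 26)) = 1 := by
    have : TT 0 = 1 := rfl
    rw [this, inv_one]
    exact pr_gG 26
  have h10 : pr ((TT 1)⁻¹ (gG 0)) ≠ 1 := pr_a1_T1'
  have h11 : pr ((TT 1)⁻¹ (gG 26)) = 1 := by
    have : TT 1 = T1 := rfl
    rw [this, T1_inv_apply, a2_T1']
    exact pr_gG 26
  have h20 : pr ((TT 2)⁻¹ (gG 0)) = 1 := by
    have : TT 2 = T2 := rfl
    rw [this, T2_inv_apply, a1_T2']
    exact pr_gG 0
  have h21 : pr ((TT 2)⁻¹ (gG 26)) ≠ 1 := pr_a2_T2'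
  have h30 : pr ((TT 3)⁻¹ (gG 0)) ≠ 1 := by
    have : TT 3 = T1 * T2 := rfl
    have e : T2h' (T1h' (gG 0)) = T1h' (gG 0) := by
      rw [a1_T1', map_mul, map_mul, map_inv, map_inv, T2h'_dG, a1_T2', T2h'_gG]
      rfl
    rw [this, mul_inv_rev, MulAut.mul_apply, T1_inv_apply, T2_inv_apply, e]
    exact pr_a1_T1'
  have h31 : pr ((TT 3)⁻¹ (gG 26)) ≠ 1 := by
    have : TT 3 = T1 * T2 := rfl
    rw [this, mul_inv_rev, MulAut.mul_apply, T1_inv_apply, T2_inv_apply, a2_T1']
    exact pr_a2_T2'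
  intro s t hst
  have k0 : pr ((TT s)⁻¹ (gG 0)) = 1 ↔ pr ((TT t)⁻¹ (gG 0)) = 1 := by
    rw [← mem_map_TT, ← mem_map_TT]
    exact iff_of_eq (congrArg (gG 0 ∈ ·) hst)
  have k1 : pr ((TT s)⁻¹ (gG 26)) = 1 ↔ pr ((TT t)⁻¹ (gG 26)) = 1 := by
    rw [← mem_map_TT, ← mem_map_TT]
    exact iff_of_eq (congrArg (gG 26 ∈ ·) hst)
  fin_cases s <;> fin_cases t <;> simp_all

theorem isFibre_TT (t : Fin 4) :
    IsFibreSubgroup 15 2 ((SemidirectProduct.inl : K →* Gam).range.map (TT t).toMonoidHom) := by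
  constructor
  · have e1 : K ≃* (SemidirectProduct.inl : K →* Gam).range :=
      MonoidHom.ofInjective SemidirectProduct.inl_injective
    have e2 : (SemidirectProduct.inl : K →* Gam).range ≃*
        (SemidirectProduct.inl : K →* Gam).range.map (TT t).toMonoidHom :=
      Subgroup.equivMapOfInjective _ _ (TT t).injective
    exact ⟨(e1.trans e2).symm⟩
  · refine ⟨pr.comp ((TT t)⁻¹ : MulAut Gam).toMonoidHom, ?_, ?_⟩
    · exact (SemidirectProduct.rightHom_surjective).comp ((TT t)⁻¹ : MulAut Gam).surjective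
    · ext x
      rw [mem_map_TT]
      rfl

end Pool.Agent.H809
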