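import Pool.Agent.H809.BundleDefs
import Pool.Agent.H809.Swap
import Pool.Agent.H809.Sign

/-!
Transfer to the generic definitions.
-/

namespace Pool.Agent.H809

theorem genMap_eq (g : ℕ) : Bundle.genMap (xgen (g := g)) (ygen (g := g)) =
    PresentedGroup.mk ({surfaceRelator g} : Set (FreeGroup (Fin g × Bool))) := by
  apply FreeGroup.ext_hom
  rintro ⟨i, b⟩
  unfold Bundle.genMap
  rw [FreeGroup.lift_apply_of]
  cases b <;> rfl

theorem isSurfaceGroup_std (g : ℕ) : Bundle.IsSurfaceGroup (xgen (g := g)) (ygen (g := g)) := by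
  constructor
  · rw [genMap_eq]
    exact PresentedGroup.mk_surjective _
  · rw [genMap_eq]
    exact QuotientGroup.ker_mk' _

theorem IsSurfaceGroup_map {G H : Type} [Group G] [Group H] {g : ℕ} {x y : Fin g → G}
    (h : Bundle.IsSurfaceGroup x y) (e : G ≃* H) :
    Bundle.IsSurfaceGroup (fun i => e (x i)) (fun i => e (y i)) := by
  have h1 : Bundle.genMap (fun i => e (x i)) (fun i => e (y i)) =
      e.toMonoidHom.comp (Bundle.genMap x y) := by
    apply FreeGroup.ext_hom
    rintro ⟨i, b⟩
    unfold Bundle.genMap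
    rw [MonoidHom.comp_apply, FreeGroup.lift_apply_of, FreeGroup.lift_apply_of]
    cases b <;> rfl
  constructor
  · rw [h1]
    exact e.surjective.comp h.1
  · rw [h1, ← h.2]
    ext w
    simp [MonoidHom.mem_ker]

theorem IsFibreSubgroup.transfer {Γ : Type} [Group Γ] {g h : ℕ} {N : Subgroup Γ}
    (hN : IsFibreSubgroup g h N) : Bundle.IsFibreSubgroup g h N := by
  obtain ⟨⟨e⟩, p, hp, hk⟩ := hN
  exact ⟨⟨_, _, IsSurfaceGroup_map (isSurfaceGroup_std g) e.symm⟩,
    SurfaceGroup h, inferInstance, xgen, ygen, p, isSurfaceGroup_std h, hp, hk⟩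

theorem HasInertia.transfer {M : Type} [AddCommGroup M] [Module ℝ M] {B : M → M → ℝ}
    {Z : Submodule ℝ M} {p q : ℕ} (h : HasInertia B Z p q) :
    Bundle.HasInertia B (Z : Set M) p q := by
  obtain ⟨ι, hι, b, h1, h2, h3⟩ := h
  refine ⟨ι, hι, fun i => (b i : M), ?_, ?_, h1, h2, h3⟩
  · exact b.linearIndependent.map' Z.subtype (Submodule.ker_subtype Z)
  · have h4 : Set.range (fun i => (b i : M)) = Z.subtype '' Set.range b := by
      rw [← Set.range_comp]
      rfl
    rw [h4, Submodule.span_image, b.span_eq, Submodule.map_top, Submodule.range_subtype]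

/-- the bundle -/
theorem isBundle_rho : Bundle.IsBundle 4 40 44 (xgen (g := 15)) ygen (xgen (g := 2)) ygen rho := by
  refine ⟨isSurfaceGroup_std 15, isSurfaceGroup_std 2, sH_cup, ?_, TT, TT_injective,
    fun t => (isFibre_TT t).transfer⟩
  exact main_inertia.transfer

end Pool.Agent.H809
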