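import Mathlib

/-!
Words in a list of generators, coded by natural numbers: the letter `2 * i` is the `i`-th
generator and the letter `2 * i + 1` its inverse.
-/

namespace Pool.Agent.H809

/-- value of a letter -/
def ltr {G : Type*} [Group G] (g : ℕ → G) (n : ℕ) : G :=
  if n % 2 = 0 then g (n / 2) else (g (n / 2))⁻¹

/-- value of a word -/
def ev {G : Type*} [Group G] (g : ℕ → G) (w : List ℕ) : G := (w.map (ltr g)).prod

/-- inverse letter -/
def flp (n : ℕ) : ℕ := n ^^^ 1

/-- put a letter in front of a reduced word -/
def push (x : ℕ) (l : List ℕ) : List ℕ :=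
  match l with
  | [] => [x]
  | y :: t => bif Nat.beq y (flp x) then t else x :: y :: t

/-- put a word in front of a reduced word -/
def pushW (u acc : List ℕ) : List ℕ := u.foldr push acc

/-- put the inverse of a word in front of a reduced word -/
def pushI (u acc : List ℕ) : List ℕ := u.foldl (fun a y => push (flp y) a) acc

/-- free reduction -/
def red (u : List ℕ) : List ℕ := pushW u []

/-- inverse word -/
def invW (u : List ℕ) : List ℕ := u.foldl (fun a y => flp y :: a) []

/-- table lookup; a letter outside of the table is fixed -/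
def look (t : List (List (List ℕ))) (i : ℕ) : List ℕ :=
  (t.getD (i / 8) []).getD (i % 8) [2 * i]

/-- substitution followed by free reduction -/
def sub (t : List (List (List ℕ))) (w : List ℕ) : List ℕ :=
  w.foldr (fun x acc =>
    bif Nat.beq (x % 2) 0 then pushW (look t (x / 2)) acc else pushI (look t (x / 2)) acc) []

/-- equality test -/
def eqW : List ℕ → List ℕ → Bool
  | [], [] => true
  | [], _ :: _ => false
  | _ :: _, [] => false
  | x :: l, y :: m => bif Nat.beq x y then eqW l m else false

theorem eqW_eq : ∀ {a b : List ℕ}, eqW a b = true → a = b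
  | [], [], _ => rfl
  | [], _ :: _, h => by simp [eqW] at h
  | _ :: _, [], h => by simp [eqW] at h
  | x :: l, y :: m, h => by
      unfold eqW at h
      cases hxy : Nat.beq x y with
      | true =>
        rw [hxy] at h
        have h1 : x = y := Nat.eq_of_beq_eq_true hxy
        have h2 : l = m := eqW_eq h
        rw [h1, h2]
      | false => rw [hxy] at h; exact absurd h (by simp)

section ev

variable {G : Type*} [Group G] (g : ℕ → G)

@[simp] theorem ev_nil : ev g [] = 1 := rfl

theorem ev_cons (x : ℕ) (l : List ℕ) : ev g (x :: l) = ltr g x * ev g l := by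
  simp [ev]

theorem ev_append (u v : List ℕ) : ev g (u ++ v) = ev g u * ev g v := by
  simp [ev]

theorem flp_div (n : ℕ) : flp n / 2 = n / 2 := by
  unfold flp
  rw [Nat.xor_div_two]
  simp

theorem flp_mod (n : ℕ) : flp n % 2 = 0 ↔ ¬ n % 2 = 0 := by
  unfold flp
  rw [Nat.xor_mod_two_eq]
  omega

theorem flp_flp (n : ℕ) : flp (flp n) = n := by
  unfold flp
  rw [Nat.xor_assoc]
  simp

theorem ltr_flp (n : ℕ) : ltr g (flp n) = (ltr g n)⁻¹ := by
  unfold ltr
  rw [flp_div]
  by_cases h : n % 2 = 0
  · have h2 : ¬ (flp n % 2 = 0) := fun h3 => (flp_mod n).1 h3 h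
    rw [if_neg h2, if_pos h]
  · have h2 : flp n % 2 = 0 := (flp_mod n).2 h
    rw [if_pos h2, if_neg h, inv_inv]

theorem ev_push (x : ℕ) (l : List ℕ) : ev g (push x l) = ltr g x * ev g l := by
  cases l with
  | nil => simp [push, ev]
  | cons y t =>
    unfold push
    cases h : Nat.beq y (flp x) with
    | true =>
      have h1 : y = flp x := Nat.eq_of_beq_eq_true h
      change ev g (bif Nat.beq y (flp x) then t else x :: y :: t) = ltr g x * ev g (y :: t)
      rw [h, cond_true, ev_cons, h1, ltr_flp]
      group
    | false =>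
      change ev g (bif Nat.beq y (flp x) then t else x :: y :: t) = ltr g x * ev g (y :: t)
      rw [h, cond_false, ev_cons]

theorem ev_pushW (u acc : List ℕ) : ev g (pushW u acc) = ev g u * ev g acc := by
  unfold pushW
  induction u with
  | nil => simp
  | cons x u ih => rw [List.foldr_cons, ev_push, ih, ev_cons, mul_assoc]

theorem ev_pushI (u acc : List ℕ) : ev g (pushI u acc) = (ev g u)⁻¹ * ev g acc := by
  unfold pushI
  induction u generalizing acc with
  | nil => simp
  | cons x u ih => rw [List.foldl_cons, ih, ev_push, ltr_flp, ev_cons, mul_inv_rev, mul_assoc]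

theorem ev_red (u : List ℕ) : ev g (red u) = ev g u := by
  unfold red; rw [ev_pushW]; simp

theorem ev_invW_aux (u acc : List ℕ) :
    ev g (u.foldl (fun a y => flp y :: a) acc) = (ev g u)⁻¹ * ev g acc := by
  induction u generalizing acc with
  | nil => simp
  | cons x u ih => rw [List.foldl_cons, ih, ev_cons, ltr_flp, ev_cons, mul_inv_rev, mul_assoc]

theorem ev_invW (u : List ℕ) : ev g (invW u) = (ev g u)⁻¹ := by
  unfold invW; rw [ev_invW_aux]; simp

theorem ev_sub (t : List (List (List ℕ))) (w : List ℕ) :
    ev g (sub t w) = ev (fun i => ev g (look t i)) w := by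
  unfold sub
  induction w with
  | nil => simp
  | cons x w ih =>
    rw [List.foldr_cons, ev_cons, ← ih]
    unfold ltr
    by_cases h : x % 2 = 0
    · have h1 : Nat.beq (x % 2) 0 = true := by rw [h]; rfl
      rw [h1, cond_true, ev_pushW, if_pos h]
    · have h1 : Nat.beq (x % 2) 0 = false := by
        have : x % 2 = 1 := by omega
        rw [this]; rfl
      rw [h1, cond_false, ev_pushI, if_neg h]

theorem ev_congr {g g' : ℕ → G} (w : List ℕ) (h : ∀ x ∈ w, g (x / 2) = g' (x / 2)) :
    ev g w = ev g' w := by
  unfold ev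
  congr 1
  apply List.map_congr_left
  intro x hx
  unfold ltr
  rw [h x hx]

theorem map_ltr {H : Type*} [Group H] (φ : G →* H) (x : ℕ) :
    φ (ltr g x) = ltr (fun i => φ (g i)) x := by
  unfold ltr
  split_ifs <;> simp

theorem map_ev {H : Type*} [Group H] (φ : G →* H) (w : List ℕ) :
    φ (ev g w) = ev (fun i => φ (g i)) w := by
  induction w with
  | nil => simp
  | cons x w ih => rw [ev_cons, ev_cons, map_mul, ih, map_ltr]

/-- two words with the same free reduction have the same value -/
theorem ev_eq_of_red {u v : List ℕ} (h : eqW (red u) (red v) = true) : ev g u = ev g v := by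
  rw [← ev_red g u, ← ev_red g v, eqW_eq h]

theorem ltr_even (i : ℕ) : ltr g (2 * i) = g i := by
  unfold ltr
  have h1 : 2 * i % 2 = 0 := by omega
  have h2 : 2 * i / 2 = i := by omega
  rw [if_pos h1, h2]

theorem ltr_odd (i : ℕ) : ltr g (2 * i + 1) = (g i)⁻¹ := by
  unfold ltr
  have h1 : ¬ (2 * i + 1) % 2 = 0 := by omega
  have h2 : (2 * i + 1) / 2 = i := by omega
  rw [if_neg h1, h2]

theorem ev_single (i : ℕ) : ev g [2 * i] = g i := by
  rw [ev_cons, ev_nil, mul_one, ltr_even]

theorem look_ge_short {t : List (List (List ℕ))} {n i : ℕ} (h1 : t.length ≤ 1)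
    (h2 : (t.getD 0 []).length ≤ n) (hi : n ≤ i) : look t i = [2 * i] := by
  unfold look
  rcases Nat.eq_zero_or_pos (i / 8) with h | h
  · rw [h]
    have h3 : i % 8 = i := by omega
    rw [h3, List.getD_eq_default _ _ (le_trans h2 hi)]
  · rw [List.getD_eq_default t [] (le_trans h1 h)]
    rfl

theorem look_ge {t : List (List (List ℕ))} {n i : ℕ} (h1 : t.length ≤ n) (hi : 8 * n ≤ i) :
    look t i = [2 * i] := by
  unfold look
  have h : n ≤ i / 8 := by omega
  rw [List.getD_eq_default t [] (le_trans h1 h)]
  rfl

/-- conjugation acting on words through a table -/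
theorem conj_sub {g : ℕ → G} {t : List (List (List ℕ))} {δ : G}
    (h : ∀ i, δ * g i * δ⁻¹ = ev g (look t i)) (w : List ℕ) :
    δ * ev g w * δ⁻¹ = ev g (sub t w) := by
  have h1 := map_ev g (MulAut.conj δ).toMonoidHom w
  simp only [MulEquiv.toMonoidHom_eq_coe, MonoidHom.coe_coe, MulAut.conj_apply] at h1
  rw [h1, ev_sub]
  congr 1
  funext i
  exact h i

end ev

/-- iterated substitution -/
def act (T : ℕ → List (List (List ℕ))) (w f : List ℕ) : List ℕ :=
  w.foldr (fun l f => sub (T l) f) f

/-- product in the semidirect product of a free group by a free group -/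
def mulP (T : ℕ → List (List (List ℕ))) (p q : List ℕ × List ℕ) : List ℕ × List ℕ :=
  (pushW p.1 (act T p.2 q.1), pushW p.2 q.2)

/-- inverse in the semidirect product of a free group by a free group -/
def invP (T : ℕ → List (List (List ℕ))) (p : List ℕ × List ℕ) : List ℕ × List ℕ :=
  (act T (invW p.2) (invW p.1), invW p.2)

/-- value of a pair of words -/
def evP {G : Type*} [Group G] (g d : ℕ → G) (p : List ℕ × List ℕ) : G := ev g p.1 * ev d p.2

/-- the action of the letters `d` on the letters `g` is given by the tables `T` -/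
def Acts {G : Type*} [Group G] (T : ℕ → List (List (List ℕ))) (g d : ℕ → G) : Prop :=
  ∀ l i, ltr d l * g i * (ltr d l)⁻¹ = ev g (look (T l) i)

section act

variable {G : Type*} [Group G] {T : ℕ → List (List (List ℕ))} {g d : ℕ → G}

theorem ev_act (H : Acts T g d) (w f : List ℕ) :
    ev g (act T w f) = ev d w * ev g f * (ev d w)⁻¹ := by
  unfold act
  induction w with
  | nil => simp
  | cons l w ih =>
    rw [List.foldr_cons, ← conj_sub (H l), ih, ev_cons]
    group

theorem evP_mulP (H : Acts T g d) (p q : List ℕ × List ℕ) :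
    evP g d (mulP T p q) = evP g d p * evP g d q := by
  unfold evP mulP
  simp only
  rw [ev_pushW, ev_pushW, ev_act H]
  group

theorem evP_invP (H : Acts T g d) (p : List ℕ × List ℕ) :
    evP g d (invP T p) = (evP g d p)⁻¹ := by
  unfold evP invP
  simp only
  rw [ev_act H, ev_invW, ev_invW]
  group

/-- value of a word whose letters are given by pairs of words -/
def subP (T : ℕ → List (List (List ℕ))) (t : ℕ → List ℕ × List ℕ) (w : List ℕ) :
    List ℕ × List ℕ :=
  w.foldr (fun x acc =>
    mulP T (bif Nat.beq (x % 2) 0 then t (x / 2) else invP T (t (x / 2))) acc) ([], [])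

theorem evP_subP (H : Acts T g d) (t : ℕ → List ℕ × List ℕ) (w : List ℕ) :
    evP g d (subP T t w) = ev (fun i => evP g d (t i)) w := by
  unfold subP
  induction w with
  | nil => simp [evP]
  | cons x w ih =>
    rw [List.foldr_cons, evP_mulP H, ih, ev_cons]
    congr 1
    unfold ltr
    by_cases h : x % 2 = 0
    · have h1 : Nat.beq (x % 2) 0 = true := by rw [h]; rfl
      rw [h1, cond_true, if_pos h]
    · have h1 : Nat.beq (x % 2) 0 = false := by
        have : x % 2 = 1 := by omega
        rw [this]; rfl
      rw [h1, cond_false, if_neg h, evP_invP H]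

/-- equality test for pairs of words -/
def eqP (p q : List ℕ × List ℕ) : Bool := eqW p.1 q.1 && eqW p.2 q.2

theorem eqP_eq {p q : List ℕ × List ℕ} (h : eqP p q = true) : p = q := by
  unfold eqP at h
  rw [Bool.and_eq_true] at h
  exact Prod.ext (eqW_eq h.1) (eqW_eq h.2)

end act

end Pool.Agent.H809
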